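import Mathlib

/-!
# The Brunn-Minkowski inequality for compact sets

`Pool.Agent.BM.bm_mul`: multiplicative form, `Pool.Agent.BM.bm_add`: additive form.
-/

set_option autoImplicit false

open MeasureTheory Set
open scoped Pointwise ENNReal

namespace Pool.Agent.BM

/-! ### Dimension one -/

theorem volume_add_le {A B : Set ℝ} (hA : IsCompact A) (hB : IsCompact B)
    (hA' : A.Nonempty) (hB' : B.Nonempty) : volume A + volume B ≤ volume (A + B) := by
  set a := sSup A with ha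
  set b := sInf B with hb
  have haA : a ∈ A := hA.sSup_mem hA'
  have hbB : b ∈ B := hB.sInf_mem hB'
  have h1 : (fun x => x + b) '' A ⊆ A + B := by
    rintro _ ⟨x, hx, rfl⟩
    exact Set.add_mem_add hx hbB
  have h2 : (fun x => a + x) '' B ⊆ A + B := by
    rintro _ ⟨x, hx, rfl⟩
    exact Set.add_mem_add haA hx
  have h3 : volume ((fun x => x + b) '' A) = volume A := by
    rw [Set.image_add_right, measure_preimage_add_right]
  have h4 : volume ((fun x => a + x) '' B) = volume B := by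
    rw [Set.image_add_left, measure_preimage_add]
  have h5 : (fun x => x + b) '' A ∩ (fun x => a + x) '' B ⊆ {a + b} := by
    rintro _ ⟨⟨x, hx, rfl⟩, y, hy, hxy⟩
    have hxa : x ≤ a := le_csSup hA.bddAbove hx
    have hby : b ≤ y := csInf_le hB.bddBelow hy
    simp only at hxy
    rw [Set.mem_singleton_iff]
    linarith
  have h6 : volume ((fun x => x + b) '' A ∩ (fun x => a + x) '' B) = 0 :=
    measure_mono_null h5 (by simp)
  have h7 : MeasurableSet ((fun x => a + x) '' B) :=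
    (hB.image (by fun_prop)).measurableSet
  have h8 := measure_union_add_inter (μ := volume) ((fun x => x + b) '' A) h7
  rw [h6, add_zero, h3, h4] at h8
  rw [← h8]
  exact measure_mono (Set.union_subset h1 h2)

theorem volume_comb_le {A B : Set ℝ} (hA : IsCompact A) (hB : IsCompact B)
    (hA' : A.Nonempty) (hB' : B.Nonempty) {t : ℝ} (ht0 : 0 < t) (ht1 : t < 1) :
    ENNReal.ofReal (1 - t) * volume A + ENNReal.ofReal t * volume B ≤
      volume ((1 - t) • A + t • B) := by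
  have h := volume_add_le (hA.smul (1 - t)) (hB.smul t) (hA'.smul_set) (hB'.smul_set)
  rw [Measure.addHaar_smul, Measure.addHaar_smul] at h
  simpa [abs_of_pos ht0, abs_of_pos (sub_pos.2 ht1)] using h

/-- The measure of a measurable set is the supremum over the nonempty compact subsets. -/
theorem volume_eq_iSup {A : Set ℝ} (hA : MeasurableSet A) (hA' : A.Nonempty) :
    volume A = ⨆ K : {K : Set ℝ // K ⊆ A ∧ IsCompact K ∧ K.Nonempty}, volume K.1 := by
  apply le_antisymm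
  · rw [hA.measure_eq_iSup_isCompact]
    refine iSup_le fun K => iSup_le fun hK => iSup_le fun hK' => ?_
    obtain ⟨x, hx⟩ := hA'
    refine le_trans (measure_mono (Set.subset_insert x K)) ?_
    exact le_iSup (fun K : {K : Set ℝ // K ⊆ A ∧ IsCompact K ∧ K.Nonempty} => volume K.1)
      ⟨insert x K, Set.insert_subset hx hK, hK'.insert x, Set.insert_nonempty _ _⟩
  · exact iSup_le fun K => measure_mono K.2.1

/-- The one-dimensional inequality of Prekopa and Leindler, for functions with supremum one. -/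
theorem pl_one {t : ℝ} (ht0 : 0 < t) (ht1 : t < 1) {a b c : ℝ → ℝ} (ha : Measurable a)
    (hb : Measurable b) (hc : Measurable c) (ha0 : ∀ x, 0 ≤ a x) (hb0 : ∀ x, 0 ≤ b x)
    (hc0 : ∀ x, 0 ≤ c x) (ha1 : ∀ x, a x ≤ 1) (hb1 : ∀ x, b x ≤ 1)
    (hsa : ∀ s < 1, ∃ x, s < a x) (hsb : ∀ s < 1, ∃ x, s < b x)
    (h : ∀ x y, a x ^ (1 - t) * b y ^ t ≤ c ((1 - t) * x + t * y)) :
    ENNReal.ofReal (1 - t) * (∫⁻ x, ENNReal.ofReal (a x)) +
      ENNReal.ofReal t * (∫⁻ x, ENNReal.ofReal (b x)) ≤ ∫⁻ x, ENNReal.ofReal (c x) := by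
  rw [lintegral_eq_lintegral_meas_lt volume (Filter.Eventually.of_forall ha0) ha.aemeasurable,
    lintegral_eq_lintegral_meas_lt volume (Filter.Eventually.of_forall hb0) hb.aemeasurable,
    lintegral_eq_lintegral_meas_le volume (Filter.Eventually.of_forall hc0) hc.aemeasurable]
  rw [← lintegral_const_mul' _ _ ENNReal.ofReal_ne_top,
    ← lintegral_const_mul' _ _ ENNReal.ofReal_ne_top]
  have hma : Measurable fun s : ℝ => volume {x | s < a x} := by
    apply Antitone.measurable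
    intro s s' hs
    exact measure_mono fun x hx => lt_of_le_of_lt hs hx
  rw [← lintegral_add_left (hma.const_mul _)]
  refine setLIntegral_mono' measurableSet_Ioi fun s hs => ?_
  rw [Set.mem_Ioi] at hs
  by_cases hs1 : s < 1
  · have hA : MeasurableSet {x | s < a x} := measurableSet_lt measurable_const ha
    have hB : MeasurableSet {x | s < b x} := measurableSet_lt measurable_const hb
    rw [volume_eq_iSup hA (hsa s hs1), volume_eq_iSup hB (hsb s hs1), ENNReal.mul_iSup,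
      ENNReal.mul_iSup]
    have : Nonempty {K : Set ℝ // K ⊆ {x | s < a x} ∧ IsCompact K ∧ K.Nonempty} := by
      obtain ⟨x, hx⟩ := hsa s hs1
      exact ⟨{x}, by simpa using hx, isCompact_singleton, Set.singleton_nonempty x⟩
    have : Nonempty {K : Set ℝ // K ⊆ {x | s < b x} ∧ IsCompact K ∧ K.Nonempty} := by
      obtain ⟨x, hx⟩ := hsb s hs1
      exact ⟨{x}, by simpa using hx, isCompact_singleton, Set.singleton_nonempty x⟩
    refine ENNReal.iSup_add_iSup_le fun K L => ?_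
    refine (volume_comb_le K.2.2.1 L.2.2.1 K.2.2.2 L.2.2.2 ht0 ht1).trans (measure_mono ?_)
    rintro _ ⟨_, ⟨x, hx, rfl⟩, _, ⟨y, hy, rfl⟩, rfl⟩
    have hxa : s < a x := K.2.1 hx
    have hyb : s < b y := L.2.1 hy
    have h1 : s ^ (1 - t) ≤ a x ^ (1 - t) := Real.rpow_le_rpow hs.le hxa.le (by linarith)
    have h2 : s ^ t ≤ b y ^ t := Real.rpow_le_rpow hs.le hyb.le ht0.le
    have h3 : s ^ (1 - t) * s ^ t = s := by
      rw [← Real.rpow_add hs]
      simp
    change s ≤ c ((1 - t) * x + t * y)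
    calc s = s ^ (1 - t) * s ^ t := h3.symm
      _ ≤ a x ^ (1 - t) * b y ^ t := mul_le_mul h1 h2 (Real.rpow_nonneg hs.le _)
          (Real.rpow_nonneg (ha0 x) _)
      _ ≤ _ := h x y
  · have h1 : {x | s < a x} = ∅ := by
      ext x
      simp only [Set.mem_ofPred_eq, Set.mem_empty_iff_false, iff_false, not_lt]
      exact (ha1 x).trans (not_lt.1 hs1)
    have h2 : {x | s < b x} = ∅ := by
      ext x
      simp only [Set.mem_ofPred_eq, Set.mem_empty_iff_false, iff_false, not_lt]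
      exact (hb1 x).trans (not_lt.1 hs1)
    rw [h1, h2]
    simp

theorem lintegral_ofReal_div {f : ℝ → ℝ} (hf : Measurable f) {α : ℝ} (hα : 0 < α) :
    (∫⁻ x, ENNReal.ofReal (f x / α)) = (∫⁻ x, ENNReal.ofReal (f x)) * ENNReal.ofReal α⁻¹ := by
  rw [← lintegral_mul_const _ (by fun_prop)]
  refine lintegral_congr fun x => ?_
  rw [← ENNReal.ofReal_mul' (inv_nonneg.2 hα.le), div_eq_mul_inv]

/-- The one-dimensional inequality of Prekopa and Leindler, for bounded functions. -/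
theorem pl_gen {t : ℝ} (ht0 : 0 < t) (ht1 : t < 1) {a b c : ℝ → ℝ} (ha : Measurable a)
    (hb : Measurable b) (hc : Measurable c) (ha0 : ∀ x, 0 ≤ a x) (hb0 : ∀ x, 0 ≤ b x)
    (hc0 : ∀ x, 0 ≤ c x) {M : ℝ} (haM : ∀ x, a x ≤ M) (hbM : ∀ x, b x ≤ M)
    (hA : (∫⁻ x, ENNReal.ofReal (a x)) ≠ ⊤) (hB : (∫⁻ x, ENNReal.ofReal (b x)) ≠ ⊤)
    (h : ∀ x y, a x ^ (1 - t) * b y ^ t ≤ c ((1 - t) * x + t * y)) :
    (∫⁻ x, ENNReal.ofReal (a x)) ^ (1 - t) * (∫⁻ x, ENNReal.ofReal (b x)) ^ t ≤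
      ∫⁻ x, ENNReal.ofReal (c x) := by
  have ht1' : 0 < 1 - t := by linarith
  by_cases hA0 : (∫⁻ x, ENNReal.ofReal (a x)) = 0
  · rw [hA0, ENNReal.zero_rpow_of_pos ht1', zero_mul]
    exact zero_le
  by_cases hB0 : (∫⁻ x, ENNReal.ofReal (b x)) = 0
  · rw [hB0, ENNReal.zero_rpow_of_pos ht0, mul_zero]
    exact zero_le
  have sup : ∀ f : ℝ → ℝ, (∀ x, 0 ≤ f x) → (∀ x, f x ≤ M) →
      (∫⁻ x, ENNReal.ofReal (f x)) ≠ 0 → ∃ α, 0 < α ∧ (∀ x, f x ≤ α) ∧
        ∀ s < 1, ∃ x, s < f x / α := by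
    intro f hf0 hfM hf
    have hbdd : BddAbove (Set.range f) := ⟨M, by rintro _ ⟨x, rfl⟩; exact hfM x⟩
    have hle : ∀ x, f x ≤ ⨆ x, f x := fun x => le_ciSup hbdd x
    have hpos : 0 < ⨆ x, f x := by
      by_contra hcon
      apply hf
      have : ∀ x, f x = 0 := fun x => le_antisymm ((hle x).trans (not_lt.1 hcon)) (hf0 x)
      simp [this]
    refine ⟨⨆ x, f x, hpos, hle, fun s hs => ?_⟩
    have h1 : s * (⨆ x, f x) < ⨆ x, f x := by
      calc s * (⨆ x, f x) < 1 * (⨆ x, f x) := mul_lt_mul_of_pos_right hs hpos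
        _ = _ := one_mul _
    obtain ⟨x, hx⟩ := exists_lt_of_lt_ciSup h1
    exact ⟨x, (lt_div_iff₀ hpos).2 hx⟩
  obtain ⟨α, hα, haα, hsa⟩ := sup a ha0 haM hA0
  obtain ⟨β, hβ, hbβ, hsb⟩ := sup b hb0 hbM hB0
  have hγ : 0 < α ^ (1 - t) * β ^ t := mul_pos (Real.rpow_pos_of_pos hα _)
    (Real.rpow_pos_of_pos hβ _)
  set γ := α ^ (1 - t) * β ^ t with hγdef
  have key := pl_one ht0 ht1 (ha.div_const α) (hb.div_const β) (hc.div_const γ)
    (fun x => div_nonneg (ha0 x) hα.le) (fun x => div_nonneg (hb0 x) hβ.le)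
    (fun x => div_nonneg (hc0 x) hγ.le) (fun x => (div_le_one hα).2 (haα x))
    (fun x => (div_le_one hβ).2 (hbβ x)) hsa hsb (by
      intro x y
      rw [Real.div_rpow (ha0 x) hα.le, Real.div_rpow (hb0 y) hβ.le, div_mul_div_comm]
      exact div_le_div_of_nonneg_right (h x y) hγ.le)
  rw [lintegral_ofReal_div ha hα, lintegral_ofReal_div hb hβ, lintegral_ofReal_div hc hγ] at key
  set A := ∫⁻ x, ENNReal.ofReal (a x)
  set B := ∫⁻ x, ENNReal.ofReal (b x)
  set C := ∫⁻ x, ENNReal.ofReal (c x)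
  have hx : A = ENNReal.ofReal A.toReal := (ENNReal.ofReal_toReal hA).symm
  have hy : B = ENNReal.ofReal B.toReal := (ENNReal.ofReal_toReal hB).symm
  have hx0 : 0 ≤ A.toReal := ENNReal.toReal_nonneg
  have hy0 : 0 ≤ B.toReal := ENNReal.toReal_nonneg
  generalize A.toReal = x at hx hx0
  generalize B.toReal = y at hy hy0
  rw [hx, hy, ← ENNReal.ofReal_mul hx0, ← ENNReal.ofReal_mul hy0,
    ← ENNReal.ofReal_mul ht1'.le, ← ENNReal.ofReal_mul ht0.le, ← ENNReal.ofReal_add
      (by positivity) (by positivity)] at key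
  have key2 : ENNReal.ofReal γ * ENNReal.ofReal ((1 - t) * (x * α⁻¹) + t * (y * β⁻¹)) ≤ C := by
    calc _ ≤ ENNReal.ofReal γ * (C * ENNReal.ofReal γ⁻¹) := by gcongr
      _ = C * (ENNReal.ofReal γ * ENNReal.ofReal γ⁻¹) := by ring
      _ = C := by
        rw [← ENNReal.ofReal_mul hγ.le, mul_inv_cancel₀ hγ.ne', ENNReal.ofReal_one, mul_one]
  refine le_trans ?_ key2
  rw [hx, hy, ENNReal.ofReal_rpow_of_nonneg hx0 ht1'.le, ENNReal.ofReal_rpow_of_nonneg hy0 ht0.le,
    ← ENNReal.ofReal_mul (by positivity), ← ENNReal.ofReal_mul hγ.le]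
  apply ENNReal.ofReal_le_ofReal
  have amgm := Real.geom_mean_le_arith_mean2_weighted ht1'.le ht0.le
    (mul_nonneg hx0 (inv_nonneg.2 hα.le)) (mul_nonneg hy0 (inv_nonneg.2 hβ.le)) (by ring)
  calc x ^ (1 - t) * y ^ t = γ * ((x * α⁻¹) ^ (1 - t) * (y * β⁻¹) ^ t) := by
        rw [hγdef, Real.mul_rpow hx0 (inv_nonneg.2 hα.le), Real.mul_rpow hy0 (inv_nonneg.2 hβ.le),
          Real.inv_rpow hα.le, Real.inv_rpow hβ.le]
        have h1 : α ^ (1 - t) ≠ 0 := (Real.rpow_pos_of_pos hα _).ne'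
        have h2 : β ^ t ≠ 0 := (Real.rpow_pos_of_pos hβ _).ne'
        field_simp
    _ ≤ _ := mul_le_mul_of_nonneg_left amgm hγ.le

/-! ### Induction on the dimension -/

/-- Multiplicative Brunn-Minkowski inequality for a measure space `E`. -/
def BMul (E : Type) [NormedAddCommGroup E] [NormedSpace ℝ E] [MeasureSpace E] : Prop :=
  ∀ (t : ℝ), 0 < t → t < 1 → ∀ X Y : Set E, IsCompact X → IsCompact Y →
    volume X ^ (1 - t) * volume Y ^ t ≤ volume ((1 - t) • X + t • Y)

theorem bmul_prod {E : Type} [NormedAddCommGroup E] [NormedSpace ℝ E] [MeasureSpace E]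
    [BorelSpace E] [SecondCountableTopology E] [SFinite (volume : Measure E)]
    [IsFiniteMeasureOnCompacts (volume : Measure E)] (h : BMul E) : BMul (ℝ × E) := by
  intro t ht0 ht1 X Y hX hY
  have ht1' : 0 < 1 - t := by linarith
  have hZ : IsCompact ((1 - t) • X + t • Y) := (hX.smul _).add (hY.smul _)
  set Z := (1 - t) • X + t • Y with hZdef
  -- slices
  have hslice : ∀ W : Set (ℝ × E), IsCompact W → ∀ x, IsCompact (Prod.mk x ⁻¹' W) := by
    intro W hW x
    have h1 : Prod.mk x ⁻¹' W ⊆ Prod.snd '' W := fun y hy => ⟨(x, y), hy, rfl⟩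
    exact (hW.image continuous_snd).of_isClosed_subset
      (hW.isClosed.preimage (by fun_prop)) h1
  have hfin : ∀ W : Set (ℝ × E), IsCompact W → ∀ x, volume (Prod.mk x ⁻¹' W) ≠ ⊤ :=
    fun W hW x => (hslice W hW x).measure_lt_top.ne
  have hmeas : ∀ W : Set (ℝ × E), IsCompact W → Measurable fun x : ℝ =>
      (volume (Prod.mk x ⁻¹' W)).toReal := fun W hW =>
    (measurable_measure_prodMk_left hW.measurableSet).ennreal_toReal
  have hvol : ∀ W : Set (ℝ × E), IsCompact W → volume W =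
      ∫⁻ x, ENNReal.ofReal (volume (Prod.mk x ⁻¹' W)).toReal := by
    intro W hW
    rw [Measure.volume_eq_prod, Measure.prod_apply hW.measurableSet]
    exact lintegral_congr fun x => (ENNReal.ofReal_toReal (hfin W hW x)).symm
  have hbd : ∀ W : Set (ℝ × E), IsCompact W → ∀ x,
      (volume (Prod.mk x ⁻¹' W)).toReal ≤ (volume (Prod.snd '' W)).toReal := by
    intro W hW x
    refine ENNReal.toReal_mono (hW.image continuous_snd).measure_lt_top.ne (measure_mono ?_)
    exact fun y hy => ⟨(x, y), hy, rfl⟩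
  rw [hvol X hX, hvol Y hY, hvol Z hZ]
  refine pl_gen ht0 ht1 (hmeas X hX) (hmeas Y hY) (hmeas Z hZ) (fun _ => ENNReal.toReal_nonneg)
    (fun _ => ENNReal.toReal_nonneg) (fun _ => ENNReal.toReal_nonneg)
    (M := max (volume (Prod.snd '' X)).toReal (volume (Prod.snd '' Y)).toReal)
    (fun x => (hbd X hX x).trans (le_max_left _ _))
    (fun x => (hbd Y hY x).trans (le_max_right _ _)) ?_ ?_ ?_
  · rw [← hvol X hX]; exact hX.measure_lt_top.ne
  · rw [← hvol Y hY]; exact hY.measure_lt_top.ne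
  · intro x y
    have h1 := h t ht0 ht1 _ _ (hslice X hX x) (hslice Y hY y)
    have h2 : (1 - t) • (Prod.mk x ⁻¹' X) + t • (Prod.mk y ⁻¹' Y) ⊆
        Prod.mk ((1 - t) * x + t * y) ⁻¹' Z := by
      rintro _ ⟨_, ⟨v, hv, rfl⟩, _, ⟨w, hw, rfl⟩, rfl⟩
      refine ⟨(1 - t) • (x, v), ⟨(x, v), hv, rfl⟩, t • (y, w), ⟨(y, w), hw, rfl⟩, ?_⟩
      rfl
    have h3 := h1.trans (measure_mono h2)
    rw [ENNReal.toReal_rpow, ENNReal.toReal_rpow, ← ENNReal.toReal_mul]
    exact ENNReal.toReal_mono (hfin Z hZ _) h3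

theorem bmul_fin (m : ℕ) : BMul (Fin m → ℝ) := by
  induction m with
  | zero =>
    intro t ht0 ht1 X Y hX hY
    have ht1' : 0 < 1 - t := by linarith
    rcases X.eq_empty_or_nonempty with rfl | ⟨x, hx⟩
    · rw [measure_empty, ENNReal.zero_rpow_of_pos ht1', zero_mul]
      exact zero_le
    rcases Y.eq_empty_or_nonempty with rfl | ⟨y, hy⟩
    · rw [measure_empty, ENNReal.zero_rpow_of_pos ht0, mul_zero]
      exact zero_le
    have h1 : (1 - t) • X + t • Y = Set.univ := by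
      refine Set.eq_univ_of_forall fun z => ?_
      refine ⟨(1 - t) • x, ⟨x, hx, rfl⟩, t • y, ⟨y, hy, rfl⟩, ?_⟩
      exact Subsingleton.elim _ _
    have h2 : volume (Set.univ : Set (Fin 0 → ℝ)) = 1 := by
      rw [volume_pi, Measure.pi_of_empty _ 0]
      simp
    have h3 : ∀ W : Set (Fin 0 → ℝ), volume W ≤ 1 := fun W => by
      rw [← h2]; exact measure_mono (Set.subset_univ W)
    rw [h1, h2]
    calc volume X ^ (1 - t) * volume Y ^ t ≤ 1 ^ (1 - t) * 1 ^ t := by
          gcongr <;> exact h3 _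
      _ = 1 := by simp
  | succ m ih =>
    intro t ht0 ht1 X Y hX hY
    have hprod := bmul_prod ih
    let e := MeasurableEquiv.piFinSuccAbove (fun _ : Fin (m + 1) => ℝ) 0
    have he : MeasurePreserving e volume volume :=
      volume_preserving_piFinSuccAbove (fun _ : Fin (m + 1) => ℝ) 0
    have hcont : Continuous e := by
      change Continuous fun f : Fin (m + 1) → ℝ => (f 0, fun j => f (Fin.succAbove 0 j))
      fun_prop
    have hvol : ∀ W : Set (Fin (m + 1) → ℝ), volume (e '' W) = volume W := by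
      intro W
      rw [e.image_eq_preimage_symm]
      exact he.symm.measure_preimage_equiv W
    have himg : e '' ((1 - t) • X + t • Y) = (1 - t) • (e '' X) + t • (e '' Y) := by
      ext z
      constructor
      · rintro ⟨_, ⟨_, ⟨x, hx, rfl⟩, _, ⟨y, hy, rfl⟩, rfl⟩, rfl⟩
        exact ⟨(1 - t) • e x, ⟨e x, ⟨x, hx, rfl⟩, rfl⟩, t • e y, ⟨e y, ⟨y, hy, rfl⟩, rfl⟩, rfl⟩
      · rintro ⟨_, ⟨_, ⟨x, hx, rfl⟩, rfl⟩, _, ⟨_, ⟨y, hy, rfl⟩, rfl⟩, rfl⟩
        exact ⟨(1 - t) • x + t • y, ⟨(1 - t) • x, ⟨x, hx, rfl⟩, t • y, ⟨y, hy, rfl⟩, rfl⟩, rfl⟩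
    have h1 := hprod t ht0 ht1 (e '' X) (e '' Y) (hX.image hcont) (hY.image hcont)
    rw [← himg, hvol, hvol, hvol] at h1
    exact h1

/-- The multiplicative form of the Brunn-Minkowski inequality. -/
theorem bm_mul {m : ℕ} {t : ℝ} (ht0 : 0 < t) (ht1 : t < 1) {X Y : Set (Fin m → ℝ)}
    (hX : IsCompact X) (hY : IsCompact Y) :
    volume X ^ (1 - t) * volume Y ^ t ≤ volume ((1 - t) • X + t • Y) :=
  bmul_fin m t ht0 ht1 X Y hX hY

theorem smul_toReal {m : ℕ} {r : ℝ} (hr : 0 ≤ r) (X : Set (Fin m → ℝ)) :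
    (volume (r • X)).toReal = r ^ m * (volume X).toReal := by
  rw [Measure.addHaar_smul, ENNReal.toReal_mul, abs_of_nonneg (pow_nonneg hr _),
    ENNReal.toReal_ofReal (pow_nonneg hr _)]
  simp

/-- The Brunn-Minkowski inequality. -/
theorem bm_add {m : ℕ} (hm : m ≠ 0) {t : ℝ} (ht0 : 0 < t) (ht1 : t < 1)
    {X Y : Set (Fin m → ℝ)} (hX : IsCompact X) (hY : IsCompact Y) (hX' : X.Nonempty)
    (hY' : Y.Nonempty) :
    (1 - t) * (volume X).toReal ^ (1 / (m : ℝ)) + t * (volume Y).toReal ^ (1 / (m : ℝ)) ≤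
      (volume ((1 - t) • X + t • Y)).toReal ^ (1 / (m : ℝ)) := by
  have ht1' : 0 < 1 - t := by linarith
  have hm' : (0 : ℝ) < m := by exact_mod_cast Nat.pos_of_ne_zero hm
  have hZ : IsCompact ((1 - t) • X + t • Y) := (hX.smul _).add (hY.smul _)
  have hroot : ∀ {r v : ℝ}, 0 ≤ r → 0 ≤ v → (r ^ m * v) ^ (1 / (m : ℝ)) = r * v ^ (1 / (m : ℝ)) := by
    intro r v hr hv
    rw [Real.mul_rpow (pow_nonneg hr _) hv, one_div, Real.pow_rpow_inv_natCast hr hm]
  have hx0 : 0 ≤ (volume X).toReal := ENNReal.toReal_nonneg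
  have hy0 : 0 ≤ (volume Y).toReal := ENNReal.toReal_nonneg
  have h0 : (0 : ℝ) ^ (1 / (m : ℝ)) = 0 := Real.zero_rpow (by positivity)
  rcases hx0.eq_or_lt with hx | hx
  · obtain ⟨x, hx'⟩ := hX'
    rw [← hx, h0, mul_zero, zero_add, ← hroot ht0.le hy0, ← smul_toReal ht0.le]
    refine Real.rpow_le_rpow ENNReal.toReal_nonneg ?_ (by positivity)
    refine ENNReal.toReal_mono hZ.measure_lt_top.ne ?_
    rw [← measure_preimage_add volume (-((1 - t) • x)) (t • Y)]
    refine measure_mono fun z hz => ?_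
    refine ⟨(1 - t) • x, ⟨x, hx', rfl⟩, _, hz, ?_⟩
    simp
  rcases hy0.eq_or_lt with hy | hy
  · obtain ⟨y, hy'⟩ := hY'
    rw [← hy, h0, mul_zero, add_zero, ← hroot ht1'.le hx0, ← smul_toReal ht1'.le]
    refine Real.rpow_le_rpow ENNReal.toReal_nonneg ?_ (by positivity)
    refine ENNReal.toReal_mono hZ.measure_lt_top.ne ?_
    rw [← measure_preimage_add volume (-(t • y)) ((1 - t) • X)]
    refine measure_mono fun z hz => ?_
    refine ⟨_, hz, t • y, ⟨y, hy', rfl⟩, ?_⟩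
    simp
  set p := (volume X).toReal ^ (1 / (m : ℝ)) with hp
  set q := (volume Y).toReal ^ (1 / (m : ℝ)) with hq
  have hp0 : 0 < p := Real.rpow_pos_of_pos hx _
  have hq0 : 0 < q := Real.rpow_pos_of_pos hy _
  have hpm : p ^ m = (volume X).toReal := by
    rw [hp, one_div, Real.rpow_inv_natCast_pow hx0 hm]
  have hqm : q ^ m = (volume Y).toReal := by
    rw [hq, one_div, Real.rpow_inv_natCast_pow hy0 hm]
  set r := (1 - t) * p + t * q with hr
  have hr0 : 0 < r := by positivity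
  have hθ0 : 0 < t * q / r := by positivity
  have hθ1 : t * q / r < 1 := by
    rw [div_lt_one hr0, hr]
    have : 0 < (1 - t) * p := by positivity
    linarith
  have hθ : 1 - t * q / r = (1 - t) * p / r := by
    field_simp
    rw [hr]; ring
  have key := bm_mul hθ0 hθ1 (hX.smul p⁻¹) (hY.smul q⁻¹)
  have hZ' : (1 - t * q / r) • p⁻¹ • X + (t * q / r) • q⁻¹ • Y = r⁻¹ • ((1 - t) • X + t • Y) := by
    rw [hθ, smul_add, smul_smul, smul_smul, smul_smul, smul_smul]
    congr 2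
    · field_simp
    · field_simp
  have hvX : volume (p⁻¹ • X) = 1 := by
    rw [← ENNReal.ofReal_toReal (hX.smul p⁻¹).measure_lt_top.ne, smul_toReal (by positivity), ← hpm,
      ← mul_pow, inv_mul_cancel₀ hp0.ne', one_pow, ENNReal.ofReal_one]
  have hvY : volume (q⁻¹ • Y) = 1 := by
    rw [← ENNReal.ofReal_toReal (hY.smul q⁻¹).measure_lt_top.ne, smul_toReal (by positivity), ← hqm,
      ← mul_pow, inv_mul_cancel₀ hq0.ne', one_pow, ENNReal.ofReal_one]
  rw [hZ', hvX, hvY, ENNReal.one_rpow, ENNReal.one_rpow, one_mul] at key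
  have key2 := ENNReal.toReal_mono (hZ.smul r⁻¹).measure_lt_top.ne key
  rw [ENNReal.toReal_one, smul_toReal (by positivity)] at key2
  have key3 : r ^ m ≤ (volume ((1 - t) • X + t • Y)).toReal := by
    have h1 : (r⁻¹) ^ m = (r ^ m)⁻¹ := by rw [inv_pow]
    rw [h1, ← div_eq_inv_mul, one_le_div (by positivity)] at key2
    exact key2
  calc r = (r ^ m) ^ (1 / (m : ℝ)) := by rw [one_div, Real.pow_rpow_inv_natCast hr0.le hm]
    _ ≤ _ := Real.rpow_le_rpow (by positivity) key3 (by positivity)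

end Pool.Agent.BM
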