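import Pool.Agent.Lib.MP_36b0a5_gt.Prod

/-!
# Volume near a facet, weighted
-/

set_option autoImplicit false

open MeasureTheory Set
open scoped Pointwise ENNReal

namespace Pool.Agent.BM

variable {m : ℕ}

/-- `vol {x ∈ K | x₁ < ε b(x)} ≥ ε (1 - ε β / h)^(m+1) ∫_{facet} b`. -/
theorem base_le {K : Set (ℝ × (Fin m → ℝ))} (hK : IsCompact K) (hc : Convex ℝ K)
    {o : ℝ × (Fin m → ℝ)} (ho : o ∈ K) (hpos : 0 < o.1) {b : ℝ × (Fin m → ℝ) → ℝ}
    (hb : Continuous b) (hlin : ∀ (r : ℝ) (x y), b (r • x + (1 - r) • y) = r * b x + (1 - r) * b y)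
    (hb0 : ∀ x ∈ K, 0 ≤ b x) {β : ℝ} (hβ : ∀ x ∈ K, b x ≤ β) {ε : ℝ} (hε : 0 < ε)
    (hεβ : ε * β < o.1) :
    ε * (1 - ε * β / o.1) ^ (m + 1) * ∫ y in sl K 0, b (0, y) ≤
      (volume {x ∈ K | x.1 < ε * b x}).toReal := by
  set h := o.1 with hh
  have hβ0 : 0 ≤ β := (hb0 o ho).trans (hβ o ho)
  set θ := 1 - ε * β / h with hθ
  have hθ0 : 0 < θ := by
    rw [hθ, sub_pos, div_lt_one hpos]; exact hεβ
  have hθ1 : θ ≤ 1 := by
    rw [hθ, sub_le_self_iff]; positivity
  set S := sl K 0 with hS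
  have hSc : IsCompact S := isCompact_sl hK 0
  set f : (Fin m → ℝ) → ℝ := fun y => ε * θ * b (0, y) with hf
  have hfc : Continuous f := by
    rw [hf]; fun_prop
  have hfS : ∀ y ∈ S, 0 ≤ f y := fun y hy => mul_nonneg (by positivity) (hb0 _ hy)
  set W : Set (ℝ × (Fin m → ℝ)) := {x ∈ K | x.1 < ε * b x} with hW
  have hWm : MeasurableSet W := by
    refine hK.measurableSet.inter ?_
    exact (isOpen_lt continuous_fst (continuous_const.mul hb)).measurableSet
  have hWK : W ⊆ K := fun x hx => hx.1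
  have hWfin : volume W ≠ ⊤ := ((measure_mono hWK).trans_lt hK.measure_lt_top).ne
  have h1 : volume W = ∫⁻ v, volume (Prod.mk v ⁻¹' W) := by
    rw [Measure.volume_eq_prod, Measure.prod_apply hWm]
  have hlay : ∫⁻ y in S, ENNReal.ofReal (f y) = ∫⁻ v in Ioi (0 : ℝ), volume ({y | v < f y} ∩ S) := by
    have h2 := lintegral_eq_lintegral_meas_lt (volume.restrict S) (f := f)
      ((ae_restrict_iff' hSc.measurableSet).2 (Filter.Eventually.of_forall hfS))
      hfc.measurable.aemeasurable
    rw [h2]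
    refine lintegral_congr fun v => ?_
    rw [Measure.restrict_apply (measurableSet_lt measurable_const hfc.measurable)]
  have hslice : ∀ v ∈ Ioi (0 : ℝ), ENNReal.ofReal (θ ^ m) * volume ({y | v < f y} ∩ S) ≤
      volume (Prod.mk v ⁻¹' W) := by
    intro v hv
    rw [mem_Ioi] at hv
    by_cases hvβ : v < ε * β
    · have hvh : v < h := hvβ.trans hεβ
      set η := 1 - v / h with hη
      have hη0 : 0 < η := by rw [hη, sub_pos, div_lt_one hpos]; exact hvh
      have hη1 : 1 - η = v / h := by rw [hη]; ring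
      have hθη : θ ≤ η := by
        rw [hθ, hη]
        gcongr
      have hsub : (fun y => y + (v / h) • o.2) '' (η • ({y | v < f y} ∩ S)) ⊆ Prod.mk v ⁻¹' W := by
        rintro _ ⟨_, ⟨y, ⟨hy1, hy2⟩, rfl⟩, rfl⟩
        have hpt : ((v, η • y + (v / h) • o.2) : ℝ × (Fin m → ℝ)) = η • (0, y) + (1 - η) • o := by
          ext
          · simp only [Prod.fst_add, Prod.smul_fst, smul_eq_mul, mul_zero, zero_add, hη1, ← hh]
            field_simp
          · simp [hη1]
        have hKm : ((v, η • y + (v / h) • o.2) : ℝ × (Fin m → ℝ)) ∈ K := by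
          rw [hpt]
          exact hc (show ((0 : ℝ), y) ∈ K from hy2) ho hη0.le
            (by rw [hη1]; positivity) (by ring)
        refine ⟨hKm, ?_⟩
        show v < ε * b (v, η • y + (v / h) • o.2)
        rw [hpt, hlin]
        have hb1 : 0 ≤ b (0, y) := hb0 _ hy2
        have hb2 : 0 ≤ b o := hb0 _ ho
        have hy1' : v < ε * θ * b (0, y) := hy1
        have h3 : θ * b (0, y) ≤ η * b (0, y) := mul_le_mul_of_nonneg_right hθη hb1
        have h4 : 0 ≤ (1 - η) * b o := mul_nonneg (by rw [hη1]; positivity) hb2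
        calc v < ε * θ * b (0, y) := hy1'
          _ = ε * (θ * b (0, y)) := by ring
          _ ≤ ε * (η * b (0, y) + (1 - η) * b o) :=
              mul_le_mul_of_nonneg_left (by linarith) hε.le
      have h5 : volume ((fun y => y + (v / h) • o.2) '' (η • ({y | v < f y} ∩ S))) =
          ENNReal.ofReal (η ^ m) * volume ({y | v < f y} ∩ S) := by
        rw [image_add_right, measure_preimage_add_right, Measure.addHaar_smul,
          abs_of_nonneg (pow_nonneg hη0.le _)]
        simp
      calc ENNReal.ofReal (θ ^ m) * volume ({y | v < f y} ∩ S)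
          ≤ ENNReal.ofReal (η ^ m) * volume ({y | v < f y} ∩ S) := by
            gcongr
        _ = _ := h5.symm
        _ ≤ _ := measure_mono hsub
    · have hemp : {y | v < f y} ∩ S = ∅ := by
        rw [eq_empty_iff_forall_notMem]
        rintro y ⟨hy1, hy2⟩
        have hy1' : v < ε * θ * b (0, y) := hy1
        have hb1 : 0 ≤ b (0, y) := hb0 _ hy2
        have hb3 : b (0, y) ≤ β := hβ _ hy2
        have : ε * θ * b (0, y) ≤ ε * β := by
          calc ε * θ * b (0, y) ≤ ε * 1 * β := by gcongr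
            _ = ε * β := by ring
        exact hvβ (hy1'.trans_le this)
      rw [hemp]
      simp
  have hfin : ∫⁻ y in S, ENNReal.ofReal (f y) = ENNReal.ofReal (∫ y in S, f y) := by
    rw [ofReal_integral_eq_lintegral_ofReal (hfc.continuousOn.integrableOn_compact hSc)
      ((ae_restrict_iff' hSc.measurableSet).2 (Filter.Eventually.of_forall hfS))]
  have hmain : ENNReal.ofReal (θ ^ m * ∫ y in S, f y) ≤ volume W := by
    rw [ENNReal.ofReal_mul (by positivity), ← hfin, hlay, h1,
      ← lintegral_const_mul' _ _ ENNReal.ofReal_ne_top]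
    calc ∫⁻ v in Ioi (0 : ℝ), ENNReal.ofReal (θ ^ m) * volume ({y | v < f y} ∩ S)
        ≤ ∫⁻ v in Ioi (0 : ℝ), volume (Prod.mk v ⁻¹' W) :=
          setLIntegral_mono' measurableSet_Ioi hslice
      _ ≤ _ := setLIntegral_le_lintegral _ _
  have h6 := ENNReal.toReal_mono hWfin hmain
  have hint0 : 0 ≤ ∫ y in S, f y := setIntegral_nonneg hSc.measurableSet hfS
  rw [ENNReal.toReal_ofReal (by positivity)] at h6
  refine le_trans (le_of_eq ?_) h6
  rw [hf, integral_const_mul]
  ring

end Pool.Agent.BM
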