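import Pool.Agent.Lib.MP_36b0a5_gt.Prod

/-!
# The centroid of a convex body is close to its large facets

Transport to Euclidean space.
-/

set_option autoImplicit false

open MeasureTheory Set
open scoped Pointwise ENNReal RealInnerProductSpace

namespace Pool.Agent.BM

/-- The change of coordinates: slack in direction `b 0`, then the other coordinates. -/
noncomputable def Tm {m : ℕ} (b : OrthonormalBasis (Fin (m + 1)) ℝ (EuclideanSpace ℝ (Fin (m + 1))))
    (h : ℝ) (x : EuclideanSpace ℝ (Fin (m + 1))) : ℝ × (Fin m → ℝ) :=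
  (h - b.repr x 0, fun i => b.repr x i.succ)

variable {m : ℕ} (b : OrthonormalBasis (Fin (m + 1)) ℝ (EuclideanSpace ℝ (Fin (m + 1)))) (h : ℝ)

theorem Tm_fst (x : EuclideanSpace ℝ (Fin (m + 1))) : (Tm b h x).1 = h - ⟪b 0, x⟫ := by
  simp [Tm, b.repr_apply_apply]

theorem continuous_Tm : Continuous (Tm b h) := by
  unfold Tm
  fun_prop

theorem injective_Tm : Function.Injective (Tm b h) := by
  intro x y hxy
  simp only [Tm, Prod.mk.injEq, sub_right_inj] at hxy
  apply b.repr.injective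
  ext i
  refine Fin.cases ?_ (fun j => ?_) i
  · exact hxy.1
  · exact congrFun hxy.2 j

theorem Tm_comb (r : ℝ) (x y : EuclideanSpace ℝ (Fin (m + 1))) :
    Tm b h (r • x + (1 - r) • y) = r • Tm b h x + (1 - r) • Tm b h y := by
  ext
  · simp [Tm]; ring
  · simp [Tm]

theorem measurePreserving_Tm : MeasurePreserving (Tm b h) := by
  have h1 : MeasurePreserving (fun x => b.repr x) volume volume := b.measurePreserving_repr
  have h2 := PiLp.volume_preserving_ofLp (Fin (m + 1))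
  have h3 := volume_preserving_piFinSuccAbove (fun _ : Fin (m + 1) => ℝ) 0
  have h4 : MeasurePreserving (Prod.map (fun a : ℝ => h - a) (id : (Fin m → ℝ) → (Fin m → ℝ)))
      (volume.prod volume) (volume.prod volume) :=
    ((volume : Measure ℝ).measurePreserving_sub_left h).prod (MeasurePreserving.id _)
  exact h4.comp (h3.comp (h2.comp h1))

theorem volume_Tm {S : Set (EuclideanSpace ℝ (Fin (m + 1)))} (hS : IsCompact S) :
    volume (Tm b h '' S) = volume S := by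
  have h1 := (measurePreserving_Tm b h).measure_preimage
    (hS.image (continuous_Tm b h)).measurableSet.nullMeasurableSet
  rw [preimage_image_eq _ (injective_Tm b h)] at h1
  exact h1.symm

theorem integral_Tm {S : Set (EuclideanSpace ℝ (Fin (m + 1)))} :
    ∫ x in Tm b h '' S, x.1 = ∫ x in S, (h - ⟪b 0, x⟫) := by
  have hemb : MeasurableEmbedding (Tm b h) :=
    (continuous_Tm b h).measurableEmbedding (injective_Tm b h)
  have h1 := (measurePreserving_Tm b h).setIntegral_preimage_emb hemb (fun x => x.1) (Tm b h '' S)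
  rw [preimage_image_eq _ (injective_Tm b h)] at h1
  rw [← h1]
  simp only [Tm_fst]

theorem coneOver_Tm (o : EuclideanSpace ℝ (Fin (m + 1))) (F : Set (EuclideanSpace ℝ (Fin (m + 1)))) :
    Tm b h '' coneOver o F = coneOver (Tm b h o) (Tm b h '' F) := by
  ext y
  constructor
  · rintro ⟨_, ⟨⟨r, f⟩, ⟨hr, hf⟩, rfl⟩, rfl⟩
    exact ⟨(r, Tm b h f), ⟨hr, mem_image_of_mem _ hf⟩, (Tm_comb b h r o f).symm⟩
  · rintro ⟨⟨r, _⟩, ⟨hr, ⟨f, hf, rfl⟩⟩, rfl⟩
    exact ⟨_, ⟨(r, f), ⟨hr, hf⟩, rfl⟩, Tm_comb b h r o f⟩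

omit b h in
/-- **Main inequality.**  For a convex body `K`, a unit vector `u` and `h > 0` with
`⟪u, x⟫ ≤ h` on `K`: `(n+1) * vol(cone over the face) * ∫_K (h - ⟪u, x⟫) ≤ h * vol(K)^2`. -/
theorem euclid_ineq {n : ℕ} (hn : 2 ≤ n) {K : Set (EuclideanSpace ℝ (Fin n))} (hK : IsCompact K)
    (hc : Convex ℝ K) {u : EuclideanSpace ℝ (Fin n)} (hu : ‖u‖ = 1) {h : ℝ} (hh : 0 < h)
    (hs : ∀ x ∈ K, ⟪u, x⟫ ≤ h) :
    ((n : ℝ) + 1) * (volume (coneOver 0 {x ∈ K | ⟪u, x⟫ = h})).toReal *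
      ∫ x in K, (h - ⟪u, x⟫) ≤ h * (volume K).toReal ^ 2 := by
  obtain ⟨m, rfl⟩ : ∃ m, n = m + 1 := ⟨n - 1, by omega⟩
  have hm : m ≠ 0 := by omega
  obtain ⟨b, hb⟩ := Orthonormal.exists_orthonormalBasis_extension_of_card_eq (𝕜 := ℝ)
    (E := EuclideanSpace ℝ (Fin (m + 1))) (ι := Fin (m + 1)) (by simp)
    (v := fun _ => u) (s := {0}) (by
      constructor
      · intro i; simpa using hu
      · intro i j hij
        exact absurd (Subsingleton.elim i j) hij)
  have hb0 : b 0 = u := hb 0 rfl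
  set K' := Tm b h '' K with hK'
  have hKc : IsCompact K' := hK.image (continuous_Tm b h)
  have hKconv : Convex ℝ K' := by
    rintro _ ⟨x, hx, rfl⟩ _ ⟨y, hy, rfl⟩ r s hr hs' hrs
    have hs1 : s = 1 - r := by linarith
    subst hs1
    exact ⟨r • x + (1 - r) • y, hc hx hy hr hs' hrs, Tm_comb b h r x y⟩
  have hK0 : ∀ x ∈ K', 0 ≤ x.1 := by
    rintro _ ⟨x, hx, rfl⟩
    rw [Tm_fst, hb0]
    linarith [hs x hx]
  have ho : (Tm b h 0).1 = h := by rw [Tm_fst]; simp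
  have hF : Tm b h '' {x ∈ K | ⟪u, x⟫ = h} = K' ∩ {x | x.1 = 0} := by
    ext y
    constructor
    · rintro ⟨x, ⟨hx, hxu⟩, rfl⟩
      refine ⟨⟨x, hx, rfl⟩, ?_⟩
      show (Tm b h x).1 = 0
      rw [Tm_fst, hb0, hxu, sub_self]
    · rintro ⟨⟨x, hx, rfl⟩, hx0⟩
      refine ⟨x, ⟨hx, ?_⟩, rfl⟩
      have : (Tm b h x).1 = 0 := hx0
      rw [Tm_fst, hb0] at this
      linarith
  have hFc : IsCompact {x ∈ K | ⟪u, x⟫ = h} :=
    hK.inter_right (isClosed_eq (by fun_prop) continuous_const)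
  have key := cone_ineq hm hKc hKconv hK0 (o := Tm b h 0) (by rw [ho]; exact hh)
  rw [ho, ← hF, ← coneOver_Tm, volume_Tm b h (isCompact_coneOver 0 hFc), volume_Tm b h hK,
    integral_Tm, hb0] at key
  have e : ((m + 1 : ℕ) : ℝ) + 1 = (m : ℝ) + 2 := by push_cast; ring
  rw [e]
  exact key

/-- **Abstract form.** -/
theorem exists_small_cone {n : ℕ} (hn : 2 ≤ n) {K : Set (EuclideanSpace ℝ (Fin n))}
    (hK : IsCompact K) (hc : Convex ℝ K) {ι : Type*} {I : Finset ι} (hI : I.Nonempty)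
    {u : ι → EuclideanSpace ℝ (Fin n)} (hu : ∀ i ∈ I, ‖u i‖ = 1) {h : ι → ℝ}
    (hh : ∀ i ∈ I, 0 < h i) (hs : ∀ i ∈ I, ∀ x ∈ K, ⟪u i, x⟫ ≤ h i) {l : ι → ℝ}
    (hl : ∀ i ∈ I, 0 < l i) (hsum : ∑ i ∈ I, l i • u i = 0) (hvol : 0 < (volume K).toReal) :
    ∃ i ∈ I, ((n : ℝ) + 1) * (volume (coneOver 0 {x ∈ K | ⟪u i, x⟫ = h i})).toReal ≤
      (volume K).toReal := by
  by_contra hcon
  push Not at hcon
  set V := (volume K).toReal with hV
  have hint : ∀ i ∈ I, ∫ x in K, (h i - ⟪u i, x⟫) < h i * V := by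
    intro i hi
    have h1 := euclid_ineq hn hK hc (hu i hi) (hh i hi) (hs i hi)
    have h2 := hcon i hi
    have h0 : 0 ≤ ∫ x in K, (h i - ⟪u i, x⟫) :=
      setIntegral_nonneg hK.measurableSet fun x hx => by linarith [hs i hi x hx]
    rcases h0.eq_or_lt with h0 | h0
    · rw [← h0]; exact mul_pos (hh i hi) hvol
    · have h3 : V * ∫ x in K, (h i - ⟪u i, x⟫) < h i * V ^ 2 :=
        lt_of_lt_of_le (mul_lt_mul_of_pos_right h2 h0) h1
      have h4 : V * ∫ x in K, (h i - ⟪u i, x⟫) < V * (h i * V) := by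
        calc V * ∫ x in K, (h i - ⟪u i, x⟫) < h i * V ^ 2 := h3
          _ = V * (h i * V) := by ring
      exact lt_of_mul_lt_mul_left h4 hvol.le
  have hsumlt : ∑ i ∈ I, l i * ∫ x in K, (h i - ⟪u i, x⟫) < ∑ i ∈ I, l i * (h i * V) :=
    Finset.sum_lt_sum_of_nonempty hI fun i hi => mul_lt_mul_of_pos_left (hint i hi) (hl i hi)
  have hcont : ∀ i ∈ I, IntegrableOn (fun x => l i * (h i - ⟪u i, x⟫)) K := by
    intro i _
    exact ContinuousOn.integrableOn_compact hK (by fun_prop)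
  have e1 : ∑ i ∈ I, l i * ∫ x in K, (h i - ⟪u i, x⟫) =
      ∫ x in K, ∑ i ∈ I, l i * (h i - ⟪u i, x⟫) := by
    rw [integral_finsetSum _ hcont]
    exact Finset.sum_congr rfl fun i _ => (integral_const_mul _ _).symm
  have e2 : ∀ x, ∑ i ∈ I, l i * (h i - ⟪u i, x⟫) = ∑ i ∈ I, l i * h i := by
    intro x
    have h1 : ∑ i ∈ I, l i * ⟪u i, x⟫ = 0 := by
      have h2 : ∑ i ∈ I, l i * ⟪u i, x⟫ = ⟪∑ i ∈ I, l i • u i, x⟫ := by
        rw [sum_inner]
        exact Finset.sum_congr rfl fun i _ => (real_inner_smul_left _ _ _).symm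
      rw [h2, hsum, inner_zero_left]
    simp only [mul_sub, Finset.sum_sub_distrib, h1, sub_zero]
  have e3 : ∫ x in K, ∑ i ∈ I, l i * (h i - ⟪u i, x⟫) = (∑ i ∈ I, l i * h i) * V := by
    simp only [e2]
    simp [Measure.real, hV, mul_comm]
  rw [e1, e3, Finset.sum_mul] at hsumlt
  refine absurd hsumlt (not_lt.2 (le_of_eq ?_))
  exact Finset.sum_congr rfl fun i _ => by ring

end Pool.Agent.BM
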