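import Pool.Agent.Lib.MP_36b0a5_gt.Ratio2

/-!
# The logarithmic means of the slack functions control the boundary terms
-/

set_option autoImplicit false

open MeasureTheory Set
open scoped Pointwise ENNReal RealInnerProductSpace

namespace Pool.Agent.BM

variable {m : ℕ}

theorem exists_basis {w : EuclideanSpace ℝ (Fin (m + 1))} (hw : ‖w‖ = 1) :
    ∃ b : OrthonormalBasis (Fin (m + 1)) ℝ (EuclideanSpace ℝ (Fin (m + 1))), b 0 = w := by
  obtain ⟨b, hb⟩ := Orthonormal.exists_orthonormalBasis_extension_of_card_eq (𝕜 := ℝ)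
    (E := EuclideanSpace ℝ (Fin (m + 1))) (ι := Fin (m + 1)) (by simp)
    (v := fun _ => w) (s := {0}) (by
      constructor
      · intro i; simpa using hw
      · intro i j hij
        exact absurd (Subsingleton.elim i j) hij)
  exact ⟨b, hb 0 rfl⟩

theorem null_slk {w : EuclideanSpace ℝ (Fin (m + 1))} (hw : ‖w‖ = 1) (c : ℝ) :
    volume {x : EuclideanSpace ℝ (Fin (m + 1)) | slk w c x = 0} = 0 := by
  obtain ⟨b, hb⟩ := exists_basis hw
  have h1 : {x : EuclideanSpace ℝ (Fin (m + 1)) | slk w c x = 0} =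
      Tm b c ⁻¹' (({0} : Set ℝ) ×ˢ univ) := by
    ext x
    constructor
    · intro hx
      refine ⟨?_, mem_univ _⟩
      show (Tm b c x).1 = 0
      rw [Tm_fst, hb]
      exact hx
    · rintro ⟨hx, _⟩
      have hx' : (Tm b c x).1 = 0 := hx
      rw [Tm_fst, hb] at hx'
      exact hx'
  rw [h1, (measurePreserving_Tm b c).measure_preimage
    ((measurableSet_singleton _).prod MeasurableSet.univ).nullMeasurableSet,
    Measure.volume_eq_prod, Measure.prod_prod]
  simp

theorem ae_pos_slk {K : Set (EuclideanSpace ℝ (Fin (m + 1)))} (hK : IsCompact K)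
    {w : EuclideanSpace ℝ (Fin (m + 1))} (hw : ‖w‖ = 1) {c : ℝ} (hs : ∀ x ∈ K, 0 ≤ slk w c x) :
    ∀ᵐ x ∂(volume.restrict K), 0 < slk w c x := by
  rw [ae_restrict_iff' hK.measurableSet]
  have h1 : ∀ᵐ x : EuclideanSpace ℝ (Fin (m + 1)), slk w c x ≠ 0 := by
    rw [ae_iff]
    simpa using null_slk hw c
  filter_upwards [h1] with x hx hxK
  exact lt_of_le_of_ne (hs x hxK) (Ne.symm hx)

theorem integrableOn_log_slk {K : Set (EuclideanSpace ℝ (Fin (m + 1)))} (hK : IsCompact K)
    {w : EuclideanSpace ℝ (Fin (m + 1))} (hw : ‖w‖ = 1) (c : ℝ) :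
    IntegrableOn (fun x => Real.log (slk w c x)) K := by
  obtain ⟨b, hb⟩ := exists_basis hw
  have hemb : MeasurableEmbedding (Tm b c) :=
    (continuous_Tm b c).measurableEmbedding (injective_Tm b c)
  obtain ⟨R, hR⟩ := (hK.image (continuous_Tm b c)).isBounded.exists_norm_le
  have hsub : K ⊆ Tm b c ⁻¹' (Icc (-|R|) |R| ×ˢ Metric.closedBall (0 : Fin m → ℝ) |R|) := by
    intro x hx
    have h1 := (hR _ (mem_image_of_mem _ hx)).trans (le_abs_self R)
    rw [Prod.norm_def, sup_le_iff] at h1
    refine ⟨?_, ?_⟩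
    · rw [mem_Icc, ← abs_le]
      exact h1.1
    · rw [mem_closedBall_zero_iff]
      exact h1.2
  have h2 : IntegrableOn (fun y : ℝ × (Fin m → ℝ) => Real.log y.1)
      (Icc (-|R|) |R| ×ˢ Metric.closedBall (0 : Fin m → ℝ) |R|) := by
    have h3 : IntegrableOn Real.log (Icc (-|R|) |R|) :=
      (intervalIntegrable_iff_integrableOn_Icc_of_le (by linarith [abs_nonneg R])).1
        intervalIntegral.intervalIntegrable_log'
    unfold IntegrableOn
    rw [Measure.volume_eq_prod, ← Measure.prod_restrict]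
    have : IsFiniteMeasure ((volume : Measure (Fin m → ℝ)).restrict
        (Metric.closedBall (0 : Fin m → ℝ) |R|)) :=
      ⟨by rw [Measure.restrict_apply_univ]; exact measure_closedBall_lt_top⟩
    exact Integrable.comp_fst h3 _
  have h4 := ((measurePreserving_Tm b c).integrableOn_comp_preimage hemb).2 h2
  refine (h4.mono_set hsub).congr_fun (fun x _ => ?_) hK.measurableSet
  show Real.log (Tm b c x).1 = _
  rw [Tm_fst, hb]
  rfl

/-- If the upper tail of `ξ` is dominated by its lower tail, then `∫ ξ ≤ 0`. -/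
theorem integral_nonpos_of_tails {α : Type*} [MeasurableSpace α] {μ : Measure α} {ξ : α → ℝ}
    (hξ : Integrable ξ μ) (h : ∀ t, 0 < t → μ {x | t ≤ ξ x} ≤ μ {x | t ≤ -ξ x}) :
    ∫ x, ξ x ∂μ ≤ 0 := by
  rw [integral_eq_lintegral_pos_part_sub_lintegral_neg_part hξ]
  have key : ∀ g : α → ℝ, AEMeasurable g μ → ∫⁻ x, ENNReal.ofReal (g x) ∂μ =
      ∫⁻ t in Ioi (0 : ℝ), μ {x | t ≤ g x} := by
    intro g hg
    have h1 : ∀ x, ENNReal.ofReal (g x) = ENNReal.ofReal (max (g x) 0) := by
      intro x
      rcases le_total (g x) 0 with h | h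
      · rw [max_eq_right h, ENNReal.ofReal_of_nonpos h, ENNReal.ofReal_zero]
      · rw [max_eq_left h]
    simp only [h1]
    rw [lintegral_eq_lintegral_meas_le (f := fun x => max (g x) 0) μ
      (Filter.Eventually.of_forall fun x => le_max_right (g x) 0) (hg.max aemeasurable_const)]
    refine setLIntegral_congr_fun measurableSet_Ioi fun t ht => ?_
    have ht' : (0 : ℝ) < t := ht
    congr 1
    ext x
    rw [mem_ofPred_eq, mem_ofPred_eq, le_max_iff]
    constructor
    · rintro (h | h)
      · exact h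
      · exact absurd h (not_le.2 ht')
    · exact Or.inl
  have h2 : ∫⁻ x, ENNReal.ofReal (ξ x) ∂μ ≤ ∫⁻ x, ENNReal.ofReal (-ξ x) ∂μ := by
    rw [key ξ hξ.aemeasurable, key (fun x => -ξ x) hξ.aemeasurable.neg]
    exact setLIntegral_mono' measurableSet_Ioi fun t ht => h t ht
  have h3 : ∫⁻ x, ENNReal.ofReal (-ξ x) ∂μ ≠ ⊤ := by
    have := hξ.neg
    exact (this.lintegral_lt_top).ne
  linarith [ENNReal.toReal_mono h3 h2]

/-- **The boundary term is controlled by the logarithmic means.** -/
theorem bint_le {K : Set (EuclideanSpace ℝ (Fin (m + 1)))} (hK : IsCompact K)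
    (hc : Convex ℝ K) (h0 : (0 : EuclideanSpace ℝ (Fin (m + 1))) ∈ K)
    (b : OrthonormalBasis (Fin (m + 1)) ℝ (EuclideanSpace ℝ (Fin (m + 1)))) {h : ℝ} (hh : 0 < h)
    (hs0 : ∀ x ∈ K, 0 ≤ slk (b 0) h x)
    {w : EuclideanSpace ℝ (Fin (m + 1))} (hw : ‖w‖ = 1) {c : ℝ} (hs : ∀ x ∈ K, 0 ≤ slk w c x)
    (hV : 0 < (volume K).toReal) :
    bint b h K w c ≤ (volume K).toReal *
      Real.exp (((volume K).toReal)⁻¹ * (∫ x in K, Real.log (slk w c x))) /
      Real.exp (((volume K).toReal)⁻¹ * (∫ x in K, Real.log (slk (b 0) h x))) := by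
  set V := (volume K).toReal with hVdef
  set B := bint b h K w c with hB
  have hB0 : 0 ≤ B := bint_nonneg b h hK hs
  rcases hB0.eq_or_lt with hB0 | hB0
  · rw [← hB0]; positivity
  have hb0 : ‖b 0‖ = 1 := b.norm_eq_one 0
  have hKfin : volume K ≠ ⊤ := hK.measure_lt_top.ne
  have hi1 := integrableOn_log_slk hK hw c
  have hi2 := integrableOn_log_slk hK hb0 h
  set L := Real.log (B / V) with hL
  set ξ : EuclideanSpace ℝ (Fin (m + 1)) → ℝ := fun x =>
    Real.log (slk (b 0) h x) - Real.log (slk w c x) + L with hξ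
  have : IsFiniteMeasure (volume.restrict K) :=
    ⟨by rw [Measure.restrict_apply_univ]; exact hK.measure_lt_top⟩
  have hξi : Integrable ξ (volume.restrict K) := (hi2.sub hi1).add (integrable_const L)
  have hpart : ∀ r', part K w c (b 0) h r' ⊆ K := fun r' x hx => hx.1
  have hpm : ∀ r', MeasurableSet (part K w c (b 0) h r') := fun r' =>
    (isCompact_part hK w c (b 0) h r').measurableSet
  have hpf : ∀ r', volume (part K w c (b 0) h r') ≠ ⊤ := fun r' =>
    (isCompact_part hK w c (b 0) h r').measure_lt_top.ne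
  have htails : ∀ t, 0 < t → (volume.restrict K) {x | t ≤ ξ x} ≤
      (volume.restrict K) {x | t ≤ -ξ x} := by
    intro t ht
    set r₁ := Real.exp t * V / B with hr₁
    set r₂ := Real.exp (-t) * V / B with hr₂
    have hr₁0 : 0 < r₁ := by positivity
    have hr₂0 : 0 < r₂ := by positivity
    have hlog1 : Real.log r₁ = t - L := by
      rw [hr₁, hL, Real.log_div (by positivity) hB0.ne', Real.log_mul (by positivity) hV.ne',
        Real.log_exp, Real.log_div hB0.ne' hV.ne']
      ring
    have hlog2 : Real.log r₂ = -t - L := by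
      rw [hr₂, hL, Real.log_div (by positivity) hB0.ne', Real.log_mul (by positivity) hV.ne',
        Real.log_exp, Real.log_div hB0.ne' hV.ne']
      ring
    have hp1 := ae_pos_slk hK hw hs
    have hp2 := ae_pos_slk hK hb0 hs0
    have hup : (volume.restrict K) {x | t ≤ ξ x} ≤ volume (part K w c (b 0) h r₁) := by
      have h1 : (volume.restrict K) {x | t ≤ ξ x} ≤
          (volume.restrict K) (part K w c (b 0) h r₁) := by
        apply measure_mono_ae
        filter_upwards [hp1, hp2, ae_restrict_mem hK.measurableSet] with x hx1 hx2 hxK hxt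
        refine ⟨hxK, ?_⟩
        have h2 : t ≤ Real.log (slk (b 0) h x) - Real.log (slk w c x) + L := hxt
        have h3 : Real.log (r₁ * slk w c x) ≤ Real.log (slk (b 0) h x) := by
          rw [Real.log_mul hr₁0.ne' hx1.ne', hlog1]
          linarith
        exact (Real.log_le_log_iff (by positivity) hx2).1 h3
      refine h1.trans (le_of_eq ?_)
      rw [Measure.restrict_apply (hpm r₁), inter_eq_left.2 (hpart r₁)]
    have hlow : volume (K \ part K w c (b 0) h r₂) ≤ (volume.restrict K) {x | t ≤ -ξ x} := by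
      have h1 : (volume.restrict K) (K \ part K w c (b 0) h r₂) ≤
          (volume.restrict K) {x | t ≤ -ξ x} := by
        apply measure_mono_ae
        filter_upwards [hp1, hp2] with x hx1 hx2 hx
        show t ≤ -(Real.log (slk (b 0) h x) - Real.log (slk w c x) + L)
        have h4 : slk (b 0) h x ≤ r₂ * slk w c x := by
          by_contra hcon
          exact hx.2 ⟨hx.1, (not_le.1 hcon).le⟩
        have h3 : Real.log (slk (b 0) h x) ≤ Real.log (r₂ * slk w c x) :=
          (Real.log_le_log_iff hx2 (by positivity)).2 h4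
        rw [Real.log_mul hr₂0.ne' hx1.ne', hlog2] at h3
        linarith
      refine le_trans (le_of_eq ?_) h1
      rw [Measure.restrict_apply (hK.measurableSet.diff (hpm r₂)),
        inter_eq_left.2 sdiff_subset]
    refine hup.trans (le_trans ?_ hlow)
    rw [measure_sdiff (hpart r₂) (hpm r₂).nullMeasurableSet (hpf r₂)]
    have ho1 := odds b h hK hc h0 hh hs0 hw hs hr₁0
    have ho2 := odds b h hK hc h0 hh hs0 hw hs hr₂0
    rw [← hB, ← hVdef] at ho1 ho2
    set P₁ := pvol K w c (b 0) h r₁ with hP₁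
    set P₂ := pvol K w c (b 0) h r₂ with hP₂
    have e1 : r₁ * B * P₁ = V * (Real.exp t * P₁) := by rw [hr₁]; field_simp
    have e2 : r₂ * B * P₂ = V * (Real.exp (-t) * P₂) := by rw [hr₂]; field_simp
    rw [e1] at ho1
    rw [e2] at ho2
    have h5 : Real.exp t * P₁ ≤ V - P₁ := le_of_mul_le_mul_left ho1 hV
    have h6 : Real.exp (-t) * P₂ ≤ V - P₂ := le_of_mul_le_mul_left ho2 hV
    have hE : Real.exp (-t) * Real.exp t = 1 := by rw [← Real.exp_add]; simp
    have hE0 : 0 < Real.exp t := Real.exp_pos t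
    have h7 : P₁ ≤ V - P₂ := by
      have h8 : Real.exp t * (Real.exp (-t) * P₂) ≤ Real.exp t * (V - P₂) :=
        mul_le_mul_of_nonneg_left h6 hE0.le
      have h9 : Real.exp t * (Real.exp (-t) * P₂) = P₂ := by
        rw [← mul_assoc, mul_comm (Real.exp t), hE, one_mul]
      rw [h9] at h8
      have h10 : (1 + Real.exp t) * P₁ ≤ (1 + Real.exp t) * (V - P₂) := by nlinarith
      exact le_of_mul_le_mul_left h10 (by positivity)
    rw [← ENNReal.toReal_le_toReal (hpf r₁)
      (ne_top_of_le_ne_top hKfin tsub_le_self),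
      ENNReal.toReal_sub_of_le (measure_mono (hpart r₂)) hKfin]
    exact h7
  have hfin := integral_nonpos_of_tails hξi htails
  have hsplit : ∫ x in K, ξ x = (∫ x in K, Real.log (slk (b 0) h x)) -
      (∫ x in K, Real.log (slk w c x)) + V * L := by
    have e1 := integral_add (hi2.sub hi1) (integrable_const (μ := volume.restrict K) L)
    have e2 := integral_sub hi2 hi1
    simp only [Pi.sub_apply] at e1
    rw [e2] at e1
    refine Eq.trans e1 ?_
    simp [Measure.real, hVdef]
  rw [hsplit] at hfin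
  have h11 : L ≤ V⁻¹ * (∫ x in K, Real.log (slk w c x)) -
      V⁻¹ * (∫ x in K, Real.log (slk (b 0) h x)) := by
    rw [← mul_sub, ← div_eq_inv_mul, le_div_iff₀ hV]
    linarith
  have h12 : B / V ≤ Real.exp (V⁻¹ * (∫ x in K, Real.log (slk w c x)) -
      V⁻¹ * (∫ x in K, Real.log (slk (b 0) h x))) := by
    have h13 : 0 < B / V := by positivity
    rw [← Real.exp_log h13]
    exact Real.exp_le_exp.2 h11
  rw [Real.exp_sub, div_le_iff₀ hV] at h12
  calc B ≤ _ := h12
    _ = _ := by ring

end Pool.Agent.BM
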