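import Mathlib

/-!
# One chain of edges of a convex polygon

`R` is the finite set of the edges of one side, `c i` their slopes, `a i > 0` their relative
heights (with sum `1`), `D i = ∑ a j |c i - c j|`.
-/

set_option autoImplicit false

open Finset

namespace Pool.Agent.LogMinkowski

variable {ι : Type*}

/-- `∑ a j |c i - c j|`. -/
noncomputable def sD (R : Finset ι) (c a : ι → ℝ) (i : ι) : ℝ := ∑ j ∈ R, a j * |c i - c j|

/-- Relative height of the upper end of the edge `i`. -/
noncomputable def sUp (R : Finset ι) (c a : ι → ℝ) (i : ι) : ℝ :=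
  ∑ j ∈ R, if c j ≤ c i then a j else 0

/-- Relative height of the lower end of the edge `i`. -/
noncomputable def sLo (R : Finset ι) (c a : ι → ℝ) (i : ι) : ℝ :=
  ∑ j ∈ R, if c j < c i then a j else 0

variable {R : Finset ι} {c a : ι → ℝ}

theorem sUp_sub_sLo (hc : Set.InjOn c R) {i : ι} (hi : i ∈ R) :
    sUp R c a i = sLo R c a i + a i := by
  classical
  rw [sUp, sLo, ← Finset.add_sum_erase R _ hi, ← Finset.add_sum_erase R _ hi]
  simp only [le_refl, if_true, lt_irrefl, if_false, zero_add]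
  rw [add_comm (a i)]
  congr 1
  refine Finset.sum_congr rfl fun j hj => ?_
  have hne : c j ≠ c i := fun h => Finset.ne_of_mem_erase hj (hc (Finset.mem_of_mem_erase hj) hi h)
  by_cases h : c j < c i
  · rw [if_pos h.le, if_pos h]
  · rw [if_neg h, if_neg fun h' => h (lt_of_le_of_ne h' hne)]

theorem sLo_nonneg (ha : ∀ i ∈ R, 0 < a i) (i : ι) : 0 ≤ sLo R c a i :=
  Finset.sum_nonneg fun j hj => by
    split_ifs
    · exact (ha j hj).le
    · exact le_rfl

theorem sUp_le_one (ha : ∀ i ∈ R, 0 < a i) (h1 : ∑ i ∈ R, a i = 1) (i : ι) :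
    sUp R c a i ≤ 1 := by
  rw [← h1]
  refine Finset.sum_le_sum fun j hj => ?_
  split_ifs
  · exact le_rfl
  · exact (ha j hj).le

/-- Lower bound for `D k - D i` when `c i ≤ c k`. -/
theorem sD_up (ha : ∀ i ∈ R, 0 < a i) (h1 : ∑ i ∈ R, a i = 1) {i k : ι} (hik : c i ≤ c k) :
    (c k - c i) * (2 * sUp R c a i - 1) ≤ sD R c a k - sD R c a i := by
  have e : (c k - c i) * (2 * sUp R c a i - 1) =
      ∑ j ∈ R, (c k - c i) * (2 * (if c j ≤ c i then a j else 0) - a j) := by
    rw [← Finset.mul_sum, Finset.sum_sub_distrib, ← Finset.mul_sum, h1]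
    rfl
  rw [e, sD, sD, ← Finset.sum_sub_distrib]
  refine Finset.sum_le_sum fun j hj => ?_
  have haj := ha j hj
  rw [← mul_sub]
  split_ifs with h
  · rw [abs_of_nonneg (sub_nonneg.2 h), abs_of_nonneg (sub_nonneg.2 (h.trans hik))]
    nlinarith
  · have h2 : |c i - c j| - |c k - c j| ≤ c k - c i := by
      have h3 := abs_sub_abs_le_abs_sub (c i - c j) (c k - c j)
      have h4 : |c i - c j - (c k - c j)| = c k - c i := by
        rw [show c i - c j - (c k - c j) = -(c k - c i) by ring, abs_neg,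
          abs_of_nonneg (sub_nonneg.2 hik)]
      linarith
    nlinarith

/-- Lower bound for `D k - D i` when `c k ≤ c i`. -/
theorem sD_lo (ha : ∀ i ∈ R, 0 < a i) (h1 : ∑ i ∈ R, a i = 1) {i k : ι} (hik : c k ≤ c i) :
    (c k - c i) * (2 * sLo R c a i - 1) ≤ sD R c a k - sD R c a i := by
  have e : (c k - c i) * (2 * sLo R c a i - 1) =
      ∑ j ∈ R, (c k - c i) * (2 * (if c j < c i then a j else 0) - a j) := by
    rw [← Finset.mul_sum, Finset.sum_sub_distrib, ← Finset.mul_sum, h1]
    rfl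
  rw [e, sD, sD, ← Finset.sum_sub_distrib]
  refine Finset.sum_le_sum fun j hj => ?_
  have haj := ha j hj
  rw [← mul_sub]
  split_ifs with h
  · have h2 : |c i - c j| - |c k - c j| ≤ c i - c k := by
      have h3 := abs_sub_abs_le_abs_sub (c i - c j) (c k - c j)
      have h4 : |c i - c j - (c k - c j)| = c i - c k := by
        rw [show c i - c j - (c k - c j) = (c i - c k) by ring,
          abs_of_nonneg (sub_nonneg.2 hik)]
      linarith
    nlinarith
  · push Not at h
    rw [abs_of_nonpos (sub_nonpos.2 h), abs_of_nonpos (sub_nonpos.2 (hik.trans h))]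
    nlinarith

/-- Equality for the next edge above. -/
theorem sD_next (h1 : ∑ i ∈ R, a i = 1) {i k : ι} (hik : c i ≤ c k)
    (hn : ∀ j ∈ R, c j ≤ c i ∨ c k ≤ c j) :
    sD R c a k - sD R c a i = (c k - c i) * (2 * sUp R c a i - 1) := by
  have e : (c k - c i) * (2 * sUp R c a i - 1) =
      ∑ j ∈ R, (c k - c i) * (2 * (if c j ≤ c i then a j else 0) - a j) := by
    rw [← Finset.mul_sum, Finset.sum_sub_distrib, ← Finset.mul_sum, h1]
    rfl
  rw [e, sD, sD, ← Finset.sum_sub_distrib]
  refine Finset.sum_congr rfl fun j hj => ?_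
  rw [← mul_sub]
  split_ifs with h
  · rw [abs_of_nonneg (sub_nonneg.2 h), abs_of_nonneg (sub_nonneg.2 (h.trans hik))]
    ring
  · have h2 := (hn j hj).resolve_left h
    rw [abs_of_nonpos (sub_nonpos.2 h2), abs_of_nonpos (sub_nonpos.2 (hik.trans h2))]
    ring

/-- Equality for the next edge below. -/
theorem sD_prev (h1 : ∑ i ∈ R, a i = 1) {i k : ι} (hik : c k ≤ c i)
    (hn : ∀ j ∈ R, c i ≤ c j ∨ c j ≤ c k) :
    sD R c a k - sD R c a i = (c k - c i) * (2 * sLo R c a i - 1) := by
  have e : (c k - c i) * (2 * sLo R c a i - 1) =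
      ∑ j ∈ R, (c k - c i) * (2 * (if c j < c i then a j else 0) - a j) := by
    rw [← Finset.mul_sum, Finset.sum_sub_distrib, ← Finset.mul_sum, h1]
    rfl
  rw [e, sD, sD, ← Finset.sum_sub_distrib]
  refine Finset.sum_congr rfl fun j hj => ?_
  rw [← mul_sub]
  split_ifs with h
  · have h2 := (hn j hj).resolve_left (not_le.2 h)
    rw [abs_of_nonneg (sub_nonneg.2 h2), abs_of_nonneg (sub_nonneg.2 (h2.trans hik))]
    ring
  · push Not at h
    rw [abs_of_nonpos (sub_nonpos.2 h), abs_of_nonpos (sub_nonpos.2 (hik.trans h))]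
    ring

/-- Abscissa of the line of the edge `i` at the relative height `s ∈ [-1, 1]`. -/
noncomputable def sB (R : Finset ι) (c a : ι → ℝ) (μ d s : ℝ) (i : ι) : ℝ :=
  μ + d / 2 * (sD R c a i - s * c i)

variable {μ d s : ℝ}

/-- On the edge `i` its own line is the innermost one. -/
theorem sB_le (ha : ∀ i ∈ R, 0 < a i) (h1 : ∑ i ∈ R, a i = 1) (hd : 0 < d) {i : ι}
    (hlo : 2 * sLo R c a i - 1 ≤ s) (hup : s ≤ 2 * sUp R c a i - 1) (k : ι) :
    sB R c a μ d s i ≤ sB R c a μ d s k := by
  have key : 0 ≤ sD R c a k - sD R c a i - s * (c k - c i) := by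
    rcases le_total (c i) (c k) with h | h
    · have h2 := sD_up ha h1 h
      nlinarith
    · have h2 := sD_lo ha h1 h
      nlinarith
  have e : sB R c a μ d s k - sB R c a μ d s i =
      d / 2 * (sD R c a k - sD R c a i - s * (c k - c i)) := by
    rw [sB, sB]; ring
  have : 0 ≤ sB R c a μ d s k - sB R c a μ d s i := by rw [e]; positivity
  linarith

/-- Where the line of `i` is the innermost one, we are on the edge `i`. -/
theorem sB_min (hd : 0 < d) (h1 : ∑ i ∈ R, a i = 1)
    {i : ι} (hs1 : -1 ≤ s) (hs2 : s ≤ 1)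
    (hmin : ∀ k ∈ R, sB R c a μ d s i ≤ sB R c a μ d s k) :
    2 * sLo R c a i - 1 ≤ s ∧ s ≤ 2 * sUp R c a i - 1 := by
  classical
  constructor
  · by_contra hcon
    push Not at hcon
    by_cases hex : (R.filter fun k => c k < c i).Nonempty
    · obtain ⟨k, hk, hkmax⟩ := Finset.exists_max_image _ c hex
      rw [Finset.mem_filter] at hk
      have hn : ∀ j ∈ R, c i ≤ c j ∨ c j ≤ c k := by
        intro j hj
        by_cases hji : c i ≤ c j
        · exact Or.inl hji
        · exact Or.inr (hkmax j (Finset.mem_filter.2 ⟨hj, not_le.1 hji⟩))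
      have e := sD_prev (a := a) h1 hk.2.le hn
      have h2 := hmin k hk.1
      have e2 : sB R c a μ d s k - sB R c a μ d s i =
          d / 2 * ((c k - c i) * (2 * sLo R c a i - 1 - s)) := by
        rw [sB, sB]
        linear_combination d / 2 * e
      have h3 : 0 < d / 2 * ((c i - c k) * (2 * sLo R c a i - 1 - s)) := by
        have h4 : 0 < c i - c k := sub_pos.2 hk.2
        have h5 : 0 < 2 * sLo R c a i - 1 - s := sub_pos.2 hcon
        positivity
      nlinarith
    · rw [Finset.not_nonempty_iff_eq_empty, Finset.filter_eq_empty_iff] at hex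
      have : sLo R c a i = 0 := by
        rw [sLo]
        exact Finset.sum_eq_zero fun j hj => if_neg (hex hj)
      rw [this] at hcon
      linarith
  · by_contra hcon
    push Not at hcon
    by_cases hex : (R.filter fun k => c i < c k).Nonempty
    · obtain ⟨k, hk, hkmin⟩ := Finset.exists_min_image _ c hex
      rw [Finset.mem_filter] at hk
      have hn : ∀ j ∈ R, c j ≤ c i ∨ c k ≤ c j := by
        intro j hj
        by_cases hji : c j ≤ c i
        · exact Or.inl hji
        · exact Or.inr (hkmin j (Finset.mem_filter.2 ⟨hj, not_le.1 hji⟩))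
      have e := sD_next (a := a) h1 hk.2.le hn
      have h2 := hmin k hk.1
      have e2 : sB R c a μ d s k - sB R c a μ d s i =
          d / 2 * ((c k - c i) * (2 * sUp R c a i - 1 - s)) := by
        rw [sB, sB]
        linear_combination d / 2 * e
      have h3 : 0 < d / 2 * ((c k - c i) * (s - (2 * sUp R c a i - 1))) := by
        have h4 : 0 < c k - c i := sub_pos.2 hk.2
        have h5 : 0 < s - (2 * sUp R c a i - 1) := sub_pos.2 hcon
        positivity
      nlinarith
    · rw [Finset.not_nonempty_iff_eq_empty, Finset.filter_eq_empty_iff] at hex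
      have : sUp R c a i = 1 := by
        rw [sUp, ← h1]
        exact Finset.sum_congr rfl fun j hj => if_pos (not_lt.1 (hex hj))
      rw [this] at hcon
      linarith

/-- At every height there is an edge. -/
theorem exists_edge (hR : R.Nonempty) (hd : 0 < d) (h1 : ∑ i ∈ R, a i = 1)
    (hs1 : -1 ≤ s) (hs2 : s ≤ 1) :
    ∃ i ∈ R, 2 * sLo R c a i - 1 ≤ s ∧ s ≤ 2 * sUp R c a i - 1 := by
  obtain ⟨i, hi, hmin⟩ := Finset.exists_min_image R (sB R c a 0 d s) hR
  exact ⟨i, hi, sB_min hd h1 hs1 hs2 hmin⟩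

/-- Lower bound for the abscissa. -/
theorem sB_ge (ha : ∀ i ∈ R, 0 < a i) (h1 : ∑ i ∈ R, a i = 1) (hd : 0 < d) (hs1 : -1 ≤ s)
    (hs2 : s ≤ 1) (i : ι) :
    μ - d / 2 * (s * ∑ j ∈ R, a j * c j) ≤ sB R c a μ d s i := by
  have key : -(s * ∑ j ∈ R, a j * c j) ≤ sD R c a i - s * c i := by
    have e : sD R c a i - s * c i = ∑ j ∈ R, a j * (|c i - c j| - s * c i) := by
      rw [sD]
      simp only [mul_sub]
      rw [Finset.sum_sub_distrib]
      congr 1
      rw [← Finset.sum_mul, h1, one_mul]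
    have e2 : -(s * ∑ j ∈ R, a j * c j) = ∑ j ∈ R, a j * (-(s * c j)) := by
      rw [Finset.mul_sum, ← Finset.sum_neg_distrib]
      exact Finset.sum_congr rfl fun j _ => by ring
    rw [e, e2]
    refine Finset.sum_le_sum fun j hj => mul_le_mul_of_nonneg_left ?_ (ha j hj).le
    have h2 := le_abs_self (c i - c j)
    have h3 := neg_abs_le (c i - c j)
    nlinarith
  have h5 : d / 2 * -(s * ∑ j ∈ R, a j * c j) ≤ d / 2 * (sD R c a i - s * c i) :=
    mul_le_mul_of_nonneg_left key (by positivity)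
  rw [sB]
  linarith

/-- The abscissa at the top. -/
theorem exists_top (hR : R.Nonempty) (h1 : ∑ i ∈ R, a i = 1) :
    ∃ i ∈ R, sB R c a μ d 1 i = μ - d / 2 * ∑ j ∈ R, a j * c j := by
  obtain ⟨i, hi, hmax⟩ := Finset.exists_max_image R c hR
  refine ⟨i, hi, ?_⟩
  have e : sD R c a i = c i - ∑ j ∈ R, a j * c j := by
    have e2 : c i = ∑ j ∈ R, a j * c i := by rw [← Finset.sum_mul, h1, one_mul]
    rw [sD]
    conv_rhs => rw [e2]
    rw [← Finset.sum_sub_distrib]
    refine Finset.sum_congr rfl fun j hj => ?_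
    rw [abs_of_nonneg (sub_nonneg.2 (hmax j hj))]
    ring
  rw [sB, e]
  ring

/-- The abscissa at the bottom. -/
theorem exists_bot (hR : R.Nonempty) (h1 : ∑ i ∈ R, a i = 1) :
    ∃ i ∈ R, sB R c a μ d (-1) i = μ + d / 2 * ∑ j ∈ R, a j * c j := by
  obtain ⟨i, hi, hmin⟩ := Finset.exists_min_image R c hR
  refine ⟨i, hi, ?_⟩
  have e : sD R c a i = (∑ j ∈ R, a j * c j) - c i := by
    have e2 : c i = ∑ j ∈ R, a j * c i := by rw [← Finset.sum_mul, h1, one_mul]
    rw [sD]
    conv_rhs => rw [e2]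
    rw [← Finset.sum_sub_distrib]
    refine Finset.sum_congr rfl fun j hj => ?_
    rw [abs_of_nonpos (sub_nonpos.2 (hmin j hj))]
    ring
  rw [sB, e]
  ring

end Pool.Agent.LogMinkowski
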