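import Pool.Agent.Lib.MP_36b0a5_gt.PlPoly
import Pool.Agent.Lib.MP_36b0a5_gt.PlSide

/-!
# The polygon of a solution of the vertex height equations
-/

set_option autoImplicit false

open MeasureTheory Set Module
open scoped Pointwise ENNReal RealInnerProductSpace Topology

namespace Pool.Agent.LogMinkowski

variable {N : ℕ}

/-- The indices of the normals on the right. -/
noncomputable def rt (u : Fin N → E 2) : Finset (Fin N) := Finset.univ.filter fun i => 0 < u i 0

/-- The indices of the normals on the left. -/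
noncomputable def lf (u : Fin N → E 2) : Finset (Fin N) := Finset.univ.filter fun i => u i 0 < 0

/-- The slope of a normal. -/
noncomputable def slo (u : Fin N → E 2) (i : Fin N) : ℝ := u i 1 / |u i 0|

theorem mem_rt {u : Fin N → E 2} {i : Fin N} : i ∈ rt u ↔ 0 < u i 0 := by
  simp [rt]

theorem mem_lf {u : Fin N → E 2} {i : Fin N} : i ∈ lf u ↔ u i 0 < 0 := by
  simp [lf]

theorem slo_inj_aux {v w : E 2} (hv : ‖v‖ = 1) (hw : ‖w‖ = 1) (hs : 0 < v 0 * w 0)
    (h : v 1 / |v 0| = w 1 / |w 0|) : v = w := by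
  have hv2 : v 0 ^ 2 + v 1 ^ 2 = 1 := by rw [← norm_two_sq, hv]; norm_num
  have hw2 : w 0 ^ 2 + w 1 ^ 2 = 1 := by rw [← norm_two_sq, hw]; norm_num
  have hv0 : v 0 ≠ 0 := fun h => by rw [h, zero_mul] at hs; exact lt_irrefl _ hs
  have hw0 : w 0 ≠ 0 := fun h => by rw [h, mul_zero] at hs; exact lt_irrefl _ hs
  have hav : 0 < |v 0| := abs_pos.2 hv0
  have haw : 0 < |w 0| := abs_pos.2 hw0
  have h1 : v 1 * |w 0| = w 1 * |v 0| := by
    rw [div_eq_div_iff hav.ne' haw.ne'] at h
    linarith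
  have e1 : |v 0| ^ 2 = v 0 ^ 2 := sq_abs _
  have e2 : |w 0| ^ 2 = w 0 ^ 2 := sq_abs _
  have h2 : v 1 ^ 2 * w 0 ^ 2 = w 1 ^ 2 * v 0 ^ 2 := by
    rw [← e1, ← e2, ← mul_pow, ← mul_pow, h1]
  have h3 : w 0 ^ 2 = v 0 ^ 2 := by nlinarith
  have h4 : |v 0| = |w 0| := by
    rw [← sq_eq_sq₀ hav.le haw.le, e1, e2, h3]
  have h5 : v 1 = w 1 := by
    rw [h4] at h1
    exact mul_right_cancel₀ haw.ne' h1
  have h6 : v 0 = w 0 := by
    rcases lt_or_gt_of_ne hv0 with h | h
    · have : w 0 < 0 := by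
        by_contra hc
        push Not at hc
        nlinarith
      rw [abs_of_neg h, abs_of_neg this] at h4
      linarith
    · have : 0 < w 0 := by
        by_contra hc
        push Not at hc
        nlinarith
      rw [abs_of_pos h, abs_of_pos this] at h4
      exact h4
  ext i
  fin_cases i
  · exact h6
  · exact h5

theorem slo_injOn_rt {u : Fin N → E 2} (hu : ∀ i, ‖u i‖ = 1) (hinj : Function.Injective u) :
    Set.InjOn (slo u) (rt u) := by
  intro i hi k hk h
  rw [Finset.mem_coe, mem_rt] at hi hk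
  exact hinj (slo_inj_aux (hu i) (hu k) (mul_pos hi hk) h)

theorem slo_injOn_lf {u : Fin N → E 2} (hu : ∀ i, ‖u i‖ = 1) (hinj : Function.Injective u) :
    Set.InjOn (slo u) (lf u) := by
  intro i hi k hk h
  rw [Finset.mem_coe, mem_lf] at hi hk
  exact hinj (slo_inj_aux (hu i) (hu k) (mul_pos_of_neg_of_neg hi hk) h)

theorem sB_shift {ι : Type*} (R : Finset ι) (c a : ι → ℝ) (μ : ℝ) {d : ℝ} (hd : 0 < d)
    (η y : ℝ) (i : ι) :
    sB R c a μ d (2 * y / d + 1 - 2 * η) i = sB R c a μ d (1 - 2 * η) i - c i * y := by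
  rw [sB, sB]
  field_simp
  ring

/-- The abscissa function of the side of `i`. -/
noncomputable def bb (u : Fin N → E 2) (a : Fin N → ℝ) (μR μL d s : ℝ) (i : Fin N) : ℝ :=
  if 0 < u i 0 then sB (rt u) (slo u) a μR d s i else sB (lf u) (slo u) a μL d s i

/-- The sum of the slopes weighted with the heights. -/
noncomputable def bsum (u : Fin N → E 2) (a : Fin N → ℝ) : ℝ :=
  (∑ j ∈ rt u, a j * slo u j) + ∑ j ∈ lf u, a j * slo u j

/-- **Construction of the polygon.** -/
theorem exists_polygon (u : Fin N → E 2) (hu : ∀ i, ‖u i‖ = 1) (hinj : Function.Injective u)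
    (p q : Fin N) (hp0 : u p 0 = 0) (hp1 : u p 1 = 1) (hq0 : u q 0 = 0) (hq1 : u q 1 = -1)
    (hside : ∀ i, i ≠ p → i ≠ q → u i 0 ≠ 0) (a : Fin N → ℝ) (ha : ∀ i, u i 0 ≠ 0 → 0 < a i)
    (hR : ∑ i ∈ rt u, a i = 1) (hL : ∑ i ∈ lf u, a i = 1) {d η μR μL : ℝ} (hd : 0 < d)
    (hη0 : 0 < η) (hη1 : η < 1) (hg : ∀ i, u i 0 ≠ 0 → 0 < bb u a μR μL d (1 - 2 * η) i)
    (hX1 : 0 < μR + μL - d / 2 * bsum u a) (hX2 : 0 < μR + μL + d / 2 * bsum u a)
    (V : Fin N → ℝ) (hVp : V p = d * η * (μR + μL - d / 2 * bsum u a) / 2)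
    (hVq : V q = d * (1 - η) * (μR + μL + d / 2 * bsum u a) / 2)
    (hV : ∀ i, u i 0 ≠ 0 → V i = bb u a μR μL d (1 - 2 * η) i * (d * a i) / 2) :
    ∃ P : Set (E 2), Realises u V P := by
  classical
  have hpq : p ≠ q := by
    rintro rfl
    rw [hp1] at hq1
    norm_num at hq1
  have haR : ∀ i ∈ rt u, 0 < a i := fun i hi => ha i (mem_rt.1 hi).ne'
  have haL : ∀ i ∈ lf u, 0 < a i := fun i hi => ha i (mem_lf.1 hi).ne
  have hRne : (rt u).Nonempty := by
    by_contra h
    rw [Finset.not_nonempty_iff_eq_empty] at h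
    rw [h, Finset.sum_empty] at hR
    norm_num at hR
  have hLne : (lf u).Nonempty := by
    by_contra h
    rw [Finset.not_nonempty_iff_eq_empty] at h
    rw [h, Finset.sum_empty] at hL
    norm_num at hL
  set c := slo u with hc
  set BR := ∑ j ∈ rt u, a j * c j with hBR
  set BL := ∑ j ∈ lf u, a j * c j with hBL
  have hbs : bsum u a = BR + BL := rfl
  rw [hbs] at hX1 hX2 hVp hVq
  set fR : ℝ → Fin N → ℝ := fun s i => sB (rt u) c a μR d s i with hfR
  set fL : ℝ → Fin N → ℝ := fun s i => sB (lf u) c a μL d s i with hfL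
  -- the width is positive
  have hwidth : ∀ s, -1 ≤ s → s ≤ 1 → ∀ i k, 0 < fR s i + fL s k := by
    intro s hs1 hs2 i k
    have h1 := sB_ge (μ := μR) haR hR hd hs1 hs2 i (c := c)
    have h2 := sB_ge (μ := μL) haL hL hd hs1 hs2 k (c := c)
    have h3 : (μR - d / 2 * (s * BR)) + (μL - d / 2 * (s * BL)) =
        (1 + s) / 2 * (μR + μL - d / 2 * (BR + BL)) +
          (1 - s) / 2 * (μR + μL + d / 2 * (BR + BL)) := by ring
    have h4 : 0 < (1 + s) / 2 * (μR + μL - d / 2 * (BR + BL)) +
          (1 - s) / 2 * (μR + μL + d / 2 * (BR + BL)) := by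
      rcases eq_or_lt_of_le hs1 with h | h
      · rw [← h]
        have : (1 - (-1 : ℝ)) / 2 = 1 := by norm_num
        rw [this]
        have h0 : (1 + (-1 : ℝ)) / 2 = 0 := by norm_num
        rw [h0]
        linarith
      · have h5 : 0 < (1 + s) / 2 := by linarith
        have h6 : 0 ≤ (1 - s) / 2 := by linarith
        have h7 := mul_pos h5 hX1
        have h8 := mul_nonneg h6 hX2.le
        linarith
    simp only [hfR, hfL]
    linarith
  -- support numbers
  set h : Fin N → ℝ := fun i => if i = p then d * η else if i = q then d * (1 - η) else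
    |u i 0| * bb u a μR μL d (1 - 2 * η) i with hh
  have hhp : h p = d * η := by simp [hh]
  have hhq : h q = d * (1 - η) := by simp [hh, hpq.symm]
  have hhi : ∀ i, u i 0 ≠ 0 → h i = |u i 0| * bb u a μR μL d (1 - 2 * η) i := by
    intro i hi
    have h1 : i ≠ p := by rintro rfl; exact hi hp0
    have h2 : i ≠ q := by rintro rfl; exact hi hq0
    simp [hh, h1, h2]
  have hhpos : ∀ i, 0 < h i := by
    intro i
    by_cases hi : u i 0 = 0
    · by_cases h1 : i = p
      · rw [h1, hhp]; positivity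
      · by_cases h2 : i = q
        · rw [h2, hhq]
          have : 0 < 1 - η := by linarith
          positivity
        · exact absurd hi (hside i h1 h2)
    · rw [hhi i hi]
      exact mul_pos (abs_pos.2 hi) (hg i hi)
  -- relative height
  set sx : E 2 → ℝ := fun x => 2 * x 1 / d + 1 - 2 * η with hsx
  have hsx1 : ∀ x : E 2, x 1 ≤ d * η ↔ sx x ≤ 1 := by
    intro x
    simp only [hsx]
    rw [show 2 * x 1 / d + 1 - 2 * η ≤ 1 ↔ x 1 / d ≤ η from
      ⟨fun h => by linarith [mul_div_assoc 2 (x 1) d], fun h => by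
        linarith [mul_div_assoc 2 (x 1) d]⟩, div_le_iff₀ hd, mul_comm]
  have hsx2 : ∀ x : E 2, -(d * (1 - η)) ≤ x 1 ↔ -1 ≤ sx x := by
    intro x
    simp only [hsx]
    rw [show -1 ≤ 2 * x 1 / d + 1 - 2 * η ↔ -(1 - η) ≤ x 1 / d from
      ⟨fun h => by linarith [mul_div_assoc 2 (x 1) d], fun h => by
        linarith [mul_div_assoc 2 (x 1) d]⟩, le_div_iff₀ hd]
    constructor <;> intro h <;> linarith
  have hmem : ∀ x : E 2, (∀ i, ⟪u i, x⟫ ≤ h i) ↔ (x 1 ≤ d * η ∧ -(d * (1 - η)) ≤ x 1 ∧
      (∀ i ∈ rt u, x 0 ≤ fR (sx x) i) ∧ ∀ i ∈ lf u, -x 0 ≤ fL (sx x) i) := by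
    intro x
    have ip : ⟪u p, x⟫ = x 1 := by rw [inner_two, hp0, hp1]; ring
    have iq : ⟪u q, x⟫ = -x 1 := by rw [inner_two, hq0, hq1]; ring
    have iR : ∀ i ∈ rt u, (⟪u i, x⟫ ≤ h i ↔ x 0 ≤ fR (sx x) i) := by
      intro i hi
      have hi' := mem_rt.1 hi
      rw [hhi i hi'.ne', bb, if_pos hi', inner_two, abs_of_pos hi']
      simp only [hfR, hsx]
      rw [sB_shift _ _ _ _ hd]
      have hci : c i = u i 1 / u i 0 := by rw [hc, slo, abs_of_pos hi']
      have e : u i 0 * x 0 + u i 1 * x 1 = u i 0 * (x 0 + c i * x 1) := by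
        rw [hci]; field_simp
      rw [e, mul_le_mul_iff_right₀ hi']
      exact le_sub_iff_add_le.symm
    have iL : ∀ i ∈ lf u, (⟪u i, x⟫ ≤ h i ↔ -x 0 ≤ fL (sx x) i) := by
      intro i hi
      have hi' := mem_lf.1 hi
      rw [hhi i hi'.ne, bb, if_neg (not_lt.2 hi'.le), inner_two, abs_of_neg hi']
      simp only [hfL, hsx]
      rw [sB_shift _ _ _ _ hd]
      have hci : c i = u i 1 / -u i 0 := by rw [hc, slo, abs_of_neg hi']
      have hne : u i 0 ≠ 0 := hi'.ne
      have e : u i 0 * x 0 + u i 1 * x 1 = -u i 0 * (-x 0 + c i * x 1) := by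
        rw [hci]; field_simp; ring
      rw [e, mul_le_mul_iff_right₀ (neg_pos.2 hi')]
      exact le_sub_iff_add_le.symm
    constructor
    · intro hx
      refine ⟨?_, ?_, fun i hi => (iR i hi).1 (hx i), fun i hi => (iL i hi).1 (hx i)⟩
      · have := hx p
        rwa [ip, hhp] at this
      · have := hx q
        rw [iq, hhq] at this
        linarith
    · rintro ⟨h1, h2, h3, h4⟩ i
      by_cases hip : i = p
      · rw [hip, ip, hhp]; exact h1
      · by_cases hiq : i = q
        · rw [hiq, iq, hhq]; linarith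
        · rcases lt_or_gt_of_ne (hside i hip hiq) with h | h
          · exact (iL i (mem_lf.2 h)).2 (h4 i (mem_lf.2 h))
          · exact (iR i (mem_rt.2 h)).2 (h3 i (mem_rt.2 h))
  -- points on the lines
  set Y : ℝ → ℝ := fun s => d * ((1 + s) / 2 - (1 - η)) with hY
  set ptR : Fin N → ℝ → E 2 := fun i s => WithLp.toLp 2 ![fR s i, Y s] with hptR
  set ptL : Fin N → ℝ → E 2 := fun i s => WithLp.toLp 2 ![-fL s i, Y s] with hptL
  have hsY : ∀ s, 2 * Y s / d + 1 - 2 * η = s := by
    intro s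
    simp only [hY]
    field_simp
    ring
  have hptR0 : ∀ i s, ptR i s 0 = fR s i := fun i s => rfl
  have hptR1 : ∀ i s, ptR i s 1 = Y s := fun i s => rfl
  have hptL0 : ∀ i s, ptL i s 0 = -fL s i := fun i s => rfl
  have hptL1 : ∀ i s, ptL i s 1 = Y s := fun i s => rfl
  have hsR : ∀ i s, sx (ptR i s) = s := fun i s => hsY s
  have hsL : ∀ i s, sx (ptL i s) = s := fun i s => hsY s
  have hYs : ∀ x : E 2, Y (sx x) = x 1 := by
    intro x
    simp only [hY, hsx]
    field_simp
    ring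
  have hptRP : ∀ i ∈ rt u, ∀ s, -1 ≤ s → s ≤ 1 → 2 * sLo (rt u) c a i - 1 ≤ s →
      s ≤ 2 * sUp (rt u) c a i - 1 → ∀ j, ⟪u j, ptR i s⟫ ≤ h j := by
    intro i hi s hs1 hs2 hs3 hs4
    rw [hmem]
    refine ⟨(hsx1 _).2 (by rw [hsR]; exact hs2), (hsx2 _).2 (by rw [hsR]; exact hs1), ?_, ?_⟩
    · intro k _
      rw [hsR, hptR0]
      exact sB_le haR hR hd hs3 hs4 k
    · intro k _
      rw [hsR, hptR0]
      linarith [hwidth s hs1 hs2 i k]
  have hptLP : ∀ i ∈ lf u, ∀ s, -1 ≤ s → s ≤ 1 → 2 * sLo (lf u) c a i - 1 ≤ s →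
      s ≤ 2 * sUp (lf u) c a i - 1 → ∀ j, ⟪u j, ptL i s⟫ ≤ h j := by
    intro i hi s hs1 hs2 hs3 hs4
    rw [hmem]
    refine ⟨(hsx1 _).2 (by rw [hsL]; exact hs2), (hsx2 _).2 (by rw [hsL]; exact hs1), ?_, ?_⟩
    · intro k _
      rw [hsL, hptL0]
      linarith [hwidth s hs1 hs2 k i]
    · intro k _
      rw [hsL, hptL0, neg_neg]
      exact sB_le haL hL hd hs3 hs4 k
  have hloR : ∀ i, -1 ≤ 2 * sLo (rt u) c a i - 1 := fun i => by
    have := sLo_nonneg (c := c) haR i; linarith
  have hloL : ∀ i, -1 ≤ 2 * sLo (lf u) c a i - 1 := fun i => by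
    have := sLo_nonneg (c := c) haL i; linarith
  have hupR : ∀ i, 2 * sUp (rt u) c a i - 1 ≤ 1 := fun i => by
    have := sUp_le_one (c := c) haR hR i; linarith
  have hupL : ∀ i, 2 * sUp (lf u) c a i - 1 ≤ 1 := fun i => by
    have := sUp_le_one (c := c) haL hL i; linarith
  have hgapR : ∀ i ∈ rt u, sUp (rt u) c a i = sLo (rt u) c a i + a i := fun i hi =>
    sUp_sub_sLo (slo_injOn_rt hu hinj) hi
  have hgapL : ∀ i ∈ lf u, sUp (lf u) c a i = sLo (lf u) c a i + a i := fun i hi =>
    sUp_sub_sLo (slo_injOn_lf hu hinj) hi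
  -- the ends of the top and the bottom
  obtain ⟨tR, htR, htR'⟩ := exists_top (μ := μR) (d := d) (c := c) hRne hR
  obtain ⟨tL, htL, htL'⟩ := exists_top (μ := μL) (d := d) (c := c) hLne hL
  obtain ⟨oR, hoR, hoR'⟩ := exists_bot (μ := μR) (d := d) (c := c) hRne hR
  obtain ⟨oL, hoL, hoL'⟩ := exists_bot (μ := μL) (d := d) (c := c) hLne hL
  set TR : E 2 := WithLp.toLp 2 ![μR - d / 2 * BR, d * η] with hTR
  set TL : E 2 := WithLp.toLp 2 ![-(μL - d / 2 * BL), d * η] with hTL
  set OR : E 2 := WithLp.toLp 2 ![μR + d / 2 * BR, -(d * (1 - η))] with hOR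
  set OL : E 2 := WithLp.toLp 2 ![-(μL + d / 2 * BL), -(d * (1 - η))] with hOL
  have hTR0 : TR 0 = μR - d / 2 * BR := rfl
  have hTR1 : TR 1 = d * η := rfl
  have hTL0 : TL 0 = -(μL - d / 2 * BL) := rfl
  have hTL1 : TL 1 = d * η := rfl
  have hOR0 : OR 0 = μR + d / 2 * BR := rfl
  have hOR1 : OR 1 = -(d * (1 - η)) := rfl
  have hOL0 : OL 0 = -(μL + d / 2 * BL) := rfl
  have hOL1 : OL 1 = -(d * (1 - η)) := rfl
  have hstop : ∀ x : E 2, x 1 = d * η → sx x = 1 := by
    intro x hx
    simp only [hsx, hx]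
    field_simp
    ring
  have hsbot : ∀ x : E 2, x 1 = -(d * (1 - η)) → sx x = -1 := by
    intro x hx
    simp only [hsx, hx]
    field_simp
    ring
  have hgeR1 : ∀ k, μR - d / 2 * BR ≤ fR 1 k := fun k => by
    have := sB_ge (μ := μR) haR hR hd (by norm_num : (-1 : ℝ) ≤ 1) le_rfl k (c := c)
    simp only [one_mul] at this
    exact this
  have hgeL1 : ∀ k, μL - d / 2 * BL ≤ fL 1 k := fun k => by
    have := sB_ge (μ := μL) haL hL hd (by norm_num : (-1 : ℝ) ≤ 1) le_rfl k (c := c)
    simp only [one_mul] at this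
    exact this
  have hgeR2 : ∀ k, μR + d / 2 * BR ≤ fR (-1) k := fun k => by
    have := sB_ge (μ := μR) haR hR hd (le_refl (-1 : ℝ)) (by norm_num) k (c := c)
    have e : μR - d / 2 * (-1 * ∑ j ∈ rt u, a j * c j) = μR + d / 2 * BR := by rw [hBR]; ring
    rw [e] at this
    exact this
  have hgeL2 : ∀ k, μL + d / 2 * BL ≤ fL (-1) k := fun k => by
    have := sB_ge (μ := μL) haL hL hd (le_refl (-1 : ℝ)) (by norm_num) k (c := c)
    have e : μL - d / 2 * (-1 * ∑ j ∈ lf u, a j * c j) = μL + d / 2 * BL := by rw [hBL]; ring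
    rw [e] at this
    exact this
  have hdd : -(d * (1 - η)) ≤ d * η := by nlinarith
  have hTRP : ∀ j, ⟪u j, TR⟫ ≤ h j := by
    rw [hmem]
    refine ⟨le_of_eq hTR1, by rw [hTR1]; exact hdd, ?_, ?_⟩
    · intro k _
      rw [hstop _ hTR1, hTR0]
      exact hgeR1 k
    · intro k _
      rw [hstop _ hTR1, hTR0]
      linarith [hgeL1 k]
  have hTLP : ∀ j, ⟪u j, TL⟫ ≤ h j := by
    rw [hmem]
    refine ⟨le_of_eq hTL1, by rw [hTL1]; exact hdd, ?_, ?_⟩
    · intro k _
      rw [hstop _ hTL1, hTL0]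
      linarith [hgeR1 k]
    · intro k _
      rw [hstop _ hTL1, hTL0, neg_neg]
      exact hgeL1 k
  have hORP : ∀ j, ⟪u j, OR⟫ ≤ h j := by
    rw [hmem]
    refine ⟨by rw [hOR1]; exact hdd, le_of_eq hOR1.symm, ?_, ?_⟩
    · intro k _
      rw [hsbot _ hOR1, hOR0]
      exact hgeR2 k
    · intro k _
      rw [hsbot _ hOR1, hOR0]
      linarith [hgeL2 k]
  have hOLP : ∀ j, ⟪u j, OL⟫ ≤ h j := by
    rw [hmem]
    refine ⟨by rw [hOL1]; exact hdd, le_of_eq hOL1.symm, ?_, ?_⟩
    · intro k _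
      rw [hsbot _ hOL1, hOL0]
      linarith [hgeR2 k]
    · intro k _
      rw [hsbot _ hOL1, hOL0, neg_neg]
      exact hgeL2 k
  -- the ends of the edges
  set A : Fin N → E 2 := fun i => if i = p then TR else if i = q then OL else
    if 0 < u i 0 then ptR i (2 * sLo (rt u) c a i - 1) else ptL i (2 * sLo (lf u) c a i - 1)
    with hA
  set B : Fin N → E 2 := fun i => if i = p then TL else if i = q then OR else
    if 0 < u i 0 then ptR i (2 * sUp (rt u) c a i - 1) else ptL i (2 * sUp (lf u) c a i - 1)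
    with hB
  have hAp : A p = TR := by simp [hA]
  have hAq : A q = OL := by simp [hA, hpq.symm]
  have hBp : B p = TL := by simp [hB]
  have hBq : B q = OR := by simp [hB, hpq.symm]
  have hAR : ∀ i ∈ rt u, A i = ptR i (2 * sLo (rt u) c a i - 1) := by
    intro i hi
    have h0 := mem_rt.1 hi
    have h1 : i ≠ p := by rintro rfl; rw [hp0] at h0; exact lt_irrefl _ h0
    have h2 : i ≠ q := by rintro rfl; rw [hq0] at h0; exact lt_irrefl _ h0
    simp [hA, h1, h2, h0]
  have hBR' : ∀ i ∈ rt u, B i = ptR i (2 * sUp (rt u) c a i - 1) := by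
    intro i hi
    have h0 := mem_rt.1 hi
    have h1 : i ≠ p := by rintro rfl; rw [hp0] at h0; exact lt_irrefl _ h0
    have h2 : i ≠ q := by rintro rfl; rw [hq0] at h0; exact lt_irrefl _ h0
    simp [hB, h1, h2, h0]
  have hAL : ∀ i ∈ lf u, A i = ptL i (2 * sLo (lf u) c a i - 1) := by
    intro i hi
    have h0 := mem_lf.1 hi
    have h1 : i ≠ p := by rintro rfl; rw [hp0] at h0; exact lt_irrefl _ h0
    have h2 : i ≠ q := by rintro rfl; rw [hq0] at h0; exact lt_irrefl _ h0
    simp [hA, h1, h2, not_lt.2 h0.le]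
  have hBL' : ∀ i ∈ lf u, B i = ptL i (2 * sUp (lf u) c a i - 1) := by
    intro i hi
    have h0 := mem_lf.1 hi
    have h1 : i ≠ p := by rintro rfl; rw [hp0] at h0; exact lt_irrefl _ h0
    have h2 : i ≠ q := by rintro rfl; rw [hq0] at h0; exact lt_irrefl _ h0
    simp [hB, h1, h2, not_lt.2 h0.le]
  have htri : ∀ i : Fin N, i = p ∨ i = q ∨ i ∈ rt u ∨ i ∈ lf u := by
    intro i
    by_cases h1 : i = p
    · exact Or.inl h1
    · by_cases h2 : i = q
      · exact Or.inr (Or.inl h2)
      · rcases lt_or_gt_of_ne (hside i h1 h2) with h | h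
        · exact Or.inr (Or.inr (Or.inr (mem_lf.2 h)))
        · exact Or.inr (Or.inr (Or.inl (mem_rt.2 h)))
  have hAP : ∀ i j, ⟪u j, A i⟫ ≤ h j := by
    intro i
    rcases htri i with rfl | rfl | hi | hi
    · rw [hAp]; exact hTRP
    · rw [hAq]; exact hOLP
    · rw [hAR i hi]
      have h1 := hgapR i hi
      have h2 := haR i hi
      exact hptRP i hi _ (hloR i) (by linarith [hupR i]) le_rfl (by linarith)
    · rw [hAL i hi]
      have h1 := hgapL i hi
      have h2 := haL i hi
      exact hptLP i hi _ (hloL i) (by linarith [hupL i]) le_rfl (by linarith)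
  have hBP : ∀ i j, ⟪u j, B i⟫ ≤ h j := by
    intro i
    rcases htri i with rfl | rfl | hi | hi
    · rw [hBp]; exact hTLP
    · rw [hBq]; exact hORP
    · rw [hBR' i hi]
      have h1 := hgapR i hi
      have h2 := haR i hi
      exact hptRP i hi _ (by linarith [hloR i]) (hupR i) (by linarith) le_rfl
    · rw [hBL' i hi]
      have h1 := hgapL i hi
      have h2 := haL i hi
      exact hptLP i hi _ (by linarith [hloL i]) (hupL i) (by linarith) le_rfl
  set S : Finset (E 2) := Finset.univ.image A ∪ Finset.univ.image B with hS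
  have hAS : ∀ i, A i ∈ convexHull ℝ (S : Set (E 2)) := fun i =>
    subset_convexHull ℝ _ (by simp [hS])
  have hBS : ∀ i, B i ∈ convexHull ℝ (S : Set (E 2)) := fun i =>
    subset_convexHull ℝ _ (by simp [hS])
  -- a point between two points of a line `{(f s i, Y s)}`
  have hline : ∀ (b e : ℝ) (s₁ s₂ s : ℝ), s₁ < s₂ → s₁ ≤ s → s ≤ s₂ →
      (WithLp.toLp 2 ![b + s * e, Y s] : E 2) ∈ segment ℝ
        (WithLp.toLp 2 ![b + s₁ * e, Y s₁] : E 2) (WithLp.toLp 2 ![b + s₂ * e, Y s₂] : E 2) := by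
    intro b e s₁ s₂ s h12 h1 h2
    have h3 : 0 < s₂ - s₁ := by linarith
    refine ⟨(s₂ - s) / (s₂ - s₁), (s - s₁) / (s₂ - s₁), div_nonneg (by linarith) h3.le,
      div_nonneg (by linarith) h3.le, by field_simp; ring, ?_⟩
    ext j
    fin_cases j
    · simp
      field_simp
      ring
    · simp [hY]
      field_simp
      ring
  have hlineR : ∀ i s₁ s₂ s, s₁ < s₂ → s₁ ≤ s → s ≤ s₂ →
      ptR i s ∈ segment ℝ (ptR i s₁) (ptR i s₂) := by
    intro i s₁ s₂ s h12 h1 h2
    have e : ∀ s, ptR i s = WithLp.toLp 2 ![(μR + d / 2 * sD (rt u) c a i) + s * (-(d / 2 * c i)),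
        Y s] := by
      intro s
      simp only [hptR, hfR, sB]
      congr 2
      ring
    rw [e, e, e]
    exact hline _ _ _ _ _ h12 h1 h2
  have hlineL : ∀ i s₁ s₂ s, s₁ < s₂ → s₁ ≤ s → s ≤ s₂ →
      ptL i s ∈ segment ℝ (ptL i s₁) (ptL i s₂) := by
    intro i s₁ s₂ s h12 h1 h2
    have e : ∀ s, ptL i s = WithLp.toLp 2 ![(-(μL + d / 2 * sD (lf u) c a i)) + s * (d / 2 * c i),
        Y s] := by
      intro s
      simp only [hptL, hfL, sB]
      congr 2
      ring
    rw [e, e, e]
    exact hline _ _ _ _ _ h12 h1 h2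
  have hPconv : Convex ℝ {x : E 2 | ∀ i, ⟪u i, x⟫ ≤ h i} := by
    intro x hx y hy r t hr ht hrt i
    rw [inner_add_right, real_inner_smul_right, real_inner_smul_right]
    have h1 := mul_le_mul_of_nonneg_left (hx i) hr
    have h2 := mul_le_mul_of_nonneg_left (hy i) ht
    have h3 : h i = r * h i + t * h i := by rw [← add_mul, hrt, one_mul]
    linarith
  -- horizontal segments
  have hhor : ∀ (x₁ x₂ x y : ℝ), x₁ ≤ x → x ≤ x₂ →
      (WithLp.toLp 2 ![x, y] : E 2) ∈ segment ℝ (WithLp.toLp 2 ![x₁, y] : E 2)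
        (WithLp.toLp 2 ![x₂, y] : E 2) := by
    intro x₁ x₂ x y h1 h2
    rcases eq_or_lt_of_le (h1.trans h2) with h | h
    · have : x = x₁ := le_antisymm (h2.trans h.symm.le) h1
      rw [this]
      exact left_mem_segment ℝ _ _
    · have h3 : 0 < x₂ - x₁ := by linarith
      refine ⟨(x₂ - x) / (x₂ - x₁), (x - x₁) / (x₂ - x₁), div_nonneg (by linarith) h3.le,
        div_nonneg (by linarith) h3.le, by field_simp; ring, ?_⟩
      ext j
      fin_cases j
      · simp
        field_simp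
        ring
      · simp
        field_simp
        ring
  have hxe : ∀ x : E 2, x = WithLp.toLp 2 ![x 0, x 1] := by
    intro x
    ext j
    fin_cases j <;> rfl
  refine ⟨{x | ∀ i, ⟪u i, x⟫ ≤ h i}, realises_planar u hu h hhpos A B S ?_ ?_ ?_ V ?_⟩
  · -- the polygon is the convex hull of its vertices
    apply subset_antisymm
    · intro x hx
      have hx' := (hmem x).1 hx
      obtain ⟨h1, h2, h3, h4⟩ := hx'
      have hs1 := (hsx2 x).1 h2
      have hs2 := (hsx1 x).1 h1
      obtain ⟨i, hi, hi1, hi2⟩ := exists_edge (c := c) hRne hd hR hs1 hs2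
      obtain ⟨k, hk, hk1, hk2⟩ := exists_edge (c := c) hLne hd hL hs1 hs2
      have hri : ptR i (sx x) ∈ convexHull ℝ (S : Set (E 2)) := by
        have h5 := hlineR i _ _ _ (by have := hgapR i hi; have := haR i hi; linarith) hi1 hi2
        rw [← hAR i hi, ← hBR' i hi] at h5
        exact (convex_convexHull ℝ _).segment_subset (hAS i) (hBS i) h5
      have hlk : ptL k (sx x) ∈ convexHull ℝ (S : Set (E 2)) := by
        have h5 := hlineL k _ _ _ (by have := hgapL k hk; have := haL k hk; linarith) hk1 hk2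
        rw [← hAL k hk, ← hBL' k hk] at h5
        exact (convex_convexHull ℝ _).segment_subset (hAS k) (hBS k) h5
      have h6 : x ∈ segment ℝ (ptL k (sx x)) (ptR i (sx x)) := by
        rw [hxe x]
        have h7 := hhor (-fL (sx x) k) (fR (sx x) i) (x 0) (x 1) (by linarith [h4 k hk])
          (h3 i hi)
        have e1 : ptL k (sx x) = WithLp.toLp 2 ![-fL (sx x) k, x 1] := by
          simp only [hptL]; rw [hYs]
        have e2 : ptR i (sx x) = WithLp.toLp 2 ![fR (sx x) i, x 1] := by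
          simp only [hptR]; rw [hYs]
        rw [← hxe x, e1, e2]
        rw [← hxe x] at h7
        exact h7
      exact (convex_convexHull ℝ _).segment_subset hlk hri h6
    · refine convexHull_min ?_ hPconv
      intro x hx
      rw [Finset.mem_coe, hS, Finset.mem_union, Finset.mem_image, Finset.mem_image] at hx
      rcases hx with ⟨i, _, rfl⟩ | ⟨i, _, rfl⟩
      · exact hAP i
      · exact hBP i
  · -- the edges
    intro i
    have hsub : ⟪u i, A i⟫ = h i → ⟪u i, B i⟫ = h i →
        segment ℝ (A i) (B i) ⊆ {x : E 2 | (∀ j, ⟪u j, x⟫ ≤ h j) ∧ ⟪u i, x⟫ = h i} := by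
      rintro e1 e2 _ ⟨r, t, hr, ht, hrt, rfl⟩
      refine ⟨hPconv (hAP i) (hBP i) hr ht hrt, ?_⟩
      rw [inner_add_right, real_inner_smul_right, real_inner_smul_right, e1, e2, ← add_mul, hrt,
        one_mul]
    rcases htri i with hi | hi | hi | hi
    · subst hi
      apply subset_antisymm
      · rintro x ⟨hx1, hx2⟩
        rw [inner_two, hp0, hp1, hhp] at hx2
        have hx3 : x 1 = d * η := by linarith
        obtain ⟨_, _, h3, h4⟩ := (hmem x).1 hx1
        have h5 := h3 tR htR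
        have h6 := h4 tL htL
        rw [hstop x hx3] at h5 h6
        simp only [hfR] at h5
        simp only [hfL] at h6
        rw [htR'] at h5
        rw [htL'] at h6
        rw [hAp, hBp, segment_symm]
        have h7 := hhor (-(μL - d / 2 * BL)) (μR - d / 2 * BR) (x 0) (x 1) (by linarith) h5
        rw [← hxe x, hx3] at h7
        exact h7
      · apply hsub
        · rw [hAp, inner_two, hp0, hp1, hTR1, hhp]; ring
        · rw [hBp, inner_two, hp0, hp1, hTL1, hhp]; ring
    · subst hi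
      apply subset_antisymm
      · rintro x ⟨hx1, hx2⟩
        rw [inner_two, hq0, hq1, hhq] at hx2
        have hx3 : x 1 = -(d * (1 - η)) := by linarith
        obtain ⟨_, _, h3, h4⟩ := (hmem x).1 hx1
        have h5 := h3 oR hoR
        have h6 := h4 oL hoL
        rw [hsbot x hx3] at h5 h6
        simp only [hfR] at h5
        simp only [hfL] at h6
        rw [hoR'] at h5
        rw [hoL'] at h6
        rw [hAq, hBq]
        have h7 := hhor (-(μL + d / 2 * BL)) (μR + d / 2 * BR) (x 0) (x 1) (by linarith) h5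
        rw [← hxe x, hx3] at h7
        exact h7
      · apply hsub
        · rw [hAq, inner_two, hq0, hq1, hOL1, hhq]; ring
        · rw [hBq, inner_two, hq0, hq1, hOR1, hhq]; ring
    · have hi' := mem_rt.1 hi
      have hci : c i = u i 1 / u i 0 := by rw [hc, slo, abs_of_pos hi']
      have honl : ∀ x : E 2, ⟪u i, x⟫ = h i ↔ x 0 = fR (sx x) i := by
        intro x
        rw [hhi i hi'.ne', bb, if_pos hi', inner_two, abs_of_pos hi']
        simp only [hfR, hsx]
        rw [sB_shift _ _ _ _ hd]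
        have e : u i 0 * x 0 + u i 1 * x 1 = u i 0 * (x 0 + c i * x 1) := by
          rw [hci]; field_simp
        rw [e, mul_right_inj' hi'.ne']
        exact eq_sub_iff_add_eq.symm
      apply subset_antisymm
      · rintro x ⟨hx1, hx2⟩
        rw [honl] at hx2
        obtain ⟨h1, h2, h3, _⟩ := (hmem x).1 hx1
        have hs1 := (hsx2 x).1 h2
        have hs2 := (hsx1 x).1 h1
        have h5 : ∀ k ∈ rt u, sB (rt u) c a μR d (sx x) i ≤ sB (rt u) c a μR d (sx x) k := by
          intro k hk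
          have := h3 k hk
          rw [hx2] at this
          exact this
        obtain ⟨h6, h7⟩ := sB_min hd hR hs1 hs2 h5
        have h8 := hlineR i _ _ _ (by have := hgapR i hi; have := haR i hi; linarith) h6 h7
        rw [← hAR i hi, ← hBR' i hi] at h8
        have e : ptR i (sx x) = x := by
          simp only [hptR]
          rw [← hx2, hYs]
          exact (hxe x).symm
        rwa [e] at h8
      · apply hsub
        · rw [honl, hAR i hi, hsR, hptR0]
        · rw [honl, hBR' i hi, hsR, hptR0]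
    · have hi' := mem_lf.1 hi
      have hne : u i 0 ≠ 0 := hi'.ne
      have hci : c i = u i 1 / -u i 0 := by rw [hc, slo, abs_of_neg hi']
      have honl : ∀ x : E 2, ⟪u i, x⟫ = h i ↔ -x 0 = fL (sx x) i := by
        intro x
        rw [hhi i hi'.ne, bb, if_neg (not_lt.2 hi'.le), inner_two, abs_of_neg hi']
        simp only [hfL, hsx]
        rw [sB_shift _ _ _ _ hd]
        have e : u i 0 * x 0 + u i 1 * x 1 = -u i 0 * (-x 0 + c i * x 1) := by
          rw [hci]; field_simp; ring
        rw [e, mul_right_inj' (neg_pos.2 hi').ne']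
        exact eq_sub_iff_add_eq.symm
      apply subset_antisymm
      · rintro x ⟨hx1, hx2⟩
        rw [honl] at hx2
        obtain ⟨h1, h2, _, h4⟩ := (hmem x).1 hx1
        have hs1 := (hsx2 x).1 h2
        have hs2 := (hsx1 x).1 h1
        have h5 : ∀ k ∈ lf u, sB (lf u) c a μL d (sx x) i ≤ sB (lf u) c a μL d (sx x) k := by
          intro k hk
          have := h4 k hk
          rw [hx2] at this
          exact this
        obtain ⟨h6, h7⟩ := sB_min hd hL hs1 hs2 h5
        have h8 := hlineL i _ _ _ (by have := hgapL i hi; have := haL i hi; linarith) h6 h7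
        rw [← hAL i hi, ← hBL' i hi] at h8
        have e : ptL i (sx x) = x := by
          simp only [hptL]
          rw [← hx2, hYs, neg_neg]
          exact (hxe x).symm
        rwa [e] at h8
      · apply hsub
        · rw [honl, hAL i hi, hsL, hptL0, neg_neg]
        · rw [honl, hBL' i hi, hsL, hptL0, neg_neg]
  · -- the edges are not degenerate
    intro i
    rcases htri i with hi | hi | hi | hi
    · subst hi
      rw [hAp, hBp]
      intro h1
      have h2 : TR 0 = TL 0 := by rw [h1]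
      rw [hTR0, hTL0] at h2
      nlinarith
    · subst hi
      rw [hAq, hBq]
      intro h1
      have h2 : OL 0 = OR 0 := by rw [h1]
      rw [hOL0, hOR0] at h2
      nlinarith
    · rw [hAR i hi, hBR' i hi]
      intro h1
      have h2 := congrArg sx h1
      rw [hsR, hsR] at h2
      have h3 := hgapR i hi
      have h4 := haR i hi
      linarith
    · rw [hAL i hi, hBL' i hi]
      intro h1
      have h2 := congrArg sx h1
      rw [hsL, hsL] at h2
      have h3 := hgapL i hi
      have h4 := haL i hi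
      linarith
  · -- the areas
    intro i
    rcases htri i with hi | hi | hi | hi
    · subst hi
      rw [hAp, hBp, hTR0, hTR1, hTL0, hTL1, hVp]
      have e : (μR - d / 2 * BR) * (d * η) - d * η * -(μL - d / 2 * BL) =
          d * η * (μR + μL - d / 2 * (BR + BL)) := by ring
      rw [e, abs_of_pos (by positivity)]
    · subst hi
      rw [hAq, hBq, hOL0, hOL1, hOR0, hOR1, hVq]
      have e : -(μL + d / 2 * BL) * -(d * (1 - η)) - -(d * (1 - η)) * (μR + d / 2 * BR) =
          d * (1 - η) * (μR + μL + d / 2 * (BR + BL)) := by ring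
      have h1 : 0 < 1 - η := by linarith
      rw [e, abs_of_pos (by positivity)]
    · have hi' := mem_rt.1 hi
      rw [hV i hi'.ne', hAR i hi, hBR' i hi, hptR0, hptR1, hptR0, hptR1]
      have hgi := hg i hi'.ne'
      rw [bb, if_pos hi'] at hgi ⊢
      have h3 := hgapR i hi
      have h4 := haR i hi
      have e : fR (2 * sLo (rt u) c a i - 1) i * Y (2 * sUp (rt u) c a i - 1) -
          Y (2 * sLo (rt u) c a i - 1) * fR (2 * sUp (rt u) c a i - 1) i =
          sB (rt u) c a μR d (1 - 2 * η) i * (d * a i) := by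
        simp only [hfR, hY, sB]
        rw [h3]
        ring
      rw [e, abs_of_pos (by positivity)]
    · have hi' := mem_lf.1 hi
      rw [hV i hi'.ne, hAL i hi, hBL' i hi, hptL0, hptL1, hptL0, hptL1]
      have hgi := hg i hi'.ne
      rw [bb, if_neg (not_lt.2 hi'.le)] at hgi ⊢
      have h3 := hgapL i hi
      have h4 := haL i hi
      have e : -fL (2 * sLo (lf u) c a i - 1) i * Y (2 * sUp (lf u) c a i - 1) -
          Y (2 * sLo (lf u) c a i - 1) * -fL (2 * sUp (lf u) c a i - 1) i =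
          -(sB (lf u) c a μL d (1 - 2 * η) i * (d * a i)) := by
        simp only [hfL, hY, sB]
        rw [h3]
        ring
      rw [e, abs_neg, abs_of_pos (by positivity)]

end Pool.Agent.LogMinkowski
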