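import Pool.Agent.Lib.MP_36b0a5_gt.PlVar

/-!
# First order conditions
-/

set_option autoImplicit false

open Set Filter
open scoped Topology

namespace Pool.Agent.LogMinkowski

variable {N : ℕ}

/-- The linear part of `csum`. -/
noncomputable def clin (u : Fin N → E 2) (a v : Fin N → ℝ) : ℝ :=
  ∑ i ∈ rt u, v i * sD (rt u) (slo u) a i + ∑ i ∈ lf u, v i * sD (lf u) (slo u) a i

theorem sD_symm {ι : Type*} (R : Finset ι) (c a v : ι → ℝ) :
    ∑ i ∈ R, a i * sD R c v i = ∑ i ∈ R, v i * sD R c a i := by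
  simp only [sD, Finset.mul_sum]
  rw [Finset.sum_comm]
  refine Finset.sum_congr rfl fun i _ => Finset.sum_congr rfl fun j _ => ?_
  rw [abs_sub_comm]
  ring

theorem sD_line {ι : Type*} (R : Finset ι) (c a v : ι → ℝ) (ε : ℝ) :
    ∑ i ∈ R, (a i + ε * v i) * sD R c (fun j => a j + ε * v j) i =
      ∑ i ∈ R, a i * sD R c a i + 2 * ε * ∑ i ∈ R, v i * sD R c a i +
        ε ^ 2 * ∑ i ∈ R, v i * sD R c v i := by
  have h1 : ∀ i, sD R c (fun j => a j + ε * v j) i = sD R c a i + ε * sD R c v i := by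
    intro i
    simp only [sD, Finset.mul_sum, ← Finset.sum_add_distrib]
    exact Finset.sum_congr rfl fun j _ => by ring
  have h2 : ∑ i ∈ R, (a i + ε * v i) * sD R c (fun j => a j + ε * v j) i =
      ∑ i ∈ R, a i * sD R c a i + ε * ∑ i ∈ R, a i * sD R c v i +
        ε * ∑ i ∈ R, v i * sD R c a i + ε ^ 2 * ∑ i ∈ R, v i * sD R c v i := by
    simp only [Finset.mul_sum, ← Finset.sum_add_distrib]
    refine Finset.sum_congr rfl fun i _ => ?_
    rw [h1]
    ring
  rw [h2, sD_symm R c a v]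
  ring

theorem qq_line (u : Fin N → E 2) (a v : Fin N → ℝ) (η ε : ℝ) :
    qq u (fun j => a j + ε * v j) η =
      qq u a η + ε * ((1 - 2 * η) * bsum u v - clin u a v) - ε ^ 2 * csum u v := by
  have h1 : bsum u (fun j => a j + ε * v j) = bsum u a + ε * bsum u v := by
    simp only [bsum, mul_add, Finset.mul_sum, add_mul, Finset.sum_add_distrib]
    have e1 : ∑ x ∈ rt u, ε * v x * slo u x = ∑ i ∈ rt u, ε * (v i * slo u i) :=
      Finset.sum_congr rfl fun j _ => by ring
    have e2 : ∑ x ∈ lf u, ε * v x * slo u x = ∑ i ∈ lf u, ε * (v i * slo u i) :=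
      Finset.sum_congr rfl fun j _ => by ring
    rw [e1, e2]
    ring
  have h2 : csum u (fun j => a j + ε * v j) =
      csum u a + ε * clin u a v + ε ^ 2 * csum u v := by
    simp only [csum, clin]
    rw [sD_line, sD_line]
    ring
  rw [qq, qq, h1, h2]
  ring

/-- The condition of Lagrange for two edges on the same side, in integrated form. -/
theorem crit_dir {u : Fin N → E 2} {V : Fin N → ℝ} {p q : Fin N} {κ : ℝ} {a : Fin N → ℝ} {η : ℝ}
    (ha : Adm u a) (hq : 0 < qq u a η)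
    (hmax : ∀ a', Adm u a' → 0 < qq u a' η → thet u V p q κ a' η ≤ thet u V p q κ a η)
    (v : Fin N → ℝ) (hvR : ∑ i ∈ rt u, v i = 0) (hvL : ∑ i ∈ lf u, v i = 0) :
    κ * (((1 - 2 * η) * bsum u v - clin u a v) / qq u a η) +
      ∑ i ∈ sd u, 2 * V i * (v i / a i) = 0 := by
  set m := (1 - 2 * η) * bsum u v - clin u a v with hm
  set φ : ℝ → ℝ := fun ε => thet u V p q κ (fun j => a j + ε * v j) η with hφ
  have hqd : HasDerivAt (fun ε : ℝ => qq u (fun j => a j + ε * v j) η) m 0 := by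
    have e : (fun ε : ℝ => qq u (fun j => a j + ε * v j) η) =
        fun ε => qq u a η + ε * m - ε ^ 2 * csum u v := by
      funext ε
      exact qq_line u a v η ε
    rw [e]
    have h1 : HasDerivAt (fun ε : ℝ => qq u a η + ε * m - ε ^ 2 * csum u v)
        (0 + 1 * m - ((2 : ℕ) * (0 : ℝ) ^ (2 - 1)) * csum u v) 0 :=
      (((hasDerivAt_const (0 : ℝ) (qq u a η)).add ((hasDerivAt_id (0 : ℝ)).mul_const m))).sub
        ((hasDerivAt_pow 2 (0 : ℝ)).mul_const (csum u v))
    convert h1 using 1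
    simp
  have hq0 : qq u (fun j => a j + 0 * v j) η = qq u a η := by simp
  have hlogd : HasDerivAt (fun ε : ℝ => Real.log (qq u (fun j => a j + ε * v j) η))
      (m / qq u a η) 0 := by
    have h1 := hqd.log (by rw [hq0]; exact hq.ne')
    rwa [hq0] at h1
  have hterm : ∀ i ∈ sd u, HasDerivAt (fun ε : ℝ => 2 * V i * Real.log (a i + ε * v i))
      (2 * V i * (v i / a i)) 0 := by
    intro i hi
    have h1 : HasDerivAt (fun ε : ℝ => a i + ε * v i) (v i) 0 := by
      have h2 := ((hasDerivAt_id (0 : ℝ)).mul_const (v i)).const_add (a i)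
      rw [one_mul] at h2
      exact h2
    have h3 := h1.log (by
      show a i + 0 * v i ≠ 0
      rw [zero_mul, add_zero]; exact (ha.pos i hi).ne')
    have h4 := h3.const_mul (2 * V i)
    simp only [zero_mul, add_zero] at h4
    exact h4
  have hsum : HasDerivAt (fun ε : ℝ => ∑ i ∈ sd u, 2 * V i * Real.log (a i + ε * v i))
      (∑ i ∈ sd u, 2 * V i * (v i / a i)) 0 := by
    have h1 := HasDerivAt.fun_sum (u := sd u)
      (A := fun i (ε : ℝ) => 2 * V i * Real.log (a i + ε * v i))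
      (A' := fun i => 2 * V i * (v i / a i)) (x := (0 : ℝ)) hterm
    exact h1
  have hder : HasDerivAt φ (κ * (m / qq u a η) + ∑ i ∈ sd u, 2 * V i * (v i / a i)) 0 := by
    have h1 := ((hlogd.const_mul κ).add hsum).sub_const (2 * V p * Real.log η)
    have h2 := h1.sub_const (2 * V q * Real.log (1 - η))
    exact h2
  have hposev : ∀ᶠ ε : ℝ in 𝓝 0, ∀ i ∈ sd u, 0 < a i + ε * v i := by
    rw [Filter.eventually_all_finset]
    intro i hi
    have hc : Continuous fun ε : ℝ => a i + ε * v i := by fun_prop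
    exact (hc.continuousAt (x := (0 : ℝ))).eventually (lt_mem_nhds (by simpa using ha.pos i hi))
  have hqev : ∀ᶠ ε : ℝ in 𝓝 0, 0 < qq u (fun j => a j + ε * v j) η :=
    hqd.continuousAt.eventually (lt_mem_nhds (by
      show 0 < qq u (fun j => a j + 0 * v j) η
      rw [hq0]; exact hq))
  have hloc : IsLocalMax φ 0 := by
    filter_upwards [hposev, hqev] with ε h1 h2
    have h3 : Adm u (fun j => a j + ε * v j) := by
      refine ⟨h1, ?_, ?_⟩
      · rw [Finset.sum_add_distrib, ← Finset.mul_sum, hvR, ha.sumR]; ring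
      · rw [Finset.sum_add_distrib, ← Finset.mul_sum, hvL, ha.sumL]; ring
    have h4 := hmax _ h3 h2
    simp only [hφ]
    simpa using h4
  exact hloc.hasDerivAt_eq_zero hder

theorem sum_dir {ι : Type*} [DecidableEq ι] (S : Finset ι) (i k : ι) (f : ι → ℝ) :
    ∑ j ∈ S, ((if j = i then (1 : ℝ) else 0) - (if j = k then 1 else 0)) * f j =
      (if i ∈ S then f i else 0) - (if k ∈ S then f k else 0) := by
  simp only [sub_mul, Finset.sum_sub_distrib, ite_mul, one_mul, zero_mul, Finset.sum_ite_eq']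

theorem sum_dir' {ι : Type*} [DecidableEq ι] (S : Finset ι) (i k : ι) :
    ∑ j ∈ S, ((if j = i then (1 : ℝ) else 0) - (if j = k then 1 else 0)) =
      (if i ∈ S then (1 : ℝ) else 0) - (if k ∈ S then 1 else 0) := by
  simp only [Finset.sum_sub_distrib, Finset.sum_ite_eq']

/-- The expression which is constant on each side. -/
noncomputable def lag (u : Fin N → E 2) (V : Fin N → ℝ) (κ : ℝ) (R : Finset (Fin N))
    (a : Fin N → ℝ) (η : ℝ) (i : Fin N) : ℝ :=
  κ / qq u a η * ((1 - 2 * η) * slo u i - sD R (slo u) a i) + 2 * V i / a i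

theorem crit_pair_R {u : Fin N → E 2} {V : Fin N → ℝ} {p q : Fin N} {κ : ℝ} {a : Fin N → ℝ}
    {η : ℝ} (ha : Adm u a) (hq : 0 < qq u a η)
    (hmax : ∀ a', Adm u a' → 0 < qq u a' η → thet u V p q κ a' η ≤ thet u V p q κ a η)
    {i k : Fin N} (hi : i ∈ rt u) (hk : k ∈ rt u) :
    lag u V κ (rt u) a η i = lag u V κ (rt u) a η k := by
  classical
  have hi' : i ∉ lf u := Finset.disjoint_left.1 (rt_lf_disjoint u) hi
  have hk' : k ∉ lf u := Finset.disjoint_left.1 (rt_lf_disjoint u) hk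
  have h := crit_dir (κ := κ) ha hq hmax
    (fun j => (if j = i then (1 : ℝ) else 0) - (if j = k then 1 else 0))
    (by rw [sum_dir', if_pos hi, if_pos hk]; ring) (by rw [sum_dir', if_neg hi', if_neg hk']; ring)
  have e1 : bsum u (fun j => (if j = i then (1 : ℝ) else 0) - (if j = k then 1 else 0)) =
      slo u i - slo u k := by
    rw [bsum, sum_dir, sum_dir, if_pos hi, if_pos hk, if_neg hi', if_neg hk']
    ring
  have e2 : clin u a (fun j => (if j = i then (1 : ℝ) else 0) - (if j = k then 1 else 0)) =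
      sD (rt u) (slo u) a i - sD (rt u) (slo u) a k := by
    rw [clin, sum_dir, sum_dir, if_pos hi, if_pos hk, if_neg hi', if_neg hk']
    ring
  have e3 : ∑ j ∈ sd u, 2 * V j * (((if j = i then (1 : ℝ) else 0) - (if j = k then 1 else 0)) /
      a j) = 2 * V i / a i - 2 * V k / a k := by
    have : ∑ j ∈ sd u, 2 * V j * (((if j = i then (1 : ℝ) else 0) - (if j = k then 1 else 0)) /
        a j) = ∑ j ∈ sd u, ((if j = i then (1 : ℝ) else 0) - (if j = k then 1 else 0)) *
          (2 * V j / a j) := Finset.sum_congr rfl fun j _ => by ring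
    rw [this, sum_dir, if_pos (rt_sub_sd u hi), if_pos (rt_sub_sd u hk)]
  rw [e1, e2, e3] at h
  rw [lag, lag]
  have hqne : qq u a η ≠ 0 := hq.ne'
  have h2 : κ * (((1 - 2 * η) * (slo u i - slo u k) -
      (sD (rt u) (slo u) a i - sD (rt u) (slo u) a k)) / qq u a η) =
      κ / qq u a η * ((1 - 2 * η) * slo u i - sD (rt u) (slo u) a i) -
      κ / qq u a η * ((1 - 2 * η) * slo u k - sD (rt u) (slo u) a k) := by
    field_simp
    ring
  rw [h2] at h
  linarith

theorem crit_pair_L {u : Fin N → E 2} {V : Fin N → ℝ} {p q : Fin N} {κ : ℝ} {a : Fin N → ℝ}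
    {η : ℝ} (ha : Adm u a) (hq : 0 < qq u a η)
    (hmax : ∀ a', Adm u a' → 0 < qq u a' η → thet u V p q κ a' η ≤ thet u V p q κ a η)
    {i k : Fin N} (hi : i ∈ lf u) (hk : k ∈ lf u) :
    lag u V κ (lf u) a η i = lag u V κ (lf u) a η k := by
  classical
  have hi' : i ∉ rt u := Finset.disjoint_right.1 (rt_lf_disjoint u) hi
  have hk' : k ∉ rt u := Finset.disjoint_right.1 (rt_lf_disjoint u) hk
  have h := crit_dir (κ := κ) ha hq hmax
    (fun j => (if j = i then (1 : ℝ) else 0) - (if j = k then 1 else 0))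
    (by rw [sum_dir', if_neg hi', if_neg hk']; ring) (by rw [sum_dir', if_pos hi, if_pos hk]; ring)
  have e1 : bsum u (fun j => (if j = i then (1 : ℝ) else 0) - (if j = k then 1 else 0)) =
      slo u i - slo u k := by
    rw [bsum, sum_dir, sum_dir, if_pos hi, if_pos hk, if_neg hi', if_neg hk']
    ring
  have e2 : clin u a (fun j => (if j = i then (1 : ℝ) else 0) - (if j = k then 1 else 0)) =
      sD (lf u) (slo u) a i - sD (lf u) (slo u) a k := by
    rw [clin, sum_dir, sum_dir, if_pos hi, if_pos hk, if_neg hi', if_neg hk']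
    ring
  have e3 : ∑ j ∈ sd u, 2 * V j * (((if j = i then (1 : ℝ) else 0) - (if j = k then 1 else 0)) /
      a j) = 2 * V i / a i - 2 * V k / a k := by
    have : ∑ j ∈ sd u, 2 * V j * (((if j = i then (1 : ℝ) else 0) - (if j = k then 1 else 0)) /
        a j) = ∑ j ∈ sd u, ((if j = i then (1 : ℝ) else 0) - (if j = k then 1 else 0)) *
          (2 * V j / a j) := Finset.sum_congr rfl fun j _ => by ring
    rw [this, sum_dir, if_pos (lf_sub_sd u hi), if_pos (lf_sub_sd u hk)]
  rw [e1, e2, e3] at h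
  rw [lag, lag]
  have hqne : qq u a η ≠ 0 := hq.ne'
  have h2 : κ * (((1 - 2 * η) * (slo u i - slo u k) -
      (sD (lf u) (slo u) a i - sD (lf u) (slo u) a k)) / qq u a η) =
      κ / qq u a η * ((1 - 2 * η) * slo u i - sD (lf u) (slo u) a i) -
      κ / qq u a η * ((1 - 2 * η) * slo u k - sD (lf u) (slo u) a k) := by
    field_simp
    ring
  rw [h2] at h
  linarith

theorem nonpos_of_right {f : ℝ → ℝ} {f' x : ℝ} (h : HasDerivAt f f' x)
    (hm : ∀ᶠ y in 𝓝[>] x, f y ≤ f x) : f' ≤ 0 := by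
  have h1 : Tendsto (slope f x) (𝓝[>] x) (𝓝 f') :=
    (hasDerivAt_iff_tendsto_slope.1 h).mono_left
      (nhdsWithin_mono _ fun y hy => ne_of_gt (mem_Ioi.1 hy))
  refine le_of_tendsto h1 ?_
  filter_upwards [hm, self_mem_nhdsWithin] with y hy hy2
  rw [slope_def_field]
  have h3 : 0 < y - x := sub_pos.2 hy2
  exact div_nonpos_of_nonpos_of_nonneg (by linarith) h3.le

theorem nonneg_of_left {f : ℝ → ℝ} {f' x : ℝ} (h : HasDerivAt f f' x)
    (hm : ∀ᶠ y in 𝓝[<] x, f y ≤ f x) : 0 ≤ f' := by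
  have h1 : Tendsto (slope f x) (𝓝[<] x) (𝓝 f') :=
    (hasDerivAt_iff_tendsto_slope.1 h).mono_left
      (nhdsWithin_mono _ fun y hy => ne_of_lt (mem_Iio.1 hy))
  refine ge_of_tendsto h1 ?_
  filter_upwards [hm, self_mem_nhdsWithin] with y hy hy2
  rw [slope_def_field]
  have h3 : y - x < 0 := sub_neg.2 hy2
  exact div_nonneg_of_nonpos (by linarith) h3.le

theorem hasDerivAt_thet {u : Fin N → E 2} {V : Fin N → ℝ} {p q : Fin N} {κ : ℝ} {a : Fin N → ℝ}
    {η : ℝ} (hq : 0 < qq u a η) (hη : 0 < η) (hη1 : η < 1) :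
    HasDerivAt (fun t => thet u V p q κ a t)
      (2 * (V q / (1 - η) - V p / η - κ * bsum u a / qq u a η)) η := by
  have h1 : HasDerivAt (fun t : ℝ => qq u a t) (-2 * bsum u a) η := by
    have e : (fun t : ℝ => qq u a t) = fun t => (1 - 2 * t) * bsum u a - csum u a := rfl
    rw [e]
    have h2 : HasDerivAt (fun t : ℝ => 1 - 2 * t) (-2) η := by
      have h3 := ((hasDerivAt_id η).const_mul (2 : ℝ)).const_sub 1
      rw [mul_one] at h3
      exact h3
    exact (h2.mul_const (bsum u a)).sub_const (csum u a)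
  have h2 := (h1.log hq.ne').const_mul κ
  have h3 := (Real.hasDerivAt_log hη.ne').const_mul (2 * V p)
  have h4 : HasDerivAt (fun t : ℝ => Real.log (1 - t)) (-1 / (1 - η)) η := by
    have h5 := ((hasDerivAt_id η).const_sub 1)
    have h6 : (0 : ℝ) < 1 - η := by linarith
    exact h5.log h6.ne'
  have h5 := h4.const_mul (2 * V q)
  have h6 := ((h2.add_const (∑ i ∈ sd u, 2 * V i * Real.log (a i))).sub h3).sub h5
  have e : κ * (-2 * bsum u a / qq u a η) - 2 * V p * η⁻¹ - 2 * V q * (-1 / (1 - η)) =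
      2 * (V q / (1 - η) - V p / η - κ * bsum u a / qq u a η) := by
    have h7 : (1 - η) ≠ 0 := by linarith
    have h8 : qq u a η ≠ 0 := hq.ne'
    field_simp
    ring
  rw [e] at h6
  exact h6

/-- **Existence of a critical point.** -/
theorem exists_crit (u : Fin N → E 2) {V : Fin N → ℝ} (hV : ∀ i, 0 < V i) (p q : Fin N)
    {κ ηb : ℝ} (hκ : 0 < κ) (hη : 0 < ηb) (hη2 : ηb < 1 / 2) {a₀ : Fin N → ℝ} (ha₀ : Adm u a₀)
    (hq₀ : 0 < qq u a₀ ηb)
    (star : ∀ a, Adm u a → 0 < qq u a ηb →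
      (∀ a', Adm u a' → 0 < qq u a' ηb → thet u V p q κ a' ηb ≤ thet u V p q κ a ηb) →
      κ * bsum u a / qq u a ηb ≤ V q / (1 - ηb) - V p / ηb) :
    ∃ a η, Adm u a ∧ 0 < η ∧ η < 1 / 2 ∧ 0 < qq u a η ∧
      (∀ i ∈ rt u, ∀ k ∈ rt u, lag u V κ (rt u) a η i = lag u V κ (rt u) a η k) ∧
      (∀ i ∈ lf u, ∀ k ∈ lf u, lag u V κ (lf u) a η i = lag u V κ (lf u) a η k) ∧
      κ * bsum u a / qq u a η = V q / (1 - η) - V p / η := by
  obtain ⟨a, η, ha, h1, h2, hq, hmax⟩ := exists_max u hV p q hκ hη hη2 ha₀ hq₀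
  have hη0 : 0 < η := hη.trans_le h1
  have hmax' : ∀ a', Adm u a' → 0 < qq u a' η → thet u V p q κ a' η ≤ thet u V p q κ a η :=
    fun a' ha' hq' => hmax a' η ha' h1 h2 hq'
  have hd := hasDerivAt_thet (V := V) (p := p) (q := q) (κ := κ) hq hη0 (by linarith)
  have hqev : ∀ᶠ t in 𝓝 η, 0 < qq u a t := by
    have hc : Continuous fun t : ℝ => qq u a t :=
      (continuous_qq u).comp (continuous_const.prodMk continuous_id)
    exact hc.continuousAt.eventually (lt_mem_nhds hq)
  have hle : V q / (1 - η) - V p / η - κ * bsum u a / qq u a η ≤ 0 := by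
    have h3 := nonpos_of_right hd (by
      have h4 : ∀ᶠ t in 𝓝[>] η, 0 < qq u a t := hqev.filter_mono nhdsWithin_le_nhds
      have h5 : ∀ᶠ t in 𝓝[>] η, t < 1 / 2 :=
        nhdsWithin_le_nhds (Iio_mem_nhds h2)
      filter_upwards [h4, h5, self_mem_nhdsWithin] with t ht1 ht2 ht3
      exact hmax a t ha (h1.trans (le_of_lt ht3)) ht2 ht1)
    linarith
  have hge : 0 ≤ V q / (1 - η) - V p / η - κ * bsum u a / qq u a η := by
    rcases eq_or_lt_of_le h1 with h | h
    · have h3 := star a ha (by rw [h]; exact hq) (by rw [h]; exact hmax')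
      rw [h] at h3
      linarith
    · have h3 := nonneg_of_left hd (by
        have h4 : ∀ᶠ t in 𝓝[<] η, 0 < qq u a t := hqev.filter_mono nhdsWithin_le_nhds
        have h5 : ∀ᶠ t in 𝓝[<] η, ηb < t :=
          nhdsWithin_le_nhds (Ioi_mem_nhds h)
        filter_upwards [h4, h5, self_mem_nhdsWithin] with t ht1 ht2 ht3
        exact hmax a t ha ht2.le ((mem_Iio.1 ht3).trans h2) ht1)
      linarith
  exact ⟨a, η, ha, hη0, h2, hq, fun i hi k hk => crit_pair_R ha hq hmax' hi hk,
    fun i hi k hk => crit_pair_L ha hq hmax' hi hk, by linarith⟩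

end Pool.Agent.LogMinkowski
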