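import Pool.Agent.Lib.MP_36b0a5_gt.PlTri

/-!
# Convex polygons given by half planes
-/

set_option autoImplicit false

open MeasureTheory Set Module
open scoped Pointwise ENNReal RealInnerProductSpace Topology

namespace Pool.Agent.LogMinkowski

theorem inner_two (x y : E 2) : ⟪x, y⟫ = x 0 * y 0 + x 1 * y 1 := by
  rw [PiLp.inner_apply]
  simp [Fin.sum_univ_two]
  ring

theorem norm_two_sq (x : E 2) : ‖x‖ ^ 2 = x 0 ^ 2 + x 1 ^ 2 := by
  rw [← real_inner_self_eq_norm_sq, inner_two]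
  ring

/-- Two unit vectors of the plane orthogonal to the same nonzero vector. -/
theorem unit_orth {u v w : E 2} (hu : ‖u‖ = 1) (hv : ‖v‖ = 1) (hw : w ≠ 0)
    (h1 : ⟪u, w⟫ = 0) (h2 : ⟪v, w⟫ = 0) : v = u ∨ v = -u := by
  have hu2 : u 0 ^ 2 + u 1 ^ 2 = 1 := by rw [← norm_two_sq, hu]; norm_num
  have hv2 : v 0 ^ 2 + v 1 ^ 2 = 1 := by rw [← norm_two_sq, hv]; norm_num
  rw [inner_two] at h1 h2
  have hd : u 0 * v 1 - u 1 * v 0 = 0 := by
    have e0 : (u 0 * v 1 - u 1 * v 0) * w 0 = 0 := by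
      linear_combination v 1 * h1 - u 1 * h2
    have e1 : (u 0 * v 1 - u 1 * v 0) * w 1 = 0 := by
      linear_combination -v 0 * h1 + u 0 * h2
    by_contra hne
    apply hw
    ext i
    fin_cases i
    · simpa using (mul_eq_zero.1 e0).resolve_left hne
    · simpa using (mul_eq_zero.1 e1).resolve_left hne
  have hs : (u 0 * v 0 + u 1 * v 1) ^ 2 = 1 := by
    have : (u 0 * v 0 + u 1 * v 1) ^ 2 + (u 0 * v 1 - u 1 * v 0) ^ 2 = 1 := by
      calc _ = (u 0 ^ 2 + u 1 ^ 2) * (v 0 ^ 2 + v 1 ^ 2) := by ring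
        _ = 1 := by rw [hu2, hv2]; norm_num
    rw [hd] at this
    linarith
  have hs' : (u 0 * v 0 + u 1 * v 1 - 1) * (u 0 * v 0 + u 1 * v 1 + 1) = 0 := by
    linear_combination hs
  rcases mul_eq_zero.1 hs' with h | h
  · left
    have h3 : (v 0 - u 0) ^ 2 + (v 1 - u 1) ^ 2 = 0 := by
      linear_combination hu2 + hv2 - 2 * h
    have h4 : v 0 - u 0 = 0 := by nlinarith [sq_nonneg (v 0 - u 0), sq_nonneg (v 1 - u 1)]
    have h5 : v 1 - u 1 = 0 := by nlinarith [sq_nonneg (v 0 - u 0), sq_nonneg (v 1 - u 1)]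
    ext i
    fin_cases i
    · simpa [sub_eq_zero] using h4
    · simpa [sub_eq_zero] using h5
  · right
    have h3 : (v 0 + u 0) ^ 2 + (v 1 + u 1) ^ 2 = 0 := by
      linear_combination hu2 + hv2 + 2 * h
    have h4 : v 0 + u 0 = 0 := by nlinarith [sq_nonneg (v 0 + u 0), sq_nonneg (v 1 + u 1)]
    have h5 : v 1 + u 1 = 0 := by nlinarith [sq_nonneg (v 0 + u 0), sq_nonneg (v 1 + u 1)]
    ext i
    fin_cases i
    · simpa using eq_neg_of_add_eq_zero_left h4
    · simpa using eq_neg_of_add_eq_zero_left h5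

/-- A polygon given by half planes and by its edges realises its data. -/
theorem realises_planar {N : ℕ} (u : Fin N → E 2) (hu : ∀ i, ‖u i‖ = 1) (h : Fin N → ℝ)
    (hh : ∀ i, 0 < h i) (p q : Fin N → E 2) (S : Finset (E 2))
    (hP : {x : E 2 | ∀ i, ⟪u i, x⟫ ≤ h i} = convexHull ℝ (S : Set (E 2)))
    (hface : ∀ i, {x : E 2 | (∀ j, ⟪u j, x⟫ ≤ h j) ∧ ⟪u i, x⟫ = h i} = segment ℝ (p i) (q i))
    (hpq : ∀ i, p i ≠ q i) (V : Fin N → ℝ)
    (hV : ∀ i, V i = |p i 0 * q i 1 - p i 1 * q i 0| / 2) :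
    Realises u V {x | ∀ i, ⟪u i, x⟫ ≤ h i} := by
  set P : Set (E 2) := {x | ∀ i, ⟪u i, x⟫ ≤ h i} with hPdef
  have hzero : (0 : E 2) ∈ P := fun i => by rw [inner_zero_right]; exact (hh i).le
  set O : Set (E 2) := {x | ∀ i, ⟪u i, x⟫ < h i} with hO
  have hOopen : IsOpen O := by
    have : O = ⋂ i, {x : E 2 | ⟪u i, x⟫ < h i} := by
      ext x; simp [hO]
    rw [this]
    exact isOpen_iInter_of_finite fun i => isOpen_lt (by fun_prop) continuous_const
  have hOP : O ⊆ P := fun x hx i => (hx i).le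
  have hfe : ∀ i, face P (u i) = segment ℝ (p i) (q i) := by
    intro i
    rw [← hface i]
    have hpi : p i ∈ {x : E 2 | (∀ j, ⟪u j, x⟫ ≤ h j) ∧ ⟪u i, x⟫ = h i} := by
      rw [hface i]; exact left_mem_segment ℝ _ _
    ext x
    constructor
    · rintro ⟨hx1, hx2⟩
      refine ⟨hx1, le_antisymm (hx1 i) ?_⟩
      rw [← hpi.2]
      exact hx2 _ hpi.1
    · rintro ⟨hx1, hx2⟩
      exact ⟨hx1, fun y hy => by rw [hx2]; exact hy i⟩
  refine ⟨⟨⟨S, hP⟩, ?_⟩, ?_, ?_⟩
  · exact interior_maximal hOP hOopen (fun i => by rw [inner_zero_right]; exact hh i)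
  · intro v
    constructor
    · rintro ⟨hv1, hv2⟩
      have hnt : (face P v).Nontrivial := by
        by_contra hns
        rw [Set.not_nontrivial_iff] at hns
        rw [vectorSpan_of_subsingleton _ hns, finrank_bot] at hv2
        omega
      obtain ⟨a, ha, b, hb, hab⟩ := hnt
      have hPc : Convex ℝ P := by
        rw [hP]; exact convex_convexHull ℝ _
      set m : E 2 := (1 / 2 : ℝ) • a + (1 / 2 : ℝ) • b with hm
      have hmf : m ∈ face P v := face_convex hPc v ha hb (by norm_num) (by norm_num) (by norm_num)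
      have hact : ∃ i, ⟪u i, m⟫ = h i := by
        by_contra hno
        push Not at hno
        have hmO : m ∈ O := fun i => lt_of_le_of_ne (hmf.1 i) (hno i)
        have hcont : Continuous fun ε : ℝ => m + ε • v := by fun_prop
        have hev : ∀ᶠ ε : ℝ in 𝓝 0, m + ε • v ∈ O := by
          apply hcont.continuousAt.eventually_mem
          simpa using hOopen.mem_nhds hmO
        obtain ⟨ε, hε1, hε2⟩ := ((hev.filter_mono nhdsWithin_le_nhds).and
          (self_mem_nhdsWithin : Ioi (0 : ℝ) ∈ 𝓝[>] (0 : ℝ))).exists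
        have h3 := hmf.2 _ (hOP hε1)
        rw [inner_add_right, real_inner_smul_right, real_inner_self_eq_norm_sq, hv1] at h3
        have h4 : (0 : ℝ) < ε := hε2
        linarith
      obtain ⟨i, hi⟩ := hact
      have hma : ⟪u i, m⟫ = (1 / 2) * ⟪u i, a⟫ + (1 / 2) * ⟪u i, b⟫ := by
        rw [hm, inner_add_right, real_inner_smul_right, real_inner_smul_right]
      have ha1 := ha.1 i
      have hb1 := hb.1 i
      have hia : ⟪u i, a⟫ = h i := by linarith
      have hib : ⟪u i, b⟫ = h i := by linarith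
      have hva : ⟪v, a⟫ = ⟪v, b⟫ := le_antisymm (hb.2 a ha.1) (ha.2 b hb.1)
      have hw1 : ⟪u i, a - b⟫ = 0 := by rw [inner_sub_right, hia, hib, sub_self]
      have hw2 : ⟪v, a - b⟫ = 0 := by rw [inner_sub_right, hva, sub_self]
      rcases unit_orth (hu i) hv1 (sub_ne_zero.2 hab) hw1 hw2 with h5 | h5
      · exact ⟨i, h5.symm⟩
      · exfalso
        have h6 := hmf.2 0 hzero
        rw [inner_zero_right, h5, inner_neg_left, hi] at h6
        linarith [hh i]
    · rintro ⟨i, rfl⟩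
      refine ⟨hu i, ?_⟩
      rw [hfe i, vectorSpan_segment]
      rw [finrank_span_singleton]
      rw [ne_eq, vsub_eq_sub, sub_eq_zero]
      first
        | exact hpq i
        | exact (hpq i).symm
  · intro i
    rw [coneVolume, hfe i, volume_tri, hV i]

end Pool.Agent.LogMinkowski
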