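import Pool.Agent.Lib.MP_36b0a5_gt.PlTri
import Pool.Agent.Lib.MP_36b0a5_gt.PlPoly

/-!
# A realised polytope is the intersection of the half-spaces of its facets
-/

set_option autoImplicit false

open MeasureTheory Set Module Filter
open scoped Pointwise ENNReal RealInnerProductSpace Topology

namespace Pool.Agent.LogMinkowski

variable {n : ℕ}

/-- The polytope is cut out by the half-spaces of its facets, and every facet has two points. -/
theorem Realises.halfspaces (hn : 2 ≤ n) {N : ℕ} {u : Fin N → E n} {V : Fin N → ℝ} {P : Set (E n)}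
    (h : Realises u V P) : ∃ c : Fin N → ℝ, (∀ i, 0 < c i) ∧
      (∀ x, x ∈ P ↔ ∀ i, ⟪u i, x⟫ ≤ c i) ∧
      (∀ i, face P (u i) = {x | (∀ j, ⟪u j, x⟫ ≤ c j) ∧ ⟪u i, x⟫ = c i}) ∧
      ∀ i, ∃ x ∈ face P (u i), ∃ y ∈ face P (u i), x ≠ y := by
  classical
  obtain ⟨⟨S, hS⟩, h0⟩ := h.polytope
  have hPc := h.polytope.isCompact
  have hPv := h.polytope.convex
  have hzero : (0 : E n) ∈ P := interior_subset h0
  have hne : P.Nonempty := ⟨0, hzero⟩
  have hface : ∀ i, (face P (u i)).Nonempty := fun i => face_nonempty hPc hne (u i)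
  choose x hx using hface
  set c : Fin N → ℝ := fun i => ⟪u i, x i⟫ with hc
  have hnorm : ∀ i, ‖u i‖ = 1 := fun i => ((h.facets (u i)).2 ⟨i, rfl⟩).1
  obtain ⟨ε, hε, hball⟩ := Metric.isOpen_iff.1 isOpen_interior 0 h0
  have hcpos : ∀ i, 0 < c i := by
    intro i
    have h1 : (ε / 2) • u i ∈ P := by
      refine interior_subset (hball ?_)
      rw [Metric.mem_ball, dist_zero_right, norm_smul, hnorm, mul_one, Real.norm_eq_abs,
        abs_of_pos (by positivity)]
      linarith
    have h2 := (hx i).2 _ h1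
    rw [real_inner_smul_right, real_inner_self_eq_norm_sq, hnorm] at h2
    have h3 : 0 < ε / 2 * 1 ^ 2 := by positivity
    exact h3.trans_le h2
  have hsub : ∀ y ∈ P, ∀ i, ⟪u i, y⟫ ≤ c i := fun y hy i => (hx i).2 y hy
  have hsup : ∀ y, (∀ i, ⟪u i, y⟫ ≤ c i) → y ∈ P := by
    intro y hy
    by_contra hyP
    have hopen : IsOpen Pᶜ := hPc.isClosed.isOpen_compl
    have hcont : ContinuousAt (fun t : ℝ => t • y) 1 := by fun_prop
    have h1 : ∀ᶠ t in 𝓝 (1 : ℝ), t • y ∈ Pᶜ :=
      hcont.eventually (hopen.mem_nhds (by simpa using hyP))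
    obtain ⟨δ, hδ, hδ'⟩ := Metric.eventually_nhds_iff.1 h1
    set t : ℝ := max (1 / 2) (1 - δ / 2) with ht
    have ht0 : 0 < t := lt_of_lt_of_le (by norm_num) (le_max_left _ _)
    have ht1 : t < 1 := max_lt (by norm_num) (by linarith)
    have htP : t • y ∈ Pᶜ := by
      apply hδ'
      rw [Real.dist_eq, abs_of_nonpos (by linarith)]
      have : 1 - δ / 2 ≤ t := le_max_right _ _
      linarith
    set U : Set (E n) := Pᶜ ∩ {z | ∀ i, ⟪u i, z⟫ < c i} with hU
    have hUo : IsOpen U := by
      refine hopen.inter ?_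
      have e : {z : E n | ∀ i, ⟪u i, z⟫ < c i} = ⋂ i, {z : E n | ⟪u i, z⟫ < c i} := by
        ext z; simp
      rw [e]
      exact isOpen_iInter_of_finite fun i => isOpen_lt (by fun_prop) continuous_const
    have hUne : U.Nonempty := by
      refine ⟨t • y, htP, fun i => ?_⟩
      rw [real_inner_smul_right]
      have h2 := mul_le_mul_of_nonneg_left (hy i) ht0.le
      have h3 : t * c i < 1 * c i := mul_lt_mul_of_pos_right ht1 (hcpos i)
      linarith
    set Z : Set (E n) := ⋃ A ∈ S.powerset.filter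
      (fun A : Finset (E n) => Submodule.span ℝ (A : Set (E n)) ≠ ⊤),
        (Submodule.span ℝ (A : Set (E n)) : Set (E n)) with hZ
    have hnull : volume Z = 0 := by
      refine le_antisymm ((measure_biUnion_finset_le _ _).trans
        (le_of_eq (Finset.sum_eq_zero fun A hA => ?_))) bot_le
      exact Measure.addHaar_submodule volume _ (Finset.mem_filter.1 hA).2
    obtain ⟨z, hzU, hzZ⟩ : ∃ z ∈ U, z ∉ Z := by
      by_contra hcon
      push Not at hcon
      have h2 : volume U = 0 := measure_mono_null (fun z hz => hcon z hz) hnull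
      exact (hUo.measure_pos volume hUne).ne' h2
    have hzP : z ∉ P := hzU.1
    have hz0 : z ≠ 0 := fun h => hzP (h ▸ hzero)
    -- the last point of the ray
    have hclosed : IsClosed {r : ℝ | r • z ∈ P} :=
      hPc.isClosed.preimage (by fun_prop)
    obtain ⟨B, hB⟩ := hPc.isBounded.exists_norm_le
    have hzn : 0 < ‖z‖ := norm_pos_iff.2 hz0
    have hbd : {r : ℝ | r • z ∈ P} ⊆ Icc (-(B / ‖z‖)) (B / ‖z‖) := by
      intro r hr
      have h1 := hB _ hr
      rw [norm_smul, Real.norm_eq_abs] at h1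
      rw [mem_Icc, ← abs_le, le_div_iff₀ hzn]
      exact h1
    have hcomp : IsCompact {r : ℝ | r • z ∈ P} := isCompact_Icc.of_isClosed_subset hclosed hbd
    obtain ⟨R, hR, hRmax⟩ := hcomp.exists_isGreatest ⟨0, by simpa using hzero⟩
    have hRpos : 0 < R := by
      have h2 : (ε / (2 * ‖z‖)) • z ∈ P := by
        refine interior_subset (hball ?_)
        rw [Metric.mem_ball, dist_zero_right, norm_smul, Real.norm_eq_abs,
          abs_of_pos (by positivity)]
        have : ε / (2 * ‖z‖) * ‖z‖ = ε / 2 := by field_simp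
        rw [this]
        linarith
      have h3 : ε / (2 * ‖z‖) ≤ R := hRmax h2
      have h4 : 0 < ε / (2 * ‖z‖) := by positivity
      linarith
    have hR1 : R < 1 := by
      by_contra hcon
      rw [not_lt] at hcon
      apply hzP
      have h2 : (1 / R) • (R • z) + (1 - 1 / R) • (0 : E n) ∈ P :=
        hPv hR hzero (by positivity)
          (by rw [sub_nonneg, div_le_one hRpos]; exact hcon) (by ring)
      rwa [smul_zero, add_zero, smul_smul, one_div, inv_mul_cancel₀ hRpos.ne', one_smul] at h2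
    have hlt : ∀ i, ⟪u i, R • z⟫ < c i := by
      intro i
      rw [real_inner_smul_right]
      rcases le_or_gt 0 ⟪u i, z⟫ with h2 | h2
      · have h3 := hzU.2 i
        nlinarith
      · have h3 := hcpos i
        nlinarith
    rcases cover hn hS h0 hR with ⟨v, hv, hxv⟩ | ⟨A, hA, hAt, hxA⟩
    · obtain ⟨i, hi⟩ := (h.facets v).1 hv
      rw [← hi] at hxv
      obtain ⟨⟨s, f⟩, ⟨hs, hf⟩, hsf⟩ := hxv
      simp only at hsf hs hf
      rw [smul_zero, zero_add] at hsf
      have h1s : 0 < 1 - s := by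
        rcases eq_or_lt_of_le hs.2 with h2 | h2
        · exfalso
          rw [h2, sub_self, zero_smul] at hsf
          exact hz0 ((smul_eq_zero.1 hsf.symm).resolve_left hRpos.ne')
        · linarith
      have hf' : f = (R / (1 - s)) • z := by
        have h2 : (1 / (1 - s)) • ((1 - s) • f) = (1 / (1 - s)) • (R • z) := by rw [hsf]
        rw [smul_smul, smul_smul, one_div, inv_mul_cancel₀ h1s.ne', one_smul] at h2
        rw [h2]
        congr 1
        rw [div_eq_inv_mul]
      have h2 : R / (1 - s) ≤ R := hRmax (by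
        change (R / (1 - s)) • z ∈ P
        rw [← hf']; exact hf.1)
      rw [div_le_iff₀ h1s] at h2
      have hs0 : s = 0 := by
        have h3 : 0 ≤ s := hs.1
        nlinarith
      rw [hs0, sub_zero, one_smul] at hsf
      have h3 := hf.2 (x i) (hx i).1
      rw [hsf] at h3
      exact absurd h3 (not_le.2 (hlt i))
    · apply hzZ
      rw [hZ, mem_iUnion₂]
      refine ⟨A, Finset.mem_filter.2 ⟨Finset.mem_powerset.2 hA, hAt⟩, ?_⟩
      have h2 := Submodule.smul_mem (Submodule.span ℝ (A : Set (E n))) R⁻¹ hxA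
      rwa [smul_smul, inv_mul_cancel₀ hRpos.ne', one_smul] at h2
  refine ⟨c, hcpos, fun y => ⟨hsub y, hsup y⟩, fun i => ?_, fun i => ?_⟩
  · rw [face_eq (hx i)]
    ext y
    constructor
    · rintro ⟨hy, he⟩
      exact ⟨hsub y hy, he⟩
    · rintro ⟨hy, he⟩
      exact ⟨hsup y hy, he⟩
  · by_contra hcon
    push Not at hcon
    have h1 : (face P (u i)).Subsingleton := fun y hy z hz => hcon y hy z hz
    have h2 := ((h.facets (u i)).2 ⟨i, rfl⟩).2
    rw [vectorSpan_of_subsingleton ℝ h1, finrank_bot] at h2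
    omega

/-- A segment of a line which is not horizontal. -/
theorem seg_line (α β lo hi : ℝ) (h : lo < hi) :
    {x : E 2 | x 0 = α + β * x 1 ∧ lo ≤ x 1 ∧ x 1 ≤ hi} =
      segment ℝ (WithLp.toLp 2 ![α + β * lo, lo] : E 2) (WithLp.toLp 2 ![α + β * hi, hi]) := by
  have h3 : 0 < hi - lo := by linarith
  ext x
  constructor
  · rintro ⟨h0, h1, h2⟩
    refine ⟨(hi - x 1) / (hi - lo), (x 1 - lo) / (hi - lo), div_nonneg (by linarith) h3.le,
      div_nonneg (by linarith) h3.le, by field_simp; ring, ?_⟩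
    ext j
    fin_cases j
    · simp
      rw [h0]
      field_simp
      ring
    · simp
      field_simp
      ring
  · rintro ⟨r, t, hr, ht, hrt, rfl⟩
    have e : t = 1 - r := by linarith
    subst e
    refine ⟨?_, ?_, ?_⟩
    · simp
      ring
    · simp
      nlinarith
    · simp
      nlinarith

/-- A horizontal segment. -/
theorem seg_hor (y lo hi : ℝ) (h : lo < hi) :
    {x : E 2 | x 1 = y ∧ lo ≤ x 0 ∧ x 0 ≤ hi} =
      segment ℝ (WithLp.toLp 2 ![lo, y] : E 2) (WithLp.toLp 2 ![hi, y]) := by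
  have h3 : 0 < hi - lo := by linarith
  ext x
  constructor
  · rintro ⟨h0, h1, h2⟩
    refine ⟨(hi - x 0) / (hi - lo), (x 0 - lo) / (hi - lo), div_nonneg (by linarith) h3.le,
      div_nonneg (by linarith) h3.le, by field_simp; ring, ?_⟩
    ext j
    fin_cases j
    · simp
      field_simp
      ring
    · simp
      rw [h0]
      field_simp
      ring
  · rintro ⟨r, t, hr, ht, hrt, rfl⟩
    have e : t = 1 - r := by linarith
    subst e
    refine ⟨?_, ?_, ?_⟩
    · simp
      ring
    · simp
      nlinarith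
    · simp
      nlinarith

end Pool.Agent.LogMinkowski
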