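import Pool.Agent.Lib.MP_36b0a5_gt.Polytope

/-!
# The problem is invariant under isometries and under renaming
-/

set_option autoImplicit false

open MeasureTheory Set Module
open scoped Pointwise ENNReal RealInnerProductSpace

namespace Pool.Agent.LogMinkowski

variable {n : ℕ}

theorem face_map (L : E n ≃ₗᵢ[ℝ] E n) (P : Set (E n)) (v : E n) :
    face (L '' P) (L v) = L '' face P v := by
  ext x
  constructor
  · rintro ⟨⟨y, hy, rfl⟩, hx⟩
    refine ⟨y, ⟨hy, fun z hz => ?_⟩, rfl⟩
    have := hx (L z) ⟨z, hz, rfl⟩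
    rwa [L.inner_map_map, L.inner_map_map] at this
  · rintro ⟨y, ⟨hy, hmax⟩, rfl⟩
    refine ⟨⟨y, hy, rfl⟩, ?_⟩
    rintro _ ⟨z, hz, rfl⟩
    rw [L.inner_map_map, L.inner_map_map]
    exact hmax z hz

theorem finrank_vectorSpan_map (L : E n ≃ₗᵢ[ℝ] E n) (F : Set (E n)) :
    finrank ℝ (vectorSpan ℝ (L '' F)) = finrank ℝ (vectorSpan ℝ F) := by
  have h1 : vectorSpan ℝ (L '' F) = (vectorSpan ℝ F).map (L.toLinearEquiv : E n →ₗ[ℝ] E n) := by
    exact (AffineMap.map_vectorSpan (k := ℝ) (L.toLinearEquiv.toLinearMap.toAffineMap)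
      (s := F)).symm
  rw [h1]
  exact LinearEquiv.finrank_map_eq L.toLinearEquiv _

theorem isFacetNormal_map (L : E n ≃ₗᵢ[ℝ] E n) (P : Set (E n)) (v : E n) :
    IsFacetNormal (L '' P) (L v) ↔ IsFacetNormal P v := by
  rw [IsFacetNormal, IsFacetNormal, L.norm_map, face_map, finrank_vectorSpan_map]

theorem coneVolume_map (L : E n ≃ₗᵢ[ℝ] E n) (P : Set (E n)) (v : E n) :
    coneVolume (L '' P) (L v) = coneVolume P v := by
  rw [coneVolume, coneVolume, face_map]
  have h1 : insert (0 : E n) (L '' face P v) = L '' insert 0 (face P v) := by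
    rw [image_insert_eq, map_zero]
  have h2 : convexHull ℝ (L '' insert (0 : E n) (face P v)) =
      L '' convexHull ℝ (insert 0 (face P v)) :=
    (LinearMap.image_convexHull (L.toLinearEquiv : E n →ₗ[ℝ] E n) _).symm
  rw [h1, h2]
  congr 1
  have h3 : L '' convexHull ℝ (insert (0 : E n) (face P v)) =
      L.symm ⁻¹' convexHull ℝ (insert 0 (face P v)) := by
    ext x
    constructor
    · rintro ⟨y, hy, rfl⟩
      simpa using hy
    · intro hx
      exact ⟨L.symm x, hx, by simp⟩
  rw [h3]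
  exact (L.symm.measurePreserving).measure_preimage_emb
    L.symm.toHomeomorph.measurableEmbedding _

/-- Isometries and renaming of the normals. -/
theorem Realises.map {N : ℕ} {u : Fin N → E n} {V : Fin N → ℝ} {P : Set (E n)}
    (h : Realises u V P) (L : E n ≃ₗᵢ[ℝ] E n) (σ : Equiv.Perm (Fin N)) :
    Realises (fun i => L (u (σ i))) (fun i => V (σ i)) (L '' P) := by
  classical
  refine ⟨⟨?_, ?_⟩, ?_, ?_⟩
  · obtain ⟨⟨S, hS⟩, _⟩ := h.polytope
    refine ⟨S.image L, ?_⟩
    rw [hS, Finset.coe_image]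
    exact LinearMap.image_convexHull (L.toLinearEquiv : E n →ₗ[ℝ] E n) _
  · have h1 := L.toHomeomorph.image_interior P
    have h2 : (0 : E n) ∈ L '' interior P := ⟨0, h.polytope.2, map_zero L⟩
    change (0 : E n) ∈ interior (L.toHomeomorph '' P)
    rw [← h1]
    exact h2
  · intro v
    have e : v = L (L.symm v) := by simp
    rw [e, isFacetNormal_map, h.facets]
    constructor
    · rintro ⟨i, hi⟩
      refine ⟨σ.symm i, ?_⟩
      simp [hi]
    · rintro ⟨i, hi⟩
      exact ⟨σ i, L.injective hi⟩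
  · intro i
    rw [coneVolume_map]
    exact h.volumes (σ i)

end Pool.Agent.LogMinkowski
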