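import Pool.Agent.Lib.MP_36b0a5_gt.PlSol

/-!
# Existence beyond the subspace concentration condition
-/

set_option autoImplicit false

open Set Filter
open scoped Topology

namespace Pool.Agent.LogMinkowski

variable {N : ℕ}

/-- The choice of the relative height of the origin. -/
theorem num {Vp Vq T κ ρ : ℝ} (hVp : 0 < Vp) (hκ : T + κ = 2 * (Vp + Vq)) (hκ0 : 0 < κ)
    (hT : 0 < T) (hρ0 : 0 ≤ ρ) (hρ1 : ρ < 1)
    (h : 2 * √Vp + √(κ * (1 + ρ)) ≤ √(T * (1 - ρ))) :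
    ∃ ηb : ℝ, 0 < ηb ∧ ηb < 1 / 2 ∧ 0 < 1 - 2 * ηb - ρ ∧
      κ / (1 - 2 * ηb - ρ) ≤ Vq / (1 - ηb) - Vp / ηb := by
  set α := √(T * (1 - ρ)) with hα
  set β := √(κ * (1 + ρ)) with hβ
  have hα2 : α ^ 2 = T * (1 - ρ) := Real.sq_sqrt (mul_nonneg hT.le (by linarith))
  have hβ2 : β ^ 2 = κ * (1 + ρ) := Real.sq_sqrt (by positivity)
  have hβ0 : 0 < β := Real.sqrt_pos.2 (by positivity)
  have hsV : 0 < √Vp := Real.sqrt_pos.2 hVp
  have hsV2 : √Vp ^ 2 = Vp := Real.sq_sqrt hVp.le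
  have hαβ : β < α := by linarith
  have hα0 : 0 < α := hβ0.trans hαβ
  have h4 : 4 * Vp ≤ (α - β) ^ 2 := by
    have h5 : 2 * √Vp ≤ α - β := by linarith
    calc 4 * Vp = (2 * √Vp) ^ 2 := by rw [mul_pow, hsV2]; norm_num
      _ ≤ (α - β) ^ 2 := pow_le_pow_left₀ (by positivity) h5 2
  have hd : 0 < α - β := by linarith
  set η := α * (α - β) / (2 * T) with hη
  have hη0 : 0 < η := by positivity
  have hηT : η * (2 * T) = α * (α - β) := by rw [hη]; field_simp
  have hw : 1 - 2 * η - ρ = α * β / T := by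
    rw [hη]
    field_simp
    linear_combination -hα2
  have hη2 : η < 1 / 2 := by
    have h6 : 0 < α * β / T := by positivity
    rw [← hw] at h6
    linarith
  refine ⟨η, hη0, hη2, by rw [hw]; positivity, ?_⟩
  have hη1 : 0 < 1 - η := by linarith
  have h1 : Vp / η ≤ T * (α - β) / (2 * α) := by
    rw [div_le_div_iff₀ hη0 (by positivity)]
    have e : T * (α - β) * η = (α - β) * (α * (α - β)) / 2 := by
      rw [← hηT]; ring
    rw [e]
    nlinarith
  have h2 : (1 - η) * (κ / (1 - 2 * η - ρ)) = T * β / (2 * α) + κ / 2 := by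
    rw [hw]
    have e : κ * (2 * T * (1 - η)) = T * β ^ 2 + κ * α * β := by
      rw [hβ2]
      linear_combination (-κ) * hηT - κ * hα2
    field_simp
    linear_combination e
  have h3 : 0 ≤ (1 - η) * (Vq / (1 - η) - Vp / η - κ / (1 - 2 * η - ρ)) := by
    have e : (1 - η) * (Vq / (1 - η) - Vp / η - κ / (1 - 2 * η - ρ)) =
        Vq + Vp - Vp / η - (1 - η) * (κ / (1 - 2 * η - ρ)) := by
      have h7 : (1 - η) * (Vq / (1 - η)) = Vq := by field_simp
      have h8 : (1 - η) * (Vp / η) = Vp / η - Vp := by field_simp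
      rw [mul_sub, mul_sub, h7, h8]
      ring
    rw [e, h2]
    have h9 : T * (α - β) / (2 * α) + T * β / (2 * α) = T / 2 := by
      field_simp
      ring
    linarith
  have h10 : 0 ≤ Vq / (1 - η) - Vp / η - κ / (1 - 2 * η - ρ) := by
    by_contra hc
    push Not at hc
    nlinarith
  linarith

/-- Mean difference of a distribution on `[m, M]`. -/
theorem mean_diff {ι : Type*} {R : Finset ι} {c a : ι → ℝ} (ha : ∀ i ∈ R, 0 ≤ a i)
    (h1 : ∑ i ∈ R, a i = 1) {m M ρ : ℝ} (hm : ∀ i ∈ R, m ≤ c i) (hM : ∀ i ∈ R, c i ≤ M)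
    (hmM : m ≤ M) (hρ : 0 ≤ ρ) :
    (∑ i ∈ R, a i * sD R c a i) / 2 ≤
      ρ * ((∑ i ∈ R, a i * c i) - m) + (M - m) * (1 - ρ) ^ 2 / 4 := by
  set b := ∑ i ∈ R, a i * c i with hb
  have hbm : 0 ≤ b - m := by
    have e : b - m = ∑ i ∈ R, a i * (c i - m) := by
      simp only [mul_sub, Finset.sum_sub_distrib, ← Finset.sum_mul, h1, one_mul, hb]
    rw [e]
    exact Finset.sum_nonneg fun i hi => mul_nonneg (ha i hi) (sub_nonneg.2 (hm i hi))
  have key : (M - m) * (∑ i ∈ R, a i * sD R c a i) ≤ 2 * ((b - m) * (M - b)) := by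
    have e1 : (M - m) * (∑ i ∈ R, a i * sD R c a i) =
        ∑ i ∈ R, ∑ j ∈ R, a i * a j * ((M - m) * |c i - c j|) := by
      simp only [sD, Finset.mul_sum]
      exact Finset.sum_congr rfl fun i _ => Finset.sum_congr rfl fun j _ => by ring
    have e2 : 2 * ((b - m) * (M - b)) =
        ∑ i ∈ R, ∑ j ∈ R, a i * a j * ((c i - m) * (M - c j) + (c j - m) * (M - c i)) := by
      have e3 : b - m = ∑ i ∈ R, a i * (c i - m) := by
        simp only [mul_sub, Finset.sum_sub_distrib, ← Finset.sum_mul, h1, one_mul, hb]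
      have e4 : M - b = ∑ i ∈ R, a i * (M - c i) := by
        simp only [mul_sub, Finset.sum_sub_distrib, ← Finset.sum_mul, h1, one_mul, hb]
      have e5 : (b - m) * (M - b) =
          ∑ i ∈ R, ∑ j ∈ R, a i * a j * ((c i - m) * (M - c j)) := by
        rw [e3, e4, Finset.sum_mul_sum]
        exact Finset.sum_congr rfl fun i _ => Finset.sum_congr rfl fun j _ => by ring
      have e6 : (b - m) * (M - b) =
          ∑ i ∈ R, ∑ j ∈ R, a i * a j * ((c j - m) * (M - c i)) := by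
        rw [e5, Finset.sum_comm]
        exact Finset.sum_congr rfl fun i _ => Finset.sum_congr rfl fun j _ => by ring
      rw [two_mul]
      conv_lhs => rw [e5]
      rw [← e5]
      conv_lhs =>
        enter [1]
        rw [e5]
      rw [e6]
      simp only [← Finset.sum_add_distrib]
      exact Finset.sum_congr rfl fun i _ => Finset.sum_congr rfl fun j _ => by ring
    rw [e1, e2]
    refine Finset.sum_le_sum fun i hi => Finset.sum_le_sum fun j hj => ?_
    refine mul_le_mul_of_nonneg_left ?_ (mul_nonneg (ha i hi) (ha j hj))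
    have hi1 := hm i hi
    have hi2 := hM i hi
    have hj1 := hm j hj
    have hj2 := hM j hj
    rcases le_total (c i) (c j) with h | h
    · rw [abs_of_nonpos (sub_nonpos.2 h)]
      nlinarith [mul_nonneg (sub_nonneg.2 hi1) (sub_nonneg.2 hj2)]
    · rw [abs_of_nonneg (sub_nonneg.2 h)]
      nlinarith [mul_nonneg (sub_nonneg.2 hj1) (sub_nonneg.2 hi2)]
  rcases eq_or_lt_of_le hmM with h | h
  · have h0 : ∑ i ∈ R, a i * sD R c a i = 0 := by
      refine Finset.sum_eq_zero fun i hi => ?_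
      have : sD R c a i = 0 := by
        refine Finset.sum_eq_zero fun j hj => ?_
        have e1 : c i = c j := by
          have := hm i hi
          have := hM i hi
          have := hm j hj
          have := hM j hj
          linarith
        rw [e1, sub_self, abs_zero, mul_zero]
      rw [this, mul_zero]
    rw [h0, h]
    have h3 : 0 ≤ ρ * (b - M) := by
      rw [← h]; exact mul_nonneg hρ hbm
    linarith
  · have hδ : 0 < M - m := sub_pos.2 h
    have h5 : (M - m) * ((∑ i ∈ R, a i * sD R c a i) / 2) ≤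
        (M - m) * (ρ * (b - m) + (M - m) * (1 - ρ) ^ 2 / 4) := by
      nlinarith [sq_nonneg ((b - m) - (M - m) * (1 - ρ) / 2)]
    exact le_of_mul_le_mul_left h5 hδ

/-- The mean of the slopes is at least the least slope. -/
theorem mean_ge {ι : Type*} {R : Finset ι} {c a : ι → ℝ} (ha : ∀ i ∈ R, 0 ≤ a i)
    (h1 : ∑ i ∈ R, a i = 1) {m : ℝ} (hm : ∀ i ∈ R, m ≤ c i) : m ≤ ∑ i ∈ R, a i * c i := by
  have e : (∑ i ∈ R, a i * c i) - m = ∑ i ∈ R, a i * (c i - m) := by
    simp only [mul_sub, Finset.sum_sub_distrib, ← Finset.sum_mul, h1, one_mul]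
  have : 0 ≤ (∑ i ∈ R, a i * c i) - m := by
    rw [e]
    exact Finset.sum_nonneg fun i hi => mul_nonneg (ha i hi) (sub_nonneg.2 (hm i hi))
  linarith

/-- Admissible heights exist. -/
theorem exists_adm (u : Fin N → E 2) (hr : ∃ i, 0 < u i 0) (hl : ∃ i, u i 0 < 0) :
    ∃ a, Adm u a := by
  classical
  obtain ⟨i, hi⟩ := hr
  obtain ⟨k, hk⟩ := hl
  have hcR : 0 < ((rt u).card : ℝ) := by
    rw [Nat.cast_pos, Finset.card_pos]; exact ⟨i, mem_rt.2 hi⟩
  have hcL : 0 < ((lf u).card : ℝ) := by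
    rw [Nat.cast_pos, Finset.card_pos]; exact ⟨k, mem_lf.2 hk⟩
  refine ⟨fun j => if j ∈ rt u then 1 / ((rt u).card : ℝ) else 1 / ((lf u).card : ℝ), ?_, ?_, ?_⟩
  · intro j _
    show 0 < if j ∈ rt u then 1 / ((rt u).card : ℝ) else 1 / ((lf u).card : ℝ)
    split_ifs <;> positivity
  · rw [Finset.sum_congr rfl fun j hj => if_pos hj, Finset.sum_const, nsmul_eq_mul]
    field_simp
  · rw [Finset.sum_congr rfl fun j hj => if_neg (Finset.disjoint_right.1 (rt_lf_disjoint u) hj),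
      Finset.sum_const, nsmul_eq_mul]
    field_simp

theorem sum_univ_eq (u : Fin N → E 2) (p q : Fin N) (hpq : p ≠ q) (hp0 : u p 0 = 0)
    (hq0 : u q 0 = 0) (hside : ∀ i, i ≠ p → i ≠ q → u i 0 ≠ 0) (V : Fin N → ℝ) :
    ∑ i, V i = V p + V q + ∑ i ∈ sd u, V i := by
  classical
  have e : (Finset.univ : Finset (Fin N)) = insert p (insert q (sd u)) := by
    ext i
    simp only [Finset.mem_univ, Finset.mem_insert, true_iff]
    by_cases h1 : i = p
    · exact Or.inl h1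
    · by_cases h2 : i = q
      · exact Or.inr (Or.inl h2)
      · exact Or.inr (Or.inr (mem_sd.2 (hside i h1 h2)))
  have hqs : q ∉ sd u := fun h => mem_sd.1 h hq0
  have hps : p ∉ insert q (sd u) := by
    rw [Finset.mem_insert]
    rintro (h | h)
    · exact hpq h
    · exact mem_sd.1 h hp0
  rw [e, Finset.sum_insert hps, Finset.sum_insert hqs]
  ring

/-- Common part of the two existence theorems. -/
theorem realised_core (u : Fin N → E 2) (hu : ∀ i, ‖u i‖ = 1) (hinj : Function.Injective u)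
    (p q : Fin N) (hp0 : u p 0 = 0) (hp1 : u p 1 = 1) (hq0 : u q 0 = 0) (hq1 : u q 1 = -1)
    (hside : ∀ i, i ≠ p → i ≠ q → u i 0 ≠ 0) {V : Fin N → ℝ} (hV : ∀ i, 0 < V i)
    (hwall : ∑ i, V i < 2 * (V p + V q)) {ρ : ℝ} (hρ0 : 0 ≤ ρ) (hρ1 : ρ < 1)
    (h : 2 * √(V p) + √((2 * (V p + V q) - ∑ i, V i) * (1 + ρ)) ≤ √((∑ i, V i) * (1 - ρ)))
    {a₀ : Fin N → ℝ} (ha₀ : Adm u a₀) (hb₀ : 0 < bsum u a₀) (hc₀ : csum u a₀ ≤ ρ * bsum u a₀)
    (star : ∀ η, 0 < 1 - 2 * η - ρ → ∀ a, Adm u a → 0 < bsum u a → 0 < qq u a η →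
      (∀ a', Adm u a' → 0 < qq u a' η →
        thet u V p q (2 * (V p + V q) - ∑ i, V i) a' η ≤
          thet u V p q (2 * (V p + V q) - ∑ i, V i) a η) →
      csum u a ≤ ρ * bsum u a) :
    ∃ P : Set (E 2), Realises u V P := by
  have hpq : p ≠ q := by
    rintro rfl
    rw [hp1] at hq1
    norm_num at hq1
  set κ := 2 * (V p + V q) - ∑ i, V i with hκ
  have hκ0 : 0 < κ := by rw [hκ]; linarith
  have htot := sum_univ_eq u p q hpq hp0 hq0 hside V
  have hT : 0 < ∑ i, V i := by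
    rw [htot]
    have h1 := hV p
    have h2 := hV q
    have h3 : 0 ≤ ∑ i ∈ sd u, V i := Finset.sum_nonneg fun i _ => (hV i).le
    linarith
  obtain ⟨ηb, h1, h2, h3, h4⟩ := num (Vp := V p) (Vq := V q) (T := ∑ i, V i) (κ := κ) (ρ := ρ)
    (hV p) (by rw [hκ]; ring) hκ0 hT hρ0 hρ1 h
  have hq₀ : 0 < qq u a₀ ηb := by
    rw [qq]
    nlinarith
  obtain ⟨a, η, ha, hη0, hη1, hq, hR, hL, hE⟩ := exists_crit u hV p q hκ0 h1 h2 ha₀ hq₀ (by
    intro a ha hq hmax
    have hb : 0 < bsum u a := by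
      have h5 := csum_nonneg fun i hi => (ha.pos i hi).le
      rw [qq] at hq
      have h6 : 0 < (1 - 2 * ηb) * bsum u a := by linarith
      have h7 : 0 < 1 - 2 * ηb := by linarith
      exact (mul_pos_iff_of_pos_left h7).1 h6
    have hc := star ηb h3 a ha hb hq hmax
    refine le_trans ?_ h4
    rw [div_le_div_iff₀ hq h3]
    rw [qq]
    nlinarith)
  exact realised_of_crit u hu hinj p q hp0 hp1 hq0 hq1 hside hV hκ0 (by rw [hκ, htot]; ring) ha
    hη0 (by linarith) hq hR hL hE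

/-- **Explicit form.** -/
theorem realised_explicit (u : Fin N → E 2) (hu : ∀ i, ‖u i‖ = 1) (hinj : Function.Injective u)
    (p q : Fin N) (hp0 : u p 0 = 0) (hp1 : u p 1 = 1) (hq0 : u q 0 = 0) (hq1 : u q 1 = -1)
    (hside : ∀ i, i ≠ p → i ≠ q → u i 0 ≠ 0) (hr : ∃ i, 0 < u i 0) (hl : ∃ i, u i 0 < 0)
    {V : Fin N → ℝ} (hV : ∀ i, 0 < V i) (hwall : ∑ i, V i < 2 * (V p + V q))
    {mR MR mL ML : ℝ} (hR : ∀ i, 0 < u i 0 → mR ≤ slo u i ∧ slo u i ≤ MR)
    (hL : ∀ i, u i 0 < 0 → mL ≤ slo u i ∧ slo u i ≤ ML) (hT : 0 < mR + mL)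
    (h : √(2 * (1 + √((mR + mL) / (MR + ML))) * V p) + √(2 * (V p + V q) - ∑ i, V i) ≤
      √(√((mR + mL) / (MR + ML)) * ∑ i, V i)) :
    ∃ P : Set (E 2), Realises u V P := by
  obtain ⟨i₀, hi₀⟩ := hr
  obtain ⟨k₀, hk₀⟩ := hl
  have hRm : mR ≤ MR := (hR i₀ hi₀).1.trans (hR i₀ hi₀).2
  have hLm : mL ≤ ML := (hL k₀ hk₀).1.trans (hL k₀ hk₀).2
  set T1 := MR + ML with hT1
  set T2 := mR + mL with hT2
  have hT12 : T2 ≤ T1 := by linarith
  have hT1p : 0 < T1 := hT.trans_le hT12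
  set r := √(T2 / T1) with hr
  have hr2 : r ^ 2 = T2 / T1 := Real.sq_sqrt (by positivity)
  have hr0 : 0 < r := Real.sqrt_pos.2 (by positivity)
  have hr1 : r ≤ 1 := by
    have h1 : r ^ 2 ≤ 1 := by
      rw [hr2, div_le_one hT1p]; exact hT12
    nlinarith
  set ρ := (1 - r) / (1 + r) with hρ
  have hρ0 : 0 ≤ ρ := div_nonneg (by linarith) (by linarith)
  have hρ1 : ρ < 1 := by
    rw [hρ, div_lt_one (by linarith)]; linarith
  have e1 : 1 + ρ = 2 / (1 + r) := by
    rw [hρ]; field_simp; ring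
  have e2 : 1 - ρ = 2 * r / (1 + r) := by
    rw [hρ]; field_simp; ring
  have hr2' : r ^ 2 * T1 = T2 := by rw [hr2]; field_simp
  have hid : (T1 - T2) * (1 - ρ) ^ 2 / 4 = ρ * T2 := by
    rw [e2, hρ, ← hr2']
    field_simp
    ring
  have hcb : ∀ a, Adm u a → 0 < bsum u a ∧ csum u a ≤ ρ * bsum u a := by
    intro a ha
    have haR : ∀ i ∈ rt u, 0 ≤ a i := fun i hi => (ha.pos i (rt_sub_sd u hi)).le
    have haL : ∀ i ∈ lf u, 0 ≤ a i := fun i hi => (ha.pos i (lf_sub_sd u hi)).le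
    have h1 := mean_ge (c := slo u) haR ha.sumR (m := mR) fun i hi => (hR i (mem_rt.1 hi)).1
    have h2 := mean_ge (c := slo u) haL ha.sumL (m := mL) fun i hi => (hL i (mem_lf.1 hi)).1
    have h3 := mean_diff (c := slo u) haR ha.sumR (fun i hi => (hR i (mem_rt.1 hi)).1)
      (fun i hi => (hR i (mem_rt.1 hi)).2) hRm hρ0
    have h4 := mean_diff (c := slo u) haL ha.sumL (fun i hi => (hL i (mem_lf.1 hi)).1)
      (fun i hi => (hL i (mem_lf.1 hi)).2) hLm hρ0
    have h5 : bsum u a = ∑ i ∈ rt u, a i * slo u i + ∑ i ∈ lf u, a i * slo u i := rfl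
    constructor
    · rw [h5]; linarith
    · rw [csum, h5]
      have h6 : (T1 - T2) * (1 - ρ) ^ 2 / 4 =
          (MR - mR) * (1 - ρ) ^ 2 / 4 + (ML - mL) * (1 - ρ) ^ 2 / 4 := by
        rw [hT1, hT2]; ring
      rw [h6] at hid
      have h7 : ρ * T2 = ρ * mR + ρ * mL := by rw [hT2]; ring
      rw [h7] at hid
      rw [mul_sub] at h3 h4
      rw [add_div, mul_add]
      linarith
  obtain ⟨a₀, ha₀⟩ := exists_adm u ⟨i₀, hi₀⟩ ⟨k₀, hk₀⟩
  refine realised_core u hu hinj p q hp0 hp1 hq0 hq1 hside hV hwall hρ0 hρ1 ?_ ha₀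
    (hcb a₀ ha₀).1 (hcb a₀ ha₀).2 fun η _ a ha _ _ _ => (hcb a ha).2
  -- the two forms of the inequality
  rw [e1, e2]
  set κ := 2 * (V p + V q) - ∑ i, V i with hκ
  set T := ∑ i, V i with hTT
  have hs : 0 < √(2 / (1 + r)) := Real.sqrt_pos.2 (by positivity)
  have f1 : √(2 / (1 + r)) * √(2 * (1 + r) * V p) = 2 * √(V p) := by
    rw [← Real.sqrt_mul (by positivity)]
    have : 2 / (1 + r) * (2 * (1 + r) * V p) = 2 ^ 2 * V p := by
      field_simp
    rw [this, Real.sqrt_mul (by norm_num), Real.sqrt_sq (by norm_num)]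
  have f2 : √(2 / (1 + r)) * √κ = √(κ * (2 / (1 + r))) := by
    rw [← Real.sqrt_mul (by positivity), mul_comm]
  have f3 : √(2 / (1 + r)) * √(r * T) = √(T * (2 * r / (1 + r))) := by
    rw [← Real.sqrt_mul (by positivity)]
    congr 1
    field_simp
  have h8 := mul_le_mul_of_nonneg_left h hs.le
  rw [mul_add, f1, f2, f3] at h8
  exact h8

/-- **General form.** -/
theorem realised_general (u : Fin N → E 2) (hu : ∀ i, ‖u i‖ = 1) (hinj : Function.Injective u)
    (p q : Fin N) (hp0 : u p 0 = 0) (hp1 : u p 1 = 1) (hq0 : u q 0 = 0) (hq1 : u q 1 = -1)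
    (hside : ∀ i, i ≠ p → i ≠ q → u i 0 ≠ 0)
    {V : Fin N → ℝ} (hV : ∀ i, 0 < V i) (hwall : ∑ i, V i < 2 * (V p + V q)) {ρ : ℝ}
    (hρ0 : 0 ≤ ρ) (hρ1 : ρ < 1)
    (h : 2 * √(V p) + √((2 * (V p + V q) - ∑ i, V i) * (1 + ρ)) ≤ √((∑ i, V i) * (1 - ρ)))
    {am : Fin N → ℝ} (ham : Adm u am) (hbm : 0 < bsum u am)
    (hmax : ∀ a, Adm u a → 0 < bsum u a →
      (2 * (V p + V q) - ∑ i, V i) * Real.log (bsum u a) + ∑ i ∈ sd u, 2 * V i * Real.log (a i) ≤
      (2 * (V p + V q) - ∑ i, V i) * Real.log (bsum u am) +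
        ∑ i ∈ sd u, 2 * V i * Real.log (am i))
    (hcm : csum u am ≤ ρ * bsum u am) :
    ∃ P : Set (E 2), Realises u V P := by
  refine realised_core u hu hinj p q hp0 hp1 hq0 hq1 hside hV hwall hρ0 hρ1 h ham hbm hcm ?_
  intro η hη a ha hb hq hthet
  set κ := 2 * (V p + V q) - ∑ i, V i with hκ
  have hκ0 : 0 < κ := by rw [hκ]; linarith
  have hqm : (1 - 2 * η - ρ) * bsum u am ≤ qq u am η := by
    rw [qq]; nlinarith
  have hqm0 : 0 < qq u am η := lt_of_lt_of_le (by positivity) hqm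
  have h1 := hmax a ha hb
  have h2 := hthet am ham hqm0
  rw [thet, thet] at h2
  have h3 : κ * (Real.log (qq u am η) - Real.log (bsum u am)) ≤
      κ * (Real.log (qq u a η) - Real.log (bsum u a)) := by linarith
  have h4 := le_of_mul_le_mul_left h3 hκ0
  rw [← Real.log_div hqm0.ne' hbm.ne', ← Real.log_div hq.ne' hb.ne',
    Real.log_le_log_iff (by positivity) (by positivity), div_le_div_iff₀ hbm hb] at h4
  have h5 : (1 - 2 * η - ρ) * bsum u am * bsum u a ≤ qq u a η * bsum u am :=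
    (mul_le_mul_of_nonneg_right hqm hb.le).trans h4
  have h6 : (1 - 2 * η - ρ) * bsum u a ≤ qq u a η := by
    have h7 : (1 - 2 * η - ρ) * bsum u a * bsum u am ≤ qq u a η * bsum u am := by
      linarith [mul_right_comm (1 - 2 * η - ρ) (bsum u am) (bsum u a)]
    exact le_of_mul_le_mul_right h7 hbm
  rw [qq] at h6
  nlinarith

end Pool.Agent.LogMinkowski
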