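import Pool.Agent.Lib.MP_36b0a5_gt.PlHalf
import Pool.Agent.Lib.MP_36b0a5_gt.PlBuild

/-!
# The equations of a pentagon with two parallel edges
-/

set_option autoImplicit false

open MeasureTheory Set Module Filter
open scoped Pointwise ENNReal RealInnerProductSpace Topology

namespace Pool.Agent.LogMinkowski

/-- Area of the cone over an edge. -/
theorem coneVolume_seg {P : Set (E 2)} {v : E 2} {p q : E 2} (h : face P v = segment ℝ p q) :
    coneVolume P v = |p 0 * q 1 - p 1 * q 0| / 2 := by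
  rw [coneVolume, h, volume_tri]

/-- The numbers which describe a pentagon with a top edge, a bottom edge, two edges on the right and
one on the left. -/
theorem pent_eqs {u : Fin 5 → E 2} (h00 : u 0 0 = 0) (h01 : u 0 1 = 1) (h10 : u 1 0 = 0)
    (h11 : u 1 1 = -1) (h2 : 0 < u 2 0) (h3 : 0 < u 3 0) (h4 : u 4 0 < 0)
    (hc : slo u 2 < slo u 3) {V : Fin 5 → ℝ} {P : Set (E 2)} (hP : Realises u V P) :
    ∃ yt yb y b2 b3 b4 : ℝ, 0 < yt ∧ 0 < yb ∧ -yb < y ∧ y < yt ∧ 0 < b4 ∧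
      y * (slo u 3 - slo u 2) = b3 - b2 ∧
      V 0 = yt * (b3 + b4 - (slo u 3 + slo u 4) * yt) / 2 ∧
      V 1 = yb * (b2 + b4 + (slo u 2 + slo u 4) * yb) / 2 ∧
      V 2 = b2 * (y + yb) / 2 ∧ V 3 = b3 * (yt - y) / 2 ∧ V 4 = b4 * (yt + yb) / 2 := by
  obtain ⟨c, hcpos, hmem, hface, htwo⟩ := hP.halfspaces (le_refl 2)
  set c2 := slo u 2 with hc2
  set c3 := slo u 3 with hc3
  set c4 := slo u 4 with hc4
  have ec2 : c2 = u 2 1 / u 2 0 := by rw [hc2, slo, abs_of_pos h2]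
  have ec3 : c3 = u 3 1 / u 3 0 := by rw [hc3, slo, abs_of_pos h3]
  have ec4 : c4 = u 4 1 / -u 4 0 := by rw [hc4, slo, abs_of_neg h4]
  have h4' : 0 < -u 4 0 := by linarith
  set b2 := c 2 / u 2 0 with hb2
  set b3 := c 3 / u 3 0 with hb3
  set b4 := c 4 / -u 4 0 with hb4
  have hb2p : 0 < b2 := div_pos (hcpos 2) h2
  have hb3p : 0 < b3 := div_pos (hcpos 3) h3
  have hb4p : 0 < b4 := div_pos (hcpos 4) h4'
  set yt := c 0 with hyt
  set yb := c 1 with hyb
  have hytp : 0 < yt := hcpos 0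
  have hybp : 0 < yb := hcpos 1
  set δ := c3 - c2 with hδ
  have hδp : 0 < δ := by linarith
  have i0 : ∀ x : E 2, ⟪u 0, x⟫ = x 1 := fun x => by rw [inner_two, h00, h01]; ring
  have i1 : ∀ x : E 2, ⟪u 1, x⟫ = -x 1 := fun x => by rw [inner_two, h10, h11]; ring
  have i2 : ∀ x : E 2, ⟪u 2, x⟫ = u 2 0 * (x 0 + c2 * x 1) := fun x => by
    rw [inner_two, ec2]; field_simp
  have i3 : ∀ x : E 2, ⟪u 3, x⟫ = u 3 0 * (x 0 + c3 * x 1) := fun x => by
    rw [inner_two, ec3]; field_simp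
  have i4 : ∀ x : E 2, ⟪u 4, x⟫ = -u 4 0 * (-x 0 + c4 * x 1) := fun x => by
    have := h4.ne
    rw [inner_two, ec4]; field_simp; ring
  have e2 : c 2 = u 2 0 * b2 := by rw [hb2]; field_simp
  have e3 : c 3 = u 3 0 * b3 := by rw [hb3]; field_simp
  have e4 : c 4 = -u 4 0 * b4 := by
    have := h4.ne
    rw [hb4]; field_simp
  have hmem' : ∀ x : E 2, (∀ j, ⟪u j, x⟫ ≤ c j) ↔ (x 1 ≤ yt ∧ -yb ≤ x 1 ∧ x 0 + c2 * x 1 ≤ b2 ∧
      x 0 + c3 * x 1 ≤ b3 ∧ -x 0 + c4 * x 1 ≤ b4) := by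
    intro x
    constructor
    · intro hx
      have k0 := hx 0
      have k1 := hx 1
      have k2 := hx 2
      have k3 := hx 3
      have k4 := hx 4
      rw [i0] at k0
      rw [i1] at k1
      rw [i2, e2, mul_le_mul_iff_right₀ h2] at k2
      rw [i3, e3, mul_le_mul_iff_right₀ h3] at k3
      rw [i4, e4, mul_le_mul_iff_right₀ h4'] at k4
      exact ⟨k0, by linarith, k2, k3, k4⟩
    · rintro ⟨k0, k1, k2, k3, k4⟩ j
      fin_cases j
      · change ⟪u 0, x⟫ ≤ c 0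
        rw [i0]; exact k0
      · change ⟪u 1, x⟫ ≤ c 1
        rw [i1]; linarith
      · change ⟪u 2, x⟫ ≤ c 2
        rw [i2, e2, mul_le_mul_iff_right₀ h2]; exact k2
      · change ⟪u 3, x⟫ ≤ c 3
        rw [i3, e3, mul_le_mul_iff_right₀ h3]; exact k3
      · change ⟪u 4, x⟫ ≤ c 4
        rw [i4, e4, mul_le_mul_iff_right₀ h4']; exact k4
  -- membership in the faces
  have f0 : ∀ x, x ∈ face P (u 0) ↔ (∀ j, ⟪u j, x⟫ ≤ c j) ∧ x 1 = yt := fun x => by
    rw [hface 0, mem_setOf_eq, i0]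
  have f1 : ∀ x, x ∈ face P (u 1) ↔ (∀ j, ⟪u j, x⟫ ≤ c j) ∧ x 1 = -yb := fun x => by
    rw [hface 1, mem_setOf_eq, i1, neg_eq_iff_eq_neg]
  have f2 : ∀ x, x ∈ face P (u 2) ↔ (∀ j, ⟪u j, x⟫ ≤ c j) ∧ x 0 + c2 * x 1 = b2 := fun x => by
    rw [hface 2, mem_setOf_eq, i2, e2, mul_right_inj' h2.ne']
  have f3 : ∀ x, x ∈ face P (u 3) ↔ (∀ j, ⟪u j, x⟫ ≤ c j) ∧ x 0 + c3 * x 1 = b3 := fun x => by
    rw [hface 3, mem_setOf_eq, i3, e3, mul_right_inj' h3.ne']
  have f4 : ∀ x, x ∈ face P (u 4) ↔ (∀ j, ⟪u j, x⟫ ≤ c j) ∧ -x 0 + c4 * x 1 = b4 := fun x => by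
    rw [hface 4, mem_setOf_eq, i4, e4, mul_right_inj' h4'.ne']
  have hext : ∀ x z : E 2, x 0 = z 0 → x 1 = z 1 → x = z := by
    intro x z h0 h1
    ext j
    fin_cases j
    · exact h0
    · exact h1
  -- the widths at the top and at the bottom
  have wt : ∀ c' b' : ℝ, (∀ x : E 2, (∀ j, ⟪u j, x⟫ ≤ c j) → x 0 + c' * x 1 ≤ b') →
      0 < b' + b4 - (c' + c4) * yt := by
    intro c' b' hb'
    obtain ⟨x, hx, z, hz, hxz⟩ := htwo 0
    rw [f0] at hx hz
    have hx4 := ((hmem' x).1 hx.1).2.2.2.2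
    have hz4 := ((hmem' z).1 hz.1).2.2.2.2
    have hxb := hb' x hx.1
    have hzb := hb' z hz.1
    rw [hx.2] at hx4 hxb
    rw [hz.2] at hz4 hzb
    rcases lt_trichotomy (x 0) (z 0) with h | h | h
    · linarith
    · exact absurd (hext x z h (hx.2.trans hz.2.symm)) hxz
    · linarith
  have wb : ∀ c' b' : ℝ, (∀ x : E 2, (∀ j, ⟪u j, x⟫ ≤ c j) → x 0 + c' * x 1 ≤ b') →
      0 < b' + b4 + (c' + c4) * yb := by
    intro c' b' hb'
    obtain ⟨x, hx, z, hz, hxz⟩ := htwo 1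
    rw [f1] at hx hz
    have hx4 := ((hmem' x).1 hx.1).2.2.2.2
    have hz4 := ((hmem' z).1 hz.1).2.2.2.2
    have hxb := hb' x hx.1
    have hzb := hb' z hz.1
    rw [hx.2] at hx4 hxb
    rw [hz.2] at hz4 hzb
    rcases lt_trichotomy (x 0) (z 0) with h | h | h
    · linarith
    · exact absurd (hext x z h (hx.2.trans hz.2.symm)) hxz
    · linarith
  have wt2 := wt c2 b2 fun x hx => ((hmem' x).1 hx).2.2.1
  have wt3 := wt c3 b3 fun x hx => ((hmem' x).1 hx).2.2.2.1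
  have wb2 := wb c2 b2 fun x hx => ((hmem' x).1 hx).2.2.1
  have wb3 := wb c3 b3 fun x hx => ((hmem' x).1 hx).2.2.2.1
  have hd : 0 < yt + yb := by linarith
  have wid : ∀ c' b' : ℝ, 0 < b' + b4 - (c' + c4) * yt → 0 < b' + b4 + (c' + c4) * yb →
      ∀ s, -yb ≤ s → s ≤ yt → 0 < b' + b4 - (c' + c4) * s := by
    intro c' b' k1 k2 s hs1 hs2
    have k3 : (yt + yb) * (b' + b4 - (c' + c4) * s) =
        (s + yb) * (b' + b4 - (c' + c4) * yt) + (yt - s) * (b' + b4 + (c' + c4) * yb) := by ring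
    have k4 : 0 < (yt + yb) * (b' + b4 - (c' + c4) * s) := by
      rw [k3]
      rcases eq_or_lt_of_le hs1 with k | k
      · rw [← k]
        have : 0 < (yt - -yb) * (b' + b4 + (c' + c4) * yb) := mul_pos (by linarith) k2
        linarith
      · have k5 : 0 < (s + yb) * (b' + b4 - (c' + c4) * yt) := mul_pos (by linarith) k1
        have k6 : 0 ≤ (yt - s) * (b' + b4 + (c' + c4) * yb) := mul_nonneg (by linarith) k2.le
        linarith
    exact (mul_pos_iff_of_pos_left hd).1 k4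
  -- the vertex on the right
  set y := (b3 - b2) / δ with hy
  have hyδ : y * δ = b3 - b2 := by rw [hy]; field_simp
  have hlow : -yb < y := by
    obtain ⟨x, hx, z, hz, hxz⟩ := htwo 2
    rw [f2] at hx hz
    have hx' := (hmem' x).1 hx.1
    have hz' := (hmem' z).1 hz.1
    have hxy : x 1 ≤ y := by
      rw [hy, le_div_iff₀ hδp, hδ]
      linarith [hx'.2.2.2.1, hx.2]
    have hzy : z 1 ≤ y := by
      rw [hy, le_div_iff₀ hδp, hδ]
      linarith [hz'.2.2.2.1, hz.2]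
    rcases lt_trichotomy (x 1) (z 1) with h | h | h
    · linarith [hx'.2.1]
    · refine absurd (hext x z ?_ h) hxz
      have k1 := hx.2
      have k2 := hz.2
      rw [h] at k1
      linarith
    · linarith [hz'.2.1]
  have hupp : y < yt := by
    obtain ⟨x, hx, z, hz, hxz⟩ := htwo 3
    rw [f3] at hx hz
    have hx' := (hmem' x).1 hx.1
    have hz' := (hmem' z).1 hz.1
    have hxy : y ≤ x 1 := by
      rw [hy, div_le_iff₀ hδp, hδ]
      linarith [hx'.2.2.1, hx.2]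
    have hzy : y ≤ z 1 := by
      rw [hy, div_le_iff₀ hδp, hδ]
      linarith [hz'.2.2.1, hz.2]
    rcases lt_trichotomy (x 1) (z 1) with h | h | h
    · linarith [hz'.1]
    · refine absurd (hext x z ?_ h) hxz
      have k1 := hx.2
      have k2 := hz.2
      rw [h] at k1
      linarith
    · linarith [hx'.1]
  -- on the line of one right edge the other constraint reads
  have r2 : ∀ s, s ≤ y → b2 - c2 * s + c3 * s ≤ b3 := by
    intro s hs
    have := mul_le_mul_of_nonneg_right hs hδp.le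
    rw [hyδ] at this
    linarith [show s * δ = c3 * s - c2 * s by rw [hδ]; ring]
  have r3 : ∀ s, y ≤ s → b3 - c3 * s + c2 * s ≤ b2 := by
    intro s hs
    have := mul_le_mul_of_nonneg_right hs hδp.le
    rw [hyδ] at this
    linarith [show s * δ = c3 * s - c2 * s by rw [hδ]; ring]
  -- the faces as segments
  have F0 : face P (u 0) = segment ℝ (WithLp.toLp 2 ![c4 * yt - b4, yt] : E 2)
      (WithLp.toLp 2 ![b3 - c3 * yt, yt]) := by
    rw [← seg_hor yt (c4 * yt - b4) (b3 - c3 * yt) (by linarith)]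
    ext x
    rw [f0, hmem']
    constructor
    · rintro ⟨⟨_, _, k2, k3, k4⟩, k5⟩
      rw [k5] at k3 k4
      exact ⟨k5, by linarith, by linarith⟩
    · rintro ⟨k5, k6, k7⟩
      have := r3 yt hupp.le
      exact ⟨⟨k5.le, by rw [k5]; linarith, by rw [k5]; linarith, by rw [k5]; linarith,
        by rw [k5]; linarith⟩, k5⟩
  have F1 : face P (u 1) = segment ℝ (WithLp.toLp 2 ![c4 * -yb - b4, -yb] : E 2)
      (WithLp.toLp 2 ![b2 - c2 * -yb, -yb]) := by
    rw [← seg_hor (-yb) (c4 * -yb - b4) (b2 - c2 * -yb) (by linarith)]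
    ext x
    rw [f1, hmem']
    constructor
    · rintro ⟨⟨_, _, k2, k3, k4⟩, k5⟩
      rw [k5] at k2 k4
      exact ⟨k5, by linarith, by linarith⟩
    · rintro ⟨k5, k6, k7⟩
      have := r2 (-yb) hlow.le
      exact ⟨⟨by rw [k5]; linarith, k5.ge, by rw [k5]; linarith, by rw [k5]; linarith,
        by rw [k5]; linarith⟩, k5⟩
  have F2 : face P (u 2) = segment ℝ (WithLp.toLp 2 ![b2 + -c2 * -yb, -yb] : E 2)
      (WithLp.toLp 2 ![b2 + -c2 * y, y]) := by
    rw [← seg_line b2 (-c2) (-yb) y hlow]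
    ext x
    rw [f2, hmem']
    constructor
    · rintro ⟨⟨_, k1, _, k3, _⟩, k5⟩
      refine ⟨by linarith, k1, ?_⟩
      rw [hy, le_div_iff₀ hδp, hδ]
      linarith
    · rintro ⟨k5, k6, k7⟩
      have k8 := r2 (x 1) k7
      have k9 := wid c2 b2 wt2 wb2 (x 1) k6 (by linarith)
      exact ⟨⟨by linarith, k6, by linarith, by linarith, by linarith⟩, by linarith⟩
  have F3 : face P (u 3) = segment ℝ (WithLp.toLp 2 ![b3 + -c3 * y, y] : E 2)
      (WithLp.toLp 2 ![b3 + -c3 * yt, yt]) := by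
    rw [← seg_line b3 (-c3) y yt hupp]
    ext x
    rw [f3, hmem']
    constructor
    · rintro ⟨⟨k0, _, k2, _, _⟩, k5⟩
      refine ⟨by linarith, ?_, k0⟩
      rw [hy, div_le_iff₀ hδp, hδ]
      linarith
    · rintro ⟨k5, k6, k7⟩
      have k8 := r3 (x 1) k6
      have k9 := wid c3 b3 wt3 wb3 (x 1) (by linarith) k7
      exact ⟨⟨k7, by linarith, by linarith, by linarith, by linarith⟩, by linarith⟩
  have F4 : face P (u 4) = segment ℝ (WithLp.toLp 2 ![-b4 + c4 * -yb, -yb] : E 2)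
      (WithLp.toLp 2 ![-b4 + c4 * yt, yt]) := by
    rw [← seg_line (-b4) c4 (-yb) yt (by linarith)]
    ext x
    rw [f4, hmem']
    constructor
    · rintro ⟨⟨k0, k1, _, _, _⟩, k5⟩
      exact ⟨by linarith, k1, k0⟩
    · rintro ⟨k5, k6, k7⟩
      have k8 := wid c2 b2 wt2 wb2 (x 1) k6 k7
      have k9 := wid c3 b3 wt3 wb3 (x 1) k6 k7
      exact ⟨⟨k7, k6, by linarith, by linarith, by linarith⟩, by linarith⟩
  have hV := hP.volumes
  refine ⟨yt, yb, y, b2, b3, b4, hytp, hybp, hlow, hupp, hb4p, hyδ, ?_, ?_, ?_, ?_, ?_⟩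
  · rw [← hV 0, coneVolume_seg F0]
    simp only [Matrix.cons_val_zero, Matrix.cons_val_one]
    have e : (c4 * yt - b4) * yt - yt * (b3 - c3 * yt) =
        -(yt * (b3 + b4 - (c3 + c4) * yt)) := by ring
    rw [e, abs_neg, abs_of_pos (mul_pos hytp wt3)]
  · rw [← hV 1, coneVolume_seg F1]
    simp only [Matrix.cons_val_zero, Matrix.cons_val_one]
    have e : (c4 * -yb - b4) * -yb - -yb * (b2 - c2 * -yb) =
        yb * (b2 + b4 + (c2 + c4) * yb) := by ring
    rw [e, abs_of_pos (mul_pos hybp wb2)]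
  · rw [← hV 2, coneVolume_seg F2]
    simp only [Matrix.cons_val_zero, Matrix.cons_val_one]
    have e : (b2 + -c2 * -yb) * y - -yb * (b2 + -c2 * y) = b2 * (y + yb) := by ring
    rw [e, abs_of_pos (mul_pos hb2p (by linarith))]
  · rw [← hV 3, coneVolume_seg F3]
    simp only [Matrix.cons_val_zero, Matrix.cons_val_one]
    have e : (b3 + -c3 * y) * yt - y * (b3 + -c3 * yt) = b3 * (yt - y) := by ring
    rw [e, abs_of_pos (mul_pos hb3p (by linarith))]
  · rw [← hV 4, coneVolume_seg F4]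
    simp only [Matrix.cons_val_zero, Matrix.cons_val_one]
    have e : (-b4 + c4 * -yb) * yt - -yb * (-b4 + c4 * yt) = -(b4 * (yt + yb)) := by ring
    rw [e, abs_neg, abs_of_pos (mul_pos hb4p hd)]

end Pool.Agent.LogMinkowski
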