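import Pool.Agent.Lib.MP_36b0a5_gt.PlPentMain

/-!
# Pentagons: realised if and only if
-/

set_option autoImplicit false

open Set

namespace Pool.Agent.LogMinkowski

/-- The criterion, with `M = V_0 + V_1`. -/
def PentCrit (κ δ τ M v V2 V3 : ℝ) : Prop :=
  ∃ z w : ℝ, 0 < z ∧ z < 1 ∧ 0 < w ∧ 0 < τ + δ * z ∧
    w * δ * (δ * z ^ 2 + 2 * τ * z - τ) =
      2 * (τ + δ * z) * (V2 / (1 - z) - V3 / z) - δ * κ ∧
    0 < 1 - (κ / w + δ * (z * (1 - z))) / (τ + δ * z) ∧
    v ≤ (1 - (κ / w + δ * (z * (1 - z))) / (τ + δ * z)) *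
      (2 * M - w * (τ + δ * z) - κ - w * (δ * (z * (1 - z))))

/-- Necessity. -/
theorem pent_only {u : Fin 5 → E 2} (h00 : u 0 0 = 0) (h01 : u 0 1 = 1) (h10 : u 1 0 = 0)
    (h11 : u 1 1 = -1) (h2 : 0 < u 2 0) (h3 : 0 < u 3 0) (h4 : u 4 0 < 0)
    (hc : slo u 2 < slo u 3) {V : Fin 5 → ℝ} (hV : ∀ i, 0 < V i) {P : Set (E 2)}
    (hP : Realises u V P)
    (hκ : 0 ≤ 2 * (V 0 + V 1) - ∑ i, V i) (hle : V 0 ≤ V 1) :
    PentCrit (2 * (V 0 + V 1) - ∑ i, V i) (slo u 3 - slo u 2) (slo u 2 + slo u 4) (V 0 + V 1)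
      (4 * V 0) (V 2) (V 3) := by
  obtain ⟨yt, yb, y, b2, b3, b4, hyt, hyb, hlow, hupp, hb4, hyδ, e0, e1, e2, e3, e4⟩ :=
    pent_eqs h00 h01 h10 h11 h2 h3 h4 hc hP
  set c2 := slo u 2
  set c3 := slo u 3
  set c4 := slo u 4
  set κ := 2 * (V 0 + V 1) - ∑ i, V i with hκd
  set δ := c3 - c2 with hδ
  set τ := c2 + c4 with hτ
  have hδp : 0 < δ := by linarith
  have hsum : κ = V 0 + V 1 - (V 2 + V 3 + V 4) := by
    rw [hκd, Fin.sum_univ_five]; ring
  have hb3 : b3 = b2 + y * δ := by linarith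
  have hc3 : c3 + c4 = τ + δ := by rw [hτ, hδ]; ring
  rw [hc3] at e0
  set d := yt + yb with hd
  have hdp : 0 < d := by linarith
  set z := (yt - y) / d with hz
  have hyb' : yb = d - yt := by rw [hd]; ring
  have hzp : 0 < z := div_pos (by linarith) hdp
  have h1z : 1 - z = (y + yb) / d := by rw [hz, hd]; field_simp; ring
  have h1zp : 0 < 1 - z := by rw [h1z]; exact div_pos (by linarith) hdp
  set w := d ^ 2 / 2 with hw
  have hwp : 0 < w := by positivity
  have hzd : z * d = yt - y := by rw [hz]; field_simp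
  have h1zd : (1 - z) * d = y + yb := by rw [h1z]; field_simp
  set s := (yb - yt) / d with hs
  have hsd : s * d = yb - yt := by rw [hs]; field_simp
  set Bz := τ + δ * z with hBz
  have hBd : Bz * d = τ * d + δ * (yt - y) := by rw [hBz, add_mul, mul_assoc, hzd]
  -- the three identities
  have k1 : κ = w * (s * Bz - δ * (z * (1 - z))) := by
    have r : w * (s * Bz - δ * (z * (1 - z))) =
        ((s * d) * (Bz * d) - δ * ((z * d) * ((1 - z) * d))) / 2 := by rw [hw]; ring
    rw [r, hsd, hBd, hzd, h1zd, hsum, e0, e1, e2, e3, e4, hb3, hd]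
    ring
  have k2 : 2 * (V 2 / (1 - z) - V 3 / z) = w * δ * (s - 1 + 2 * z) := by
    have r1 : V 2 / (1 - z) = b2 * d / 2 := by
      rw [div_eq_iff h1zp.ne', e2]
      have : b2 * d / 2 * (1 - z) = b2 * ((1 - z) * d) / 2 := by ring
      rw [this, h1zd]
    have r2 : V 3 / z = b3 * d / 2 := by
      rw [div_eq_iff hzp.ne', e3]
      have : b3 * d / 2 * z = b3 * (z * d) / 2 := by ring
      rw [this, hzd]
    have r3 : w * δ * (s - 1 + 2 * z) = d / 2 * δ * (s * d - d + 2 * (z * d)) := by rw [hw]; ring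
    rw [r1, r2, r3, hsd, hzd, hb3, hd]
    ring
  have k3 : w * Bz = d * (V 1 / yb - V 0 / yt) := by
    have r1 : V 1 / yb = (b2 + b4 + τ * yb) / 2 := by rw [e1]; field_simp
    have r2 : V 0 / yt = (b3 + b4 - (τ + δ) * yt) / 2 := by rw [e0]; field_simp
    have r3 : w * Bz = d / 2 * (Bz * d) := by rw [hw]; ring
    rw [r1, r2, r3, hBd, hb3, hd]
    ring
  have h1s : 1 - s = 2 * yt / d := by rw [hs, hyb']; field_simp; ring
  have h1s' : 1 + s = 2 * yb / d := by rw [hs, hd]; field_simp; ring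
  have k4 : 4 * V 0 = (1 - s) * (2 * (V 0 + V 1) - w * Bz - κ - w * (δ * (z * (1 - z)))) := by
    have r1 : 2 * (V 0 + V 1) - w * Bz - κ - w * (δ * (z * (1 - z))) =
        2 * (V 0 + V 1) - (1 + s) * (w * Bz) := by rw [k1]; ring
    rw [r1, k3, h1s, h1s', hd]
    field_simp
    ring
  have hq : 0 < δ * (z * (1 - z)) := by positivity
  have hsB : 0 < s * Bz := by
    have r : 0 ≤ w * (s * Bz - δ * (z * (1 - z))) := by rw [← k1]; exact hκ
    have r2 : 0 ≤ s * Bz - δ * (z * (1 - z)) := by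
      by_contra hcon
      rw [not_le] at hcon
      exact absurd r (not_le.2 (mul_neg_of_pos_of_neg hwp hcon))
    linarith
  have hsp : 0 < s := by
    by_contra hcon
    rw [not_lt] at hcon
    have hs0 : s < 0 := by
      rcases eq_or_lt_of_le hcon with r | r
      · rw [r, zero_mul] at hsB
        exact absurd hsB (lt_irrefl _)
      · exact r
    have hyy : yb < yt := by
      by_contra hcon2
      rw [not_lt] at hcon2
      have : 0 ≤ s := div_nonneg (by linarith) hdp.le
      linarith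
    have r1 : V 0 / yt < V 0 / yb := div_lt_div_of_pos_left (hV 0) hyb hyy
    have r2 : V 0 / yb ≤ V 1 / yb := div_le_div_of_nonneg_right hle hyb.le
    have r3 : 0 < w * Bz := by
      rw [k3]
      exact mul_pos hdp (by linarith)
    have r4 : 0 < Bz := (mul_pos_iff_of_pos_left hwp).1 r3
    have r5 : s * Bz < 0 := mul_neg_of_neg_of_pos hs0 r4
    linarith
  have hBp : 0 < Bz := (mul_pos_iff_of_pos_left hsp).1 hsB
  have hs' : (κ / w + δ * (z * (1 - z))) / Bz = s := by
    rw [div_eq_iff hBp.ne', k1]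
    field_simp
    ring
  refine ⟨z, w, hzp, by linarith, hwp, hBp, ?_, ?_, ?_⟩
  · have r : 2 * Bz * (V 2 / (1 - z) - V 3 / z) = Bz * (2 * (V 2 / (1 - z) - V 3 / z)) := by ring
    rw [r, k2, k1, hBz]
    ring
  · rw [hs', h1s]
    positivity
  · rw [hs', ← k4]

/-- Sufficiency. -/
theorem pent_if {u : Fin 5 → E 2} (hu : ∀ i, ‖u i‖ = 1) (h00 : u 0 0 = 0) (h01 : u 0 1 = 1)
    (h10 : u 1 0 = 0) (h11 : u 1 1 = -1) (h2 : 0 < u 2 0) (h3 : 0 < u 3 0) (h4 : u 4 0 < 0)
    (hc : slo u 2 < slo u 3) {V : Fin 5 → ℝ} (hV : ∀ i, 0 < V i)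
    (hκ : 0 ≤ 2 * (V 0 + V 1) - ∑ i, V i)
    (hcrit : PentCrit (2 * (V 0 + V 1) - ∑ i, V i) (slo u 3 - slo u 2) (slo u 2 + slo u 4)
      (V 0 + V 1) (4 * V 0) (V 2) (V 3)) :
    ∃ P : Set (E 2), Realises u V P := by
  set c2 := slo u 2 with hc2
  set c3 := slo u 3 with hc3
  set c4 := slo u 4 with hc4
  set κ := 2 * (V 0 + V 1) - ∑ i, V i with hκd
  set δ := c3 - c2 with hδ
  set τ := c2 + c4 with hτ
  have hδp : 0 < δ := by linarith
  have hsum : κ = V 0 + V 1 - (V 2 + V 3 + V 4) := by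
    rw [hκd, Fin.sum_univ_five]; ring
  have hV0 := hV 0
  have hV1 := hV 1
  have hV2 := hV 2
  have hV3 := hV 3
  have hV4 := hV 4
  obtain ⟨z, w, hz0, hz1, hw, hB, hcurve, h0, h0'⟩ := hcrit
  obtain ⟨z, w, hz0, hz1, hw, hB, hcurve, h0, h0'⟩ := pent_exact hκ hδp
    (by linarith : 0 < 4 * V 0) (by linarith : 0 < V 0 + V 1) hV2 hV3 hz0 hz1 hw hB hcurve h0 h0'
  set s := (κ / w + δ * (z * (1 - z))) / (τ + δ * z) with hs
  have h1z : 0 < 1 - z := by linarith
  have hsB : s * (τ + δ * z) = κ / w + δ * (z * (1 - z)) := by rw [hs]; field_simp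
  have hsB' : w * (s * (τ + δ * z)) = κ + w * (δ * (z * (1 - z))) := by
    rw [hsB]; field_simp
  have hsp : 0 < s := by
    rw [hs]
    exact div_pos (by positivity) hB
  set d := Real.sqrt (2 * w) with hd
  have hdp : 0 < d := Real.sqrt_pos.2 (by positivity)
  have hd2 : d ^ 2 = 2 * w := Real.sq_sqrt (by positivity)
  set a : Fin 5 → ℝ := ![1, 1, 1 - z, z, 1] with ha
  have a2 : a 2 = 1 - z := rfl
  have a3 : a 3 = z := rfl
  have a4 : a 4 = 1 := rfl
  have hrt : rt u = {2, 3} := by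
    ext i
    rw [mem_rt, Finset.mem_insert, Finset.mem_singleton]
    fin_cases i
    · simp [h00]
    · simp [h10]
    · simpa using h2
    · simpa using h3
    · simpa using h4.le
  have hlf : lf u = {4} := by
    ext i
    rw [mem_lf, Finset.mem_singleton]
    fin_cases i
    · simp [h00]
    · simp [h10]
    · simpa using h2.le
    · simpa using h3.le
    · simpa using h4
  have hne23 : (2 : Fin 5) ≠ 3 := by decide
  have hinj : Function.Injective u := by
    have d01 : u 0 ≠ u 1 := fun h => by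
      have := congrArg (fun v : E 2 => v 1) h
      simp only [h01, h11] at this
      norm_num at this
    have dne : ∀ i j, u i 0 ≠ u j 0 → u i ≠ u j := fun i j h h' => h (by rw [h'])
    have d23 : u 2 ≠ u 3 := fun h => by
      have : c2 = c3 := by rw [hc2, hc3, slo, slo, h]
      linarith
    intro i j hij
    by_contra hne
    have key : ∀ i j : Fin 5, i < j → u i ≠ u j := by
      intro i j hlt
      fin_cases i <;> fin_cases j <;> first
        | exact absurd hlt (by decide)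
        | exact d01
        | exact d23
        | (apply dne; first
            | (change u 0 0 ≠ u 2 0; rw [h00]; exact h2.ne)
            | (change u 0 0 ≠ u 3 0; rw [h00]; exact h3.ne)
            | (change u 0 0 ≠ u 4 0; rw [h00]; exact h4.ne')
            | (change u 1 0 ≠ u 2 0; rw [h10]; exact h2.ne)
            | (change u 1 0 ≠ u 3 0; rw [h10]; exact h3.ne)
            | (change u 1 0 ≠ u 4 0; rw [h10]; exact h4.ne')
            | (change u 2 0 ≠ u 4 0; exact (h4.trans h2).ne')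
            | (change u 3 0 ≠ u 4 0; exact (h4.trans h3).ne'))
    rcases lt_or_gt_of_ne hne with h | h
    · exact key i j h hij
    · exact key j i h hij.symm
  have hside : ∀ i : Fin 5, i ≠ 0 → i ≠ 1 → u i 0 ≠ 0 := by
    intro i h0 h1
    fin_cases i
    · exact absurd rfl h0
    · exact absurd rfl h1
    · exact h2.ne'
    · exact h3.ne'
    · exact h4.ne
  have hbs : bsum u a = τ + δ * z := by
    rw [bsum, hrt, hlf, Finset.sum_pair hne23, Finset.sum_singleton, a2, a3, a4, ← hc2, ← hc3,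
      ← hc4, hτ, hδ]
    ring
  have hcc : |c2 - c3| = δ := by rw [abs_sub_comm, abs_of_pos (by linarith)]
  have hcc' : |c3 - c2| = δ := by rw [abs_of_pos (by linarith)]
  set μR := 2 * V 2 / (d * (1 - z)) - d / 2 * (z * δ - s * c2) with hμR
  set μL := 2 * V 4 / d + d / 2 * (s * c4) with hμL
  have hb2 : bb u a μR μL d s 2 = 2 * V 2 / (d * (1 - z)) := by
    rw [bb, if_pos h2, sB, sD, hrt, Finset.sum_pair hne23, ← hc2, ← hc3, a2, a3, hcc, sub_self,
      abs_zero, hμR]
    ring
  -- the equation on the right side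
  have hkey : 2 * V 3 / (d * z) = 2 * V 2 / (d * (1 - z)) + d / 2 * (δ * (1 - 2 * z - s)) := by
    have r1 : 2 * (τ + δ * z) * (V 2 / (1 - z) - V 3 / z) =
        w * δ * (s - 1 + 2 * z) * (τ + δ * z) := by
      have r2 : 2 * (τ + δ * z) * (V 2 / (1 - z) - V 3 / z) =
          w * δ * (δ * z ^ 2 + 2 * τ * z - τ) + δ * κ := by linarith
      have r3 : κ = w * (s * (τ + δ * z)) - w * (δ * (z * (1 - z))) := by linarith
      rw [r2, r3]
      ring
    have r4 : 2 * (V 2 / (1 - z) - V 3 / z) = w * δ * (s - 1 + 2 * z) := by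
      have r5 : (τ + δ * z) * (2 * (V 2 / (1 - z) - V 3 / z)) =
          (τ + δ * z) * (w * δ * (s - 1 + 2 * z)) := by linarith
      exact mul_left_cancel₀ hB.ne' r5
    have r6 : d * (2 * V 3 / (d * z)) =
        d * (2 * V 2 / (d * (1 - z)) + d / 2 * (δ * (1 - 2 * z - s))) := by
      have r7 : d * (2 * V 3 / (d * z)) = 2 * (V 3 / z) := by field_simp
      have r8 : d * (2 * V 2 / (d * (1 - z)) + d / 2 * (δ * (1 - 2 * z - s))) =
          2 * (V 2 / (1 - z)) + d ^ 2 / 2 * (δ * (1 - 2 * z - s)) := by field_simp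
      rw [r7, r8, hd2]
      linarith
    exact mul_left_cancel₀ hdp.ne' r6
  have hb3 : bb u a μR μL d s 3 = 2 * V 3 / (d * z) := by
    rw [bb, if_pos h3, sB, sD, hrt, Finset.sum_pair hne23, ← hc2, ← hc3, a2, a3, hcc', sub_self,
      abs_zero, hkey, hμR, hδ]
    ring
  have hb4 : bb u a μR μL d s 4 = 2 * V 4 / d := by
    rw [bb, if_neg (not_lt.2 h4.le), sB, sD, hlf, Finset.sum_singleton, ← hc4, sub_self,
      abs_zero, hμL]
    ring
  -- the widths
  have hdμ : d * (μR + μL) = 2 * (V 0 + V 1) - w * (s * (τ + δ * z)) := by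
    have r1 : d * μR = 2 * (V 2 / (1 - z)) - w * (z * δ - s * c2) := by
      have : d * μR = 2 * (V 2 / (1 - z)) - d ^ 2 / 2 * (z * δ - s * c2) := by
        rw [hμR]; field_simp
      rw [this, hd2]; ring
    have r1' : d * μR = 2 * (V 3 / z) - w * ((1 - z) * δ - s * c3) := by
      have : d * μR = d * (2 * V 3 / (d * z)) - d ^ 2 / 2 * ((1 - z) * δ - s * c3) := by
        rw [hkey, hμR, hδ]; ring
      have r7 : d * (2 * V 3 / (d * z)) = 2 * (V 3 / z) := by field_simp
      rw [this, r7, hd2]; ring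
    have r2 : d * μL = 2 * V 4 + w * (s * c4) := by
      have : d * μL = 2 * V 4 + d ^ 2 / 2 * (s * c4) := by rw [hμL]; field_simp
      rw [this, hd2]; ring
    have r3 : (1 - z) * (V 2 / (1 - z)) = V 2 := by field_simp
    have r4 : z * (V 3 / z) = V 3 := by field_simp
    have r5 : d * μR = 2 * V 2 + 2 * V 3 - 2 * w * (δ * (z * (1 - z))) +
        w * s * ((1 - z) * c2 + z * c3) := by
      have : d * μR = (1 - z) * (d * μR) + z * (d * μR) := by ring
      rw [this]
      nth_rewrite 1 [r1]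
      rw [r1']
      linear_combination 2 * r3 + 2 * r4
    rw [mul_add, r5, r2]
    have r6 : κ = w * (s * (τ + δ * z)) - w * (δ * (z * (1 - z))) := by linarith
    have r7 : V 0 + V 1 = κ + (V 2 + V 3 + V 4) := by linarith
    rw [r7, r6, hτ, hδ]
    ring
  have hs1 : s < 1 := by linarith
  have hη : 1 - 2 * ((1 - s) / 2) = s := by ring
  have hX1 : μR + μL - d / 2 * bsum u a = 4 * V 0 / (d * (1 - s)) := by
    rw [hbs, eq_div_iff (by positivity)]
    have r1 : (μR + μL - d / 2 * (τ + δ * z)) * (d * (1 - s)) =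
        (1 - s) * (d * (μR + μL) - d ^ 2 / 2 * (τ + δ * z)) := by ring
    rw [r1, hdμ, hd2, h0', hsB']
    ring
  have hX2 : μR + μL + d / 2 * bsum u a = 4 * V 1 / (d * (1 + s)) := by
    rw [hbs, eq_div_iff (by positivity)]
    have r1 : (μR + μL + d / 2 * (τ + δ * z)) * (d * (1 + s)) =
        (1 + s) * (d * (μR + μL) + d ^ 2 / 2 * (τ + δ * z)) := by ring
    rw [r1, hdμ, hd2]
    have r2 : 4 * V 1 = 4 * (V 0 + V 1) - 4 * V 0 := by ring
    rw [r2, h0']
    have r3 : κ = w * (s * (τ + δ * z)) - w * (δ * (z * (1 - z))) := by linarith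
    rw [r3]
    ring
  refine exists_polygon u hu hinj 0 1 h00 h01 h10 h11 hside a ?_ ?_ ?_ hdp
    (η := (1 - s) / 2) (μR := μR) (μL := μL) (by linarith) (by linarith) ?_ ?_ ?_ V ?_ ?_ ?_
  · intro i hi
    fin_cases i
    · exact absurd h00 hi
    · exact absurd h10 hi
    · exact h1z
    · exact hz0
    · exact one_pos
  · rw [hrt, Finset.sum_pair hne23, a2, a3]; ring
  · rw [hlf, Finset.sum_singleton, a4]
  · intro i hi
    rw [hη]
    fin_cases i
    · exact absurd h00 hi
    · exact absurd h10 hi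
    · change 0 < bb u a μR μL d s 2
      rw [hb2]; positivity
    · change 0 < bb u a μR μL d s 3
      rw [hb3]; positivity
    · change 0 < bb u a μR μL d s 4
      rw [hb4]; positivity
  · rw [hX1]
    have : 0 < 1 - s := h0
    positivity
  · rw [hX2]; positivity
  · rw [hX1]
    field_simp
    norm_num
  · rw [hX2]
    have : 1 - (1 - s) / 2 = (1 + s) / 2 := by ring
    rw [this]
    field_simp
    norm_num
  · intro i hi
    rw [hη]
    fin_cases i
    · exact absurd h00 hi
    · exact absurd h10 hi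
    · change V 2 = bb u a μR μL d s 2 * (d * a 2) / 2
      rw [hb2, a2]; field_simp
    · change V 3 = bb u a μR μL d s 3 * (d * a 3) / 2
      rw [hb3, a3]; field_simp
    · change V 4 = bb u a μR μL d s 4 * (d * a 4) / 2
      rw [hb4, a4]; field_simp

end Pool.Agent.LogMinkowski
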