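import Pool.Agent.Lib.MP_36b0a5_gt.PlPent

/-!
# The exact criterion for pentagons
-/

set_option autoImplicit false

open Set

namespace Pool.Agent.LogMinkowski

/-- Intermediate values along a path in the `(z, w)` plane. -/
theorem pent_ivt {κ δ τ M v : ℝ} (hκ : 0 ≤ κ) (hδ : 0 < δ) (hv : 0 < v) {Z W : ℝ → ℝ}
    {t0 t1 : ℝ} (h01 : t0 ≤ t1) (hZ : ContinuousOn Z (Icc t0 t1)) (hW : ContinuousOn W (Icc t0 t1))
    (hpos : ∀ t ∈ Icc t0 t1, 0 < W t ∧ 0 < τ + δ * Z t ∧ 0 < Z t ∧ Z t < 1)
    (h0 : 0 < 1 - (κ / W t0 + δ * (Z t0 * (1 - Z t0))) / (τ + δ * Z t0))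
    (h0' : v ≤ (1 - (κ / W t0 + δ * (Z t0 * (1 - Z t0))) / (τ + δ * Z t0)) *
      (2 * M - W t0 * (τ + δ * Z t0) - κ - W t0 * (δ * (Z t0 * (1 - Z t0)))))
    (h1 : 2 * M ≤ W t1 * (τ + δ * Z t1)) :
    ∃ t ∈ Icc t0 t1, 0 < 1 - (κ / W t + δ * (Z t * (1 - Z t))) / (τ + δ * Z t) ∧
      v = (1 - (κ / W t + δ * (Z t * (1 - Z t))) / (τ + δ * Z t)) *
        (2 * M - W t * (τ + δ * Z t) - κ - W t * (δ * (Z t * (1 - Z t)))) := by
  set f : ℝ → ℝ := fun t => 1 - (κ / W t + δ * (Z t * (1 - Z t))) / (τ + δ * Z t) with hf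
  set g : ℝ → ℝ := fun t => 2 * M - W t * (τ + δ * Z t) - κ - W t * (δ * (Z t * (1 - Z t)))
    with hg
  have hfc : ContinuousOn f (Icc t0 t1) := by
    refine continuousOn_const.sub (ContinuousOn.div ?_ ?_ fun t ht => (hpos t ht).2.1.ne')
    · refine ContinuousOn.add (continuousOn_const.div hW fun t ht => (hpos t ht).1.ne') ?_
      exact continuousOn_const.mul (hZ.mul (continuousOn_const.sub hZ))
    · exact continuousOn_const.add (continuousOn_const.mul hZ)
  have hgc : ContinuousOn g (Icc t0 t1) := by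
    refine ((continuousOn_const.sub (hW.mul (continuousOn_const.add
      (continuousOn_const.mul hZ)))).sub continuousOn_const).sub (hW.mul ?_)
    exact continuousOn_const.mul (hZ.mul (continuousOn_const.sub hZ))
  set K : ℝ → ℝ := fun t => max (f t) 0 * max (g t) 0 with hK
  have hKc : ContinuousOn K (Icc t0 t1) :=
    (hfc.sup continuousOn_const).mul (hgc.sup continuousOn_const)
  have hf0 : 0 < f t0 := h0
  have hfg0 : v ≤ f t0 * g t0 := h0'
  have hg0 : 0 < g t0 := (mul_pos_iff_of_pos_left hf0).1 (hv.trans_le hfg0)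
  have hK0 : v ≤ K t0 := by
    rw [hK]
    simp only
    rw [max_eq_left hf0.le, max_eq_left hg0.le]
    exact hfg0
  have hK1 : K t1 = 0 := by
    have h2 : g t1 ≤ 0 := by
      have h3 := hpos t1 ⟨h01, le_rfl⟩
      have h4 : 0 ≤ W t1 * (δ * (Z t1 * (1 - Z t1))) := by
        have h5 : 0 < 1 - Z t1 := by linarith [h3.2.2.2]
        have h6 := h3.1
        have h7 := h3.2.2.1
        positivity
      simp only [hg]
      linarith
    rw [hK]
    simp only
    rw [max_eq_right h2, mul_zero]
  have h2 := intermediate_value_Icc' h01 hKc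
  obtain ⟨t, ht, htv⟩ := h2 ⟨by rw [hK1]; exact hv.le, hK0⟩
  have h3 : 0 < K t := by rw [htv]; exact hv
  have hft : 0 < f t := by
    by_contra hcon
    rw [not_lt] at hcon
    simp only [hK] at h3
    rw [max_eq_right hcon, zero_mul] at h3
    exact lt_irrefl _ h3
  have hgt : 0 < g t := by
    by_contra hcon
    rw [not_lt] at hcon
    simp only [hK] at h3
    rw [max_eq_right hcon, mul_zero] at h3
    exact lt_irrefl _ h3
  refine ⟨t, ht, hft, ?_⟩
  rw [← htv]
  simp only [hK]
  rw [max_eq_left hft.le, max_eq_left hgt.le]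

/-- From the inequality to the equality. -/
theorem pent_exact {κ δ τ M v V2 V3 : ℝ} (hκ : 0 ≤ κ) (hδ : 0 < δ) (hv : 0 < v) (hM : 0 < M)
    (hV2 : 0 < V2) (hV3 : 0 < V3) {z w : ℝ} (hz0 : 0 < z) (hz1 : z < 1) (hw : 0 < w)
    (hB : 0 < τ + δ * z)
    (hcurve : w * δ * (δ * z ^ 2 + 2 * τ * z - τ) =
      2 * (τ + δ * z) * (V2 / (1 - z) - V3 / z) - δ * κ)
    (h0 : 0 < 1 - (κ / w + δ * (z * (1 - z))) / (τ + δ * z))
    (h0' : v ≤ (1 - (κ / w + δ * (z * (1 - z))) / (τ + δ * z)) *
      (2 * M - w * (τ + δ * z) - κ - w * (δ * (z * (1 - z))))) :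
    ∃ z w : ℝ, 0 < z ∧ z < 1 ∧ 0 < w ∧ 0 < τ + δ * z ∧
      w * δ * (δ * z ^ 2 + 2 * τ * z - τ) =
        2 * (τ + δ * z) * (V2 / (1 - z) - V3 / z) - δ * κ ∧
      0 < 1 - (κ / w + δ * (z * (1 - z))) / (τ + δ * z) ∧
      v = (1 - (κ / w + δ * (z * (1 - z))) / (τ + δ * z)) *
        (2 * M - w * (τ + δ * z) - κ - w * (δ * (z * (1 - z)))) := by
  set Dn : ℝ → ℝ := fun x => δ * x ^ 2 + 2 * τ * x - τ with hDn
  set Nm : ℝ → ℝ := fun x => 2 * (τ + δ * x) * (V2 / (1 - x) - V3 / x) - δ * κ with hNm
  have hDnc : Continuous Dn := by simp only [hDn]; fun_prop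
  have hNmc : ContinuousOn Nm (Ioo 0 1) := by
    simp only [hNm]
    refine ContinuousOn.sub ?_ continuousOn_const
    refine ContinuousOn.mul (by fun_prop) (ContinuousOn.sub ?_ ?_)
    · exact ContinuousOn.div continuousOn_const (by fun_prop) fun x hx => by
        have := hx.2; exact (by linarith : (0 : ℝ) < 1 - x).ne'
    · exact ContinuousOn.div continuousOn_const (by fun_prop) fun x hx => hx.1.ne'
  have hcv : w * δ * Dn z = Nm z := hcurve
  rcases lt_trichotomy (Dn z) 0 with hD | hD | hD
  · -- move to the left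
    have hτ : 0 < τ := by
      by_contra hcon
      rw [not_lt] at hcon
      simp only [hDn] at hD
      -- `τ (1 - 2 z) > δ z ^ 2`
      nlinarith [mul_pos hδ hz0, mul_pos hδ (mul_pos hz0 hz0), mul_pos hB (by linarith : 0 < 1 - z)]
    have hNz : Nm z < 0 := by rw [← hcv]; nlinarith [mul_pos hw hδ]
    have hz1' : 0 < 1 - z := by linarith
    set E : ℝ := 2 * M * δ + 2 * V2 * (τ + δ * z) / (1 - z) with hE
    have hEp : 0 < E := by positivity
    set z1 : ℝ := min z (2 * V3 * τ / E) with hz1d
    have hz1p : 0 < z1 := lt_min hz0 (by positivity)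
    have hz1z : z1 ≤ z := min_le_left _ _
    have hB1 : ∀ x, 0 < x → 0 < τ + δ * x := fun x hx => by positivity
    have hDx : ∀ x, 0 < x → x ≤ z → Dn x < 0 := by
      intro x hx hxz
      have : Dn x ≤ Dn z := by
        simp only [hDn]
        nlinarith [mul_nonneg hδ.le (mul_nonneg (sub_nonneg.2 hxz) (by linarith : 0 ≤ x + z)),
          mul_nonneg hτ.le (sub_nonneg.2 hxz)]
      linarith
    have hsplit : ∀ x, 0 < x → x < 1 → Nm x =
        2 * V2 * ((τ + δ * x) / (1 - x)) - 2 * V3 * (τ / x + δ) - δ * κ := by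
      intro x hx hx1
      have h1 : (1 - x) ≠ 0 := (by linarith : (0 : ℝ) < 1 - x).ne'
      simp only [hNm]
      field_simp
    have hNle : ∀ x, 0 < x → x ≤ z → Nm x ≤ Nm z := by
      intro x hx hxz
      rw [hsplit x hx (by linarith), hsplit z hz0 hz1]
      have h1 : (τ + δ * x) / (1 - x) ≤ (τ + δ * z) / (1 - z) :=
        div_le_div₀ (by positivity) (by nlinarith) hz1' (by linarith)
      have h2 : τ / z ≤ τ / x := div_le_div_of_nonneg_left hτ.le hx hxz
      have h3 := mul_le_mul_of_nonneg_left h1 (by positivity : (0 : ℝ) ≤ 2 * V2)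
      have h4 := mul_le_mul_of_nonneg_left h2 (by positivity : (0 : ℝ) ≤ 2 * V3)
      linarith
    have hNx : ∀ x, 0 < x → x ≤ z → Nm x < 0 := fun x hx hxz => (hNle x hx hxz).trans_lt hNz
    obtain ⟨t, ht, k1, k2⟩ := pent_ivt (κ := κ) (δ := δ) (τ := τ) (M := M) (v := v) hκ hδ hv
      (Z := fun t => -t) (W := fun t => Nm (-t) / (δ * Dn (-t))) (t0 := -z) (t1 := -z1)
      (by linarith) (by fun_prop)
      (by
        refine ContinuousOn.div ?_ ?_ ?_
        · refine hNmc.comp (by fun_prop) ?_
          intro t ht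
          exact ⟨by linarith [ht.2], by linarith [ht.1]⟩
        · exact (by fun_prop : Continuous fun t : ℝ => δ * Dn (-t)).continuousOn
        · intro t ht
          exact mul_ne_zero hδ.ne' (hDx (-t) (by linarith [ht.2]) (by linarith [ht.1])).ne)
      (by
        intro t ht
        have h1 : 0 < -t := by linarith [ht.2]
        have h2 : -t ≤ z := by linarith [ht.1]
        refine ⟨?_, hB1 _ h1, h1, by linarith⟩
        exact div_pos_of_neg_of_neg (hNx _ h1 h2) (mul_neg_of_pos_of_neg hδ (hDx _ h1 h2)))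
      (by
        simp only [neg_neg]
        have : Nm z / (δ * Dn z) = w := by
          rw [← hcv]; field_simp [hD.ne]
        rw [this]
        exact h0)
      (by
        simp only [neg_neg]
        have : Nm z / (δ * Dn z) = w := by
          rw [← hcv]; field_simp [hD.ne]
        rw [this]
        exact h0')
      (by
        simp only [neg_neg]
        have h1 := hDx z1 hz1p hz1z
        have h2 := hNx z1 hz1p hz1z
        have h3 : 0 < -Dn z1 := by linarith
        have h4 : -Dn z1 ≤ τ + δ * z1 := by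
          simp only [hDn]
          nlinarith [mul_pos hδ hz1p, mul_pos hτ hz1p, mul_pos hδ (mul_pos hz1p hz1p)]
        have h5 : 2 * M * δ ≤ -Nm z1 := by
          rw [hsplit z1 hz1p (by linarith)]
          have h6 : (τ + δ * z1) / (1 - z1) ≤ (τ + δ * z) / (1 - z) :=
            div_le_div₀ (by positivity) (by nlinarith) hz1' (by linarith)
          have h7 := mul_le_mul_of_nonneg_left h6 (by positivity : (0 : ℝ) ≤ 2 * V2)
          have h8 : E ≤ 2 * V3 * τ / z1 := by
            rw [le_div_iff₀ hz1p]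
            have := min_le_right z (2 * V3 * τ / E)
            rw [← hz1d, le_div_iff₀ hEp] at this
            linarith
          have h9 : 2 * V3 * (τ / z1 + δ) = 2 * V3 * τ / z1 + 2 * V3 * δ := by ring
          have h10 : 2 * V2 * ((τ + δ * z) / (1 - z)) = 2 * V2 * (τ + δ * z) / (1 - z) := by ring
          rw [h9]
          rw [h10] at h7
          have h11 : 0 < 2 * V3 * δ := by positivity
          have h12 : 0 ≤ δ * κ := by positivity
          rw [hE] at h8
          linarith
        have e : Nm z1 / (δ * Dn z1) * (τ + δ * z1) =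
            (-Nm z1 / δ) * ((τ + δ * z1) / -Dn z1) := by
          have := h1.ne
          field_simp
        rw [e]
        have h13 : 1 ≤ (τ + δ * z1) / -Dn z1 := by rw [le_div_iff₀ h3]; linarith
        have h14 : 2 * M ≤ -Nm z1 / δ := by rw [le_div_iff₀ hδ]; linarith
        have h15 : 0 ≤ -Nm z1 / δ := div_nonneg (by linarith) hδ.le
        nlinarith)
    have ht1 : 0 < -t := by linarith [ht.2]
    have ht2 : -t ≤ z := by linarith [ht.1]
    refine ⟨-t, Nm (-t) / (δ * Dn (-t)), ht1, by linarith,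
      div_pos_of_neg_of_neg (hNx _ ht1 ht2) (mul_neg_of_pos_of_neg hδ (hDx _ ht1 ht2)),
      hB1 _ ht1, ?_, k1, k2⟩
    have h1 := (hDx _ ht1 ht2).ne
    change Nm (-t) / (δ * Dn (-t)) * δ * Dn (-t) = Nm (-t)
    field_simp
  · -- keep `z` and move `w`
    have hNz : Nm z = 0 := by rw [← hcv, hD, mul_zero]
    obtain ⟨t, ht, k1, k2⟩ := pent_ivt (κ := κ) (δ := δ) (τ := τ) (M := M) (v := v) hκ hδ hv
      (Z := fun _ => z) (W := fun t => t) (t0 := w) (t1 := max w (2 * M / (τ + δ * z)))
      (le_max_left _ _) continuousOn_const continuousOn_id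
      (fun t ht => ⟨hw.trans_le ht.1, hB, hz0, hz1⟩) h0 h0'
      (by
        have := le_max_right w (2 * M / (τ + δ * z))
        rw [div_le_iff₀ hB] at this
        exact this)
    refine ⟨z, t, hz0, hz1, hw.trans_le ht.1, hB, ?_, k1, k2⟩
    change t * δ * Dn z = Nm z
    rw [hD, hNz, mul_zero]
  · -- move to the right
    have hNz : 0 < Nm z := by rw [← hcv]; positivity
    have hz1' : 0 < 1 - z := by linarith
    have hB1 : 0 < τ + δ := by nlinarith
    have hBx : ∀ x, z ≤ x → τ + δ * z ≤ τ + δ * x := fun x hx => by nlinarith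
    have hDx : ∀ x, z ≤ x → 0 < Dn x := by
      intro x hx
      have : Dn x - Dn z = (x - z) * ((τ + δ * x) + (τ + δ * z)) := by
        simp only [hDn]; ring
      have h1 := hBx x hx
      have h2 : 0 ≤ (x - z) * ((τ + δ * x) + (τ + δ * z)) :=
        mul_nonneg (by linarith) (by linarith)
      linarith
    have hgz : 0 < V2 / (1 - z) - V3 / z := by
      have h1 : 0 < 2 * (τ + δ * z) * (V2 / (1 - z) - V3 / z) := by
        have h2 : 0 ≤ δ * κ := by positivity
        simp only [hNm] at hNz
        linarith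
      exact (mul_pos_iff_of_pos_left (by positivity)).1 h1
    have hgx : ∀ x, z ≤ x → x < 1 → V2 / (1 - z) - V3 / z ≤ V2 / (1 - x) - V3 / x := by
      intro x hx hx1
      have h1 : V2 / (1 - z) ≤ V2 / (1 - x) :=
        div_le_div_of_nonneg_left hV2.le (by linarith) (by linarith)
      have h2 : V3 / x ≤ V3 / z := div_le_div_of_nonneg_left hV3.le hz0 hx
      linarith
    have hNx : ∀ x, z ≤ x → x < 1 → 0 < Nm x := by
      intro x hx hx1
      have h1 : 2 * (τ + δ * z) * (V2 / (1 - z) - V3 / z) ≤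
          2 * (τ + δ * x) * (V2 / (1 - x) - V3 / x) :=
        mul_le_mul (by linarith [hBx x hx]) (hgx x hx hx1) hgz.le (by linarith [hBx x hx])
      simp only [hNm] at hNz ⊢
      linarith
    set C : ℝ := 2 * M * δ * (τ + δ) / (τ + δ * z) with hC
    set E : ℝ := C + 2 * (τ + δ) * (V3 / z) + δ * κ with hE
    have hEp : 0 < E := by positivity
    set e1 : ℝ := min (1 - z) (2 * (τ + δ * z) * V2 / E) with he1
    have he1p : 0 < e1 := lt_min hz1' (by positivity)
    have he1z : e1 ≤ 1 - z := min_le_left _ _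
    have hzz : z ≤ 1 - e1 := by linarith
    obtain ⟨t, ht, k1, k2⟩ := pent_ivt (κ := κ) (δ := δ) (τ := τ) (M := M) (v := v) hκ hδ hv
      (Z := fun t => t) (W := fun t => Nm t / (δ * Dn t)) (t0 := z) (t1 := 1 - e1)
      hzz continuousOn_id
      (by
        refine ContinuousOn.div ?_ ?_ ?_
        · refine hNmc.mono ?_
          intro t ht
          exact ⟨by linarith [ht.1], by linarith [ht.2]⟩
        · exact (by fun_prop : Continuous fun t : ℝ => δ * Dn t).continuousOn
        · intro t ht
          exact mul_ne_zero hδ.ne' (hDx t ht.1).ne')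
      (by
        intro t ht
        have h1 : t < 1 := by linarith [ht.2]
        refine ⟨?_, by linarith [hBx t ht.1], by linarith [ht.1], h1⟩
        exact div_pos (hNx _ ht.1 h1) (mul_pos hδ (hDx _ ht.1)))
      (by
        have : Nm z / (δ * Dn z) = w := by
          rw [← hcv]; field_simp [hD.ne']
        simp only [this]
        exact h0)
      (by
        have : Nm z / (δ * Dn z) = w := by
          rw [← hcv]; field_simp [hD.ne']
        simp only [this]
        exact h0')
      (by
        set x : ℝ := 1 - e1 with hx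
        have hx1 : x < 1 := by linarith
        have h1 := hDx x hzz
        have h2 := hNx x hzz hx1
        have h3 := hBx x hzz
        have h4 : Dn x ≤ τ + δ := by
          have : τ + δ - Dn x = (1 - x) * ((τ + δ * x) + (τ + δ)) := by
            simp only [hDn]; ring
          have h5 : 0 ≤ (1 - x) * ((τ + δ * x) + (τ + δ)) :=
            mul_nonneg (by linarith) (by linarith)
          linarith
        have h5 : C ≤ Nm x := by
          have h6 : 2 * (τ + δ * z) * (V2 / (1 - x)) ≤ 2 * (τ + δ * x) * (V2 / (1 - x)) :=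
            mul_le_mul_of_nonneg_right (by linarith) (div_pos hV2 (by linarith)).le
          have h7 : 2 * (τ + δ * x) * (V3 / x) ≤ 2 * (τ + δ) * (V3 / z) := by
            have h8 : V3 / x ≤ V3 / z := div_le_div_of_nonneg_left hV3.le hz0 hzz
            have h9 : τ + δ * x ≤ τ + δ := by nlinarith
            exact mul_le_mul (by linarith) h8 (div_pos hV3 (by linarith)).le (by linarith)
          have h8 : E ≤ 2 * (τ + δ * z) * (V2 / (1 - x)) := by
            have h9 : 1 - x = e1 := by rw [hx]; ring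
            rw [h9, ← mul_div_assoc, le_div_iff₀ he1p]
            have := min_le_right (1 - z) (2 * (τ + δ * z) * V2 / E)
            rw [← he1, le_div_iff₀ hEp] at this
            linarith
          have h9 : Nm x = 2 * (τ + δ * x) * (V2 / (1 - x)) - 2 * (τ + δ * x) * (V3 / x) -
              δ * κ := by simp only [hNm]; ring
          rw [h9]
          rw [hE] at h8
          linarith
        have h6 : 2 * M * δ * (τ + δ) ≤ Nm x * (τ + δ * z) := by
          rw [hC, div_le_iff₀ hB] at h5
          exact h5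
        rw [div_mul_eq_mul_div, le_div_iff₀ (mul_pos hδ h1)]
        have h7 : 2 * M * (δ * Dn x) ≤ 2 * M * (δ * (τ + δ)) :=
          mul_le_mul_of_nonneg_left (mul_le_mul_of_nonneg_left h4 hδ.le) (by positivity)
        have h8 : Nm x * (τ + δ * z) ≤ Nm x * (τ + δ * x) := mul_le_mul_of_nonneg_left h3 h2.le
        linarith)
    have ht1 : t < 1 := by linarith [ht.2]
    refine ⟨t, Nm t / (δ * Dn t), by linarith [ht.1], ht1,
      div_pos (hNx _ ht.1 ht1) (mul_pos hδ (hDx _ ht.1)), by linarith [hBx t ht.1], ?_, k1, k2⟩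
    have h1 := (hDx _ ht.1).ne'
    change Nm t / (δ * Dn t) * δ * Dn t = Nm t
    field_simp

end Pool.Agent.LogMinkowski
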