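import Pool.Agent.Lib.MP_36b0a5_gt.PlCrit

/-!
# From a critical point to the polygon
-/

set_option autoImplicit false

open Set Filter
open scoped Topology

namespace Pool.Agent.LogMinkowski

variable {N : ℕ}

/-- A critical point of the functional gives a polygon with the prescribed cone volumes. -/
theorem realised_of_crit (u : Fin N → E 2) (hu : ∀ i, ‖u i‖ = 1) (hinj : Function.Injective u)
    (p q : Fin N) (hp0 : u p 0 = 0) (hp1 : u p 1 = 1) (hq0 : u q 0 = 0) (hq1 : u q 1 = -1)
    (hside : ∀ i, i ≠ p → i ≠ q → u i 0 ≠ 0) {V : Fin N → ℝ} (hV : ∀ i, 0 < V i) {κ : ℝ}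
    (hκ : 0 < κ) (hκV : κ = V p + V q - ∑ i ∈ sd u, V i) {a : Fin N → ℝ} {η : ℝ}
    (ha : Adm u a) (hη0 : 0 < η) (hη1 : η < 1) (hq : 0 < qq u a η)
    (hR : ∀ i ∈ rt u, ∀ k ∈ rt u, lag u V κ (rt u) a η i = lag u V κ (rt u) a η k)
    (hL : ∀ i ∈ lf u, ∀ k ∈ lf u, lag u V κ (lf u) a η i = lag u V κ (lf u) a η k)
    (hE : κ * bsum u a / qq u a η = V q / (1 - η) - V p / η) :
    ∃ P : Set (E 2), Realises u V P := by
  have hRne : (rt u).Nonempty := by
    by_contra h
    rw [Finset.not_nonempty_iff_eq_empty] at h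
    have := ha.sumR
    rw [h, Finset.sum_empty] at this
    norm_num at this
  have hLne : (lf u).Nonempty := by
    by_contra h
    rw [Finset.not_nonempty_iff_eq_empty] at h
    have := ha.sumL
    rw [h, Finset.sum_empty] at this
    norm_num at this
  obtain ⟨i₀, hi₀⟩ := hRne
  obtain ⟨k₀, hk₀⟩ := hLne
  set μR := lag u V κ (rt u) a η i₀ with hμR
  set μL := lag u V κ (lf u) a η k₀ with hμL
  have hR' : ∀ i ∈ rt u, lag u V κ (rt u) a η i = μR := fun i hi => hR i hi i₀ hi₀
  have hL' : ∀ i ∈ lf u, lag u V κ (lf u) a η i = μL := fun i hi => hL i hi k₀ hk₀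
  set w := κ / qq u a η with hw
  have hwpos : 0 < w := div_pos hκ hq
  set d := Real.sqrt (2 * w) with hd
  have hdpos : 0 < d := Real.sqrt_pos.2 (by positivity)
  have hd2 : d ^ 2 = 2 * w := Real.sq_sqrt (by positivity)
  have hη' : 0 < 1 - η := by linarith
  -- the sum of the multipliers
  have hsum : μR + μL = 2 * (V p + V q) - w * ((1 - 2 * η) * bsum u a) := by
    have e1 : μR = ∑ i ∈ rt u, a i * lag u V κ (rt u) a η i := by
      rw [Finset.sum_congr rfl fun i hi => by rw [hR' i hi], ← Finset.sum_mul, ha.sumR, one_mul]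
    have e2 : μL = ∑ i ∈ lf u, a i * lag u V κ (lf u) a η i := by
      rw [Finset.sum_congr rfl fun i hi => by rw [hL' i hi], ← Finset.sum_mul, ha.sumL, one_mul]
    have e3 : ∑ i ∈ rt u, a i * lag u V κ (rt u) a η i =
        w * ((1 - 2 * η) * ∑ i ∈ rt u, a i * slo u i -
          ∑ i ∈ rt u, a i * sD (rt u) (slo u) a i) + 2 * ∑ i ∈ rt u, V i := by
      simp only [Finset.mul_sum, ← Finset.sum_sub_distrib, ← Finset.sum_add_distrib]
      refine Finset.sum_congr rfl fun i hi => ?_
      have hai := ha.pos i (rt_sub_sd u hi)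
      rw [lag, ← hw]
      field_simp
    have e4 : ∑ i ∈ lf u, a i * lag u V κ (lf u) a η i =
        w * ((1 - 2 * η) * ∑ i ∈ lf u, a i * slo u i -
          ∑ i ∈ lf u, a i * sD (lf u) (slo u) a i) + 2 * ∑ i ∈ lf u, V i := by
      simp only [Finset.mul_sum, ← Finset.sum_sub_distrib, ← Finset.sum_add_distrib]
      refine Finset.sum_congr rfl fun i hi => ?_
      have hai := ha.pos i (lf_sub_sd u hi)
      rw [lag, ← hw]
      field_simp
    have e5 : w * qq u a η = κ := by rw [hw]; field_simp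
    have e6 : κ = V p + V q - (∑ i ∈ rt u, V i + ∑ i ∈ lf u, V i) := by rw [hκV, sum_sd]
    have e7 : qq u a η = (1 - 2 * η) * bsum u a - csum u a := rfl
    have e8 : 2 * csum u a = ∑ i ∈ rt u, a i * sD (rt u) (slo u) a i +
        ∑ i ∈ lf u, a i * sD (lf u) (slo u) a i := by rw [csum]; ring
    have e9 : bsum u a = ∑ i ∈ rt u, a i * slo u i + ∑ i ∈ lf u, a i * slo u i := rfl
    rw [e1, e2, e3, e4]
    rw [e7] at e5
    linear_combination 2 * e5 + 2 * e6 + w * e8 - w * (1 - 2 * η) * e9
  have hE' : w * bsum u a = V q / (1 - η) - V p / η := by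
    rw [← hE, hw]
    ring
  have hX1 : μR / d + μL / d - d / 2 * bsum u a = 2 * V p / (d * η) := by
    have e1 : d * (μR / d + μL / d - d / 2 * bsum u a) = 2 * V p / η := by
      have e2 : d * (μR / d + μL / d - d / 2 * bsum u a) =
          μR + μL - d ^ 2 / 2 * bsum u a := by
        field_simp
      rw [e2, hd2, hsum]
      have e3 : 2 * (V p + V q) - w * ((1 - 2 * η) * bsum u a) - 2 * w / 2 * bsum u a =
          2 * (V p + V q) - 2 * (1 - η) * (w * bsum u a) := by ring
      rw [e3, hE']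
      field_simp
      ring
    have e4 : μR / d + μL / d - d / 2 * bsum u a =
        (d * (μR / d + μL / d - d / 2 * bsum u a)) / d := by
      field_simp
    rw [e4, e1]
    field_simp
  have hX2 : μR / d + μL / d + d / 2 * bsum u a = 2 * V q / (d * (1 - η)) := by
    have e1 : d * (μR / d + μL / d + d / 2 * bsum u a) = 2 * V q / (1 - η) := by
      have e2 : d * (μR / d + μL / d + d / 2 * bsum u a) =
          μR + μL + d ^ 2 / 2 * bsum u a := by
        field_simp
      rw [e2, hd2, hsum]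
      have e3 : 2 * (V p + V q) - w * ((1 - 2 * η) * bsum u a) + 2 * w / 2 * bsum u a =
          2 * (V p + V q) + 2 * η * (w * bsum u a) := by ring
      rw [e3, hE']
      field_simp
      ring
    have e4 : μR / d + μL / d + d / 2 * bsum u a =
        (d * (μR / d + μL / d + d / 2 * bsum u a)) / d := by
      field_simp
    rw [e4, e1]
    field_simp
  have hbb : ∀ i, u i 0 ≠ 0 → bb u a (μR / d) (μL / d) d (1 - 2 * η) i = 2 * V i / (d * a i) := by
    intro i hi
    have hai := ha.pos i (mem_sd.2 hi)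
    rw [bb]
    split_ifs with h
    · have h1 := hR' i (mem_rt.2 h)
      rw [lag, ← hw] at h1
      rw [sB, ← h1]
      field_simp
      rw [hd2]
      ring
    · have h0 : u i 0 < 0 := lt_of_le_of_ne (not_lt.1 h) hi
      have h1 := hL' i (mem_lf.2 h0)
      rw [lag, ← hw] at h1
      rw [sB, ← h1]
      field_simp
      rw [hd2]
      ring
  have hVp := hV p
  have hVq := hV q
  refine exists_polygon u hu hinj p q hp0 hp1 hq0 hq1 hside a (fun i hi => ha.pos i (mem_sd.2 hi))
    ha.sumR ha.sumL hdpos hη0 hη1 (fun i hi => ?_) ?_ ?_ V ?_ ?_ ?_ (μR := μR / d) (μL := μL / d)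
  · rw [hbb i hi]
    have h1 := hV i
    have h2 := ha.pos i (mem_sd.2 hi)
    positivity
  · rw [hX1]; positivity
  · rw [hX2]; positivity
  · rw [hX1]; field_simp
  · rw [hX2]; field_simp
  · intro i hi
    have h2 := ha.pos i (mem_sd.2 hi)
    rw [hbb i hi]
    field_simp

end Pool.Agent.LogMinkowski
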