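import Pool.Agent.Lib.MP_36b0a5_gt.Polytope

/-!
# The area of a triangle with a vertex at the origin
-/

set_option autoImplicit false

open MeasureTheory Set Module
open scoped Pointwise ENNReal RealInnerProductSpace

namespace Pool.Agent.LogMinkowski

/-- The standard triangle in the coordinates `ℝ × ℝ`. -/
def stdTri : Set (ℝ × ℝ) := {x | 0 ≤ x.1 ∧ 0 ≤ x.2 ∧ x.1 + x.2 ≤ 1}

theorem measurableSet_stdTri : MeasurableSet stdTri := by
  have h1 : IsClosed stdTri := by
    have e : stdTri = {x : ℝ × ℝ | 0 ≤ x.1} ∩ ({x | 0 ≤ x.2} ∩ {x | x.1 + x.2 ≤ 1}) := rfl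
    rw [e]
    exact (isClosed_le continuous_const continuous_fst).inter
      ((isClosed_le continuous_const continuous_snd).inter
        (isClosed_le (continuous_fst.add continuous_snd) continuous_const))
  exact h1.measurableSet

theorem volume_stdTri : volume stdTri = ENNReal.ofReal (1 / 2) := by
  rw [Measure.volume_eq_prod, Measure.prod_apply measurableSet_stdTri]
  have h1 : ∀ x : ℝ, volume (Prod.mk x ⁻¹' stdTri) =
      (Icc (0 : ℝ) 1).indicator (fun x => ENNReal.ofReal (1 - x)) x := by
    intro x
    by_cases hx : x ∈ Icc (0 : ℝ) 1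
    · rw [indicator_of_mem hx]
      have e : Prod.mk x ⁻¹' stdTri = Icc 0 (1 - x) := by
        ext y
        simp only [stdTri, mem_preimage, mem_setOf_eq, mem_Icc]
        constructor
        · rintro ⟨_, h2, h3⟩; exact ⟨h2, by linarith⟩
        · rintro ⟨h2, h3⟩; exact ⟨hx.1, h2, by linarith⟩
      rw [e, Real.volume_Icc, sub_zero]
    · rw [indicator_of_notMem hx]
      have e : Prod.mk x ⁻¹' stdTri = ∅ := by
        rw [eq_empty_iff_forall_notMem]
        intro y hy
        simp only [stdTri, mem_preimage, mem_setOf_eq] at hy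
        exact hx ⟨hy.1, by linarith [hy.2.1, hy.2.2]⟩
      rw [e, measure_empty]
  rw [lintegral_congr h1, lintegral_indicator measurableSet_Icc,
    ← ofReal_integral_eq_lintegral_ofReal]
  · congr 1
    rw [integral_Icc_eq_integral_Ioc, ← intervalIntegral.integral_of_le zero_le_one]
    rw [intervalIntegral.integral_sub (by simp) (by simp)]
    simp
    norm_num
  · exact (by fun_prop : Continuous fun x : ℝ => 1 - x).integrableOn_Icc
  · exact (ae_restrict_iff' measurableSet_Icc).2 (Filter.Eventually.of_forall fun x hx => by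
      simp only [Pi.zero_apply, sub_nonneg]; exact hx.2)

/-- The standard triangle in the plane. -/
def triE : Set (E 2) := {x | 0 ≤ x 0 ∧ 0 ≤ x 1 ∧ x 0 + x 1 ≤ 1}

theorem volume_triE : volume triE = ENNReal.ofReal (1 / 2) := by
  have h1 : triE = (fun x : E 2 => MeasurableEquiv.finTwoArrow (WithLp.ofLp x)) ⁻¹' stdTri := by
    ext x
    simp [triE, stdTri]
  have hmp : MeasurePreserving (fun x : E 2 => MeasurableEquiv.finTwoArrow (WithLp.ofLp x)) :=
    (volume_preserving_finTwoArrow ℝ).comp (PiLp.volume_preserving_ofLp (Fin 2))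
  rw [h1, hmp.measure_preimage measurableSet_stdTri.nullMeasurableSet, volume_stdTri]

/-- Area of the triangle with the vertices `0`, `p`, `q`. -/
theorem volume_tri (p q : E 2) :
    (volume (convexHull ℝ (insert (0 : E 2) (segment ℝ p q)))).toReal =
      |p 0 * q 1 - p 1 * q 0| / 2 := by
  set M : Matrix (Fin 2) (Fin 2) ℝ := !![p 0, q 0; p 1, q 1] with hM
  set L : E 2 →ₗ[ℝ] E 2 := Matrix.toLpLin 2 2 M with hL
  have hLx : ∀ x : E 2, L x = x 0 • p + x 1 • q := by
    intro x
    ext i
    fin_cases i <;> simp [hL, hM, Matrix.mulVec, dotProduct, Fin.sum_univ_two] <;> ring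
  have himg : convexHull ℝ (insert (0 : E 2) (segment ℝ p q)) = L '' triE := by
    apply subset_antisymm
    · refine convexHull_min ?_ ?_
      · rintro x (rfl | hx)
        · exact ⟨0, by simp [triE], by simp⟩
        · obtain ⟨a, b, ha, hb, hab, rfl⟩ := hx
          refine ⟨WithLp.toLp 2 ![a, b], ?_, ?_⟩
          · simp [triE, ha, hb, hab]
          · rw [hLx]; simp
      · have hc : Convex ℝ triE := by
          rintro x ⟨hx0, hx1, hx2⟩ y ⟨hy0, hy1, hy2⟩ a b ha hb hab
          refine ⟨?_, ?_, ?_⟩
          · simp; positivity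
          · simp; positivity
          · simp
            have h1 := mul_le_mul_of_nonneg_left hx2 ha
            have h2 := mul_le_mul_of_nonneg_left hy2 hb
            nlinarith
        exact hc.linear_image L
    · rintro _ ⟨x, ⟨h0, h1, h2⟩, rfl⟩
      rw [hLx]
      have hz : (0 : E 2) ∈ convexHull ℝ (insert (0 : E 2) (segment ℝ p q)) :=
        subset_convexHull ℝ _ (mem_insert _ _)
      have hp : p ∈ convexHull ℝ (insert (0 : E 2) (segment ℝ p q)) :=
        subset_convexHull ℝ _ (mem_insert_of_mem _ (left_mem_segment ℝ p q))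
      have hq : q ∈ convexHull ℝ (insert (0 : E 2) (segment ℝ p q)) :=
        subset_convexHull ℝ _ (mem_insert_of_mem _ (right_mem_segment ℝ p q))
      have hcv : Convex ℝ (convexHull ℝ (insert (0 : E 2) (segment ℝ p q))) :=
        convex_convexHull ℝ _
      rcases eq_or_lt_of_le (add_nonneg h0 h1) with hs | hs
      · have h3 : x 0 = 0 := by linarith
        have h4 : x 1 = 0 := by linarith
        rw [h3, h4]; simpa using hz
      · have h5 : (x 0 / (x 0 + x 1)) • p + (x 1 / (x 0 + x 1)) • q ∈
            convexHull ℝ (insert (0 : E 2) (segment ℝ p q)) :=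
          hcv hp hq (by positivity) (by positivity) (by field_simp)
        have h6 := hcv hz h5 (a := 1 - (x 0 + x 1)) (b := x 0 + x 1) (by linarith) hs.le (by ring)
        have e : x 0 • p + x 1 • q = (1 - (x 0 + x 1)) • (0 : E 2) +
            (x 0 + x 1) • ((x 0 / (x 0 + x 1)) • p + (x 1 / (x 0 + x 1)) • q) := by
          rw [smul_zero, zero_add, smul_add, smul_smul, smul_smul]
          congr 2 <;> field_simp
        rw [e]
        exact h6
  rw [himg, Measure.addHaar_image_linearMap, volume_triE, hL, LinearMap.det_toLpLin,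
    ENNReal.toReal_mul, ENNReal.toReal_ofReal (abs_nonneg _), ENNReal.toReal_ofReal (by norm_num),
    hM, Matrix.det_fin_two_of]
  have : p 0 * q 1 - q 0 * p 1 = p 0 * q 1 - p 1 * q 0 := by ring
  rw [this]
  ring

end Pool.Agent.LogMinkowski
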