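import Pool.Agent.Lib.MP_36b0a5_gt.PlBuild

/-!
# The variational problem for the relative heights of the vertices
-/

set_option autoImplicit false

open Set Filter
open scoped Topology

namespace Pool.Agent.LogMinkowski

variable {N : ℕ}

/-- The sum of `a i * a j * |c i - c j|` over the pairs of edges on the same side. -/
noncomputable def csum (u : Fin N → E 2) (a : Fin N → ℝ) : ℝ :=
  (∑ i ∈ rt u, a i * sD (rt u) (slo u) a i + ∑ i ∈ lf u, a i * sD (lf u) (slo u) a i) / 2

/-- The quadratic form of the problem. -/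
noncomputable def qq (u : Fin N → E 2) (a : Fin N → ℝ) (η : ℝ) : ℝ :=
  (1 - 2 * η) * bsum u a - csum u a

/-- The indices of the edges which are not horizontal. -/
noncomputable def sd (u : Fin N → E 2) : Finset (Fin N) := rt u ∪ lf u

theorem rt_lf_disjoint (u : Fin N → E 2) : Disjoint (rt u) (lf u) := by
  rw [Finset.disjoint_left]
  intro i h1 h2
  rw [mem_rt] at h1
  rw [mem_lf] at h2
  exact lt_asymm h1 h2

theorem mem_sd {u : Fin N → E 2} {i : Fin N} : i ∈ sd u ↔ u i 0 ≠ 0 := by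
  rw [sd, Finset.mem_union, mem_rt, mem_lf]
  constructor
  · rintro (h | h)
    · exact h.ne'
    · exact h.ne
  · intro h
    rcases lt_or_gt_of_ne h with h | h
    · exact Or.inr h
    · exact Or.inl h

theorem sum_sd (u : Fin N → E 2) (f : Fin N → ℝ) :
    ∑ i ∈ sd u, f i = ∑ i ∈ rt u, f i + ∑ i ∈ lf u, f i :=
  Finset.sum_union (rt_lf_disjoint u)

theorem rt_sub_sd (u : Fin N → E 2) : rt u ⊆ sd u := Finset.subset_union_left
theorem lf_sub_sd (u : Fin N → E 2) : lf u ⊆ sd u := Finset.subset_union_right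

/-- Positive heights with sum one on each side. -/
structure Adm (u : Fin N → E 2) (a : Fin N → ℝ) : Prop where
  pos : ∀ i ∈ sd u, 0 < a i
  sumR : ∑ i ∈ rt u, a i = 1
  sumL : ∑ i ∈ lf u, a i = 1

/-- The functional. -/
noncomputable def thet (u : Fin N → E 2) (V : Fin N → ℝ) (p q : Fin N) (κ : ℝ) (a : Fin N → ℝ)
    (η : ℝ) : ℝ :=
  κ * Real.log (qq u a η) + ∑ i ∈ sd u, 2 * V i * Real.log (a i) - 2 * V p * Real.log η -
    2 * V q * Real.log (1 - η)

theorem sD_congr {ι : Type*} {R : Finset ι} {c a a' : ι → ℝ} (h : ∀ i ∈ R, a i = a' i) (i : ι) :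
    sD R c a i = sD R c a' i :=
  Finset.sum_congr rfl fun j hj => by rw [h j hj]

theorem bsum_congr {u : Fin N → E 2} {a a' : Fin N → ℝ} (h : ∀ i ∈ sd u, a i = a' i) :
    bsum u a = bsum u a' := by
  rw [bsum, bsum]
  congr 1
  · exact Finset.sum_congr rfl fun j hj => by rw [h j (rt_sub_sd u hj)]
  · exact Finset.sum_congr rfl fun j hj => by rw [h j (lf_sub_sd u hj)]

theorem csum_congr {u : Fin N → E 2} {a a' : Fin N → ℝ} (h : ∀ i ∈ sd u, a i = a' i) :
    csum u a = csum u a' := by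
  rw [csum, csum]
  congr 2
  · exact Finset.sum_congr rfl fun j hj => by
      rw [h j (rt_sub_sd u hj), sD_congr fun i hi => h i (rt_sub_sd u hi)]
  · exact Finset.sum_congr rfl fun j hj => by
      rw [h j (lf_sub_sd u hj), sD_congr fun i hi => h i (lf_sub_sd u hi)]

theorem qq_congr {u : Fin N → E 2} {a a' : Fin N → ℝ} (h : ∀ i ∈ sd u, a i = a' i) (η : ℝ) :
    qq u a η = qq u a' η := by
  rw [qq, qq, bsum_congr h, csum_congr h]

theorem thet_congr {u : Fin N → E 2} {V : Fin N → ℝ} {p q : Fin N} {κ : ℝ} {a a' : Fin N → ℝ}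
    (h : ∀ i ∈ sd u, a i = a' i) (η : ℝ) : thet u V p q κ a η = thet u V p q κ a' η := by
  rw [thet, thet, qq_congr h, Finset.sum_congr rfl fun j hj => by rw [h j hj]]

theorem sD_nonneg {ι : Type*} {R : Finset ι} {c a : ι → ℝ} (h : ∀ i ∈ R, 0 ≤ a i) (i : ι) :
    0 ≤ sD R c a i :=
  Finset.sum_nonneg fun j hj => mul_nonneg (h j hj) (abs_nonneg _)

theorem csum_nonneg {u : Fin N → E 2} {a : Fin N → ℝ} (h : ∀ i ∈ sd u, 0 ≤ a i) :
    0 ≤ csum u a := by
  have h1 : 0 ≤ ∑ i ∈ rt u, a i * sD (rt u) (slo u) a i := Finset.sum_nonneg fun i hi =>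
    mul_nonneg (h i (rt_sub_sd u hi)) (sD_nonneg (fun j hj => h j (rt_sub_sd u hj)) i)
  have h2 : 0 ≤ ∑ i ∈ lf u, a i * sD (lf u) (slo u) a i := Finset.sum_nonneg fun i hi =>
    mul_nonneg (h i (lf_sub_sd u hi)) (sD_nonneg (fun j hj => h j (lf_sub_sd u hj)) i)
  rw [csum]
  linarith

theorem continuous_bsum (u : Fin N → E 2) : Continuous fun a : Fin N → ℝ => bsum u a := by
  unfold bsum
  fun_prop

theorem continuous_csum (u : Fin N → E 2) : Continuous fun a : Fin N → ℝ => csum u a := by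
  unfold csum sD
  fun_prop

theorem continuous_qq (u : Fin N → E 2) :
    Continuous fun x : (Fin N → ℝ) × ℝ => qq u x.1 x.2 := by
  unfold qq
  have h1 := continuous_bsum u
  have h2 := continuous_csum u
  fun_prop

/-- The maximum of the functional over the relative heights `η ≥ ηb` of the origin exists. -/
theorem exists_max (u : Fin N → E 2) {V : Fin N → ℝ} (hV : ∀ i, 0 < V i) (p q : Fin N) {κ ηb : ℝ}
    (hκ : 0 < κ) (hη : 0 < ηb) (hη2 : ηb < 1 / 2) {a₀ : Fin N → ℝ} (ha₀ : Adm u a₀)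
    (hq₀ : 0 < qq u a₀ ηb) :
    ∃ a η, Adm u a ∧ ηb ≤ η ∧ η < 1 / 2 ∧ 0 < qq u a η ∧
      ∀ a' η', Adm u a' → ηb ≤ η' → η' < 1 / 2 → 0 < qq u a' η' →
        thet u V p q κ a' η' ≤ thet u V p q κ a η := by
  classical
  set K : Set ((Fin N → ℝ) × ℝ) := {x | (∀ i, 0 ≤ x.1 i) ∧ (∀ i ∉ sd u, x.1 i = 0) ∧
    ∑ i ∈ rt u, x.1 i = 1 ∧ ∑ i ∈ lf u, x.1 i = 1 ∧ ηb ≤ x.2 ∧ x.2 ≤ 1 / 2 ∧
    0 ≤ qq u x.1 x.2} with hK
  have hKclosed : IsClosed K := by
    have e : K = (⋂ i, {x | 0 ≤ x.1 i}) ∩ ((⋂ i, ⋂ (_ : i ∉ sd u), {x | x.1 i = 0}) ∩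
        ({x | ∑ i ∈ rt u, x.1 i = 1} ∩ ({x | ∑ i ∈ lf u, x.1 i = 1} ∩ ({x | ηb ≤ x.2} ∩
        ({x | x.2 ≤ 1 / 2} ∩ {x | 0 ≤ qq u x.1 x.2}))))) := by
      ext x
      simp only [hK, mem_setOf_eq, mem_inter_iff, mem_iInter]
    rw [e]
    refine (isClosed_iInter fun i => isClosed_le continuous_const (by fun_prop)).inter
      ((isClosed_iInter fun i => isClosed_iInter fun _ =>
        isClosed_eq (by fun_prop) continuous_const).inter ?_)
    refine (isClosed_eq (by fun_prop) continuous_const).inter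
      ((isClosed_eq (by fun_prop) continuous_const).inter ?_)
    exact (isClosed_le continuous_const continuous_snd).inter
      ((isClosed_le continuous_snd continuous_const).inter
        (isClosed_le continuous_const (continuous_qq u)))
  have hKsub : K ⊆ (Set.pi univ fun _ => Icc (0 : ℝ) 1) ×ˢ Icc ηb (1 / 2) := by
    rintro ⟨a, η⟩ ⟨h1, h2, h3, h4, h5, h6, _⟩
    refine ⟨fun i _ => ⟨h1 i, ?_⟩, h5, h6⟩
    by_cases hi : i ∈ sd u
    · rw [sd, Finset.mem_union] at hi
      rcases hi with hi | hi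
      · rw [← h3]
        exact Finset.single_le_sum (fun j _ => h1 j) hi
      · rw [← h4]
        exact Finset.single_le_sum (fun j _ => h1 j) hi
    · have h7 : a i = 0 := h2 i hi
      show a i ≤ 1
      rw [h7]
      exact zero_le_one
  have hKcomp : IsCompact K :=
    ((isCompact_univ_pi fun _ => isCompact_Icc).prod isCompact_Icc).of_isClosed_subset
      hKclosed hKsub
  set F : (Fin N → ℝ) × ℝ → ℝ := fun x => qq u x.1 x.2 ^ κ * (∏ i ∈ sd u, x.1 i ^ (2 * V i)) *
    Real.exp (-(2 * V p * Real.log x.2) - 2 * V q * Real.log (1 - x.2)) with hF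
  have hFcont : ContinuousOn F K := by
    have h1 : Continuous fun x : (Fin N → ℝ) × ℝ => qq u x.1 x.2 ^ κ :=
      (continuous_qq u).rpow_const fun _ => Or.inr hκ.le
    have h2 : Continuous fun x : (Fin N → ℝ) × ℝ => ∏ i ∈ sd u, x.1 i ^ (2 * V i) :=
      continuous_finsetProd _ fun i _ =>
        (by fun_prop : Continuous fun x : (Fin N → ℝ) × ℝ => x.1 i).rpow_const fun _ =>
          Or.inr (by have := hV i; positivity)
    have h3 : ContinuousOn (fun x : (Fin N → ℝ) × ℝ => Real.log x.2) K :=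
      ContinuousOn.log continuousOn_snd fun x hx => (hη.trans_le hx.2.2.2.2.1).ne'
    have h4 : ContinuousOn (fun x : (Fin N → ℝ) × ℝ => Real.log (1 - x.2)) K :=
      ContinuousOn.log (by fun_prop) fun x hx => by
        have h5 := hx.2.2.2.2.2.1
        have : (0 : ℝ) < 1 - x.2 := by linarith
        exact this.ne'
    exact (h1.continuousOn.mul h2.continuousOn).mul
      (Real.continuous_exp.comp_continuousOn
        (((continuousOn_const.mul h3).neg).sub (continuousOn_const.mul h4)))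
  have hFexp : ∀ (a : Fin N → ℝ) (η : ℝ), (∀ i ∈ sd u, 0 < a i) → 0 < qq u a η →
      F (a, η) = Real.exp (thet u V p q κ a η) := by
    intro a η ha hq
    simp only [hF, thet]
    rw [Real.rpow_def_of_pos hq]
    have e : ∏ i ∈ sd u, a i ^ (2 * V i) = Real.exp (∑ i ∈ sd u, 2 * V i * Real.log (a i)) := by
      rw [Real.exp_sum]
      refine Finset.prod_congr rfl fun i hi => ?_
      rw [Real.rpow_def_of_pos (ha i hi), mul_comm]
    rw [e, ← Real.exp_add, ← Real.exp_add]
    congr 1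
    ring
  -- cutting off
  set cut : (Fin N → ℝ) → Fin N → ℝ := fun a i => if i ∈ sd u then a i else 0 with hcut
  have hcut1 : ∀ a, ∀ i ∈ sd u, cut a i = a i := fun a i hi => by simp [hcut, hi]
  have hcutK : ∀ a η, Adm u a → ηb ≤ η → η ≤ 1 / 2 → 0 < qq u a η → (cut a, η) ∈ K := by
    intro a η ha h1 h2 h3
    refine ⟨fun i => ?_, fun i hi => by simp [hcut, hi], ?_, ?_, h1, h2, ?_⟩
    · by_cases hi : i ∈ sd u
      · show 0 ≤ cut a i
        rw [hcut1 a i hi]; exact (ha.pos i hi).le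
      · show 0 ≤ cut a i
        simp [hcut, hi]
    · rw [← ha.sumR]
      exact Finset.sum_congr rfl fun i hi => hcut1 a i (rt_sub_sd u hi)
    · rw [← ha.sumL]
      exact Finset.sum_congr rfl fun i hi => hcut1 a i (lf_sub_sd u hi)
    · show 0 ≤ qq u (cut a) η
      rw [qq_congr (hcut1 a)]; exact h3.le
  have hcutF : ∀ a η, Adm u a → 0 < qq u a η →
      F (cut a, η) = Real.exp (thet u V p q κ a η) := by
    intro a η ha h3
    rw [hFexp _ _ (fun i hi => by rw [hcut1 a i hi]; exact ha.pos i hi)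
      (by rw [qq_congr (hcut1 a)]; exact h3), thet_congr (hcut1 a)]
  obtain ⟨⟨a, η⟩, hx, hmax⟩ := hKcomp.exists_isMaxOn
    ⟨_, hcutK a₀ ηb ha₀ le_rfl hη2.le hq₀⟩ hFcont
  have hpos : 0 < F (a, η) := by
    have h1 := hmax (hcutK a₀ ηb ha₀ le_rfl hη2.le hq₀)
    have h2 : F (cut a₀, ηb) ≤ F (a, η) := h1
    rw [hcutF a₀ ηb ha₀ hq₀] at h2
    exact (Real.exp_pos _).trans_le h2
  obtain ⟨hx1, hx2, hx3, hx4, hx5, hx6, hx7⟩ := hx
  simp only at hx1 hx2 hx3 hx4 hx5 hx6 hx7
  have hq : 0 < qq u a η := by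
    rcases eq_or_lt_of_le hx7 with h | h
    · exfalso
      rw [hF] at hpos
      simp only at hpos
      rw [← h, Real.zero_rpow hκ.ne', zero_mul, zero_mul] at hpos
      exact lt_irrefl _ hpos
    · exact h
  have hapos : ∀ i ∈ sd u, 0 < a i := by
    intro i hi
    rcases eq_or_lt_of_le (hx1 i) with h | h
    · exfalso
      rw [hF] at hpos
      simp only at hpos
      have h2 : ∏ i ∈ sd u, a i ^ (2 * V i) = 0 :=
        Finset.prod_eq_zero hi (by
          rw [← h, Real.zero_rpow]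
          have := hV i
          positivity)
      rw [h2, mul_zero, zero_mul] at hpos
      exact lt_irrefl _ hpos
    · exact h
  have hadm : Adm u a := ⟨hapos, hx3, hx4⟩
  have hη' : η < 1 / 2 := by
    rcases eq_or_lt_of_le hx6 with h | h
    · exfalso
      have h2 := csum_nonneg fun i hi => (hapos i hi).le
      rw [qq, h] at hq
      linarith
    · exact h
  refine ⟨a, η, hadm, hx5, hη', hq, fun a' η' ha' h1 h2 h3 => ?_⟩
  have h4 : F (cut a', η') ≤ F (a, η) := hmax (hcutK a' η' ha' h1 h2.le h3)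
  rw [hcutF a' η' ha' h3, hFexp a η hapos hq, Real.exp_le_exp] at h4
  exact h4

end Pool.Agent.LogMinkowski
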