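import Pool.Agent.Lib.MP_36b0a5_gt.Euclid

/-!
# Polytopes with prescribed facet normals and cone volumes
-/

set_option autoImplicit false

open MeasureTheory Set Module
open scoped Pointwise ENNReal RealInnerProductSpace

namespace Pool.Agent.LogMinkowski

open Pool.Agent.BM

/-- Euclidean `n`-space. -/
abbrev E (n : ℕ) : Type := EuclideanSpace ℝ (Fin n)

/-- The face of `P` with outer normal `v`: the points of `P` where `⟪v, ·⟫` is maximal on `P`. -/
def face {n : ℕ} (P : Set (E n)) (v : E n) : Set (E n) := {x | x ∈ P ∧ ∀ y ∈ P, ⟪v, y⟫ ≤ ⟪v, x⟫}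

/-- `P` is a polytope (the convex hull of a finite set) with the origin in its interior. -/
def IsPolytope {n : ℕ} (P : Set (E n)) : Prop :=
  (∃ S : Finset (E n), P = convexHull ℝ (S : Set (E n))) ∧ (0 : E n) ∈ interior P

/-- `v` is the outer unit normal of a facet of `P`, that is of a face of dimension `n - 1`. -/
def IsFacetNormal {n : ℕ} (P : Set (E n)) (v : E n) : Prop :=
  ‖v‖ = 1 ∧ finrank ℝ (vectorSpan ℝ (face P v)) = n - 1

/-- The volume of the convex hull of the origin and the face of `P` with outer normal `v`. -/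
noncomputable def coneVolume {n : ℕ} (P : Set (E n)) (v : E n) : ℝ :=
  (volume (convexHull ℝ (insert 0 (face P v)))).toReal

/-- The data `(V_1, ..., V_N; u_1, ..., u_N)` is realised by `P`: `P` is a polytope with the
origin in its interior, the outer unit normals of its facets are exactly the `u i`, and its cone
volumes are the `V i`. -/
structure Realises {n N : ℕ} (u : Fin N → E n) (V : Fin N → ℝ) (P : Set (E n)) : Prop where
  polytope : IsPolytope P
  facets : ∀ v, IsFacetNormal P v ↔ ∃ i, u i = v
  volumes : ∀ i, coneVolume P (u i) = V i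

variable {n : ℕ}

theorem IsPolytope.isCompact {P : Set (E n)} (h : IsPolytope P) : IsCompact P := by
  obtain ⟨⟨S, rfl⟩, _⟩ := h
  exact S.finite_toSet.isCompact_convexHull ℝ

theorem IsPolytope.convex {P : Set (E n)} (h : IsPolytope P) : Convex ℝ P := by
  obtain ⟨⟨S, rfl⟩, _⟩ := h
  exact convex_convexHull ℝ _

theorem face_eq {P : Set (E n)} {v x : E n} (hx : x ∈ face P v) :
    face P v = {y ∈ P | ⟪v, y⟫ = ⟪v, x⟫} := by
  ext y
  constructor
  · intro hy
    exact ⟨hy.1, le_antisymm (hx.2 y hy.1) (hy.2 x hx.1)⟩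
  · rintro ⟨hy, he⟩
    exact ⟨hy, fun z hz => by rw [he]; exact hx.2 z hz⟩

theorem face_nonempty {P : Set (E n)} (hP : IsCompact P) (hne : P.Nonempty) (v : E n) :
    (face P v).Nonempty := by
  obtain ⟨x, hx, hmax⟩ := hP.exists_isMaxOn hne (f := fun y => ⟪v, y⟫) (by fun_prop)
  exact ⟨x, hx, fun y hy => hmax hy⟩

theorem face_convex {P : Set (E n)} (hP : Convex ℝ P) (v : E n) : Convex ℝ (face P v) := by
  intro x hx y hy a b ha hb hab
  refine ⟨hP hx.1 hy.1 ha hb hab, fun z hz => ?_⟩
  rw [inner_add_right, real_inner_smul_right, real_inner_smul_right]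
  have h1 := mul_le_mul_of_nonneg_left (hx.2 z hz) ha
  have h2 := mul_le_mul_of_nonneg_left (hy.2 z hz) hb
  have h3 : ⟪v, z⟫ = a * ⟪v, z⟫ + b * ⟪v, z⟫ := by rw [← add_mul, hab, one_mul]
  linarith

theorem face_compact {P : Set (E n)} (hP : IsCompact P) (hne : P.Nonempty) (v : E n) :
    IsCompact (face P v) := by
  obtain ⟨x, hx⟩ := face_nonempty hP hne v
  rw [face_eq hx]
  exact hP.inter_right (isClosed_eq (by fun_prop) continuous_const)

/-- A polytope is covered by the cones over its facets, up to a finite union of proper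
subspaces. -/
theorem cover (hn : 2 ≤ n) {P : Set (E n)} {S : Finset (E n)}
    (hS : P = convexHull ℝ (S : Set (E n))) (h0 : (0 : E n) ∈ interior P) {x : E n} (hx : x ∈ P) :
    (∃ v, IsFacetNormal P v ∧ x ∈ coneOver 0 (face P v)) ∨
      ∃ A ⊆ S, Submodule.span ℝ (A : Set (E n)) ≠ ⊤ ∧ x ∈ Submodule.span ℝ (A : Set (E n)) := by
  classical
  have hP : IsPolytope P := ⟨⟨S, hS⟩, h0⟩
  have hPc := hP.isCompact
  have hPv := hP.convex
  rcases eq_or_ne x 0 with rfl | hx0
  · right
    refine ⟨∅, Finset.empty_subset _, ?_, Submodule.zero_mem _⟩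
    rw [Finset.coe_empty, Submodule.span_empty]
    intro h
    have h1 : finrank ℝ (E n) = 0 := by
      rw [← finrank_top ℝ (E n), ← h, finrank_bot]
    rw [finrank_euclideanSpace_fin] at h1
    omega
  -- the last point of the ray
  have hclosed : IsClosed {r : ℝ | r • x ∈ P} :=
    hPc.isClosed.preimage (by fun_prop)
  obtain ⟨B, hB⟩ := hPc.isBounded.exists_norm_le
  have hxn : 0 < ‖x‖ := norm_pos_iff.2 hx0
  have hbd : {r : ℝ | r • x ∈ P} ⊆ Icc (-(B / ‖x‖)) (B / ‖x‖) := by
    intro r hr
    have h1 := hB _ hr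
    rw [norm_smul, Real.norm_eq_abs] at h1
    rw [mem_Icc, ← abs_le, le_div_iff₀ hxn]
    exact h1
  have hcomp : IsCompact {r : ℝ | r • x ∈ P} := isCompact_Icc.of_isClosed_subset hclosed hbd
  obtain ⟨R, hR, hRmax⟩ := hcomp.exists_isGreatest ⟨1, by simpa using hx⟩
  have hR1 : 1 ≤ R := hRmax (by simpa using hx)
  have hRpos : 0 < R := by linarith
  set y := R • x with hy
  have hyP : y ∈ P := hR
  have hynot : y ∉ interior P := by
    intro hyi
    have hopen : IsOpen {r : ℝ | r • x ∈ interior P} := isOpen_interior.preimage (by fun_prop)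
    obtain ⟨ε, hε, hball⟩ := Metric.isOpen_iff.1 hopen R hyi
    have h1 : R + ε / 2 ∈ Metric.ball R ε := by
      rw [Metric.mem_ball, Real.dist_eq, add_sub_cancel_left, abs_of_pos (by positivity)]
      linarith
    have h2 : (R + ε / 2) • x ∈ P := interior_subset (hball h1)
    have h3 := hRmax h2
    linarith
  obtain ⟨f, hf⟩ := geometric_hahn_banach_open_point hPv.interior isOpen_interior hynot
  have hfP : ∀ z ∈ P, f z ≤ f y := by
    intro z hz
    have h1 : z ∈ closure (interior P) := by
      rw [hPv.closure_interior_eq_closure_of_nonempty_interior ⟨0, h0⟩]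
      exact subset_closure hz
    exact closure_minimal (fun w hw => (hf w hw).le)
      (isClosed_le f.continuous continuous_const) h1
  set v0 := (InnerProductSpace.toDual ℝ (E n)).symm f with hv0
  have hv0i : ∀ z, ⟪v0, z⟫ = f z := fun z => InnerProductSpace.toDual_symm_apply
  have hv0ne : v0 ≠ 0 := by
    intro h
    have h1 := hf 0 h0
    rw [← hv0i, ← hv0i, h, inner_zero_left, inner_zero_left] at h1
    exact lt_irrefl _ h1
  have hv0n : 0 < ‖v0‖ := norm_pos_iff.2 hv0ne
  set v := ‖v0‖⁻¹ • v0 with hv
  have hvn : ‖v‖ = 1 := by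
    rw [hv, norm_smul, norm_inv, norm_norm, inv_mul_cancel₀ hv0n.ne']
  have hyface : y ∈ face P v := by
    refine ⟨hyP, fun z hz => ?_⟩
    rw [hv, real_inner_smul_left, real_inner_smul_left, hv0i, hv0i]
    exact mul_le_mul_of_nonneg_left (hfP z hz) (by positivity)
  have hxy : x = R⁻¹ • y := by
    rw [hy, smul_smul, inv_mul_cancel₀ hRpos.ne', one_smul]
  by_cases hfac : IsFacetNormal P v
  · left
    refine ⟨v, hfac, ⟨(1 - R⁻¹, y), ⟨⟨?_, ?_⟩, hyface⟩, ?_⟩⟩
    · simp only [sub_nonneg]
      exact inv_le_one_of_one_le₀ hR1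
    · simp only [sub_le_self_iff]
      positivity
    · simp only [smul_zero, zero_add, sub_sub_cancel]
      exact hxy.symm
  · right
    set A := S.filter (fun s => s ∈ face P v) with hA
    -- y lies in the span of A
    have hyA : y ∈ Submodule.span ℝ (A : Set (E n)) := by
      have h1 : y ∈ convexHull ℝ (S : Set (E n)) := hS ▸ hyP
      rw [Finset.mem_convexHull'] at h1
      obtain ⟨w, hw0, hw1, hwy⟩ := h1
      have h2 : ∑ s ∈ S, w s * (⟪v, y⟫ - ⟪v, s⟫) = 0 := by
        simp only [mul_sub, Finset.sum_sub_distrib]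
        rw [← Finset.sum_mul, hw1, one_mul]
        have : ⟪v, y⟫ = ∑ s ∈ S, w s * ⟪v, s⟫ := by
          conv_lhs => rw [← hwy]
          rw [inner_sum]
          exact Finset.sum_congr rfl fun s _ => real_inner_smul_right _ _ _
        rw [← this, sub_self]
      have hsP : ∀ s ∈ S, s ∈ P := fun s hs => by
        rw [hS]; exact subset_convexHull ℝ _ hs
      have h3 := (Finset.sum_eq_zero_iff_of_nonneg (fun s hs =>
        mul_nonneg (hw0 s hs) (sub_nonneg.2 (hyface.2 s (hsP s hs))))).1 h2
      rw [← hwy]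
      refine Submodule.sum_mem _ fun s hs => ?_
      by_cases hws : w s = 0
      · rw [hws, zero_smul]; exact Submodule.zero_mem _
      · refine Submodule.smul_mem _ _ (Submodule.subset_span ?_)
        have h4 : ⟪v, y⟫ - ⟪v, s⟫ = 0 := by
          rcases mul_eq_zero.1 (h3 s hs) with h | h
          · exact absurd h hws
          · exact h
        rw [hA, Finset.mem_coe, Finset.mem_filter, face_eq hyface]
        exact ⟨hs, hsP s hs, by linarith⟩
    refine ⟨A, Finset.filter_subset _ _, ?_, ?_⟩
    · intro htop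
      apply hfac
      refine ⟨hvn, le_antisymm ?_ ?_⟩
      · -- the face lies in a hyperplane
        have h1 : vectorSpan ℝ (face P v) ≤ (ℝ ∙ v)ᗮ := by
          rw [vectorSpan_def, Submodule.span_le]
          rintro _ ⟨a, ha, b, hb, rfl⟩
          rw [SetLike.mem_coe, Submodule.mem_orthogonal_singleton_iff_inner_right]
          rw [face_eq hyface] at ha hb
          simp only [vsub_eq_sub]
          rw [inner_sub_right, ha.2, hb.2, sub_self]
        have h2 := Submodule.finrank_mono h1
        have h3 : finrank ℝ (ℝ ∙ v)ᗮ = n - 1 := by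
          have h4 := Submodule.finrank_add_finrank_orthogonal (ℝ ∙ v)
          rw [finrank_span_singleton (by rw [← norm_pos_iff, hvn]; exact one_pos),
            finrank_euclideanSpace_fin] at h4
          omega
        rwa [h3] at h2
      · have h1 : Submodule.span ℝ (A : Set (E n)) ≤ (ℝ ∙ y) ⊔ vectorSpan ℝ (face P v) := by
          rw [Submodule.span_le]
          intro a ha
          rw [hA, Finset.mem_coe, Finset.mem_filter] at ha
          have h2 : a = y + (a - y) := by abel
          rw [h2]
          refine Submodule.add_mem_sup (Submodule.mem_span_singleton_self y) ?_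
          exact vsub_mem_vectorSpan ℝ ha.2 hyface
        rw [htop] at h1
        have h2 := Submodule.finrank_mono h1
        rw [finrank_top, finrank_euclideanSpace_fin] at h2
        have h3 := Submodule.finrank_add_le_finrank_add_finrank (ℝ ∙ y)
          (vectorSpan ℝ (face P v))
        have h4 : finrank ℝ (ℝ ∙ y) ≤ 1 := finrank_span_le_card ({y} : Set (E n)) |>.trans (by simp)
        omega
    · rw [hxy]
      exact Submodule.smul_mem _ _ hyA

theorem coneVolume_eq {P : Set (E n)} (hP : IsPolytope P) (v : E n) :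
    coneVolume P v = (volume (coneOver 0 (face P v))).toReal := by
  unfold coneVolume
  rw [convexHull_eq_coneOver 0 (face_convex hP.convex v)
    (face_nonempty hP.isCompact ⟨0, interior_subset hP.2⟩ v)]

/-- The volume of a polytope is at most the sum of its cone volumes. -/
theorem volume_le_sum (hn : 2 ≤ n) {N : ℕ} {u : Fin N → E n} {V : Fin N → ℝ} {P : Set (E n)}
    (h : Realises u V P) : (volume P).toReal ≤ ∑ i, V i := by
  classical
  obtain ⟨⟨S, hS⟩, h0⟩ := h.polytope
  have hne : P.Nonempty := ⟨0, interior_subset h0⟩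
  have hc := h.polytope.isCompact
  have hsub : P ⊆ (⋃ i, coneOver 0 (face P (u i))) ∪
      ⋃ A ∈ S.powerset.filter (fun A : Finset (E n) => Submodule.span ℝ (A : Set (E n)) ≠ ⊤),
        (Submodule.span ℝ (A : Set (E n)) : Set (E n)) := by
    intro x hx
    rcases cover hn hS h0 hx with ⟨v, hv, hxv⟩ | ⟨A, hA, hAt, hxA⟩
    · left
      obtain ⟨i, hi⟩ := (h.facets v).1 hv
      rw [mem_iUnion]
      exact ⟨i, hi ▸ hxv⟩
    · right
      rw [mem_iUnion₂]
      exact ⟨A, Finset.mem_filter.2 ⟨Finset.mem_powerset.2 hA, hAt⟩, hxA⟩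
  have hnull : volume (⋃ A ∈ S.powerset.filter
      (fun A : Finset (E n) => Submodule.span ℝ (A : Set (E n)) ≠ ⊤),
        (Submodule.span ℝ (A : Set (E n)) : Set (E n))) = 0 := by
    refine le_antisymm ((measure_biUnion_finset_le _ _).trans
      (le_of_eq (Finset.sum_eq_zero fun A hA => ?_))) bot_le
    exact Measure.addHaar_submodule volume _ (Finset.mem_filter.1 hA).2
  have hfin : ∀ i, volume (coneOver 0 (face P (u i))) ≠ ⊤ := fun i =>
    (isCompact_coneOver 0 (face_compact hc hne (u i))).measure_lt_top.ne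
  have h1 : volume P ≤ ∑ i, volume (coneOver 0 (face P (u i))) := by
    calc volume P ≤ _ := measure_mono hsub
      _ ≤ _ := measure_union_le _ _
      _ = volume (⋃ i, coneOver 0 (face P (u i))) := by rw [hnull, add_zero]
      _ ≤ ∑ i, volume (coneOver 0 (face P (u i))) := measure_iUnion_fintype_le _ _
  have h2 := ENNReal.toReal_mono (ENNReal.sum_ne_top.2 fun i _ => hfin i) h1
  rw [ENNReal.toReal_sum fun i _ => hfin i] at h2
  refine h2.trans (le_of_eq ?_)
  exact Finset.sum_congr rfl fun i _ => by rw [← coneVolume_eq h.polytope, h.volumes i]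

/-- **Necessary condition.**  If the data is realised, then among the facets whose normals carry
a positive linear relation there is one with cone volume at most `(V_1 + ... + V_N) / (n + 1)`. -/
theorem necessary (hn : 2 ≤ n) {N : ℕ} {u : Fin N → E n} {V : Fin N → ℝ} {P : Set (E n)}
    (h : Realises u V P) {I : Finset (Fin N)} (hI : I.Nonempty) {l : Fin N → ℝ}
    (hl : ∀ i ∈ I, 0 < l i) (hsum : ∑ i ∈ I, l i • u i = 0) :
    ∃ i ∈ I, ((n : ℝ) + 1) * V i ≤ ∑ j, V j := by
  have h0 := h.polytope.2
  have hne : P.Nonempty := ⟨0, interior_subset h0⟩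
  have hc := h.polytope.isCompact
  have hu : ∀ i, ‖u i‖ = 1 := fun i => ((h.facets (u i)).2 ⟨i, rfl⟩).1
  choose x hx using fun i => face_nonempty hc hne (u i)
  have hh : ∀ i, 0 < ⟪u i, x i⟫ := by
    intro i
    obtain ⟨ε, hε, hball⟩ := Metric.isOpen_iff.1 isOpen_interior 0 h0
    have h1 : (ε / 2) • u i ∈ P := by
      apply interior_subset
      apply hball
      rw [Metric.mem_ball, dist_zero_right, norm_smul, hu i, mul_one, Real.norm_eq_abs,
        abs_of_pos (by positivity)]
      linarith
    have h2 := (hx i).2 _ h1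
    rw [real_inner_smul_right, real_inner_self_eq_norm_sq, hu i] at h2
    have : 0 < ε / 2 * 1 ^ 2 := by positivity
    linarith
  have hvol : 0 < (volume P).toReal := by
    refine ENNReal.toReal_pos ?_ hc.measure_lt_top.ne
    have h1 := isOpen_interior.measure_pos (volume : Measure (E n)) ⟨0, h0⟩
    exact (h1.trans_le (measure_mono interior_subset)).ne'
  obtain ⟨i, hi, hle⟩ := exists_small_cone hn hc h.polytope.convex hI (u := u)
    (fun i _ => hu i) (h := fun i => ⟪u i, x i⟫) (fun i _ => hh i)
    (fun i _ y hy => (hx i).2 y hy) hl hsum hvol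
  refine ⟨i, hi, ?_⟩
  rw [← face_eq (hx i), ← coneVolume_eq h.polytope, h.volumes i] at hle
  exact hle.trans (volume_le_sum hn h)

/-- **Obstruction.**  If some proper linear subspace `ξ` contains normals with the origin in
their convex hull, then some positive values are not realised. -/
theorem obstruction (hn : 2 ≤ n) {N : ℕ} {u : Fin N → E n}
    {ξ : Submodule ℝ (E n)} (hξ : ξ ≠ ⊤) (h0 : (0 : E n) ∈ convexHull ℝ (range u ∩ ξ)) :
    ∃ V : Fin N → ℝ, (∀ i, 0 < V i) ∧ ¬ ∃ P, Realises u V P := by
  classical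
  obtain ⟨ι, _, z, w, hz, haff, hw, hw1, hsum⟩ := eq_pos_convex_span_of_mem_convexHull h0
  have hzu : ∀ k, ∃ i, u i = z k := fun k => (hz ⟨k, rfl⟩).1
  choose g hg using hzu
  have hginj : Function.Injective g := by
    intro a b hab
    apply haff.injective
    rw [← hg a, ← hg b, hab]
  have hιne : Nonempty ι := by
    by_contra hcon
    rw [not_nonempty_iff] at hcon
    rw [Finset.univ_eq_empty, Finset.sum_empty] at hw1
    exact zero_ne_one hw1
  -- the number of points is at most n
  have hcard : Fintype.card ι ≤ n := by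
    have h1 := haff.card_le_finrank_succ
    have h2 : vectorSpan ℝ (range z) ≤ ξ := by
      rw [vectorSpan_def, Submodule.span_le]
      rintro _ ⟨a, ⟨k, rfl⟩, b, ⟨k', rfl⟩, rfl⟩
      exact ξ.sub_mem (hz ⟨k, rfl⟩).2 (hz ⟨k', rfl⟩).2
    have h3 := Submodule.finrank_mono h2
    have h4 := Submodule.finrank_lt hξ
    rw [finrank_euclideanSpace_fin] at h4
    omega
  set I : Finset (Fin N) := Finset.univ.image g with hI
  have hIcard : I.card ≤ n := by
    rw [hI, Finset.card_image_of_injective _ hginj]
    exact hcard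
  set V : Fin N → ℝ := fun i => if i ∈ I then 1 else 1 / (N + 1) with hV
  have hNpos : (0 : ℝ) < N + 1 := by positivity
  refine ⟨V, fun i => ?_, ?_⟩
  · simp only [hV]
    split_ifs
    · exact one_pos
    · positivity
  rintro ⟨P, hP⟩
  set l : Fin N → ℝ := fun i => ∑ k ∈ Finset.univ.filter (fun k => g k = i), w k with hl
  obtain ⟨i, hi, hle⟩ := necessary hn hP (I := I) (l := l)
    (Finset.image_nonempty.2 Finset.univ_nonempty)
    (by
      intro i hi
      obtain ⟨k, _, rfl⟩ := Finset.mem_image.1 hi
      exact Finset.sum_pos (fun k _ => hw k) ⟨k, by simp⟩)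
    (by
      have h1 : ∀ i ∈ I, l i • u i = ∑ k ∈ Finset.univ.filter (fun k => g k = i), w k • z k := by
        intro i _
        rw [hl, Finset.sum_smul]
        refine Finset.sum_congr rfl fun k hk => ?_
        rw [← hg k, (Finset.mem_filter.1 hk).2]
      rw [Finset.sum_congr rfl h1, Finset.sum_fiberwise_of_maps_to
        (fun k _ => Finset.mem_image_of_mem g (Finset.mem_univ k))]
      exact hsum)
  have h1 : V i = 1 := by simp only [hV, if_pos hi]
  rw [h1, mul_one] at hle
  have h2 : ∑ j, V j ≤ n + N * (1 / (N + 1)) := by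
    have h3 : ∀ j, V j ≤ (if j ∈ I then (1 : ℝ) else 0) + 1 / (N + 1) := by
      intro j
      simp only [hV]
      split_ifs
      · linarith [show (0 : ℝ) < 1 / (N + 1) by positivity]
      · linarith
    refine (Finset.sum_le_sum fun j _ => h3 j).trans ?_
    rw [Finset.sum_add_distrib, Finset.sum_const, Finset.card_univ, Fintype.card_fin,
      nsmul_eq_mul]
    have h4 : ∑ j, (if j ∈ I then (1 : ℝ) else 0) = I.card := by simp
    rw [h4]
    have h5 : (I.card : ℝ) ≤ n := by exact_mod_cast hIcard
    linarith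
  have h6 : (N : ℝ) * (1 / (N + 1)) < 1 := by
    rw [mul_one_div, div_lt_one hNpos]
    linarith
  linarith

end Pool.Agent.LogMinkowski
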