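import Pool.Agent.Lib.MP_36b0a5_gt.Slice

/-!
# The centroid of a convex body is close to its large facets

Bodies in `ℝ × ℝ^m`.
-/

set_option autoImplicit false

open MeasureTheory Set
open scoped Pointwise ENNReal

namespace Pool.Agent.BM

variable {m : ℕ}

/-- slice of a set in `ℝ × ℝ^m` -/
def sl (K : Set (ℝ × (Fin m → ℝ))) (t : ℝ) : Set (Fin m → ℝ) := Prod.mk t ⁻¹' K

theorem isCompact_sl {K : Set (ℝ × (Fin m → ℝ))} (hK : IsCompact K) (t : ℝ) :
    IsCompact (sl K t) := by
  have h : sl K t = Prod.snd '' (K ∩ {x | x.1 = t}) := by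
    ext y
    constructor
    · intro hy
      exact ⟨(t, y), ⟨hy, rfl⟩, rfl⟩
    · rintro ⟨⟨a, b⟩, ⟨h1, h2⟩, h3⟩
      simp only [mem_ofPred_eq] at h2 h3
      subst h2 h3
      exact h1
  rw [h]
  exact (hK.inter_right (isClosed_eq continuous_fst continuous_const)).image continuous_snd

theorem sl_comb {K : Set (ℝ × (Fin m → ℝ))} (hc : Convex ℝ K) {s : ℝ} (h0 : 0 ≤ s) (h1 : s ≤ 1)
    (t1 t2 : ℝ) : (1 - s) • sl K t1 + s • sl K t2 ⊆ sl K ((1 - s) * t1 + s * t2) := by
  rintro _ ⟨_, ⟨y1, hy1, rfl⟩, _, ⟨y2, hy2, rfl⟩, rfl⟩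
  have h := hc (x := (t1, y1)) hy1 (y := (t2, y2)) hy2 (a := 1 - s) (b := s) (by linarith) h0
    (by ring)
  exact h

/-- volume of the slice -/
noncomputable def ps (K : Set (ℝ × (Fin m → ℝ))) (t : ℝ) : ℝ := (volume (sl K t)).toReal

theorem int_fst {K : Set (ℝ × (Fin m → ℝ))} (hK : IsCompact K) {g : ℝ → ℝ} (hg : Continuous g) :
    Integrable (fun t => g t * ps K t) ∧ ∫ x in K, g x.1 = ∫ t, g t * ps K t := by
  have hi : IntegrableOn (fun x : ℝ × (Fin m → ℝ) => g x.1) K :=
    (hg.comp continuous_fst).continuousOn.integrableOn_compact hK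
  have hi' : Integrable (K.indicator fun x : ℝ × (Fin m → ℝ) => g x.1)
      ((volume : Measure ℝ).prod (volume : Measure (Fin m → ℝ))) :=
    (integrable_indicator_iff hK.measurableSet).2 hi
  have key : ∀ t : ℝ, ∫ y, K.indicator (fun x : ℝ × (Fin m → ℝ) => g x.1) (t, y) =
      g t * ps K t := by
    intro t
    have h1 : (fun y => K.indicator (fun x : ℝ × (Fin m → ℝ) => g x.1) (t, y)) =
        (sl K t).indicator fun _ => g t := by
      ext y
      by_cases hy : (t, y) ∈ K
      · rw [indicator_of_mem hy, indicator_of_mem (show y ∈ sl K t from hy)]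
      · rw [indicator_of_notMem hy, indicator_of_notMem (show y ∉ sl K t from hy)]
    rw [h1, integral_indicator_const _ (isCompact_sl hK t).measurableSet]
    simp [ps, Measure.real, mul_comm]
  refine ⟨?_, ?_⟩
  · have h := hi'.integral_prod_left
    exact h.congr (Filter.Eventually.of_forall key)
  · rw [← integral_indicator hK.measurableSet]
    have h := integral_prod _ hi'
    rw [Measure.volume_eq_prod, h]
    exact integral_congr_ae (Filter.Eventually.of_forall key)

theorem int_fst_interval {K : Set (ℝ × (Fin m → ℝ))} (hK : IsCompact K) {L : ℝ} (hL : 0 ≤ L)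
    (h0 : ∀ x ∈ K, 0 ≤ x.1 ∧ x.1 ≤ L) {g : ℝ → ℝ} (hg : Continuous g) :
    IntervalIntegrable (fun t => g t * ps K t) volume 0 L ∧
      ∫ x in K, g x.1 = ∫ t in (0 : ℝ)..L, g t * ps K t := by
  obtain ⟨h1, h2⟩ := int_fst hK hg
  refine ⟨h1.intervalIntegrable, ?_⟩
  rw [h2, intervalIntegral.integral_of_le hL, ← integral_Icc_eq_integral_Ioc]
  symm
  apply setIntegral_eq_integral_of_forall_compl_eq_zero
  intro t ht
  have : sl K t = ∅ := by
    rw [eq_empty_iff_forall_notMem]
    intro y hy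
    exact ht ⟨(h0 _ hy).1, (h0 _ hy).2⟩
  simp [ps, this]

/-- The inequality between the slice at `0`, the first moment and the volume. -/
theorem slice_ineq (hm : m ≠ 0) {K : Set (ℝ × (Fin m → ℝ))} (hK : IsCompact K)
    (hc : Convex ℝ K) (h0 : ∀ x ∈ K, 0 ≤ x.1) :
    ((m : ℝ) + 2) * ps K 0 * ∫ x in K, x.1 ≤ (m + 1) * (volume K).toReal ^ 2 := by
  have hps0 : ∀ t, 0 ≤ ps K t := fun t => ENNReal.toReal_nonneg
  rcases (hps0 0).eq_or_lt with hz | hpos
  · rw [← hz]
    have : (0 : ℝ) ≤ (m + 1) * (volume K).toReal ^ 2 := by positivity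
    simpa using this
  obtain ⟨L, hL0, hL⟩ : ∃ L : ℝ, 0 < L ∧ ∀ x ∈ K, x.1 ≤ L := by
    obtain ⟨L, hL⟩ := (hK.image continuous_fst).bddAbove
    exact ⟨max L 1, by positivity, fun x hx => (hL ⟨x, hx, rfl⟩).trans (le_max_left _ _)⟩
  have hb : ∀ x ∈ K, 0 ≤ x.1 ∧ x.1 ≤ L := fun x hx => ⟨h0 x hx, hL x hx⟩
  have hm' : (0 : ℝ) < m := by exact_mod_cast Nat.pos_of_ne_zero hm
  set φ : ℝ → ℝ := fun t => ps K t ^ (1 / (m : ℝ)) with hφ
  have hφm : ∀ t, φ t ^ m = ps K t := by
    intro t
    simp only [hφ, one_div]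
    exact Real.rpow_inv_natCast_pow (hps0 t) hm
  set D : Set ℝ := {t | (sl K t).Nonempty} with hD
  have hne0 : (sl K 0).Nonempty := by
    by_contra h
    rw [not_nonempty_iff_eq_empty] at h
    simp [ps, h] at hpos
  have e1 := int_fst_interval hK hL0.le hb (g := fun _ => 1) continuous_const
  have e2 := int_fst_interval hK hL0.le hb (g := fun t => t) continuous_id
  have hvol : ∫ x in K, (1 : ℝ) = (volume K).toReal := by
    simp [Measure.real]
  have hcr := crossing (m := m) hm (φ := φ) (D := D) (L := L) hL0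
    (fun t => Real.rpow_nonneg (hps0 t) _)
    (fun t ht => by
      obtain ⟨y, hy⟩ := ht
      exact hb _ hy)
    hne0
    (fun t ht => by
      have : sl K t = ∅ := not_nonempty_iff_eq_empty.1 ht
      simp only [hφ, ps, this, measure_empty, ENNReal.toReal_zero]
      exact Real.zero_rpow (by positivity))
    (Real.rpow_pos_of_pos hpos _)
    (fun τ hτ s hs0 hs1 => by
      have h1 := bm_add hm hs0 hs1 (isCompact_sl hK 0) (isCompact_sl hK τ) hne0 hτ
      refine h1.trans ?_
      refine Real.rpow_le_rpow ENNReal.toReal_nonneg ?_ (by positivity)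
      refine ENNReal.toReal_mono (isCompact_sl hK _).measure_lt_top.ne (measure_mono ?_)
      have h2 := sl_comb hc hs0.le hs1.le 0 τ
      rwa [mul_zero, zero_add] at h2)
    (by
      simp only [hφm]
      simpa using e1.1)
  simp only [hφm] at hcr
  rw [← e2.2] at hcr
  have e3 : ∫ t in (0 : ℝ)..L, ps K t = (volume K).toReal := by
    rw [← hvol, e1.2]
    simp
  rwa [e3] at hcr

/-- the union of the segments from `o` to the points of `F` -/
def coneOver {E : Type} [AddCommGroup E] [Module ℝ E] (o : E) (F : Set E) : Set E :=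
  (fun p : ℝ × E => p.1 • o + (1 - p.1) • p.2) '' (Icc 0 1 ×ˢ F)

theorem convexHull_eq_coneOver {E : Type} [AddCommGroup E] [Module ℝ E] (o : E) {F : Set E}
    (hF : Convex ℝ F) (hne : F.Nonempty) : convexHull ℝ (insert o F) = coneOver o F := by
  rw [convexHull_insert hne, hF.convexHull_eq]
  ext x
  simp only [coneOver, mem_convexJoin, mem_singleton_iff, exists_eq_left, mem_image, mem_prod,
    Prod.exists, mem_Icc]
  constructor
  · rintro ⟨f, hf, hx⟩
    obtain ⟨a, b, ha, hb, hab, rfl⟩ := hx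
    exact ⟨a, f, ⟨⟨ha, by linarith⟩, hf⟩, by rw [← hab]; simp⟩
  · rintro ⟨r, f, ⟨⟨h0, h1⟩, hf⟩, rfl⟩
    exact ⟨f, hf, r, 1 - r, h0, by linarith, by ring, rfl⟩

theorem isCompact_coneOver {E : Type} [AddCommGroup E] [Module ℝ E] [TopologicalSpace E]
    [ContinuousAdd E] [ContinuousSMul ℝ E] (o : E) {F : Set E} (hF : IsCompact F) :
    IsCompact (coneOver o F) :=
  (isCompact_Icc.prod hF).image (by fun_prop)

/-- The volume of a cone is at most `height * base / dimension`. -/
theorem cone_le (hm : m ≠ 0) {K : Set (ℝ × (Fin m → ℝ))} (hK : IsCompact K)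
    {o : ℝ × (Fin m → ℝ)} (hpos : 0 < o.1) :
    (volume (coneOver o (K ∩ {x | x.1 = 0}))).toReal ≤ o.1 * ps K 0 / (m + 1) := by
  set h := o.1 with hh
  set C := coneOver o (K ∩ {x | x.1 = 0}) with hC
  have hFc : IsCompact (K ∩ {x : ℝ × (Fin m → ℝ) | x.1 = 0}) :=
    hK.inter_right (isClosed_eq continuous_fst continuous_const)
  have hCc : IsCompact C := isCompact_coneOver o hFc
  have hb : ∀ x ∈ C, 0 ≤ x.1 ∧ x.1 ≤ h := by
    rintro _ ⟨⟨r, f⟩, ⟨hr, hf⟩, rfl⟩
    have hf0 : f.1 = 0 := hf.2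
    simp only [Prod.fst_add, Prod.smul_fst, smul_eq_mul, hf0, mul_zero, add_zero, ← hh]
    exact ⟨mul_nonneg hr.1 hpos.le, mul_le_of_le_one_left hpos.le hr.2⟩
  have e1 := int_fst_interval hCc hpos.le hb (g := fun _ => 1) continuous_const
  have hvol : ∫ x in C, (1 : ℝ) = (volume C).toReal := by
    simp [Measure.real]
  have hsl : ∀ t ∈ Icc (0 : ℝ) h, 1 * ps C t ≤ lam m 1 h t * ps K 0 := by
    intro t ht
    have hq : 0 ≤ 1 - t / h := by
      rw [sub_nonneg, div_le_one hpos]; exact ht.2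
    have hsub : sl C t ⊆ (fun y => y + (t / h) • o.2) '' ((1 - t / h) • sl K 0) := by
      rintro y ⟨⟨r, f⟩, ⟨hr, hf⟩, hy⟩
      have hf0 : f.1 = 0 := hf.2
      have h1 : r * h = t := by
        have := congrArg Prod.fst hy
        simpa [hf0] using this
      have h2 : r = t / h := by rw [← h1]; field_simp
      have h3 : r • o.2 + (1 - r) • f.2 = y := by
        have := congrArg Prod.snd hy
        simpa using this
      refine ⟨(1 - t / h) • f.2, ⟨f.2, ?_, rfl⟩, ?_⟩
      · have : ((0 : ℝ), f.2) = f := by rw [← hf0]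
        show ((0 : ℝ), f.2) ∈ K
        rw [this]; exact hf.1
      · simp only [← h3, h2]
        rw [add_comm]
    have hle : ps C t ≤ (1 - t / h) ^ m * ps K 0 := by
      unfold ps
      rw [← smul_toReal hq]
      refine ENNReal.toReal_mono ((isCompact_sl hK 0).smul _).measure_lt_top.ne ?_
      refine (measure_mono hsub).trans ?_
      rw [image_add_right, measure_preimage_add_right]
    rw [one_mul]
    refine hle.trans (le_of_eq ?_)
    simp [lam, max_eq_left hq]
  have hint := integral_lam (m := m) (a := 1) (N := h) (L := h) hm hpos le_rfl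
  calc (volume C).toReal = ∫ t in (0 : ℝ)..h, 1 * ps C t := by rw [← hvol, e1.2]
    _ ≤ ∫ t in (0 : ℝ)..h, lam m 1 h t * ps K 0 := by
        apply intervalIntegral.integral_mono_on hpos.le e1.1 _ hsl
        exact ((continuous_lam m 1 h).mul continuous_const).intervalIntegrable _ _
    _ = h * ps K 0 / (m + 1) := by
        rw [intervalIntegral.integral_mul_const, hint]
        ring

/-- The main inequality, in a product space: cone, first moment, volume. -/
theorem cone_ineq (hm : m ≠ 0) {K : Set (ℝ × (Fin m → ℝ))} (hK : IsCompact K)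
    (hc : Convex ℝ K) (h0 : ∀ x ∈ K, 0 ≤ x.1) {o : ℝ × (Fin m → ℝ)} (hpos : 0 < o.1) :
    ((m : ℝ) + 2) * (volume (coneOver o (K ∩ {x | x.1 = 0}))).toReal * ∫ x in K, x.1 ≤
      o.1 * (volume K).toReal ^ 2 := by
  have h1 := cone_le hm hK hpos
  have h2 := slice_ineq hm hK hc h0
  have hint : 0 ≤ ∫ x in K, x.1 := setIntegral_nonneg hK.measurableSet h0
  have hm1 : (0 : ℝ) < m + 1 := by positivity
  have hm2 : (0 : ℝ) < m + 2 := by positivity
  calc ((m : ℝ) + 2) * (volume (coneOver o (K ∩ {x | x.1 = 0}))).toReal * ∫ x in K, x.1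
      ≤ ((m : ℝ) + 2) * (o.1 * ps K 0 / (m + 1)) * ∫ x in K, x.1 := by gcongr
    _ = (o.1 / (m + 1)) * (((m : ℝ) + 2) * ps K 0 * ∫ x in K, x.1) := by ring
    _ ≤ (o.1 / (m + 1)) * ((m + 1) * (volume K).toReal ^ 2) := by gcongr
    _ = o.1 * (volume K).toReal ^ 2 := by field_simp

end Pool.Agent.BM
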