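import Pool.Agent.Lib.MP_36b0a5_gt.Prod

/-!
# A projective form of the Brunn-Minkowski inequality

The one-dimensional inequality of Borell, Brascamp and Lieb with exponent `-1/2`, and the
resulting convexity of `r ↦ 1 / vol {x ∈ K | r * v x ≤ u x}`.
-/

set_option autoImplicit false

open MeasureTheory Set
open scoped Pointwise ENNReal

namespace Pool.Agent.BM

/-- One-dimensional inequality for superlevel sets, functions with supremum one. -/
theorem pl_min {t : ℝ} (ht0 : 0 < t) (ht1 : t < 1) {a b c : ℝ → ℝ} (ha : Measurable a)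
    (hb : Measurable b) (hc : Measurable c) (ha0 : ∀ x, 0 ≤ a x) (hb0 : ∀ x, 0 ≤ b x)
    (hc0 : ∀ x, 0 ≤ c x) (ha1 : ∀ x, a x ≤ 1) (hb1 : ∀ x, b x ≤ 1)
    (hsa : ∀ s < 1, ∃ x, s < a x) (hsb : ∀ s < 1, ∃ x, s < b x)
    (h : ∀ x y s, 0 < s → s < a x → s < b y → s ≤ c ((1 - t) * x + t * y)) :
    ENNReal.ofReal (1 - t) * (∫⁻ x, ENNReal.ofReal (a x)) +
      ENNReal.ofReal t * (∫⁻ x, ENNReal.ofReal (b x)) ≤ ∫⁻ x, ENNReal.ofReal (c x) := by
  rw [lintegral_eq_lintegral_meas_lt volume (Filter.Eventually.of_forall ha0) ha.aemeasurable,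
    lintegral_eq_lintegral_meas_lt volume (Filter.Eventually.of_forall hb0) hb.aemeasurable,
    lintegral_eq_lintegral_meas_le volume (Filter.Eventually.of_forall hc0) hc.aemeasurable]
  rw [← lintegral_const_mul' _ _ ENNReal.ofReal_ne_top,
    ← lintegral_const_mul' _ _ ENNReal.ofReal_ne_top]
  have hma : Measurable fun s : ℝ => volume {x | s < a x} := by
    apply Antitone.measurable
    intro s s' hs
    exact measure_mono fun x hx => lt_of_le_of_lt hs hx
  rw [← lintegral_add_left (hma.const_mul _)]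
  refine setLIntegral_mono' measurableSet_Ioi fun s hs => ?_
  rw [Set.mem_Ioi] at hs
  by_cases hs1 : s < 1
  · have hA : MeasurableSet {x | s < a x} := measurableSet_lt measurable_const ha
    have hB : MeasurableSet {x | s < b x} := measurableSet_lt measurable_const hb
    rw [volume_eq_iSup hA (hsa s hs1), volume_eq_iSup hB (hsb s hs1), ENNReal.mul_iSup,
      ENNReal.mul_iSup]
    have : Nonempty {K : Set ℝ // K ⊆ {x | s < a x} ∧ IsCompact K ∧ K.Nonempty} := by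
      obtain ⟨x, hx⟩ := hsa s hs1
      exact ⟨{x}, by simpa using hx, isCompact_singleton, Set.singleton_nonempty x⟩
    have : Nonempty {K : Set ℝ // K ⊆ {x | s < b x} ∧ IsCompact K ∧ K.Nonempty} := by
      obtain ⟨x, hx⟩ := hsb s hs1
      exact ⟨{x}, by simpa using hx, isCompact_singleton, Set.singleton_nonempty x⟩
    refine ENNReal.iSup_add_iSup_le fun K L => ?_
    refine (volume_comb_le K.2.2.1 L.2.2.1 K.2.2.2 L.2.2.2 ht0 ht1).trans (measure_mono ?_)
    rintro _ ⟨_, ⟨x, hx, rfl⟩, _, ⟨y, hy, rfl⟩, rfl⟩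
    exact h x y s hs (K.2.1 hx) (L.2.1 hy)
  · have h1 : {x | s < a x} = ∅ := by
      ext x
      simp only [Set.mem_ofPred_eq, Set.mem_empty_iff_false, iff_false, not_lt]
      exact (ha1 x).trans (not_lt.1 hs1)
    have h2 : {x | s < b x} = ∅ := by
      ext x
      simp only [Set.mem_ofPred_eq, Set.mem_empty_iff_false, iff_false, not_lt]
      exact (hb1 x).trans (not_lt.1 hs1)
    rw [h1, h2]
    simp

/-- a bounded nonnegative function with positive integral, normalised by its supremum -/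
theorem exists_sup {f : ℝ → ℝ} {M : ℝ} (hf0 : ∀ x, 0 ≤ f x) (hfM : ∀ x, f x ≤ M)
    (hf : (∫⁻ x, ENNReal.ofReal (f x)) ≠ 0) : ∃ α, 0 < α ∧ (∀ x, f x ≤ α) ∧
        ∀ s < 1, ∃ x, s < f x / α := by
  have hbdd : BddAbove (Set.range f) := ⟨M, by rintro _ ⟨x, rfl⟩; exact hfM x⟩
  have hle : ∀ x, f x ≤ ⨆ x, f x := fun x => le_ciSup hbdd x
  have hpos : 0 < ⨆ x, f x := by
    by_contra hcon
    apply hf
    have : ∀ x, f x = 0 := fun x => le_antisymm ((hle x).trans (not_lt.1 hcon)) (hf0 x)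
    simp [this]
  refine ⟨⨆ x, f x, hpos, hle, fun s hs => ?_⟩
  have h1 : s * (⨆ x, f x) < ⨆ x, f x := by
    calc s * (⨆ x, f x) < 1 * (⨆ x, f x) := mul_lt_mul_of_pos_right hs hpos
      _ = _ := one_mul _
  obtain ⟨x, hx⟩ := exists_lt_of_lt_ciSup h1
  exact ⟨x, (lt_div_iff₀ hpos).2 hx⟩

/-- the mean with exponent `-1/2` -/
noncomputable def mhalf (t x y : ℝ) : ℝ := (((1 - t) / √x + t / √y)⁻¹) ^ 2

theorem mhalf_mono {t : ℝ} (ht0 : 0 < t) (ht1 : t < 1) {x y x' y' : ℝ} (hx : 0 < x) (hy : 0 < y)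
    (hxx : x ≤ x') (hyy : y ≤ y') : mhalf t x y ≤ mhalf t x' y' := by
  have ht1' : 0 < 1 - t := by linarith
  have hsx : 0 < √x := Real.sqrt_pos.2 hx
  have hsy : 0 < √y := Real.sqrt_pos.2 hy
  have hsx' : 0 < √x' := Real.sqrt_pos.2 (hx.trans_le hxx)
  have hsy' : 0 < √y' := Real.sqrt_pos.2 (hy.trans_le hyy)
  unfold mhalf
  have h1 : (1 - t) / √x' + t / √y' ≤ (1 - t) / √x + t / √y := by
    gcongr
  have h2 : 0 < (1 - t) / √x' + t / √y' := by positivity
  have h3 : ((1 - t) / √x + t / √y)⁻¹ ≤ ((1 - t) / √x' + t / √y')⁻¹ := inv_anti₀ h2 h1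
  exact pow_le_pow_left₀ (by positivity) h3 2

theorem mhalf_smul {t : ℝ} (ht0 : 0 < t) (ht1 : t < 1) {s x y : ℝ} (hs : 0 < s) (hx : 0 < x)
    (hy : 0 < y) : mhalf t (s * x) (s * y) = s * mhalf t x y := by
  have ht1' : 0 < 1 - t := by linarith
  have hsx : 0 < √x := Real.sqrt_pos.2 hx
  have hsy : 0 < √y := Real.sqrt_pos.2 hy
  have hss : 0 < √s := Real.sqrt_pos.2 hs
  unfold mhalf
  rw [Real.sqrt_mul hs.le, Real.sqrt_mul hs.le]
  have h1 : (1 - t) / (√s * √x) + t / (√s * √y) = (√s)⁻¹ * ((1 - t) / √x + t / √y) := by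
    field_simp
  rw [h1, mul_inv, inv_inv, mul_pow, Real.sq_sqrt hs.le]

/-- One-dimensional inequality of Borell, Brascamp and Lieb, exponent `-1/2`. -/
theorem bbl {t : ℝ} (ht0 : 0 < t) (ht1 : t < 1) {a b c : ℝ → ℝ} (ha : Measurable a)
    (hb : Measurable b) (hc : Measurable c) (ha0 : ∀ x, 0 ≤ a x) (hb0 : ∀ x, 0 ≤ b x)
    (hc0 : ∀ x, 0 ≤ c x) {M : ℝ} (haM : ∀ x, a x ≤ M) (hbM : ∀ x, b x ≤ M)
    (hA : (∫⁻ x, ENNReal.ofReal (a x)) ≠ ⊤) (hB : (∫⁻ x, ENNReal.ofReal (b x)) ≠ ⊤)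
    (hC : (∫⁻ x, ENNReal.ofReal (c x)) ≠ ⊤)
    (h : ∀ x y, 0 < a x → 0 < b y → mhalf t (a x) (b y) ≤ c ((1 - t) * x + t * y)) :
    (∫⁻ x, ENNReal.ofReal (a x)).toReal * (∫⁻ x, ENNReal.ofReal (b x)).toReal ≤
      (∫⁻ x, ENNReal.ofReal (c x)).toReal * ((1 - t) * (∫⁻ x, ENNReal.ofReal (b x)).toReal +
        t * (∫⁻ x, ENNReal.ofReal (a x)).toReal) := by
  have ht1' : 0 < 1 - t := by linarith
  by_cases hA0 : (∫⁻ x, ENNReal.ofReal (a x)) = 0
  · rw [hA0]
    simp only [ENNReal.toReal_zero, zero_mul, mul_zero, add_zero]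
    positivity
  by_cases hB0 : (∫⁻ x, ENNReal.ofReal (b x)) = 0
  · rw [hB0]
    simp only [ENNReal.toReal_zero, mul_zero, zero_add]
    positivity
  obtain ⟨α, hα, haα, hsa⟩ := exists_sup ha0 haM hA0
  obtain ⟨β, hβ, hbβ, hsb⟩ := exists_sup hb0 hbM hB0
  have hκ : 0 < mhalf t α β := by
    unfold mhalf
    have h1 : 0 < √α := Real.sqrt_pos.2 hα
    have h2 : 0 < √β := Real.sqrt_pos.2 hβ
    positivity
  set κ := mhalf t α β with hκdef
  have key := pl_min ht0 ht1 (ha.div_const α) (hb.div_const β) (hc.div_const κ)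
    (fun x => div_nonneg (ha0 x) hα.le) (fun x => div_nonneg (hb0 x) hβ.le)
    (fun x => div_nonneg (hc0 x) hκ.le) (fun x => (div_le_one hα).2 (haα x))
    (fun x => (div_le_one hβ).2 (hbβ x)) hsa hsb (by
      intro x y s hs hsx hsy
      rw [lt_div_iff₀ hα] at hsx
      rw [lt_div_iff₀ hβ] at hsy
      rw [le_div_iff₀ hκ, hκdef, ← mhalf_smul ht0 ht1 hs hα hβ]
      have h1 : 0 < s * α := mul_pos hs hα
      have h2 : 0 < s * β := mul_pos hs hβ
      exact (mhalf_mono ht0 ht1 h1 h2 hsx.le hsy.le).trans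
        (h x y (h1.trans hsx) (h2.trans hsy)))
  rw [lintegral_ofReal_div ha hα, lintegral_ofReal_div hb hβ, lintegral_ofReal_div hc hκ] at key
  set A := ∫⁻ x, ENNReal.ofReal (a x)
  set B := ∫⁻ x, ENNReal.ofReal (b x)
  set C := ∫⁻ x, ENNReal.ofReal (c x)
  have hx : A = ENNReal.ofReal A.toReal := (ENNReal.ofReal_toReal hA).symm
  have hy : B = ENNReal.ofReal B.toReal := (ENNReal.ofReal_toReal hB).symm
  have hz : C = ENNReal.ofReal C.toReal := (ENNReal.ofReal_toReal hC).symm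
  have hx0 : 0 < A.toReal := ENNReal.toReal_pos hA0 hA
  have hy0 : 0 < B.toReal := ENNReal.toReal_pos hB0 hB
  have hz0 : 0 ≤ C.toReal := ENNReal.toReal_nonneg
  generalize A.toReal = x at hx hx0 ⊢
  generalize B.toReal = y at hy hy0 ⊢
  generalize C.toReal = z at hz hz0 ⊢
  rw [hx, hy, hz, ← ENNReal.ofReal_mul hx0.le, ← ENNReal.ofReal_mul hy0.le,
    ← ENNReal.ofReal_mul hz0,
    ← ENNReal.ofReal_mul ht1'.le, ← ENNReal.ofReal_mul ht0.le, ← ENNReal.ofReal_add
      (by positivity) (by positivity), ENNReal.ofReal_le_ofReal_iff (by positivity)] at key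
  -- Cauchy-Schwarz
  have hsα : 0 < √α := Real.sqrt_pos.2 hα
  have hsβ : 0 < √β := Real.sqrt_pos.2 hβ
  set p := √α with hp
  set q := √β with hq
  have hpα : α = p ^ 2 := (Real.sq_sqrt hα.le).symm
  have hqβ : β = q ^ 2 := (Real.sq_sqrt hβ.le).symm
  have hκ2 : κ⁻¹ = ((1 - t) / p + t / q) ^ 2 := by
    rw [hκdef, mhalf, ← inv_pow, inv_inv]
  have cs : ((1 - t) / p + t / q) ^ 2 ≤
      ((1 - t) * (x * α⁻¹) + t * (y * β⁻¹)) * ((1 - t) / x + t / y) := by
    have : ((1 - t) * (x * α⁻¹) + t * (y * β⁻¹)) * ((1 - t) / x + t / y) -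
        ((1 - t) / p + t / q) ^ 2 = (1 - t) * t * (x * q ^ 2 / (y * p ^ 2) + y * p ^ 2 / (x * q ^ 2)
          - 2 * p * q / (p * q) ) / q ^ 2 * (1 : ℝ) + ((1 - t) * t * (x * q ^ 2 / (y * p ^ 2) + y * p ^ 2 / (x * q ^ 2)
          - 2 * p * q / (p * q) ) / q ^ 2 * (-1 : ℝ)) + (1 - t) * t * (x / (y * p ^ 2) + y / (x * q ^ 2)
            - 2 / (p * q)) := by
      rw [hpα, hqβ]
      field_simp
      ring
    have h2 : 0 ≤ x / (y * p ^ 2) + y / (x * q ^ 2) - 2 / (p * q) := by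
      have : x / (y * p ^ 2) + y / (x * q ^ 2) - 2 / (p * q) =
          (x * q - y * p) ^ 2 / (x * y * p ^ 2 * q ^ 2) := by
        field_simp
        ring
      rw [this]
      positivity
    have h3 : 0 ≤ (1 - t) * t * (x / (y * p ^ 2) + y / (x * q ^ 2) - 2 / (p * q)) :=
      mul_nonneg (by positivity) h2
    linarith
  have h1 : ((1 - t) / p + t / q) ^ 2 ≤ z * ((1 - t) / p + t / q) ^ 2 * ((1 - t) / x + t / y) := by
    calc _ ≤ _ := cs
      _ ≤ (z * κ⁻¹) * ((1 - t) / x + t / y) := by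
          have : 0 ≤ (1 - t) / x + t / y := by positivity
          exact mul_le_mul_of_nonneg_right key this
      _ = _ := by rw [hκ2]
  have hpq : 0 < ((1 - t) / p + t / q) ^ 2 := by positivity
  have h2 : 1 ≤ z * ((1 - t) / x + t / y) := by
    have h3 : ((1 - t) / p + t / q) ^ 2 * 1 ≤
        ((1 - t) / p + t / q) ^ 2 * (z * ((1 - t) / x + t / y)) := by
      rw [mul_one]
      calc _ ≤ _ := h1
        _ = _ := by ring
    exact le_of_mul_le_mul_left h3 hpq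
  have h4 : z * ((1 - t) * y + t * x) = x * y * (z * ((1 - t) / x + t / y)) := by
    field_simp
  rw [h4]
  have : 0 ≤ x * y := by positivity
  nlinarith

end Pool.Agent.BM
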