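import Pool.Agent.Lib.MP_36b0a5_gt.Proj

/-!
# A projective form of the Brunn-Minkowski inequality, product spaces
-/

set_option autoImplicit false

open MeasureTheory Set
open scoped Pointwise ENNReal

namespace Pool.Agent.BM

variable {m : ℕ}

/-- slice volumes in the inverse coordinate -/
noncomputable def ips (A : Set (ℝ × (Fin m → ℝ))) (τ : ℝ) : ℝ :=
  if 0 < τ then ps A τ⁻¹ * (τ ^ 2)⁻¹ else 0

theorem ps_nonneg (A : Set (ℝ × (Fin m → ℝ))) (t : ℝ) : 0 ≤ ps A t := ENNReal.toReal_nonneg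

theorem ips_nonneg (A : Set (ℝ × (Fin m → ℝ))) (τ : ℝ) : 0 ≤ ips A τ := by
  unfold ips
  split_ifs
  · exact mul_nonneg (ps_nonneg _ _) (by positivity)
  · exact le_rfl

theorem measurable_ps {A : Set (ℝ × (Fin m → ℝ))} (hA : IsCompact A) : Measurable (ps A) := by
  unfold ps sl
  exact (measurable_measure_prodMk_left hA.measurableSet).ennreal_toReal

theorem measurable_ips {A : Set (ℝ × (Fin m → ℝ))} (hA : IsCompact A) : Measurable (ips A) := by
  unfold ips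
  refine Measurable.ite measurableSet_Ioi ?_ measurable_const
  exact ((measurable_ps hA).comp measurable_inv).mul (by fun_prop)

theorem ips_bounded {A : Set (ℝ × (Fin m → ℝ))} (hA : IsCompact A) :
    ∃ M, ∀ τ, ips A τ ≤ M := by
  obtain ⟨L, hL⟩ := (hA.image continuous_fst).bddAbove
  set C := (volume (Prod.snd '' A)).toReal with hC
  have hC0 : 0 ≤ C := ENNReal.toReal_nonneg
  have hcomp : IsCompact (Prod.snd '' A) := hA.image continuous_snd
  refine ⟨C * L ^ 2, fun τ => ?_⟩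
  unfold ips
  split_ifs with hτ
  · by_cases hne : (sl A τ⁻¹).Nonempty
    · obtain ⟨y, hy⟩ := hne
      have h1 : τ⁻¹ ≤ L := hL ⟨(τ⁻¹, y), hy, rfl⟩
      have h2 : (τ ^ 2)⁻¹ ≤ L ^ 2 := by
        rw [← inv_pow]
        exact pow_le_pow_left₀ (by positivity) h1 2
      have h3 : ps A τ⁻¹ ≤ C := by
        refine ENNReal.toReal_mono hcomp.measure_lt_top.ne (measure_mono ?_)
        intro z hz
        exact ⟨(τ⁻¹, z), hz, rfl⟩
      exact mul_le_mul h3 h2 (by positivity) hC0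
    · rw [not_nonempty_iff_eq_empty] at hne
      simp only [ps, hne, measure_empty, ENNReal.toReal_zero, zero_mul]
      positivity
  · positivity

theorem lintegral_ips {A : Set (ℝ × (Fin m → ℝ))} (hA : IsCompact A) (h0 : ∀ x ∈ A, 0 ≤ x.1) :
    ∫⁻ τ, ENNReal.ofReal (ips A τ) = volume A := by
  have h1 : volume A = ∫⁻ v, volume (sl A v) := by
    rw [Measure.volume_eq_prod, Measure.prod_apply hA.measurableSet]
    rfl
  have h2 : ∀ v, volume (sl A v) = ENNReal.ofReal (ps A v) := fun v =>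
    (ENNReal.ofReal_toReal (isCompact_sl hA v).measure_lt_top.ne).symm
  have h3 : ∫⁻ v, volume (sl A v) = ∫⁻ v in Ioi (0 : ℝ), ENNReal.ofReal (ps A v) := by
    rw [← lintegral_indicator measurableSet_Ioi]
    have hz : ∀ᵐ v : ℝ, v ≠ 0 := by
      rw [ae_iff]
      simp
    refine lintegral_congr_ae ?_
    filter_upwards [hz] with v hv
    by_cases hv0 : 0 < v
    · rw [indicator_of_mem (show v ∈ Ioi (0 : ℝ) from hv0), h2]
    · rw [indicator_of_notMem (show v ∉ Ioi (0 : ℝ) from hv0)]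
      have : sl A v = ∅ := by
        rw [eq_empty_iff_forall_notMem]
        intro y hy
        have : 0 ≤ v := h0 _ hy
        exact hv0 (lt_of_le_of_ne this (Ne.symm hv))
      rw [this, measure_empty]
  have himg : (fun x : ℝ => x⁻¹) '' Ioi 0 = Ioi 0 := by
    ext x
    constructor
    · rintro ⟨y, hy, rfl⟩
      exact mem_Ioi.2 (inv_pos.2 (mem_Ioi.1 hy))
    · intro hx
      exact ⟨x⁻¹, mem_Ioi.2 (inv_pos.2 (mem_Ioi.1 hx)), inv_inv x⟩
  have h4 := lintegral_image_eq_lintegral_abs_deriv_mul (s := Ioi (0 : ℝ))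
    (f := fun x : ℝ => x⁻¹) (f' := fun x => -(x ^ 2)⁻¹) measurableSet_Ioi
    (fun x hx => (hasDerivAt_inv (ne_of_gt hx)).hasDerivWithinAt)
    (inv_injective.injOn) (fun v => ENNReal.ofReal (ps A v))
  rw [himg] at h4
  rw [h1, h3, h4, ← lintegral_indicator measurableSet_Ioi]
  refine lintegral_congr fun τ => ?_
  by_cases hτ : 0 < τ
  · rw [indicator_of_mem (show τ ∈ Ioi (0 : ℝ) from hτ), ips, if_pos hτ, abs_neg,
      abs_of_pos (by positivity), ← ENNReal.ofReal_mul (by positivity), mul_comm]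
  · rw [indicator_of_notMem (show τ ∉ Ioi (0 : ℝ) from hτ), ips, if_neg hτ,
      ENNReal.ofReal_zero]

/-- Inverse square of a weighted mean of inverse square roots. -/
theorem inv_sq_le {w x y : ℝ} (hw0 : 0 ≤ w) (hw1 : w ≤ 1) (hx : 0 < x) (hy : 0 < y) :
    (((1 - w) / √x + w / √y)⁻¹) ^ 2 ≤ x ^ (1 - w) * y ^ w := by
  have hw1' : 0 ≤ 1 - w := by linarith
  have hsx : 0 < √x := Real.sqrt_pos.2 hx
  have hsy : 0 < √y := Real.sqrt_pos.2 hy
  have h1 := Real.geom_mean_le_arith_mean2_weighted hw1' hw0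
    (inv_nonneg.2 hsx.le) (inv_nonneg.2 hsy.le) (by ring)
  have h2 : 0 < (√x)⁻¹ ^ (1 - w) * (√y)⁻¹ ^ w :=
    mul_pos (Real.rpow_pos_of_pos (inv_pos.2 hsx) _) (Real.rpow_pos_of_pos (inv_pos.2 hsy) _)
  have h3 : (1 - w) / √x + w / √y = (1 - w) * (√x)⁻¹ + w * (√y)⁻¹ := by
    simp [div_eq_mul_inv]
  rw [h3]
  have h4 : ((1 - w) * (√x)⁻¹ + w * (√y)⁻¹)⁻¹ ≤ ((√x)⁻¹ ^ (1 - w) * (√y)⁻¹ ^ w)⁻¹ :=
    inv_anti₀ h2 h1
  have h5 : ((√x)⁻¹ ^ (1 - w) * (√y)⁻¹ ^ w)⁻¹ = √x ^ (1 - w) * √y ^ w := by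
    rw [Real.inv_rpow hsx.le, Real.inv_rpow hsy.le, ← mul_inv, inv_inv]
  rw [h5] at h4
  have h6 : (√x ^ (1 - w) * √y ^ w) ^ 2 = x ^ (1 - w) * y ^ w := by
    rw [mul_pow, ← Real.rpow_natCast, ← Real.rpow_natCast, ← Real.rpow_mul hsx.le,
      ← Real.rpow_mul hsy.le, Real.sqrt_eq_rpow, Real.sqrt_eq_rpow, ← Real.rpow_mul hx.le,
      ← Real.rpow_mul hy.le]
    congr 2
    · push_cast; ring
    · push_cast; ring
  rw [← h6]
  have h7 : 0 ≤ ((1 - w) * (√x)⁻¹ + w * (√y)⁻¹)⁻¹ := by positivity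
  exact pow_le_pow_left₀ h7 h4 2

/-- **Projective Brunn-Minkowski inequality.** -/
theorem proj_bm {t : ℝ} (ht0 : 0 < t) (ht1 : t < 1) {A B D : Set (ℝ × (Fin m → ℝ))}
    (hA : IsCompact A) (hB : IsCompact B) (hD : IsCompact D) (hA0 : ∀ x ∈ A, 0 ≤ x.1)
    (hB0 : ∀ x ∈ B, 0 ≤ x.1) (hD0 : ∀ x ∈ D, 0 ≤ x.1)
    (h : ∀ x ∈ A, ∀ y ∈ B, 0 < x.1 → 0 < y.1 →
      (1 - t * x.1 / ((1 - t) * y.1 + t * x.1)) • x + (t * x.1 / ((1 - t) * y.1 + t * x.1)) • y
        ∈ D) :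
    (volume A).toReal * (volume B).toReal ≤
      (volume D).toReal * ((1 - t) * (volume B).toReal + t * (volume A).toReal) := by
  have ht1' : 0 < 1 - t := by linarith
  obtain ⟨M1, hM1⟩ := ips_bounded hA
  obtain ⟨M2, hM2⟩ := ips_bounded hB
  have key := bbl ht0 ht1 (measurable_ips hA) (measurable_ips hB) (measurable_ips hD)
    (ips_nonneg A) (ips_nonneg B) (ips_nonneg D) (M := max M1 M2)
    (fun x => (hM1 x).trans (le_max_left _ _)) (fun x => (hM2 x).trans (le_max_right _ _))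
    (by rw [lintegral_ips hA hA0]; exact hA.measure_lt_top.ne)
    (by rw [lintegral_ips hB hB0]; exact hB.measure_lt_top.ne)
    (by rw [lintegral_ips hD hD0]; exact hD.measure_lt_top.ne)
    (by
      intro τ0 τ1 ha hb
      have hτ0 : 0 < τ0 := by
        by_contra hcon
        rw [ips, if_neg hcon] at ha
        exact lt_irrefl _ ha
      have hτ1 : 0 < τ1 := by
        by_contra hcon
        rw [ips, if_neg hcon] at hb
        exact lt_irrefl _ hb
      rw [ips, if_pos hτ0] at ha ⊢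
      rw [ips, if_pos hτ1] at hb ⊢
      set τ := (1 - t) * τ0 + t * τ1 with hτdef
      have hτ : 0 < τ := by positivity
      have hpA : 0 < ps A τ0⁻¹ := pos_of_mul_pos_left ha (by positivity)
      have hpB : 0 < ps B τ1⁻¹ := pos_of_mul_pos_left hb (by positivity)
      rw [ips, if_pos hτ]
      set w := t * τ1 / τ with hw
      have hw0 : 0 < w := by positivity
      have hw1 : w < 1 := by
        rw [hw, div_lt_one hτ, hτdef]
        have : 0 < (1 - t) * τ0 := by positivity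
        linarith
      have hw' : 1 - w = (1 - t) * τ0 / τ := by
        rw [hw, eq_div_iff hτ.ne', sub_mul, div_mul_cancel₀ _ hτ.ne', one_mul, hτdef]
        ring
      have hww : t * τ0⁻¹ / ((1 - t) * τ1⁻¹ + t * τ0⁻¹) = w := by
        rw [hw, hτdef]
        field_simp
      have hsub : (1 - w) • sl A τ0⁻¹ + w • sl B τ1⁻¹ ⊆ sl D τ⁻¹ := by
        rintro _ ⟨_, ⟨y1, hy1, rfl⟩, _, ⟨y2, hy2, rfl⟩, rfl⟩
        have h1 := h (τ0⁻¹, y1) hy1 (τ1⁻¹, y2) hy2 (inv_pos.2 hτ0) (inv_pos.2 hτ1)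
        simp only at h1
        rw [hww] at h1
        have h2 : (1 - w) * τ0⁻¹ + w * τ1⁻¹ = τ⁻¹ := by
          rw [hw', hw]
          field_simp
          ring
        have h3 : (1 - w) • ((τ0⁻¹, y1) : ℝ × (Fin m → ℝ)) + w • ((τ1⁻¹, y2) : ℝ × (Fin m → ℝ)) =
            (τ⁻¹, (1 - w) • y1 + w • y2) := by
          ext
          · simpa using h2
          · simp
        rw [h3] at h1
        exact h1
      have hbm := (bm_mul hw0 hw1 (isCompact_sl hA τ0⁻¹) (isCompact_sl hB τ1⁻¹)).trans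
        (measure_mono hsub)
      have hbm' : ps A τ0⁻¹ ^ (1 - w) * ps B τ1⁻¹ ^ w ≤ ps D τ⁻¹ := by
        have h4 := ENNReal.toReal_mono (isCompact_sl hD τ⁻¹).measure_lt_top.ne hbm
        rwa [ENNReal.toReal_mul, ← ENNReal.toReal_rpow, ← ENNReal.toReal_rpow] at h4
      have h5 := inv_sq_le hw0.le hw1.le hpA hpB
      have h6 : mhalf t (ps A τ0⁻¹ * (τ0 ^ 2)⁻¹) (ps B τ1⁻¹ * (τ1 ^ 2)⁻¹) =
          (((1 - w) / √(ps A τ0⁻¹) + w / √(ps B τ1⁻¹))⁻¹) ^ 2 * (τ ^ 2)⁻¹ := by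
        have hsA : 0 < √(ps A τ0⁻¹) := Real.sqrt_pos.2 hpA
        have hsB : 0 < √(ps B τ1⁻¹) := Real.sqrt_pos.2 hpB
        unfold mhalf
        rw [Real.sqrt_mul hpA.le, Real.sqrt_mul hpB.le, Real.sqrt_inv, Real.sqrt_inv,
          Real.sqrt_sq hτ0.le, Real.sqrt_sq hτ1.le, hw', hw]
        rw [← inv_pow, ← mul_pow, ← mul_inv]
        congr 2
        field_simp
      rw [h6]
      exact mul_le_mul_of_nonneg_right (h5.trans hbm') (by positivity))
  rw [lintegral_ips hA hA0, lintegral_ips hB hB0, lintegral_ips hD hD0] at key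
  exact key

end Pool.Agent.BM
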