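import Pool.Agent.Lib.MP_36b0a5_gt.Proj2
import Pool.Agent.Lib.MP_36b0a5_gt.Euclid

/-!
# The ratio of two slack functions on a convex body

`r ↦ 1 / vol {x ∈ K | r * (h - ⟪w, x⟫) ≤ c - ⟪a, x⟫}` is convex.
-/

set_option autoImplicit false

open MeasureTheory Set
open scoped Pointwise ENNReal RealInnerProductSpace

namespace Pool.Agent.BM

variable {n : ℕ}

/-- the slack of `x` with respect to the half space `⟪a, x⟫ ≤ c` -/
noncomputable def slk (a : EuclideanSpace ℝ (Fin n)) (c : ℝ) (x : EuclideanSpace ℝ (Fin n)) : ℝ :=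
  c - ⟪a, x⟫

theorem continuous_slk (a : EuclideanSpace ℝ (Fin n)) (c : ℝ) : Continuous (slk a c) := by
  unfold slk
  fun_prop

theorem slk_comb (a : EuclideanSpace ℝ (Fin n)) (c : ℝ) (r : ℝ)
    (x y : EuclideanSpace ℝ (Fin n)) :
    slk a c (r • x + (1 - r) • y) = r * slk a c x + (1 - r) * slk a c y := by
  unfold slk
  rw [inner_add_right, real_inner_smul_right, real_inner_smul_right]
  ring

/-- the part of `K` where `r * (h - ⟪w, x⟫) ≤ c - ⟪a, x⟫` -/
def part (K : Set (EuclideanSpace ℝ (Fin n))) (w : EuclideanSpace ℝ (Fin n)) (h : ℝ)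
    (a : EuclideanSpace ℝ (Fin n)) (c : ℝ) (r : ℝ) : Set (EuclideanSpace ℝ (Fin n)) :=
  {x ∈ K | r * slk w h x ≤ slk a c x}

theorem isCompact_part {K : Set (EuclideanSpace ℝ (Fin n))} (hK : IsCompact K)
    (w : EuclideanSpace ℝ (Fin n)) (h : ℝ) (a : EuclideanSpace ℝ (Fin n)) (c : ℝ) (r : ℝ) :
    IsCompact (part K w h a c r) :=
  hK.inter_right (isClosed_le (continuous_const.mul (continuous_slk w h)) (continuous_slk a c))

/-- volume of `part` -/
noncomputable def pvol (K : Set (EuclideanSpace ℝ (Fin n))) (w : EuclideanSpace ℝ (Fin n)) (h : ℝ)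
    (a : EuclideanSpace ℝ (Fin n)) (c : ℝ) (r : ℝ) : ℝ := (volume (part K w h a c r)).toReal

theorem pvol_nonneg (K : Set (EuclideanSpace ℝ (Fin n))) (w : EuclideanSpace ℝ (Fin n)) (h : ℝ)
    (a : EuclideanSpace ℝ (Fin n)) (c : ℝ) (r : ℝ) : 0 ≤ pvol K w h a c r :=
  ENNReal.toReal_nonneg

/-- **Projective Brunn-Minkowski inequality for ratios**: `1 / pvol` is convex in `r`. -/
theorem ratio_convex (hn : 1 ≤ n) {K : Set (EuclideanSpace ℝ (Fin n))} (hK : IsCompact K)
    (hc : Convex ℝ K) {w : EuclideanSpace ℝ (Fin n)} (hw : ‖w‖ = 1) {h : ℝ}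
    (hs : ∀ x ∈ K, 0 ≤ slk w h x) (a : EuclideanSpace ℝ (Fin n)) (c : ℝ) {t : ℝ} (ht0 : 0 < t)
    (ht1 : t < 1) (r0 r1 : ℝ) :
    pvol K w h a c r0 * pvol K w h a c r1 ≤ pvol K w h a c ((1 - t) * r0 + t * r1) *
      ((1 - t) * pvol K w h a c r1 + t * pvol K w h a c r0) := by
  obtain ⟨m, rfl⟩ : ∃ m, n = m + 1 := ⟨n - 1, by omega⟩
  obtain ⟨b, hb⟩ := Orthonormal.exists_orthonormalBasis_extension_of_card_eq (𝕜 := ℝ)
    (E := EuclideanSpace ℝ (Fin (m + 1))) (ι := Fin (m + 1)) (by simp)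
    (v := fun _ => w) (s := {0}) (by
      constructor
      · intro i; simpa using hw
      · intro i j hij
        exact absurd (Subsingleton.elim i j) hij)
  have hb0 : b 0 = w := hb 0 rfl
  have hfst : ∀ x, (Tm b h x).1 = slk w h x := fun x => by rw [Tm_fst, hb0, slk]
  have hpos : ∀ r, ∀ x ∈ Tm b h '' part K w h a c r, 0 ≤ x.1 := by
    rintro r _ ⟨x, hx, rfl⟩
    rw [hfst]
    exact hs x hx.1
  have ht1' : 0 < 1 - t := by linarith
  have key := proj_bm ht0 ht1
    ((isCompact_part hK w h a c r0).image (continuous_Tm b h))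
    ((isCompact_part hK w h a c r1).image (continuous_Tm b h))
    ((isCompact_part hK w h a c ((1 - t) * r0 + t * r1)).image (continuous_Tm b h))
    (hpos r0) (hpos r1) (hpos _) (by
      rintro _ ⟨x, hx, rfl⟩ _ ⟨y, hy, rfl⟩ hx0 hy0
      rw [hfst] at hx0 hy0
      rw [hfst, hfst]
      set sx := slk w h x with hsx
      set sy := slk w h y with hsy
      have hΔ : 0 < (1 - t) * sy + t * sx := by positivity
      set ω := t * sx / ((1 - t) * sy + t * sx) with hω
      have hω0 : 0 ≤ ω := by positivity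
      have hω' : 1 - ω = (1 - t) * sy / ((1 - t) * sy + t * sx) := by
        rw [hω]; field_simp; ring
      have hω1 : 0 ≤ 1 - ω := by rw [hω']; positivity
      have hz : (1 - ω) • Tm b h x + ω • Tm b h y = Tm b h ((1 - ω) • x + (1 - (1 - ω)) • y) := by
        rw [Tm_comb, sub_sub_cancel]
      rw [hz]
      refine mem_image_of_mem _ ⟨?_, ?_⟩
      · have := hc hx.1 hy.1 hω1 (by linarith : 0 ≤ 1 - (1 - ω)) (by ring)
        exact this
      · rw [slk_comb, slk_comb, sub_sub_cancel]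
        have h1 : r0 * sx ≤ slk a c x := hx.2
        have h2 : r1 * sy ≤ slk a c y := hy.2
        have h3 : (1 - ω) * sx = (1 - t) * ((1 - ω) * sx + ω * sy) := by
          rw [hω', hω]; field_simp; ring
        have h4 : ω * sy = t * ((1 - ω) * sx + ω * sy) := by
          rw [hω', hω]; field_simp; ring
        calc ((1 - t) * r0 + t * r1) * ((1 - ω) * sx + ω * sy)
            = r0 * ((1 - t) * ((1 - ω) * sx + ω * sy)) +
              r1 * (t * ((1 - ω) * sx + ω * sy)) := by ring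
          _ = (1 - ω) * (r0 * sx) + ω * (r1 * sy) := by rw [← h3, ← h4]; ring
          _ ≤ _ := add_le_add (mul_le_mul_of_nonneg_left h1 hω1)
              (mul_le_mul_of_nonneg_left h2 hω0))
  rw [volume_Tm b h (isCompact_part hK w h a c r0), volume_Tm b h (isCompact_part hK w h a c r1),
    volume_Tm b h (isCompact_part hK w h a c ((1 - t) * r0 + t * r1))] at key
  exact key

end Pool.Agent.BM
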