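import Pool.Agent.Lib.MP_36b0a5_gt.Ratio
import Pool.Agent.Lib.MP_36b0a5_gt.Base

/-!
# The ratio of two slack functions on a convex body, boundary term
-/

set_option autoImplicit false

open MeasureTheory Set
open scoped Pointwise ENNReal RealInnerProductSpace

namespace Pool.Agent.BM

variable {m : ℕ}

/-- inverse of the change of coordinates -/
noncomputable def Tinv (b : OrthonormalBasis (Fin (m + 1)) ℝ (EuclideanSpace ℝ (Fin (m + 1))))
    (h : ℝ) (x : ℝ × (Fin m → ℝ)) : EuclideanSpace ℝ (Fin (m + 1)) :=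
  (h - x.1) • b 0 + ∑ i, x.2 i • b i.succ

variable (b : OrthonormalBasis (Fin (m + 1)) ℝ (EuclideanSpace ℝ (Fin (m + 1)))) (h : ℝ)

theorem Tinv_Tm (x : EuclideanSpace ℝ (Fin (m + 1))) : Tinv b h (Tm b h x) = x := by
  unfold Tinv Tm
  simp only [sub_sub_cancel]
  conv_rhs => rw [← b.sum_repr x, Fin.sum_univ_succ]

theorem continuous_Tinv : Continuous (Tinv b h) := by
  unfold Tinv
  fun_prop

theorem Tinv_comb (r : ℝ) (x y : ℝ × (Fin m → ℝ)) :
    Tinv b h (r • x + (1 - r) • y) = r • Tinv b h x + (1 - r) • Tinv b h y := by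
  unfold Tinv
  simp only [Prod.fst_add, Prod.smul_fst, smul_eq_mul, Prod.snd_add, Prod.smul_snd, Pi.add_apply,
    Pi.smul_apply, smul_add, Finset.smul_sum, smul_smul, add_smul, Finset.sum_add_distrib]
  have : (h - (r * x.1 + (1 - r) * y.1)) = r * (h - x.1) + (1 - r) * (h - y.1) := by ring
  rw [this, add_smul]
  abel

/-- the integral of the slack `c - ⟪w, x⟫` over the face where the first coordinate vanishes -/
noncomputable def bint (K : Set (EuclideanSpace ℝ (Fin (m + 1))))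
    (w : EuclideanSpace ℝ (Fin (m + 1))) (c : ℝ) : ℝ :=
  ∫ y in sl (Tm b h '' K) 0, slk w c (Tinv b h (0, y))

theorem bint_nonneg {K : Set (EuclideanSpace ℝ (Fin (m + 1)))} (hK : IsCompact K)
    {w : EuclideanSpace ℝ (Fin (m + 1))} {c : ℝ} (hs : ∀ x ∈ K, 0 ≤ slk w c x) :
    0 ≤ bint b h K w c := by
  refine setIntegral_nonneg (isCompact_sl (hK.image (continuous_Tm b h)) 0).measurableSet ?_
  rintro y ⟨x, hx, hxy⟩
  rw [← hxy, Tinv_Tm]
  exact hs x hx

/-- Lower bound for the volume near the face. -/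
theorem near_face {K : Set (EuclideanSpace ℝ (Fin (m + 1)))} (hK : IsCompact K)
    (hc : Convex ℝ K) (h0 : (0 : EuclideanSpace ℝ (Fin (m + 1))) ∈ K) (hh : 0 < h)
    {w : EuclideanSpace ℝ (Fin (m + 1))} {c : ℝ} (hs : ∀ x ∈ K, 0 ≤ slk w c x) {β : ℝ}
    (hβ : ∀ x ∈ K, slk w c x ≤ β) {ε : ℝ} (hε : 0 < ε) (hεβ : ε * β < h) :
    ε * (1 - ε * β / h) ^ (m + 1) * bint b h K w c ≤
      (volume {x ∈ K | slk (b 0) h x < ε * slk w c x}).toReal := by
  have ho : (Tm b h 0).1 = h := by rw [Tm_fst]; simp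
  have hconv : Convex ℝ (Tm b h '' K) := by
    rintro _ ⟨x, hx, rfl⟩ _ ⟨y, hy, rfl⟩ r s hr hs' hrs
    have hs1 : s = 1 - r := by linarith
    subst hs1
    exact ⟨r • x + (1 - r) • y, hc hx hy hr hs' hrs, Tm_comb b h r x y⟩
  have key := base_le (K := Tm b h '' K) (hK.image (continuous_Tm b h)) hconv
    (o := Tm b h 0) (mem_image_of_mem _ h0) (by rw [ho]; exact hh)
    (b := fun x => slk w c (Tinv b h x)) ((continuous_slk w c).comp (continuous_Tinv b h))
    (fun r x y => by rw [Tinv_comb, slk_comb])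
    (by rintro _ ⟨x, hx, rfl⟩; rw [Tinv_Tm]; exact hs x hx) (β := β)
    (by rintro _ ⟨x, hx, rfl⟩; rw [Tinv_Tm]; exact hβ x hx) hε (by rw [ho]; exact hεβ)
  rw [ho] at key
  have himg : {x ∈ Tm b h '' K | x.1 < ε * slk w c (Tinv b h x)} =
      Tm b h '' {x ∈ K | slk (b 0) h x < ε * slk w c x} := by
    ext y
    constructor
    · rintro ⟨⟨x, hx, rfl⟩, hlt⟩
      rw [Tinv_Tm, Tm_fst] at hlt
      exact ⟨x, ⟨hx, hlt⟩, rfl⟩
    · rintro ⟨x, ⟨hx, hlt⟩, rfl⟩
      refine ⟨⟨x, hx, rfl⟩, ?_⟩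
      rw [Tinv_Tm, Tm_fst]
      exact hlt
  have hmeas : MeasurableSet {x ∈ K | slk (b 0) h x < ε * slk w c x} :=
    hK.measurableSet.inter (measurableSet_lt (continuous_slk _ _).measurable
      (continuous_const.mul (continuous_slk _ _)).measurable)
  have hvol : volume (Tm b h '' {x ∈ K | slk (b 0) h x < ε * slk w c x}) =
      volume {x ∈ K | slk (b 0) h x < ε * slk w c x} := by
    have hemb : MeasurableEmbedding (Tm b h) :=
      (continuous_Tm b h).measurableEmbedding (injective_Tm b h)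
    have h1 := (measurePreserving_Tm b h).measure_preimage
      (hemb.measurableSet_image.2 hmeas).nullMeasurableSet
    rw [preimage_image_eq _ (injective_Tm b h)] at h1
    exact h1.symm
  rw [himg, hvol] at key
  exact key

/-- **Key inequality**: `r * B * vol{s_0 ≥ r s_w} ≤ V * vol{s_0 < r s_w}`. -/
theorem odds {K : Set (EuclideanSpace ℝ (Fin (m + 1)))} (hK : IsCompact K)
    (hc : Convex ℝ K) (h0 : (0 : EuclideanSpace ℝ (Fin (m + 1))) ∈ K) (hh : 0 < h)
    (hs0 : ∀ x ∈ K, 0 ≤ slk (b 0) h x)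
    {w : EuclideanSpace ℝ (Fin (m + 1))} (hw : ‖w‖ = 1) {c : ℝ} (hs : ∀ x ∈ K, 0 ≤ slk w c x)
    {r : ℝ} (hr : 0 < r) :
    r * bint b h K w c * pvol K w c (b 0) h r ≤
      (volume K).toReal * ((volume K).toReal - pvol K w c (b 0) h r) := by
  set V := (volume K).toReal with hV
  set P := pvol K w c (b 0) h r with hP
  set B := bint b h K w c with hB
  have hB0 : 0 ≤ B := bint_nonneg b h hK hs
  obtain ⟨β', hβ'⟩ := (hK.image (continuous_slk w c)).bddAbove
  set β := max β' 1 with hβdef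
  have hβ1 : 1 ≤ β := le_max_right _ _
  have hβ : ∀ x ∈ K, slk w c x ≤ β := fun x hx => (hβ' ⟨x, hx, rfl⟩).trans (le_max_left _ _)
  have hKfin : volume K ≠ ⊤ := hK.measure_lt_top.ne
  have hpart : ∀ r', part K w c (b 0) h r' ⊆ K := fun r' x hx => hx.1
  have hPV : ∀ r', pvol K w c (b 0) h r' ≤ V := fun r' =>
    ENNReal.toReal_mono hKfin (measure_mono (hpart r'))
  have hP0 : 0 ≤ P := pvol_nonneg _ _ _ _ _ _
  have hp0 : pvol K w c (b 0) h 0 = V := by
    unfold pvol
    congr 2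
    ext x
    constructor
    · exact fun hx => hx.1
    · intro hx
      refine ⟨hx, ?_⟩
      rw [zero_mul]
      exact hs0 x hx
  have hcompl : ∀ ε, (volume {x ∈ K | slk (b 0) h x < ε * slk w c x}).toReal =
      V - pvol K w c (b 0) h ε := by
    intro ε
    have h1 : {x ∈ K | slk (b 0) h x < ε * slk w c x} = K \ part K w c (b 0) h ε := by
      ext x
      constructor
      · rintro ⟨hx, hlt⟩
        exact ⟨hx, fun hp => absurd hp.2 (not_le.2 hlt)⟩
      · rintro ⟨hx, hnp⟩
        exact ⟨hx, not_le.1 fun hle => hnp ⟨hx, hle⟩⟩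
    rw [h1, measure_sdiff (hpart ε) (isCompact_part hK w c (b 0) h ε).measurableSet.nullMeasurableSet
      ((measure_mono (hpart ε)).trans_lt hK.measure_lt_top).ne,
      ENNReal.toReal_sub_of_le (measure_mono (hpart ε)) hKfin]
    rfl
  have hmain : ∀ ε, 0 < ε → ε < r → ε * β < h →
      r * (1 - ε * β / h) ^ (m + 1) * B * P ≤ V * (V - P) := by
    intro ε hε hεr hεβ
    have h1 := near_face b h hK hc h0 hh hs hβ hε hεβ
    rw [hcompl ε] at h1
    have ht0 : 0 < ε / r := div_pos hε hr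
    have ht1 : ε / r < 1 := (div_lt_one hr).2 hεr
    have h2 := ratio_convex (by omega : 1 ≤ m + 1) hK hc hw hs (b 0) h ht0 ht1 0 r
    rw [mul_zero, zero_add, div_mul_cancel₀ _ hr.ne', hp0] at h2
    set Q := pvol K w c (b 0) h ε with hQ
    set W := ε * (1 - ε * β / h) ^ (m + 1) * B with hW
    have hθ : 0 < 1 - ε * β / h := by rw [sub_pos, div_lt_one hh]; exact hεβ
    have hW0 : 0 ≤ W := by positivity
    have hVP : P ≤ V := hPV r
    have hD : P ≤ (1 - ε / r) * P + ε / r * V := by nlinarith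
    have h3 : W * P ≤ ε / r * (V * (V - P)) := by
      have h4 : W * ((1 - ε / r) * P + ε / r * V) ≤
          (V - Q) * ((1 - ε / r) * P + ε / r * V) :=
        mul_le_mul_of_nonneg_right h1 (hP0.trans hD)
      have h5 : W * P ≤ W * ((1 - ε / r) * P + ε / r * V) := mul_le_mul_of_nonneg_left hD hW0
      nlinarith
    have h6 : r / ε * (W * P) ≤ r / ε * (ε / r * (V * (V - P))) :=
      mul_le_mul_of_nonneg_left h3 (by positivity)
    have h7 : r / ε * (ε / r * (V * (V - P))) = V * (V - P) := by field_simp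
    have h8 : r / ε * (W * P) = r * (1 - ε * β / h) ^ (m + 1) * B * P := by
      rw [hW]; field_simp
    linarith
  have hlim : Filter.Tendsto (fun ε : ℝ => r * (1 - ε * β / h) ^ (m + 1) * B * P)
      (nhdsWithin 0 (Ioi 0)) (nhds (r * (1 - 0 * β / h) ^ (m + 1) * B * P)) := by
    apply Filter.Tendsto.mono_left _ nhdsWithin_le_nhds
    apply Continuous.tendsto
    fun_prop
  simp only [zero_mul, zero_div, sub_zero, one_pow, mul_one] at hlim
  refine le_of_tendsto hlim ?_
  have hmin : 0 < min r (h / β) := lt_min hr (by positivity)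
  filter_upwards [Ioo_mem_nhdsGT hmin] with ε hε
  refine hmain ε hε.1 (hε.2.trans_le (min_le_left _ _)) ?_
  have := hε.2.trans_le (min_le_right r (h / β))
  rwa [lt_div_iff₀ (by linarith)] at this

end Pool.Agent.BM
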