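import Pool.Agent.Lib.MP_36b0a5_gt.LogRatio
import Pool.Agent.Lib.MP_36b0a5_gt.Polytope

/-!
# The sharp inequality for the cone volumes of a dependent set of facets
-/

set_option autoImplicit false

open MeasureTheory Set
open scoped Pointwise ENNReal RealInnerProductSpace

namespace Pool.Agent.BM

variable {m : ℕ}

/-- `n * vol(cone) * Λ ≤ h_i * ∑_{j ≠ i} l_j B_ij`. -/
theorem cone_le_sum (hm : m ≠ 0) {K : Set (EuclideanSpace ℝ (Fin (m + 1)))} (hK : IsCompact K)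
    (b : OrthonormalBasis (Fin (m + 1)) ℝ (EuclideanSpace ℝ (Fin (m + 1)))) {h : ℝ} (hh : 0 < h)
    {ι : Type*} {J : Finset ι} {w : ι → EuclideanSpace ℝ (Fin (m + 1))} {c : ι → ℝ} {l : ι → ℝ}
    {Λ : ℝ} (hΛ0 : 0 < Λ)
    (hΛ : ∀ x, slk (b 0) h x = 0 → ∑ j ∈ J, l j * slk (w j) (c j) x = Λ) :
    ((m : ℝ) + 1) * (volume (coneOver 0 {x ∈ K | ⟪b 0, x⟫ = h})).toReal * Λ ≤
      h * ∑ j ∈ J, l j * bint b h K (w j) (c j) := by
  set K' := Tm b h '' K with hK'
  have hKc : IsCompact K' := hK.image (continuous_Tm b h)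
  have ho : (Tm b h 0).1 = h := by rw [Tm_fst]; simp
  have hF : Tm b h '' {x ∈ K | ⟪b 0, x⟫ = h} = K' ∩ {x | x.1 = 0} := by
    ext y
    constructor
    · rintro ⟨x, ⟨hx, hxu⟩, rfl⟩
      refine ⟨⟨x, hx, rfl⟩, ?_⟩
      show (Tm b h x).1 = 0
      rw [Tm_fst, hxu, sub_self]
    · rintro ⟨⟨x, hx, rfl⟩, hx0⟩
      refine ⟨x, ⟨hx, ?_⟩, rfl⟩
      have : (Tm b h x).1 = 0 := hx0
      rw [Tm_fst] at this
      linarith
  have hFc : IsCompact {x ∈ K | ⟪b 0, x⟫ = h} :=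
    hK.inter_right (isClosed_eq (by fun_prop) continuous_const)
  have key := cone_le hm hKc (o := Tm b h 0) (by rw [ho]; exact hh)
  rw [ho, ← hF, ← coneOver_Tm, volume_Tm b h (isCompact_coneOver 0 hFc)] at key
  have hslc : IsCompact (sl K' 0) := isCompact_sl hKc 0
  have hint : ∀ j ∈ J, IntegrableOn
      (fun y : Fin m → ℝ => l j * slk (w j) (c j) (Tinv b h (0, y))) (sl K' 0) := by
    intro j _
    refine ContinuousOn.integrableOn_compact hslc (Continuous.continuousOn ?_)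
    exact continuous_const.mul ((continuous_slk _ _).comp ((continuous_Tinv b h).comp (by fun_prop)))
  have hsum : ∑ j ∈ J, l j * bint b h K (w j) (c j) = Λ * ps K' 0 := by
    have e1 : ∑ j ∈ J, l j * bint b h K (w j) (c j) =
        ∫ y in sl K' 0, ∑ j ∈ J, l j * slk (w j) (c j) (Tinv b h (0, y)) := by
      rw [integral_finsetSum _ hint]
      exact Finset.sum_congr rfl fun j _ => (integral_const_mul _ _).symm
    have e2 : ∫ y in sl K' 0, ∑ j ∈ J, l j * slk (w j) (c j) (Tinv b h (0, y)) =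
        ∫ y in sl K' 0, Λ := by
      refine setIntegral_congr_fun hslc.measurableSet ?_
      rintro y ⟨x, hx, hxy⟩
      show ∑ j ∈ J, l j * slk (w j) (c j) (Tinv b h (0, y)) = Λ
      rw [← hxy, Tinv_Tm]
      apply hΛ
      have : (Tm b h x).1 = 0 := by rw [hxy]
      rw [Tm_fst] at this
      exact this
    rw [e1, e2]
    simp [Measure.real, ps, mul_comm]
  rw [hsum]
  have hm1 : (0 : ℝ) < m + 1 := by positivity
  rw [le_div_iff₀ hm1] at key
  nlinarith

/-- **Sharp inequality, abstract form.** -/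
theorem sharp_cone {n : ℕ} (hn : 2 ≤ n) {K : Set (EuclideanSpace ℝ (Fin n))}
    (hK : IsCompact K) (hc : Convex ℝ K) (h0 : (0 : EuclideanSpace ℝ (Fin n)) ∈ K)
    {ι : Type*} [DecidableEq ι] {I : Finset ι} (hI : I.Nonempty)
    {u : ι → EuclideanSpace ℝ (Fin n)} (hu : ∀ i ∈ I, ‖u i‖ = 1) {h : ι → ℝ}
    (hh : ∀ i ∈ I, 0 < h i) (hs : ∀ i ∈ I, ∀ x ∈ K, ⟪u i, x⟫ ≤ h i) {l : ι → ℝ}
    (hl : ∀ i ∈ I, 0 < l i) (hsum : ∑ i ∈ I, l i • u i = 0) (hvol : 0 < (volume K).toReal) :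
    ∃ y : ι → ℝ, (∀ i ∈ I, 0 < y i ∧ y i < 1) ∧ ∑ i ∈ I, y i = 1 ∧
      (n : ℝ) * ∑ i ∈ I, (volume (coneOver 0 {x ∈ K | ⟪u i, x⟫ = h i})).toReal *
        (y i / (1 - y i)) ≤ (volume K).toReal := by
  obtain ⟨m, rfl⟩ : ∃ m, n = m + 1 := ⟨n - 1, by omega⟩
  have hm : m ≠ 0 := by omega
  set V := (volume K).toReal with hV
  set e : ι → ℝ := fun i => Real.exp (V⁻¹ * ∫ x in K, Real.log (slk (u i) (h i) x)) with he
  have he0 : ∀ i, 0 < e i := fun i => Real.exp_pos _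
  set Y : ι → ℝ := fun i => l i * e i with hY
  have hY0 : ∀ i ∈ I, 0 < Y i := fun i hi => mul_pos (hl i hi) (he0 i)
  set S := ∑ i ∈ I, Y i with hS
  have hS0 : 0 < S := Finset.sum_pos hY0 hI
  set Λ := ∑ i ∈ I, l i * h i with hΛ
  have hΛ0 : 0 < Λ := Finset.sum_pos (fun i hi => mul_pos (hl i hi) (hh i hi)) hI
  have hsl : ∀ i ∈ I, ∀ x ∈ K, 0 ≤ slk (u i) (h i) x := by
    intro i hi x hx
    unfold slk
    linarith [hs i hi x hx]
  have hall : ∀ x, ∑ i ∈ I, l i * slk (u i) (h i) x = Λ := by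
    intro x
    have h1 : ∑ i ∈ I, l i * ⟪u i, x⟫ = 0 := by
      have h2 : ∑ i ∈ I, l i * ⟪u i, x⟫ = ⟪∑ i ∈ I, l i • u i, x⟫ := by
        rw [sum_inner]
        exact Finset.sum_congr rfl fun i _ => (real_inner_smul_left _ _ _).symm
      rw [h2, hsum, inner_zero_left]
    simp only [slk, mul_sub, Finset.sum_sub_distrib, h1, sub_zero]
    exact hΛ.symm
  -- at least two elements
  have hlt : ∀ i ∈ I, Y i < S := by
    intro i hi
    have h1 : (I.erase i).Nonempty := by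
      by_contra hcon
      rw [Finset.not_nonempty_iff_eq_empty] at hcon
      have h2 : l i • u i = 0 := by
        rw [← Finset.add_sum_erase I (fun i => l i • u i) hi, hcon, Finset.sum_empty,
          add_zero] at hsum
        exact hsum
      have h3 : ‖l i • u i‖ = 0 := by rw [h2, norm_zero]
      rw [norm_smul, hu i hi, mul_one, Real.norm_eq_abs, abs_eq_zero] at h3
      exact (hl i hi).ne' h3
    have h4 : 0 < ∑ j ∈ I.erase i, Y j :=
      Finset.sum_pos (fun j hj => hY0 j (Finset.mem_of_mem_erase hj)) h1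
    have h5 := Finset.add_sum_erase I Y hi
    linarith
  refine ⟨fun i => Y i / S, fun i hi => ⟨div_pos (hY0 i hi) hS0, (div_lt_one hS0).2 (hlt i hi)⟩,
    ?_, ?_⟩
  · rw [← Finset.sum_div, div_self hS0.ne']
  have hmain : ∀ i ∈ I, ((m : ℝ) + 1) *
      (volume (coneOver 0 {x ∈ K | ⟪u i, x⟫ = h i})).toReal * Λ * (Y i / (S - Y i)) ≤
        V * (l i * h i) := by
    intro i hi
    obtain ⟨b, hb⟩ := exists_basis (hu i hi)
    have h1 := cone_le_sum hm hK b (hh i hi) (J := I.erase i) (w := u) (c := h) (l := l) hΛ0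
      (by
        intro x hx
        have h2 := Finset.add_sum_erase I (fun j => l j * slk (u j) (h j) x) hi
        rw [hall x] at h2
        rw [hb] at hx
        rw [← h2, hx, mul_zero, zero_add])
    rw [hb] at h1
    have h2 : ∀ j ∈ I.erase i, l j * bint b (h i) K (u j) (h j) ≤ V * Y j / e i := by
      intro j hj
      have hjI := Finset.mem_of_mem_erase hj
      have h3 := bint_le hK hc h0 b (hh i hi) (by rw [hb]; exact hsl i hi) (hu j hjI)
        (hsl j hjI) hvol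
      rw [hb] at h3
      have h4 := mul_le_mul_of_nonneg_left h3 (hl j hjI).le
      refine h4.trans (le_of_eq ?_)
      simp only [hY, he, hV]
      ring
    have h5 : ∑ j ∈ I.erase i, l j * bint b (h i) K (u j) (h j) ≤ V * (S - Y i) / e i := by
      refine (Finset.sum_le_sum h2).trans (le_of_eq ?_)
      rw [← Finset.sum_div, ← Finset.mul_sum]
      have h6 := Finset.add_sum_erase I Y hi
      have h7 : ∑ j ∈ I.erase i, Y j = S - Y i := by linarith
      rw [h7]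
    have h8 : 0 < S - Y i := sub_pos.2 (hlt i hi)
    have h9 : 0 ≤ Y i / (S - Y i) := div_nonneg (hY0 i hi).le h8.le
    have h10 := h1.trans (mul_le_mul_of_nonneg_left h5 (hh i hi).le)
    refine (mul_le_mul_of_nonneg_right h10 h9).trans (le_of_eq ?_)
    have h11 : e i ≠ 0 := (he0 i).ne'
    simp only [hY] at h8 ⊢
    field_simp
  have hsum2 : ∑ i ∈ I, ((m : ℝ) + 1) *
      (volume (coneOver 0 {x ∈ K | ⟪u i, x⟫ = h i})).toReal * Λ * (Y i / (S - Y i)) ≤ V * Λ := by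
    refine (Finset.sum_le_sum hmain).trans (le_of_eq ?_)
    rw [← Finset.mul_sum]
  have hrw : ∑ i ∈ I, ((m : ℝ) + 1) *
      (volume (coneOver 0 {x ∈ K | ⟪u i, x⟫ = h i})).toReal * Λ * (Y i / (S - Y i)) =
      (((m + 1 : ℕ) : ℝ) * ∑ i ∈ I, (volume (coneOver 0 {x ∈ K | ⟪u i, x⟫ = h i})).toReal *
        (Y i / S / (1 - Y i / S))) * Λ := by
    rw [Finset.mul_sum (s := I) (a := ((m + 1 : ℕ) : ℝ)), Finset.sum_mul (a := Λ)]
    refine Finset.sum_congr rfl fun i hi => ?_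
    have h8 : S - Y i ≠ 0 := (sub_pos.2 (hlt i hi)).ne'
    have h9 : Y i / S / (1 - Y i / S) = Y i / (S - Y i) := by
      have h10 : 1 - Y i / S = (S - Y i) / S := by field_simp
      rw [h10, div_div_div_cancel_right₀ hS0.ne']
    rw [h9]
    push_cast
    ring
  rw [hrw] at hsum2
  exact le_of_mul_le_mul_right hsum2 hΛ0

/-- Nesbitt type inequality. -/
theorem nesbitt {ι : Type*} {I : Finset ι} {y : ι → ℝ} (hy : ∀ i ∈ I, 0 < y i ∧ y i < 1)
    (hy1 : ∑ i ∈ I, y i = 1) (hk : 2 ≤ I.card) :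
    (I.card : ℝ) ≤ ((I.card : ℝ) - 1) * ∑ i ∈ I, y i / (1 - y i) := by
  have hk2 : (2 : ℝ) ≤ (I.card : ℝ) := by exact_mod_cast hk
  set k : ℝ := (I.card : ℝ) with hkdef
  have hk1 : 0 < k - 1 := by linarith
  have h1 : ∀ i ∈ I, 2 * (k / (k - 1)) - (1 - y i) * (k / (k - 1)) ^ 2 - 1 ≤ y i / (1 - y i) := by
    intro i hi
    have hz : 0 < 1 - y i := by linarith [(hy i hi).2]
    have e1 : y i / (1 - y i) = 1 / (1 - y i) - 1 := by field_simp; ring
    rw [e1]
    have h2 : 2 * (k / (k - 1)) - (1 - y i) * (k / (k - 1)) ^ 2 ≤ 1 / (1 - y i) := by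
      rw [le_div_iff₀ hz]
      nlinarith [sq_nonneg ((1 - y i) * (k / (k - 1)) - 1)]
    linarith
  have h2 := Finset.sum_le_sum h1
  have h3 : ∑ i ∈ I, (2 * (k / (k - 1)) - (1 - y i) * (k / (k - 1)) ^ 2 - 1) =
      k * (2 * (k / (k - 1))) - (k - 1) * (k / (k - 1)) ^ 2 - k := by
    rw [Finset.sum_sub_distrib, Finset.sum_sub_distrib, ← Finset.sum_mul (f := fun i => 1 - y i),
      Finset.sum_sub_distrib (f := fun _ => (1 : ℝ)), hy1]
    simp [hkdef]
  rw [h3] at h2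
  have h4 : k * (2 * (k / (k - 1))) - (k - 1) * (k / (k - 1)) ^ 2 - k = k / (k - 1) := by
    field_simp
    ring
  rw [h4, div_le_iff₀ hk1] at h2
  linarith

end Pool.Agent.BM

namespace Pool.Agent.LogMinkowski

open Pool.Agent.BM

variable {n : ℕ}

/-- **Sharp necessary condition.** -/
theorem sharp (hn : 2 ≤ n) {N : ℕ} {u : Fin N → E n} {V : Fin N → ℝ} {P : Set (E n)}
    (h : Realises u V P) {I : Finset (Fin N)} (hI : I.Nonempty) {l : Fin N → ℝ}
    (hl : ∀ i ∈ I, 0 < l i) (hsum : ∑ i ∈ I, l i • u i = 0) :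
    ∃ y : Fin N → ℝ, (∀ i ∈ I, 0 < y i ∧ y i < 1) ∧ ∑ i ∈ I, y i = 1 ∧
      (n : ℝ) * ∑ i ∈ I, V i * (y i / (1 - y i)) ≤ ∑ j, V j := by
  have h0 := h.polytope.2
  have hne : P.Nonempty := ⟨0, interior_subset h0⟩
  have hc := h.polytope.isCompact
  have hu : ∀ i, ‖u i‖ = 1 := fun i => ((h.facets (u i)).2 ⟨i, rfl⟩).1
  choose x hx using fun i => face_nonempty hc hne (u i)
  have hh : ∀ i, 0 < ⟪u i, x i⟫ := by
    intro i
    obtain ⟨ε, hε, hball⟩ := Metric.isOpen_iff.1 isOpen_interior 0 h0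
    have h1 : (ε / 2) • u i ∈ P := by
      apply interior_subset
      apply hball
      rw [Metric.mem_ball, dist_zero_right, norm_smul, hu i, mul_one, Real.norm_eq_abs,
        abs_of_pos (by positivity)]
      linarith
    have h2 := (hx i).2 _ h1
    rw [real_inner_smul_right, real_inner_self_eq_norm_sq, hu i] at h2
    have : 0 < ε / 2 * 1 ^ 2 := by positivity
    linarith
  have hvol : 0 < (volume P).toReal := by
    refine ENNReal.toReal_pos ?_ hc.measure_lt_top.ne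
    have h1 := isOpen_interior.measure_pos (volume : Measure (E n)) ⟨0, h0⟩
    exact (h1.trans_le (measure_mono interior_subset)).ne'
  obtain ⟨y, hy, hy1, hle⟩ := sharp_cone hn hc h.polytope.convex (interior_subset h0) hI (u := u)
    (fun i _ => hu i) (h := fun i => ⟪u i, x i⟫) (fun i _ => hh i)
    (fun i _ y hy => (hx i).2 y hy) hl hsum hvol
  refine ⟨y, hy, hy1, ?_⟩
  have e1 : ∀ i ∈ I, (volume (coneOver 0 {z ∈ P | ⟪u i, z⟫ = ⟪u i, x i⟫})).toReal *
      (y i / (1 - y i)) = V i * (y i / (1 - y i)) := by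
    intro i _
    rw [← face_eq (hx i), ← coneVolume_eq h.polytope, h.volumes i]
  rw [Finset.sum_congr rfl e1] at hle
  exact hle.trans (volume_le_sum hn h)

theorem two_le_card {n N : ℕ} {u : Fin N → E n} (hu : ∀ i, ‖u i‖ = 1)
    {I : Finset (Fin N)} (hI : I.Nonempty) {l : Fin N → ℝ}
    (hl : ∀ i ∈ I, 0 < l i) (hsum : ∑ i ∈ I, l i • u i = 0) : 2 ≤ I.card := by
  by_contra hcon
  have h1 : I.card = 1 := by
    have := hI.card_pos
    omega
  obtain ⟨i, rfl⟩ := Finset.card_eq_one.1 h1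
  rw [Finset.sum_singleton] at hsum
  have h3 : ‖l i • u i‖ = 0 := by rw [hsum, norm_zero]
  rw [norm_smul, hu i, mul_one, Real.norm_eq_abs, abs_eq_zero] at h3
  exact (hl i (Finset.mem_singleton_self i)).ne' h3

/-- **Sharp bound for the smallest cone volume over a dependent set of facets.** -/
theorem sharp_min (hn : 2 ≤ n) {N : ℕ} {u : Fin N → E n} {V : Fin N → ℝ} {P : Set (E n)}
    (h : Realises u V P) {I : Finset (Fin N)} (hI : I.Nonempty) {l : Fin N → ℝ}
    (hl : ∀ i ∈ I, 0 < l i) (hsum : ∑ i ∈ I, l i • u i = 0) :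
    ∃ i ∈ I, (n : ℝ) * I.card * V i ≤ ((I.card : ℝ) - 1) * ∑ j, V j := by
  obtain ⟨y, hy, hy1, hle⟩ := sharp hn h hI hl hsum
  have hu : ∀ i, ‖u i‖ = 1 := fun i => ((h.facets (u i)).2 ⟨i, rfl⟩).1
  have hk := two_le_card hu hI hl hsum
  have hk2 : (2 : ℝ) ≤ (I.card : ℝ) := by exact_mod_cast hk
  have hnes := nesbitt hy hy1 hk
  by_contra hcon
  push Not at hcon
  have hr : ∀ i ∈ I, 0 < y i / (1 - y i) := fun i hi =>
    div_pos (hy i hi).1 (by linarith [(hy i hi).2])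
  have h1 : ∑ i ∈ I, ((I.card : ℝ) - 1) * (∑ j, V j) * (y i / (1 - y i)) <
      ∑ i ∈ I, (n : ℝ) * I.card * V i * (y i / (1 - y i)) :=
    Finset.sum_lt_sum_of_nonempty hI fun i hi =>
      mul_lt_mul_of_pos_right (hcon i hi) (hr i hi)
  rw [← Finset.mul_sum] at h1
  have h2 : ∑ i ∈ I, (n : ℝ) * I.card * V i * (y i / (1 - y i)) =
      I.card * (n * ∑ i ∈ I, V i * (y i / (1 - y i))) := by
    rw [Finset.mul_sum, Finset.mul_sum]
    exact Finset.sum_congr rfl fun i _ => by ring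
  rw [h2] at h1
  have hV0 : 0 ≤ ∑ j, V j := by
    refine Finset.sum_nonneg fun j _ => ?_
    rw [← h.volumes j]
    exact ENNReal.toReal_nonneg
  have h3 : (I.card : ℝ) * (n * ∑ i ∈ I, V i * (y i / (1 - y i))) ≤ I.card * ∑ j, V j :=
    mul_le_mul_of_nonneg_left hle (by positivity)
  have h4 : (I.card : ℝ) * ∑ j, V j ≤
      (((I.card : ℝ) - 1) * ∑ i ∈ I, y i / (1 - y i)) * ∑ j, V j :=
    mul_le_mul_of_nonneg_right hnes hV0
  have h5 : (((I.card : ℝ) - 1) * ∑ i ∈ I, y i / (1 - y i)) * ∑ j, V j =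
      ((I.card : ℝ) - 1) * (∑ j, V j) * ∑ i ∈ I, y i / (1 - y i) := by ring
  linarith

end Pool.Agent.LogMinkowski
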