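import Pool.Agent.Lib.MP_36b0a5_gt.BM

/-!
# The centroid of a convex body is close to its large facets

One-dimensional part.
-/

set_option autoImplicit false

open MeasureTheory Set
open scoped Pointwise ENNReal

namespace Pool.Agent.BM

/-- comparison function: `a ^ m * (1 - t / N) ^ m` up to `N`, then zero. -/
noncomputable def lam (m : ℕ) (a N t : ℝ) : ℝ := (a * max (1 - t / N) 0) ^ m

theorem continuous_lam (m : ℕ) (a N : ℝ) : Continuous (lam m a N) := by
  unfold lam
  fun_prop

theorem integral_lam {m : ℕ} {a N L : ℝ} (hm : m ≠ 0) (hN : 0 < N) (hL : N ≤ L) :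
    ∫ t in (0 : ℝ)..L, lam m a N t = a ^ m * N / (m + 1) := by
  have h1 : ∫ t in (0 : ℝ)..L, lam m a N t =
      (∫ t in (0 : ℝ)..N, lam m a N t) + ∫ t in N..L, lam m a N t :=
    (intervalIntegral.integral_add_adjacent_intervals
      ((continuous_lam m a N).intervalIntegrable _ _)
      ((continuous_lam m a N).intervalIntegrable _ _)).symm
  have h2 : ∫ t in N..L, lam m a N t = 0 := by
    rw [intervalIntegral.integral_congr (g := fun _ => (0 : ℝ))]
    · simp
    · intro t ht
      rw [uIcc_of_le hL] at ht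
      have : 1 - t / N ≤ 0 := by
        rw [sub_nonpos, one_le_div hN]
        exact ht.1
      simp [lam, max_eq_right this, hm]
  have h3 : ∫ t in (0 : ℝ)..N, lam m a N t = ∫ t in (0 : ℝ)..N, a ^ m * (1 - t / N) ^ m := by
    apply intervalIntegral.integral_congr
    intro t ht
    rw [uIcc_of_le hN.le] at ht
    have : 0 ≤ 1 - t / N := by
      rw [sub_nonneg, div_le_one hN]
      exact ht.2
    simp [lam, max_eq_left this, mul_pow]
  have h4 : ∫ t in (0 : ℝ)..N, a ^ m * (1 - t / N) ^ m = a ^ m * N / (m + 1) := by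
    have hd : ∀ t ∈ uIcc (0 : ℝ) N, HasDerivAt
        (fun t => -(a ^ m * N / (m + 1)) * (1 - t / N) ^ (m + 1))
        (a ^ m * (1 - t / N) ^ m) t := by
      intro t _
      have h5 : HasDerivAt (fun t : ℝ => 1 - t / N) (-(1 / N)) t := by
        simpa using ((hasDerivAt_id t).div_const N).const_sub 1
      refine ((h5.pow (m + 1)).const_mul (-(a ^ m * N / (m + 1)))).congr_deriv ?_
      have e1 : m + 1 - 1 = m := rfl
      rw [e1]
      have : (m : ℝ) + 1 ≠ 0 := by positivity
      push_cast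
      field_simp
    rw [intervalIntegral.integral_eq_sub_of_hasDerivAt hd
      (Continuous.intervalIntegrable (by fun_prop) _ _)]
    simp [hN.ne']
  rw [h1, h2, h3, h4, add_zero]

theorem integral_mul_lam {m : ℕ} {a N L : ℝ} (hm : m ≠ 0) (hN : 0 < N) (hL : N ≤ L) :
    ∫ t in (0 : ℝ)..L, t * lam m a N t = a ^ m * N ^ 2 / ((m + 1) * (m + 2)) := by
  have hc : Continuous fun t => t * lam m a N t := continuous_id.mul (continuous_lam m a N)
  have h1 : ∫ t in (0 : ℝ)..L, t * lam m a N t =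
      (∫ t in (0 : ℝ)..N, t * lam m a N t) + ∫ t in N..L, t * lam m a N t :=
    (intervalIntegral.integral_add_adjacent_intervals
      (hc.intervalIntegrable _ _) (hc.intervalIntegrable _ _)).symm
  have h2 : ∫ t in N..L, t * lam m a N t = 0 := by
    rw [intervalIntegral.integral_congr (g := fun _ => (0 : ℝ))]
    · simp
    · intro t ht
      rw [uIcc_of_le hL] at ht
      have : 1 - t / N ≤ 0 := by
        rw [sub_nonpos, one_le_div hN]
        exact ht.1
      simp [lam, max_eq_right this, hm]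
  have h3 : ∫ t in (0 : ℝ)..N, t * lam m a N t =
      ∫ t in (0 : ℝ)..N, t * (a ^ m * (1 - t / N) ^ m) := by
    apply intervalIntegral.integral_congr
    intro t ht
    rw [uIcc_of_le hN.le] at ht
    have : 0 ≤ 1 - t / N := by
      rw [sub_nonneg, div_le_one hN]
      exact ht.2
    simp [lam, max_eq_left this, mul_pow]
  have h4 : ∫ t in (0 : ℝ)..N, t * (a ^ m * (1 - t / N) ^ m) =
      a ^ m * N ^ 2 / ((m + 1) * (m + 2)) := by
    have hd : ∀ t ∈ uIcc (0 : ℝ) N, HasDerivAt
        (fun t => a ^ m * N ^ 2 * ((1 - t / N) ^ (m + 2) / (m + 2) - (1 - t / N) ^ (m + 1) / (m + 1)))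
        (t * (a ^ m * (1 - t / N) ^ m)) t := by
      intro t _
      have h5 : HasDerivAt (fun t : ℝ => 1 - t / N) (-(1 / N)) t := by
        simpa using ((hasDerivAt_id t).div_const N).const_sub 1
      refine ((((h5.pow (m + 2)).div_const ((m : ℝ) + 2)).sub
        ((h5.pow (m + 1)).div_const ((m : ℝ) + 1))).const_mul (a ^ m * N ^ 2)).congr_deriv ?_
      have e1 : m + 2 - 1 = m + 1 := rfl
      have e2 : m + 1 - 1 = m := rfl
      rw [e1, e2]
      have : (m : ℝ) + 1 ≠ 0 := by positivity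
      have : (m : ℝ) + 2 ≠ 0 := by positivity
      push_cast
      obtain ⟨q, hq⟩ : ∃ q, q = 1 - t / N := ⟨_, rfl⟩
      have ht : t = N * (1 - q) := by rw [hq]; field_simp; ring
      rw [← hq, ht]
      field_simp
      ring
    rw [intervalIntegral.integral_eq_sub_of_hasDerivAt hd
      (Continuous.intervalIntegrable (by fun_prop) _ _)]
    have : (m : ℝ) + 1 ≠ 0 := by positivity
    have : (m : ℝ) + 2 ≠ 0 := by positivity
    simp [hN.ne']
    field_simp
    ring
  rw [h1, h2, h3, h4, add_zero]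

/-- Pointwise comparison with the truncated cone profile: one crossing. -/
theorem crossing_point {m : ℕ} {φ : ℝ → ℝ} {D : Set ℝ} {L N : ℝ}
    (h0 : ∀ t, 0 ≤ φ t) (hD : D ⊆ Icc 0 L) (h0D : (0 : ℝ) ∈ D) (hoff : ∀ t, t ∉ D → φ t = 0)
    (hch : ∀ τ ∈ D, ∀ s : ℝ, 0 < s → s < 1 → (1 - s) * φ 0 + s * φ τ ≤ φ (s * τ)) (hN : 0 < N) :
    ∃ t0 : ℝ, ∀ t, 0 < t → 0 ≤ (t - t0) * (lam m (φ 0) N t - φ t ^ m) := by
  set a := φ 0 with ha
  have ha0 : 0 ≤ a := h0 0
  set D' : Set ℝ := {t | t ∈ D ∧ a * (1 - t / N) ≤ φ t} with hD'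
  have hbdd : BddAbove D' := ⟨L, fun t ht => (hD ht.1).2⟩
  have h0D' : (0 : ℝ) ∈ D' := ⟨h0D, by simp [ha]⟩
  refine ⟨sSup D', fun t ht => ?_⟩
  rcases lt_trichotomy t (sSup D') with hlt | heq | hgt
  · obtain ⟨τ, hτ, htτ⟩ := exists_lt_of_lt_csSup ⟨0, h0D'⟩ hlt
    have hτ0 : 0 < τ := ht.trans htτ
    have hs0 : 0 < t / τ := div_pos ht hτ0
    have hs1 : t / τ < 1 := (div_lt_one hτ0).2 htτ
    have h1 := hch τ hτ.1 (t / τ) hs0 hs1
    rw [div_mul_cancel₀ _ hτ0.ne'] at h1
    have h2 : a * (1 - t / N) ≤ φ t := by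
      have h3 : t / τ * (a * (1 - τ / N)) ≤ t / τ * φ τ :=
        mul_le_mul_of_nonneg_left hτ.2 hs0.le
      have h4 : (1 - t / τ) * a + t / τ * (a * (1 - τ / N)) = a * (1 - t / N) := by
        field_simp
        ring
      linarith
    have h5 : a * max (1 - t / N) 0 ≤ φ t := by
      rcases le_total (1 - t / N) 0 with h | h
      · rw [max_eq_right h, mul_zero]; exact h0 t
      · rw [max_eq_left h]; exact h2
    have h6 : lam m a N t ≤ φ t ^ m :=
      pow_le_pow_left₀ (mul_nonneg ha0 (le_max_right _ _)) h5 m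
    exact mul_nonneg_of_nonpos_of_nonpos (by linarith) (by linarith)
  · rw [heq]; simp
  · have h5 : φ t ≤ a * max (1 - t / N) 0 := by
      by_cases htD : t ∈ D
      · have h6 : ¬ (a * (1 - t / N) ≤ φ t) := by
          intro h
          exact absurd (le_csSup hbdd (show t ∈ D' from ⟨htD, h⟩)) (not_le.2 hgt)
        have h7 : a * (1 - t / N) ≤ a * max (1 - t / N) 0 :=
          mul_le_mul_of_nonneg_left (le_max_left _ _) ha0
        linarith [not_le.1 h6]
      · rw [hoff t htD]
        exact mul_nonneg ha0 (le_max_right _ _)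
    have h6 : φ t ^ m ≤ lam m a N t := pow_le_pow_left₀ (h0 t) h5 m
    exact mul_nonneg (by linarith) (by linarith)

/-- **One-dimensional inequality**: if `φ` is concave along chords from `0` then
`(m+2) φ(0)^m ∫ t φ^m ≤ (m+1) (∫ φ^m)^2`. -/
theorem crossing {m : ℕ} (hm : m ≠ 0) {φ : ℝ → ℝ} {D : Set ℝ} {L : ℝ} (hL : 0 < L)
    (h0 : ∀ t, 0 ≤ φ t) (hD : D ⊆ Icc 0 L) (h0D : (0 : ℝ) ∈ D) (hoff : ∀ t, t ∉ D → φ t = 0)
    (ha : 0 < φ 0)
    (hch : ∀ τ ∈ D, ∀ s : ℝ, 0 < s → s < 1 → (1 - s) * φ 0 + s * φ τ ≤ φ (s * τ))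
    (hint : IntervalIntegrable (fun t => φ t ^ m) volume 0 L) :
    ((m : ℝ) + 2) * φ 0 ^ m * ∫ t in (0 : ℝ)..L, t * φ t ^ m ≤
      (m + 1) * (∫ t in (0 : ℝ)..L, φ t ^ m) ^ 2 := by
  set A := ∫ t in (0 : ℝ)..L, φ t ^ m with hA
  have hψ0 : ∀ t, 0 ≤ φ t ^ m := fun t => pow_nonneg (h0 t) m
  have hA0 : 0 ≤ A := intervalIntegral.integral_nonneg hL.le fun t _ => hψ0 t
  have hint2 : IntervalIntegrable (fun t => t * φ t ^ m) volume 0 L :=
    hint.continuousOn_mul continuousOn_id
  rcases hA0.eq_or_lt with hAz | hApos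
  · have h1 : ∫ t in (0 : ℝ)..L, t * φ t ^ m ≤ ∫ t in (0 : ℝ)..L, L * φ t ^ m := by
      apply intervalIntegral.integral_mono_on hL.le hint2 (hint.const_mul L)
      intro t ht
      exact mul_le_mul_of_nonneg_right ht.2 (hψ0 t)
    rw [intervalIntegral.integral_const_mul, ← hA, ← hAz, mul_zero] at h1
    have h2 : 0 ≤ ((m : ℝ) + 2) * φ 0 ^ m := by positivity
    rw [← hAz]
    have h3 := mul_le_mul_of_nonneg_left h1 h2
    simpa using h3
  set a := φ 0 with haa
  have ham : 0 < a ^ m := pow_pos ha m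
  set N := (m + 1) * A / a ^ m with hNdef
  have hN : 0 < N := by positivity
  set L' := max L N with hL'
  have hLL' : L ≤ L' := le_max_left _ _
  have hz : ∀ t ∈ Ioc L L', φ t ^ m = 0 := by
    intro t ht
    have : t ∉ D := fun h => absurd (hD h).2 (not_le.2 ht.1)
    rw [hoff t this, zero_pow hm]
  have hint' : IntervalIntegrable (fun t => φ t ^ m) volume L L' := by
    rw [intervalIntegrable_iff_integrableOn_Ioc_of_le hLL']
    exact (integrableOn_zero (s := Ioc L L')).congr_fun (fun t ht => (hz t ht).symm)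
      measurableSet_Ioc
  have hintL : IntervalIntegrable (fun t => φ t ^ m) volume 0 L' := hint.trans hint'
  have hintL2 : IntervalIntegrable (fun t => t * φ t ^ m) volume 0 L' :=
    hintL.continuousOn_mul continuousOn_id
  have e1 : ∫ t in (0 : ℝ)..L', φ t ^ m = A := by
    rw [← intervalIntegral.integral_add_adjacent_intervals hint hint', ← hA]
    have : ∫ t in L..L', φ t ^ m = 0 := by
      rw [intervalIntegral.integral_of_le hLL',
        setIntegral_congr_fun measurableSet_Ioc (g := fun _ => (0 : ℝ)) hz]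
      simp
    rw [this, add_zero]
  have e2 : ∫ t in (0 : ℝ)..L', t * φ t ^ m = ∫ t in (0 : ℝ)..L, t * φ t ^ m := by
    rw [← intervalIntegral.integral_add_adjacent_intervals hint2
      (hint'.continuousOn_mul continuousOn_id)]
    have : ∫ t in L..L', t * φ t ^ m = 0 := by
      rw [intervalIntegral.integral_of_le hLL',
        setIntegral_congr_fun measurableSet_Ioc (g := fun _ => (0 : ℝ))
          (fun t ht => by simp [hz t ht])]
      simp
    exact (congrArg _ this).trans (add_zero _)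
  obtain ⟨t0, ht0⟩ := crossing_point (m := m) (N := N) h0 hD h0D hoff hch hN
  have hlc : Continuous (lam m a N) := continuous_lam m a N
  have i1 : IntervalIntegrable (lam m a N) volume 0 L' := hlc.intervalIntegrable _ _
  have i2 : IntervalIntegrable (fun t => t * lam m a N t) volume 0 L' :=
    (continuous_id.mul hlc).intervalIntegrable _ _
  have key : 0 ≤ ∫ t in (0 : ℝ)..L', (t - t0) * (lam m a N t - φ t ^ m) := by
    rw [intervalIntegral.integral_of_le (hL.le.trans hLL')]
    exact setIntegral_nonneg measurableSet_Ioc fun t ht => ht0 t ht.1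
  have e3 : ∫ t in (0 : ℝ)..L', (t - t0) * (lam m a N t - φ t ^ m) =
      (∫ t in (0 : ℝ)..L', t * lam m a N t) - (∫ t in (0 : ℝ)..L', t * φ t ^ m)
        - t0 * ((∫ t in (0 : ℝ)..L', lam m a N t) - ∫ t in (0 : ℝ)..L', φ t ^ m) := by
    rw [← intervalIntegral.integral_sub i2 hintL2, ← intervalIntegral.integral_sub i1 hintL,
      ← intervalIntegral.integral_const_mul,
      ← intervalIntegral.integral_sub (i2.sub hintL2) ((i1.sub hintL).const_mul t0)]
    apply intervalIntegral.integral_congr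
    intro t _
    simp only
    ring
  rw [e3, integral_mul_lam hm hN (le_max_right _ _), integral_lam hm hN (le_max_right _ _), e1,
    e2] at key
  have hm1 : (0 : ℝ) < m + 1 := by positivity
  have hm2 : (0 : ℝ) < m + 2 := by positivity
  have e4 : a ^ m * N / (m + 1) = A := by
    rw [hNdef]; field_simp
  rw [e4, sub_self, mul_zero, sub_zero, sub_nonneg] at key
  have e5 : a ^ m * N ^ 2 / ((m + 1) * (m + 2)) = (m + 1) * A ^ 2 / (a ^ m * (m + 2)) := by
    rw [hNdef]; field_simp
  rw [e5, le_div_iff₀ (by positivity)] at key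
  calc ((m : ℝ) + 2) * a ^ m * ∫ t in (0 : ℝ)..L, t * φ t ^ m
      = (∫ t in (0 : ℝ)..L, t * φ t ^ m) * (a ^ m * (m + 2)) := by ring
    _ ≤ _ := key

end Pool.Agent.BM
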